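import Pool.Statements.S00418

set_option autoImplicit false
open Pool Pool.MP_bb72f8_ag

namespace Pool.Agent.S00418

theorem coeff_dvd_of_mem_pow {R : Type*} [CommRing R] (A : R) (n : ℕ) :
    ∀ F : Polynomial R, F ∈ (Ideal.span {Polynomial.C A, (Polynomial.X : Polynomial R)}) ^ n →
      ∀ j : ℕ, A ^ (n - j) ∣ F.coeff j := by
  induction n with
  | zero => intro F _ j; simp
  | succ n ih =>
    intro F hF
    rw [pow_succ] at hF
    refine Submodule.mul_induction_on hF ?_ ?_
    · intro m hm g hg j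
      have hm' := ih m hm
      rw [Ideal.mem_span_pair] at hg
      obtain ⟨a, b, rfl⟩ := hg
      have key : m * (a * Polynomial.C A + b * Polynomial.X) =
          Polynomial.C A * (a * m) + (b * m) * Polynomial.X := by ring
      have hmul : ∀ r : Polynomial R, ∀ j, A ^ (n - j) ∣ (r * m).coeff j := by
        intro r j
        rw [Polynomial.coeff_mul]
        refine Finset.dvd_sum fun x hx => ?_
        have hx' := Finset.HasAntidiagonal.mem_antidiagonal.mp hx
        refine Dvd.dvd.mul_left ?_ _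
        exact (pow_dvd_pow A (by omega)).trans (hm' x.2)
      rw [key, Polynomial.coeff_add, Polynomial.coeff_C_mul]
      refine dvd_add ?_ ?_
      · have h1 : A ^ (n + 1 - j) ∣ A * A ^ (n - j) := by
          rw [← pow_succ']
          exact pow_dvd_pow A (by omega)
        exact h1.trans (mul_dvd_mul_left A (hmul a j))
      · cases j with
        | zero => simp
        | succ j =>
          rw [Polynomial.coeff_mul_X]
          have : n + 1 - (j + 1) = n - j := by omega
          rw [this]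
          exact hmul b j
    · intro x y hx hy j
      rw [Polynomial.coeff_add]
      exact dvd_add (hx j) (hy j)

/-- the total degree is at most `d` -/
def Pd (d : ℕ) (F : Polynomial (Polynomial ℂ)) : Prop :=
  ∀ i j : ℕ, d < i + j → (F.coeff j).coeff i = 0

theorem Pd_mul {d e : ℕ} {F G : Polynomial (Polynomial ℂ)} (hF : Pd d F) (hG : Pd e G) :
    Pd (d + e) (F * G) := by
  intro i j hij
  rw [Polynomial.coeff_mul, Polynomial.finsetSum_coeff]
  refine Finset.sum_eq_zero fun x hx => ?_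
  rw [Polynomial.coeff_mul]
  refine Finset.sum_eq_zero fun y hy => ?_
  have hx' := Finset.HasAntidiagonal.mem_antidiagonal.mp hx
  have hy' := Finset.HasAntidiagonal.mem_antidiagonal.mp hy
  by_cases h : d < y.1 + x.1
  · rw [hF _ _ h, zero_mul]
  · rw [hG _ _ (by omega), mul_zero]

theorem Pd_one : Pd 0 1 := by
  intro i j hij
  rw [Polynomial.coeff_one]
  split_ifs with h
  · rw [Polynomial.coeff_one, if_neg (by omega)]
  · simp

theorem Pd_pow {d : ℕ} {F : Polynomial (Polynomial ℂ)} (hF : Pd d F) (n : ℕ) :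
    Pd (n * d) (F ^ n) := by
  induction n with
  | zero => simpa using Pd_one
  | succ n ih =>
    rw [pow_succ, Nat.succ_mul]
    exact Pd_mul ih hF

noncomputable def phi (s c : ℂ) : MvPolynomial (Fin 2) ℂ →ₐ[ℂ] Polynomial (Polynomial ℂ) :=
  MvPolynomial.aeval ![Polynomial.C Polynomial.X,
    Polynomial.X + Polynomial.C (Polynomial.C s * Polynomial.X + Polynomial.C c)]

theorem Pd_phi (s c : ℂ) (f : MvPolynomial (Fin 2) ℂ) (d : ℕ) (hf : f.totalDegree ≤ d) :
    Pd d (phi s c f) := by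
  have h0 : Pd 1 (Polynomial.C (Polynomial.X : Polynomial ℂ)) := by
    intro i j hij
    rw [Polynomial.coeff_C]
    split_ifs with h
    · rw [Polynomial.coeff_X, if_neg (by omega)]
    · simp
  have h1 : Pd 1 (Polynomial.X + Polynomial.C (Polynomial.C s * Polynomial.X + Polynomial.C c)) := by
    intro i j hij
    rw [Polynomial.coeff_add, Polynomial.coeff_C, Polynomial.coeff_X]
    rcases Nat.lt_or_ge 1 j with h | h
    · rw [if_neg (by omega), if_neg (by omega)]; simp
    · interval_cases j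
      · simp only [Polynomial.coeff_add, Polynomial.coeff_C_mul, Polynomial.coeff_X, Polynomial.coeff_C, if_true]
        rw [if_neg (by omega), if_neg (by omega), if_neg (by omega)]; simp
      · rw [if_pos rfl, if_neg (by omega), Polynomial.coeff_add, Polynomial.coeff_one, if_neg (by omega)]
        simp
  intro i j hij
  rw [phi, MvPolynomial.aeval_def, MvPolynomial.eval₂_eq', Polynomial.finsetSum_coeff,
    Polynomial.finsetSum_coeff]
  refine Finset.sum_eq_zero fun m hm => ?_
  have hdeg : m 0 + m 1 ≤ d := by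
    have := MvPolynomial.le_totalDegree hm
    rw [Finsupp.sum_fintype _ _ (by simp)] at this
    simp only [Fin.sum_univ_two] at this
    omega
  rw [Fin.prod_univ_two]
  simp only [Matrix.cons_val_zero, Matrix.cons_val_one]
  have hA : Pd 0 ((algebraMap ℂ (Polynomial (Polynomial ℂ))) (MvPolynomial.coeff m f)) := by
    intro i j hij
    rw [Polynomial.algebraMap_apply, Polynomial.coeff_C]
    split_ifs with h
    · rw [Polynomial.algebraMap_apply, Polynomial.coeff_C, if_neg (by omega)]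
    · simp
  have := Pd_mul hA (Pd_mul (Pd_pow h0 (m 0)) (Pd_pow h1 (m 1)))
  exact this i j (by omega)


theorem phi_mem (s c p0 p1 : ℂ) (h : s * p0 + c = p1) (n : ℕ) (f : MvPolynomial (Fin 2) ℂ)
    (hf : f ∈ (Ideal.span {(MvPolynomial.X 0 : MvPolynomial (Fin 2) ℂ) - MvPolynomial.C p0,
                 (MvPolynomial.X 1 : MvPolynomial (Fin 2) ℂ) - MvPolynomial.C p1}) ^ n) :
    phi s c f ∈ (Ideal.span {Polynomial.C (Polynomial.X - Polynomial.C p0),
      (Polynomial.X : Polynomial (Polynomial ℂ))}) ^ n := by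
  have h1 : phi s c f ∈ Ideal.map (phi s c) ((Ideal.span {(MvPolynomial.X 0 : MvPolynomial (Fin 2) ℂ) - MvPolynomial.C p0,
                 (MvPolynomial.X 1 : MvPolynomial (Fin 2) ℂ) - MvPolynomial.C p1}) ^ n) :=
    Ideal.mem_map_of_mem _ hf
  rw [Ideal.map_pow, Ideal.map_span] at h1
  refine Ideal.pow_right_mono ?_ n h1
  rw [Ideal.span_le]
  rintro _ ⟨g, hg, rfl⟩
  simp only [Set.mem_insert_iff, Set.mem_singleton_iff] at hg
  rcases hg with rfl | rfl
  · refine Ideal.subset_span ?_
    left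
    simp [phi]
  · rw [SetLike.mem_coe, Ideal.mem_span_pair]
    refine ⟨Polynomial.C (Polynomial.C s), 1, ?_⟩
    subst h
    simp [phi]
    ring

theorem evalEval_phi (s c x y : ℂ) (f : MvPolynomial (Fin 2) ℂ) :
    Polynomial.evalEval x y (phi s c f) = MvPolynomial.eval ![x, y + (s * x + c)] f := by
  have : ((Polynomial.evalEvalRingHom x y).comp (phi s c).toRingHom) =
      MvPolynomial.eval ![x, y + (s * x + c)] := by
    apply MvPolynomial.ringHom_ext
    · intro r
      have : (algebraMap ℂ (Polynomial (Polynomial ℂ))) r = Polynomial.C (Polynomial.C r) := rfl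
      simp [phi, this]
    · intro i
      fin_cases i
      · simp [phi]
      · simp [phi]
  exact congrArg (fun g : MvPolynomial (Fin 2) ℂ →+* ℂ => g f) this

/-- shape of a quartic with two triple points -/
theorem shape (f : MvPolynomial (Fin 2) ℂ) (hf : f.totalDegree ≤ 4) (a0 a1 b0 b1 : ℂ) (hab : b0 - a0 ≠ 0)
    (ha : f ∈ (Ideal.span {(MvPolynomial.X 0 : MvPolynomial (Fin 2) ℂ) - MvPolynomial.C a0,
                 (MvPolynomial.X 1 : MvPolynomial (Fin 2) ℂ) - MvPolynomial.C a1}) ^ 3)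
    (hb : f ∈ (Ideal.span {(MvPolynomial.X 0 : MvPolynomial (Fin 2) ℂ) - MvPolynomial.C b0,
                 (MvPolynomial.X 1 : MvPolynomial (Fin 2) ℂ) - MvPolynomial.C b1}) ^ 3) :
    ∃ k u v w : ℂ, ∀ x y : ℂ, MvPolynomial.eval ![x, y] f =
      ((b0 - a0) * (y - a1) - (b1 - a1) * (x - a0)) ^ 2 *
       (k * ((x - a0) * (x - b0)) + u * ((b0 - a0) * (y - a1) - (b1 - a1) * (x - a0))
        + v * (x * ((b0 - a0) * (y - a1) - (b1 - a1) * (x - a0)))
        + w * ((b0 - a0) * (y - a1) - (b1 - a1) * (x - a0)) ^ 2) := by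
  obtain ⟨s, hs⟩ : ∃ s, s = (b1 - a1) / (b0 - a0) := ⟨_, rfl⟩
  obtain ⟨c, hc⟩ : ∃ c, c = a1 - s * a0 := ⟨_, rfl⟩
  have hsa : s * a0 + c = a1 := by rw [hc]; ring
  have hsb : s * b0 + c = b1 := by
    rw [hc, hs]; field_simp; ring
  have hFa := coeff_dvd_of_mem_pow _ 3 _ (phi_mem s c a0 a1 hsa 3 f ha)
  have hFb := coeff_dvd_of_mem_pow _ 3 _ (phi_mem s c b0 b1 hsb 3 f hb)
  have hP := Pd_phi s c f 4 hf
  have hE : ∀ x y : ℂ, MvPolynomial.eval ![x, y] f = Polynomial.evalEval x (y - (s * x + c)) (phi s c f) := by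
    intro x y
    rw [evalEval_phi]; simp
  generalize phi s c f = F at hFa hFb hP hE
  have hcop : IsCoprime (Polynomial.X - Polynomial.C a0 : Polynomial ℂ) (Polynomial.X - Polynomial.C b0) :=
    Polynomial.isCoprime_X_sub_C_of_isUnit_sub (by
      rw [isUnit_iff_ne_zero]; intro h; apply hab; linear_combination -h)
  have hnat : ∀ j, j ≤ 4 → (F.coeff j).natDegree ≤ 4 - j := by
    intro j hj
    rw [Polynomial.natDegree_le_iff_coeff_eq_zero]
    intro N hN
    exact hP N j (by omega)
  have hmon : ∀ n, (Polynomial.X - Polynomial.C a0 : Polynomial ℂ) ^ n * (Polynomial.X - Polynomial.C b0) ^ n ∣ F.coeff (3 - n) ∨ 3 < n := by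
    intro n
    by_cases hn : 3 < n
    · right; exact hn
    · left
      have e : 3 - (3 - n) = n := by omega
      refine (hcop.pow).mul_dvd ?_ ?_
      · have := hFa (3 - n); rwa [e] at this
      · have := hFb (3 - n); rwa [e] at this
  have hdegprod : ∀ n, ((Polynomial.X - Polynomial.C a0 : Polynomial ℂ) ^ n * (Polynomial.X - Polynomial.C b0) ^ n).natDegree = n + n := by
    intro n
    rw [Polynomial.Monic.natDegree_mul ((Polynomial.monic_X_sub_C a0).pow n) ((Polynomial.monic_X_sub_C b0).pow n)]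
    simp
  have h0 : F.coeff 0 = 0 := by
    have h := (hmon 3).resolve_right (by omega)
    refine Polynomial.eq_zero_of_dvd_of_natDegree_lt h ?_
    rw [hdegprod]
    have := hnat 0 (by omega)
    omega
  have h1 : F.coeff 1 = 0 := by
    have h := (hmon 2).resolve_right (by omega)
    refine Polynomial.eq_zero_of_dvd_of_natDegree_lt h ?_
    rw [hdegprod]
    have := hnat 1 (by omega)
    omega
  obtain ⟨q, hq⟩ := (hmon 1).resolve_right (by omega)
  simp only [pow_one, Nat.reduceSub] at hq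
  have hq0 : q.natDegree ≤ 0 := by
    by_cases hq0 : q = 0
    · simp [hq0]
    have hm : (((Polynomial.X - Polynomial.C a0 : Polynomial ℂ) * (Polynomial.X - Polynomial.C b0)) * q).natDegree = 2 + q.natDegree := by
      rw [Polynomial.Monic.natDegree_mul' ((Polynomial.monic_X_sub_C a0).mul (Polynomial.monic_X_sub_C b0)) hq0]
      have := hdegprod 1
      simp only [pow_one] at this
      rw [this]
    have h2 := hnat 2 (by omega)
    rw [hq, hm] at h2
    omega
  obtain ⟨k, hk⟩ : ∃ k : ℂ, q = Polynomial.C k := ⟨_, Polynomial.eq_C_of_natDegree_le_zero hq0⟩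
  obtain ⟨v, u, huv⟩ := Polynomial.exists_eq_X_add_C_of_natDegree_le_one (p := F.coeff 3) (by simpa using hnat 3 (by omega))
  obtain ⟨w, hw⟩ : ∃ w : ℂ, F.coeff 4 = Polynomial.C w := ⟨_, Polynomial.eq_C_of_natDegree_le_zero (by simpa using hnat 4 (by omega))⟩
  have hFdeg : F.natDegree < 5 := by
    have : F.natDegree ≤ 4 := by
      rw [Polynomial.natDegree_le_iff_coeff_eq_zero]
      intro N hN
      ext i
      rw [hP i N (by omega)]; simp
    omega
  refine ⟨k / (b0 - a0) ^ 2, u / (b0 - a0) ^ 3, v / (b0 - a0) ^ 3, w / (b0 - a0) ^ 4, ?_⟩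
  intro x y
  rw [hE, Polynomial.evalEval, Polynomial.eval_eq_sum_range' hFdeg]
  simp only [Finset.sum_range_succ, Finset.sum_range_zero, h0, h1, hq, hk, huv, hw]
  simp only [Polynomial.eval_add, Polynomial.eval_mul, Polynomial.eval_pow, Polynomial.eval_C, Polynomial.eval_X,
    Polynomial.eval_sub, Polynomial.eval_zero]
  have hy : (b0 - a0) * (y - a1) - (b1 - a1) * (x - a0) = (b0 - a0) * (y - (s * x + c)) := by
    have : b1 - a1 = s * (b0 - a0) := by rw [hs]; field_simp
    rw [this, hc]; ring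
  rw [hy]
  generalize y - (s * x + c) = z
  have h3 : b0 - a0 ≠ 0 := hab
  generalize hD : b0 - a0 = D at h3
  field_simp
  ring


/-- line through the last two points, evaluated at the point `i` -/
def eLine {R : Type*} [CommRing R] (P : Fin 6 → Fin 2 → R) (i : Fin 6) : R :=
  (P 5 0 - P 4 0) * (P i 1 - P 4 1) - (P 5 1 - P 4 1) * (P i 0 - P 4 0)

def Mat {R : Type*} [CommRing R] (P : Fin 6 → Fin 2 → R) : Matrix (Fin 4) (Fin 4) R :=
  Matrix.of fun i j => (![(P (i.castLE (by norm_num)) 0 - P 4 0) * (P (i.castLE (by norm_num)) 0 - P 5 0),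
    eLine P (i.castLE (by norm_num)), P (i.castLE (by norm_num)) 0 * eLine P (i.castLE (by norm_num)),
    eLine P (i.castLE (by norm_num)) ^ 2] : Fin 4 → R) j

def hgen {R : Type*} [CommRing R] (P : Fin 6 → Fin 2 → R) : R :=
  (P 5 0 - P 4 0) * (∏ i : Fin 4, eLine P (i.castLE (by norm_num))) * (Mat P).det

theorem map_eLine {R S : Type*} [CommRing R] [CommRing S] (φ : R →+* S) (P : Fin 6 → Fin 2 → R) (i : Fin 6) :
    φ (eLine P i) = eLine (fun i j => φ (P i j)) i := by
  simp [eLine]

theorem map_Mat {R S : Type*} [CommRing R] [CommRing S] (φ : R →+* S) (P : Fin 6 → Fin 2 → R) :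
    φ.mapMatrix (Mat P) = Mat (fun i j => φ (P i j)) := by
  ext i j
  simp only [RingHom.mapMatrix_apply, Matrix.map_apply, Mat, Matrix.of_apply]
  fin_cases j <;> simp [map_eLine]

theorem map_hgen {R S : Type*} [CommRing R] [CommRing S] (φ : R →+* S) (P : Fin 6 → Fin 2 → R) :
    φ (hgen P) = hgen (fun i j => φ (P i j)) := by
  rw [hgen, hgen, map_mul, map_mul, map_prod, RingHom.map_det, map_sub, map_Mat]
  simp only [map_eLine]

noncomputable def p0 : Fin 6 → Fin 2 → ℂ :=
  ![![0, 1], ![1, 1], ![0, 2], ![2, 1], ![0, 0], ![1, 0]]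

theorem hgen_p0 : hgen p0 ≠ 0 := by
  simp only [hgen, Matrix.det_succ_row_zero, Mat, eLine, p0, Fin.sum_univ_succ, Fin.prod_univ_succ]
  simp [Fin.castLE, Matrix.submatrix, Fin.succAbove]
  norm_num

/-- a quartic with triple points at the last two points and passing through the first four vanishes -/
theorem no_quartic (p : Fin 6 → Fin 2 → ℂ) (hp : hgen p ≠ 0) (f : MvPolynomial (Fin 2) ℂ)
    (hf : f.totalDegree ≤ 4)
    (h : ∀ i : Fin 6, f ∈ (Ideal.span
                {(MvPolynomial.X 0 : MvPolynomial (Fin 2) ℂ) - MvPolynomial.C (p i 0),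
                 (MvPolynomial.X 1 : MvPolynomial (Fin 2) ℂ) - MvPolynomial.C (p i 1)}) ^
                   ((![1, 1, 1, 1, 3, 3] : Fin 6 → ℕ) i)) : f = 0 := by
  rw [hgen] at hp
  have hdet : (Mat p).det ≠ 0 := right_ne_zero_of_mul hp
  have hprod : ∏ i : Fin 4, eLine p (i.castLE (by norm_num)) ≠ 0 :=
    right_ne_zero_of_mul (left_ne_zero_of_mul hp)
  have hab : p 5 0 - p 4 0 ≠ 0 := left_ne_zero_of_mul (left_ne_zero_of_mul hp)
  have he : ∀ i : Fin 4, eLine p (i.castLE (by norm_num)) ≠ 0 := fun i =>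
    Finset.prod_ne_zero_iff.mp hprod i (Finset.mem_univ i)
  obtain ⟨k, u, v, w, hs⟩ := shape f hf (p 4 0) (p 4 1) (p 5 0) (p 5 1) hab (h 4) (h 5)
  have hz : ∀ i : Fin 4, MvPolynomial.eval ![p (i.castLE (by norm_num)) 0, p (i.castLE (by norm_num)) 1] f = 0 := by
    intro i
    have hi := h (i.castLE (by norm_num))
    have h1 : (![1, 1, 1, 1, 3, 3] : Fin 6 → ℕ) (i.castLE (by norm_num)) = 1 := by
      fin_cases i <;> rfl
    rw [h1, pow_one, Ideal.mem_span_pair] at hi
    obtain ⟨a, b, hab⟩ := hi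
    rw [← hab]
    simp
  have hv : Matrix.mulVec (Mat p) ![k, u, v, w] = 0 := by
    ext i
    have h2 := hz i
    rw [hs] at h2
    have h3 := he i
    change (p 5 0 - p 4 0) * (p (i.castLE (by norm_num)) 1 - p 4 1) - (p 5 1 - p 4 1) *
      (p (i.castLE (by norm_num)) 0 - p 4 0) ≠ 0 at h3
    have h4 := (mul_eq_zero.mp h2).resolve_left (pow_ne_zero 2 h3)
    simp only [Matrix.mulVec, dotProduct, Mat, Matrix.of_apply, Fin.sum_univ_four]
    simp only [eLine, Matrix.cons_val, Pi.zero_apply]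
    linear_combination h4
  have hv0 := Matrix.eq_zero_of_mulVec_eq_zero hdet hv
  have hk : k = 0 := congrFun hv0 0
  have hu : u = 0 := congrFun hv0 1
  have hvv : v = 0 := congrFun hv0 2
  have hw : w = 0 := congrFun hv0 3
  apply MvPolynomial.funext
  intro x
  have hx : x = ![x 0, x 1] := by
    ext i; fin_cases i <;> rfl
  rw [hx, hs, hk, hu, hvv, hw]
  simp

theorem exists_good (G : MvPolynomial (Fin 6 × Fin 2) ℂ) (hG : G ≠ 0) :
    ∃ p : Fin 6 → Fin 2 → ℂ,
      MvPolynomial.eval (fun ij : Fin 6 × Fin 2 => p ij.1 ij.2) G ≠ 0 ∧ hgen p ≠ 0 := by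
  set H : MvPolynomial (Fin 6 × Fin 2) ℂ := hgen (fun i j => MvPolynomial.X (i, j)) with hH
  have hev : ∀ p : Fin 6 → Fin 2 → ℂ,
      MvPolynomial.eval (fun ij : Fin 6 × Fin 2 => p ij.1 ij.2) H = hgen p := by
    intro p
    rw [hH, map_hgen]
    simp
  have hH0 : H ≠ 0 := by
    intro h0
    apply hgen_p0
    rw [← hev p0, h0, map_zero]
  have hGH : G * H ≠ 0 := mul_ne_zero hG hH0
  by_contra hcon
  push Not at hcon
  apply hGH
  apply MvPolynomial.funext
  intro x
  rw [map_mul, map_zero]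
  by_cases hx : MvPolynomial.eval x G = 0
  · rw [hx, zero_mul]
  · have := hcon (fun i j => x (i, j)) hx
    have h2 := hev (fun i j => x (i, j))
    rw [this] at h2
    change MvPolynomial.eval x H = 0 at h2
    rw [h2, mul_zero]

theorem lhs_false : ¬ (∃ G : MvPolynomial (Fin 6 × Fin 2) ℂ, G ≠ 0 ∧
        ∀ p : Fin 6 → Fin 2 → ℂ,
          MvPolynomial.eval (fun ij : Fin 6 × Fin 2 => p ij.1 ij.2) G ≠ 0 →
          ∃ f : MvPolynomial (Fin 2) ℂ, f ≠ 0 ∧ f.totalDegree ≤ 4 ∧
            ∀ i : Fin 6,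
              f ∈ (Ideal.span
                {(MvPolynomial.X 0 : MvPolynomial (Fin 2) ℂ) - MvPolynomial.C (p i 0),
                 (MvPolynomial.X 1 : MvPolynomial (Fin 2) ℂ) - MvPolynomial.C (p i 1)}) ^
                   ((![1, 1, 1, 1, 3, 3] : Fin 6 → ℕ) i)) := by
  rintro ⟨G, hG, h⟩
  obtain ⟨p, hp1, hp2⟩ := exists_good G hG
  obtain ⟨f, hf0, hfd, hf⟩ := h p hp1
  exact hf0 (no_quartic p hp2 f hfd hf)

/-- the linear form through the points `P` and `Q` -/
noncomputable def lin (n0 n1 c0 c1 : ℂ) : MvPolynomial (Fin 2) ℂ :=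
  MvPolynomial.C n1 * (MvPolynomial.X 0 - MvPolynomial.C c0) -
    MvPolynomial.C n0 * (MvPolynomial.X 1 - MvPolynomial.C c1)

theorem lin_mem (n0 n1 c0 c1 t q0 q1 : ℂ) (h0 : q0 = c0 + t * n0) (h1 : q1 = c1 + t * n1) :
    lin n0 n1 c0 c1 ∈ Ideal.span
      {(MvPolynomial.X 0 : MvPolynomial (Fin 2) ℂ) - MvPolynomial.C q0,
       (MvPolynomial.X 1 : MvPolynomial (Fin 2) ℂ) - MvPolynomial.C q1} := by
  rw [Ideal.mem_span_pair]
  refine ⟨MvPolynomial.C n1, - MvPolynomial.C n0, ?_⟩
  subst h0 h1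
  simp only [lin, map_add, map_mul]
  ring

theorem lin_ne_zero (n0 n1 c0 c1 : ℂ) (h : n0 ≠ 0) : lin n0 n1 c0 c1 ≠ 0 := by
  intro h0
  have := congrArg (MvPolynomial.eval ![c0, c1 + 1]) h0
  simp [lin] at this
  exact h this

theorem lin_totalDegree (n0 n1 c0 c1 : ℂ) : (lin n0 n1 c0 c1).totalDegree ≤ 1 := by
  have key : ∀ (c : ℂ) (i : Fin 2),
      ((MvPolynomial.X i : MvPolynomial (Fin 2) ℂ) - MvPolynomial.C c).totalDegree ≤ 1 := by
    intro c i
    refine (MvPolynomial.totalDegree_sub _ _).trans ?_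
    simp
  have key2 : ∀ (a c : ℂ) (i : Fin 2),
      (MvPolynomial.C a * ((MvPolynomial.X i : MvPolynomial (Fin 2) ℂ) - MvPolynomial.C c)).totalDegree ≤ 1 := by
    intro a c i
    refine (MvPolynomial.totalDegree_mul _ _).trans ?_
    simpa using key c i
  refine (MvPolynomial.totalDegree_sub _ _).trans ?_
  exact max_le (key2 _ _ _) (key2 _ _ _)

theorem rhs_true : (∃ G : MvPolynomial (Fin (6 + 2) × Fin 2) ℂ, G ≠ 0 ∧
        ∀ w : Fin (6 + 2) → Fin 2 → ℂ,
          MvPolynomial.eval (fun ij : Fin (6 + 2) × Fin 2 => w ij.1 ij.2) G ≠ 0 →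
          ∃ f : MvPolynomial (Fin 2) ℂ, f ≠ 0 ∧ f.totalDegree ≤ 4 ∧
            ∀ i : Fin 6,
              f ∈ (Ideal.span
                {(MvPolynomial.X 0 : MvPolynomial (Fin 2) ℂ) - MvPolynomial.C
                    (if i.val < 4 then
                      w (Fin.castSucc (Fin.last 6)) 0
                        + w (Fin.castSucc (Fin.castSucc i)) 0 * w (Fin.last (6 + 1)) 0
                     else w (Fin.castSucc (Fin.castSucc i)) 0),
                 (MvPolynomial.X 1 : MvPolynomial (Fin 2) ℂ) - MvPolynomial.C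
                    (if i.val < 4 then
                      w (Fin.castSucc (Fin.last 6)) 1
                        + w (Fin.castSucc (Fin.castSucc i)) 0 * w (Fin.last (6 + 1)) 1
                     else w (Fin.castSucc (Fin.castSucc i)) 1)}) ^
                       ((![1, 1, 1, 1, 3, 3] : Fin 6 → ℕ) i)) := by
  refine ⟨MvPolynomial.X (Fin.last 7, 0) *
    (MvPolynomial.X (Fin.castSucc (Fin.castSucc (5 : Fin 6)), 0) -
      MvPolynomial.X (Fin.castSucc (Fin.castSucc (4 : Fin 6)), 0)), ?_, ?_⟩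
  · intro h0
    have := congrArg (MvPolynomial.eval (fun ij : Fin (6 + 2) × Fin 2 => ((ij.1 : ℕ) : ℂ))) h0
    simp at this
    norm_num at this
  · intro w hw
    rw [map_mul, map_sub, MvPolynomial.eval_X, MvPolynomial.eval_X, MvPolynomial.eval_X] at hw
    have hv : w (Fin.last (6 + 1)) 0 ≠ 0 := left_ne_zero_of_mul hw
    have hd : w (Fin.castSucc (Fin.castSucc (5 : Fin 6))) 0 -
      w (Fin.castSucc (Fin.castSucc (4 : Fin 6))) 0 ≠ 0 := right_ne_zero_of_mul hw
    obtain ⟨L, hL⟩ : ∃ L, L = lin (w (Fin.last (6 + 1)) 0) (w (Fin.last (6 + 1)) 1)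
      (w (Fin.castSucc (Fin.last 6)) 0) (w (Fin.castSucc (Fin.last 6)) 1) := ⟨_, rfl⟩
    obtain ⟨E, hE⟩ : ∃ E, E = lin (w (Fin.castSucc (Fin.castSucc (5 : Fin 6))) 0 -
        w (Fin.castSucc (Fin.castSucc (4 : Fin 6))) 0)
      (w (Fin.castSucc (Fin.castSucc (5 : Fin 6))) 1 -
        w (Fin.castSucc (Fin.castSucc (4 : Fin 6))) 1)
      (w (Fin.castSucc (Fin.castSucc (4 : Fin 6))) 0)
      (w (Fin.castSucc (Fin.castSucc (4 : Fin 6))) 1) := ⟨_, rfl⟩
    refine ⟨L * E ^ 3, ?_, ?_, ?_⟩
    · rw [hL, hE]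
      exact mul_ne_zero (lin_ne_zero _ _ _ _ hv) (pow_ne_zero 3 (lin_ne_zero _ _ _ _ hd))
    · have h1 : L.totalDegree ≤ 1 := hL ▸ lin_totalDegree _ _ _ _
      have h2 : E.totalDegree ≤ 1 := hE ▸ lin_totalDegree _ _ _ _
      have h3 := MvPolynomial.totalDegree_pow E 3
      have h4 := MvPolynomial.totalDegree_mul L (E ^ 3)
      omega
    · intro i
      by_cases hi : i.val < 4
      · have h1 : (![1, 1, 1, 1, 3, 3] : Fin 6 → ℕ) i = 1 := by
          fin_cases i <;> simp_all
        rw [h1, pow_one, if_pos hi, if_pos hi]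
        refine Ideal.mul_mem_right _ _ ?_
        rw [hL]
        exact lin_mem _ _ _ _ (w (Fin.castSucc (Fin.castSucc i)) 0) _ _ rfl rfl
      · have h1 : (![1, 1, 1, 1, 3, 3] : Fin 6 → ℕ) i = 3 := by
          fin_cases i <;> simp_all
        rw [h1, if_neg hi, if_neg hi]
        refine Ideal.mul_mem_left _ _ (Ideal.pow_mem_pow ?_ 3)
        rw [hE]
        have h45 : i = 4 ∨ i = 5 := by
          fin_cases i <;> simp_all
        rcases h45 with rfl | rfl
        · exact lin_mem _ _ _ _ 0 _ _ (by ring) (by ring)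
        · exact lin_mem _ _ _ _ 1 _ _ (by ring) (by ring)

/-- The negation of the preceding statement: Over ℂ, if d ≥ m₁+…+m_r, a nonzero plane curve of degree ≤ d with multiplicity ≥ mᵢ at n general points exists iff one exists when the first r points are general points on a general line and the others are general. -/
theorem result :
    ¬ (∀ (n r d : ℕ) (m : Fin n → ℕ), r ≤ n →
    (∑ i ∈ Finset.univ.filter (fun i : Fin n => i.val < r), m i) ≤ d →
    ((∃ G : MvPolynomial (Fin n × Fin 2) ℂ, G ≠ 0 ∧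
        ∀ p : Fin n → Fin 2 → ℂ,
          MvPolynomial.eval (fun ij : Fin n × Fin 2 => p ij.1 ij.2) G ≠ 0 →
          ∃ f : MvPolynomial (Fin 2) ℂ, f ≠ 0 ∧ f.totalDegree ≤ d ∧
            ∀ i : Fin n,
              f ∈ (Ideal.span
                {(MvPolynomial.X 0 : MvPolynomial (Fin 2) ℂ) - MvPolynomial.C (p i 0),
                 (MvPolynomial.X 1 : MvPolynomial (Fin 2) ℂ) - MvPolynomial.C (p i 1)}) ^ (m i))
      ↔
     (∃ G : MvPolynomial (Fin (n + 2) × Fin 2) ℂ, G ≠ 0 ∧
        ∀ w : Fin (n + 2) → Fin 2 → ℂ,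
          MvPolynomial.eval (fun ij : Fin (n + 2) × Fin 2 => w ij.1 ij.2) G ≠ 0 →
          ∃ f : MvPolynomial (Fin 2) ℂ, f ≠ 0 ∧ f.totalDegree ≤ d ∧
            ∀ i : Fin n,
              f ∈ (Ideal.span
                {(MvPolynomial.X 0 : MvPolynomial (Fin 2) ℂ) - MvPolynomial.C
                    (if i.val < r then
                      w (Fin.castSucc (Fin.last n)) 0
                        + w (Fin.castSucc (Fin.castSucc i)) 0 * w (Fin.last (n + 1)) 0
                     else w (Fin.castSucc (Fin.castSucc i)) 0),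
                 (MvPolynomial.X 1 : MvPolynomial (Fin 2) ℂ) - MvPolynomial.C
                    (if i.val < r then
                      w (Fin.castSucc (Fin.last n)) 1
                        + w (Fin.castSucc (Fin.castSucc i)) 0 * w (Fin.last (n + 1)) 1
                     else w (Fin.castSucc (Fin.castSucc i)) 1)}) ^ (m i)))) := by
  intro h
  have h1 := h 6 4 4 ![1, 1, 1, 1, 3, 3] (by norm_num) (by decide)
  exact lhs_false (h1.mpr rhs_true)

end Pool.Agent.S00418
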