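import Pool.Statements.S00648
import Pool.Agent.Lib.MP_06935a_al.Final

set_option autoImplicit false
open Pool Pool.MP_06935a_al

namespace Pool.Agent.S00648

/-- The negation of the preceding statement: In any periodic group with no elements of order p, every fixed-point-free automorphism α of prime order p satisfies x·α(x)·α²(x)···α^{p−1}(x) = 1 for all x, i.e. α is splitting. -/
theorem result :
    ¬ (∀ (G : Type) [Group G], (∀ g : G, IsOfFinOrder g) →
      ∀ (p : ℕ), p.Prime →
        ∀ (α : MulAut G), orderOf α = p →
          (∀ g : G, α g = g → g = 1) →
          (∀ g : G, g ^ p = 1 → g = 1) →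
          ∀ x : G, ((List.range p).map (fun i => (α ^ i) x)).prod = 1) := by
  exact Pool.Agent.Lib.MP_06935a_al.main

end Pool.Agent.S00648
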