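import Pool.Statements.S00713
import Pool.Agent.Lib.MP_0d46c2_al.Final

set_option autoImplicit false
open Pool Pool.MP_0d46c2_al

namespace Pool.Agent.S00713

/-- For every Coxeter group with finitely many generators and positive weight L, each structure constant of T_x T_y in the Hecke algebra has q-degree at most the max of L over finite standard parabolic subgroups. -/
theorem result :
  ∀ (B : Type) [Fintype B] (M : CoxeterMatrix B) (W : Type) [Group W]
    (cs : CoxeterSystem M W) (L : W → ℕ) (f : W → W → W → LaurentPolynomial ℤ),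
    (∀ w w' : W, cs.length (w * w') = cs.length w + cs.length w' →
        L (w * w') = L w + L w') →
    (∀ i : B, 0 < L (cs.simple i)) →
    (∀ y : W, f 1 y y = 1) →
    (∀ y z : W, y ≠ z → f 1 y z = 0) →
    (∀ (i : B) (x y w : W), cs.length x < cs.length (cs.simple i * x) →
        cs.length w < cs.length (cs.simple i * w) →
        f (cs.simple i * x) y w = f x y (cs.simple i * w)) →
    (∀ (i : B) (x y w : W), cs.length x < cs.length (cs.simple i * x) →
        cs.length (cs.simple i * w) < cs.length w →
        f (cs.simple i * x) y w = f x y (cs.simple i * w) +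
          (LaurentPolynomial.T ((L (cs.simple i) : ℕ) : ℤ) -
            LaurentPolynomial.T (-((L (cs.simple i) : ℕ) : ℤ))) * f x y w) →
    ∀ x y z : W, ∃ I : Set B,
      ((Subgroup.closure (cs.simple '' I) : Subgroup W) : Set W).Finite ∧
      ∃ w ∈ Subgroup.closure (cs.simple '' I),
        LaurentPolynomial.degree (f x y z) ≤ (((L w : ℕ) : ℤ) : WithBot ℤ) := by
  classical
  intro B _ M W _ cs L f hL hpos h1 h2 h3 h4 x y z
  obtain ⟨I, u, k1, k2, k3⟩ :=
    CoxBound.exact_main cs (L := L) ⟨hL, hpos⟩ (f := f) ⟨h1, h2, h3, h4⟩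
  exact ⟨I, k1, u, k2, k3 x y z⟩

end Pool.Agent.S00713
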