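import Pool.Statements.S00897
import Pool.Agent.Lib.MP_1fb0bc_al.Main
import Pool.Agent.Lib.MP_1fb0bc_al.Kill
import Pool.Agent.Lib.MP_1fb0bc_al.Rep
import Pool.Agent.Lib.MP_1fb0bc_al.KThm
import Pool.Agent.Lib.MP_1fb0bc_al.Growth
import Pool.Agent.Lib.MP_1fb0bc_al.Elem

set_option autoImplicit false
open Pool Pool.MP_1fb0bc_al

namespace Pool.Agent.S00897

/-- There exist a field K and an infinite-dimensional, finitely generated, nil, non-unital K-algebra R of polynomial growth whose adjoint group (elements 1+r in the unitization under multiplication) is finitely generated. -/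
theorem result :
    ∃ (K : Type) (_ : Field K) (R : Type) (_ : NonUnitalRing R) (_ : Module K R)
      (_ : IsScalarTower K R R) (_ : SMulCommClass K R R),
      (∀ x : R, IsNilpotent (Unitization.inr x : Unitization K R)) ∧
      ¬ FiniteDimensional K R ∧
      ∃ S : Finset R,
        NonUnitalAlgebra.adjoin K (S : Set R) = ⊤ ∧
        (∃ C d : ℕ, ∀ n : ℕ,
          Module.finrank K
            ↥((Submodule.span K
                (insert (1 : Unitization K R)
                  ((fun s : R => (Unitization.inr s : Unitization K R)) '' (S : Set R)))) ^ n)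
            ≤ C * n ^ d + C) ∧
        ∃ T : Finset R, ∀ r : R,
          ∃ u ∈ Subgroup.closure
              {v : (Unitization K R)ˣ |
                ∃ t ∈ T, (v : Unitization K R) = 1 + (Unitization.inr t : Unitization K R)},
            (u : Unitization K R) = 1 + (Unitization.inr r : Unitization K R) := by
  classical
  obtain ⟨L, hL⟩ := NilAdj.exists_levelData
  obtain ⟨B, _, _, H, hind⟩ := NilAdj.exists_rep L NilAdj.dd_pos
  have hnil : ∀ (ι : Type) [Fintype ι] [DecidableEq ι] (A : Matrix ι ι B),
      A ∈ NilAdj.matSet (H.J : Set B) ι → IsNilpotent A :=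
    fun ι _ _ A hA => NilAdj.nil_matrix H hL ι A hA
  have hYJ : ((H.X 0 false : Set B) ∪ (H.X 0 true : Set B)) ⊆ H.J := by
    rintro x (hx | hx)
    · exact NilAdj.X_le_J H 0 false hx
    · exact NilAdj.X_le_J H 0 true hx
  refine NilAdj.assembly H.J H.gens ((H.X 0 false : Set B) ∪ (H.X 0 true : Set B))
    (Set.finite_range _) ?_ hYJ rfl
    (NilAdj.triAlg_nil H.J fun A hA => hnil (Fin 3) A hA) ?_ ?_ ?_
  · -- the spaces of letters are finite
    have hf : ∀ h, (H.X 0 h : Set B).Finite := by
      intro h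
      have : Module.Finite NilAdj.F ↥(H.X 0 h) :=
        Module.Finite.span_of_finite _ (Set.finite_range _)
      have : Finite ↥(H.X 0 h) := Module.finite_of_finite NilAdj.F
      exact Set.toFinite _
    exact (hf false).union (hf true)
  · -- `J` is infinite-dimensional
    intro hfin
    have h1 : LinearIndependent NilAdj.F
        (fun k : ℕ => (⟨H.T k true true ⟨0, NilAdj.dd_pos k⟩, NilAdj.T_mem_J H k _ _ _⟩ : H.J)) := by
      refine LinearIndependent.of_comp (NonUnitalSubalgebra.toSubmodule H.J).subtype ?_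
      exact hind
    exact not_finite_iff_infinite.2 inferInstance
      (h1.finite : Finite ℕ)
  · -- growth
    obtain ⟨C, c, hC⟩ := NilAdj.dd_prod_bound
    refine ⟨C * 4 ^ c, c, fun n => ?_⟩
    have hlt : n < 2 ^ Nat.clog 2 (n + 1) := by
      have := Nat.le_pow_clog (b := 2) one_lt_two (n + 1)
      omega
    obtain ⟨h1, h2⟩ := NilAdj.finrank_U_pow H (Nat.clog 2 (n + 1)) n hlt
    refine ⟨h1, h2.trans ((hC _).trans ?_)⟩
    have h3 : 2 ^ Nat.clog 2 (n + 1) ≤ 2 * n + 1 := by
      rcases Nat.eq_zero_or_pos n with rfl | hn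
      · simp
      · have := Nat.pow_pred_clog_lt_self (b := 2) one_lt_two (x := n + 1) (by omega)
        have h4 : 0 < Nat.clog 2 (n + 1) := Nat.clog_pos one_lt_two (by omega)
        have h5 : 2 ^ Nat.clog 2 (n + 1) = 2 * 2 ^ (Nat.clog 2 (n + 1)).pred := by
          conv_lhs => rw [← Nat.succ_pred_eq_of_pos h4]
          rw [pow_succ]; ring
        omega
    have h6 : (2 ^ Nat.clog 2 (n + 1)) ^ c ≤ 4 ^ c * n ^ c + 4 ^ c := by
      rcases Nat.eq_zero_or_pos n with rfl | hn
      · have : (1 : ℕ) ≤ 4 ^ c := Nat.one_le_pow _ _ (by norm_num)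
        simp
        omega
      · calc (2 ^ Nat.clog 2 (n + 1)) ^ c ≤ (4 * n) ^ c := Nat.pow_le_pow_left (by omega) _
          _ = 4 ^ c * n ^ c := by rw [mul_pow]
          _ ≤ _ := Nat.le_add_right _ _
    calc C * (2 ^ Nat.clog 2 (n + 1)) ^ c ≤ C * (4 ^ c * n ^ c + 4 ^ c) :=
          Nat.mul_le_mul_left _ h6
      _ = C * 4 ^ c * n ^ c + C * 4 ^ c := by ring
  · intro r hr
    exact NilAdj.elem_main H.gens _ hYJ hnil
      (fun K _ κ hκ hy => NilAdj.det_trivial H hL K κ hκ fun h x hx => hy x (by
        cases h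
        · exact Or.inl hx
        · exact Or.inr hx)) r hr

end Pool.Agent.S00897
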