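import Pool.Statements.S01146

set_option autoImplicit false
open Pointwise
open Pool Pool.MP_34521c_al

namespace Pool.Agent.S01146


def maxs : List (ℕ × ℕ × ℕ × ℕ) :=
  [(12,0,0,0),(0,12,0,0),(0,0,12,0),(0,0,0,12),
   (8,1,0,0),(8,0,1,0),(8,0,0,1),(1,8,0,0),(0,8,1,0),(0,8,0,1),
   (1,0,8,0),(0,1,8,0),(0,0,8,1),(1,0,0,8),(0,1,0,8),(0,0,1,8),
   (6,2,0,0),(6,0,2,0),(6,0,0,2),(2,6,0,0),(0,6,2,0),(0,6,0,2),
   (2,0,6,0),(0,2,6,0),(0,0,6,2),(2,0,0,6),(0,2,0,6),(0,0,2,6),
   (4,3,0,0),(4,0,3,0),(4,0,0,3),(3,4,0,0),(0,4,3,0),(0,4,0,3),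
   (3,0,4,0),(0,3,4,0),(0,0,4,3),(3,0,0,4),(0,3,0,4),(0,0,3,4),
   (4,1,1,0),(4,1,0,1),(4,0,1,1),(1,4,1,0),(1,4,0,1),(0,4,1,1),
   (1,1,4,0),(1,0,4,1),(0,1,4,1),(1,1,0,4),(1,0,1,4),(0,1,1,4),
   (2,2,1,0),(2,2,0,1),(2,1,2,0),(2,0,2,1),(2,1,0,2),(2,0,1,2),
   (1,2,2,0),(0,2,2,1),(1,2,0,2),(0,2,1,2),(1,0,2,2),(0,1,2,2)]

def le4 (a b c d : ℕ) (m : ℕ × ℕ × ℕ × ℕ) : Bool :=
  Nat.ble a m.1 && (Nat.ble b m.2.1 && (Nat.ble c m.2.2.1 && Nat.ble d m.2.2.2))

def good (a b c d : ℕ) : Bool := maxs.any (le4 a b c d)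

def chk (i : ℕ) (m : ℕ × ℕ × ℕ × ℕ) : Bool :=
  (List.range (m.1+1)).all fun a => (List.range (m.2.1+1)).all fun b =>
  (List.range (m.2.2.1+1)).all fun c => (List.range (m.2.2.2+1)).all fun d =>
    match i with
    | 0 => good (a+4) b c d || good (m.1-a+1) (m.2.1-b) (m.2.2.1-c) (m.2.2.2-d)
    | 1 => good a (b+4) c d || good (m.1-a) (m.2.1-b+1) (m.2.2.1-c) (m.2.2.2-d)
    | 2 => good a b (c+4) d || good (m.1-a) (m.2.1-b) (m.2.2.1-c+1) (m.2.2.2-d)
    | _ => good a b c (d+4) || good (m.1-a) (m.2.1-b) (m.2.2.1-c) (m.2.2.2-d+1)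

theorem chk0 : maxs.all (chk 0) = true := by decide +kernel
theorem chk1 : maxs.all (chk 1) = true := by decide +kernel
theorem chk2 : maxs.all (chk 2) = true := by decide +kernel
theorem chk3 : maxs.all (chk 3) = true := by decide +kernel

theorem good_iff (a b c d : ℕ) : good a b c d = true ↔
    ∃ m ∈ maxs, a ≤ m.1 ∧ b ≤ m.2.1 ∧ c ≤ m.2.2.1 ∧ d ≤ m.2.2.2 := by
  unfold good le4
  simp [List.any_eq_true, Nat.ble_eq]

def Good (v : Fin 4 → ℕ) : Prop := good (v 0) (v 1) (v 2) (v 3) = true

theorem Good.mono {v w : Fin 4 → ℕ} (h : v ≤ w) (hw : Good w) : Good v := by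
  unfold Good at *
  rw [good_iff] at *
  obtain ⟨m, hm, h0, h1, h2, h3⟩ := hw
  exact ⟨m, hm, (h 0).trans h0, (h 1).trans h1, (h 2).trans h2, (h 3).trans h3⟩

theorem Good.zero {v : Fin 4 → ℕ} (hv : Good v) : ∃ i, v i = 0 := by
  unfold Good at hv
  rw [good_iff] at hv
  obtain ⟨m, hm, h0, h1, h2, h3⟩ := hv
  have key : ∀ m ∈ maxs, m.1 = 0 ∨ m.2.1 = 0 ∨ m.2.2.1 = 0 ∨ m.2.2.2 = 0 := by decide
  rcases key m hm with h | h | h | h
  · exact ⟨0, by omega⟩
  · exact ⟨1, by omega⟩
  · exact ⟨2, by omega⟩
  · exact ⟨3, by omega⟩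

theorem Good.split {u w : Fin 4 → ℕ} (h : Good (u + w)) (i : Fin 4) :
    Good (u + Pi.single i 4) ∨ Good (w + Pi.single i 1) := by
  have h' := h
  unfold Good at h'
  rw [good_iff] at h'
  obtain ⟨m, hm, h0, h1, h2, h3⟩ := h'
  simp only [Pi.add_apply] at h0 h1 h2 h3
  have aux : ∀ (j : ℕ), maxs.all (chk j) = true → chk j m = true := by
    intro j hj
    rw [List.all_eq_true] at hj
    exact hj m hm
  have mem : ∀ {x y : ℕ}, x ≤ y → x ∈ List.range (y+1) := by
    intro x y hxy; rw [List.mem_range]; omega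
  have step : ∀ j, chk j m = true →
      (match j with
    | 0 => good (u 0+4) (u 1) (u 2) (u 3) || good (m.1-u 0+1) (m.2.1-u 1) (m.2.2.1-u 2) (m.2.2.2-u 3)
    | 1 => good (u 0) (u 1+4) (u 2) (u 3) || good (m.1-u 0) (m.2.1-u 1+1) (m.2.2.1-u 2) (m.2.2.2-u 3)
    | 2 => good (u 0) (u 1) (u 2+4) (u 3) || good (m.1-u 0) (m.2.1-u 1) (m.2.2.1-u 2+1) (m.2.2.2-u 3)
    | _ => good (u 0) (u 1) (u 2) (u 3+4) || good (m.1-u 0) (m.2.1-u 1) (m.2.2.1-u 2) (m.2.2.2-u 3+1)) = true := by
    intro j hj
    unfold chk at hj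
    rw [List.all_eq_true] at hj
    have a1 := hj (u 0) (mem (by omega))
    rw [List.all_eq_true] at a1
    have a2 := a1 (u 1) (mem (by omega))
    rw [List.all_eq_true] at a2
    have a3 := a2 (u 2) (mem (by omega))
    rw [List.all_eq_true] at a3
    exact a3 (u 3) (mem (by omega))
  fin_cases i
  · have := step 0 (aux 0 chk0)
    simp only [Bool.or_eq_true] at this
    rcases this with this | this
    · left; unfold Good; simpa using this
    · right
      refine Good.mono (w := ![m.1 - u 0 + 1, m.2.1 - u 1, m.2.2.1 - u 2, m.2.2.2 - u 3]) ?_ ?_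
      · intro j; fin_cases j <;> simp <;> omega
      · unfold Good; simpa using this
  · have := step 1 (aux 1 chk1)
    simp only [Bool.or_eq_true] at this
    rcases this with this | this
    · left; unfold Good; simpa using this
    · right
      refine Good.mono (w := ![m.1 - u 0, m.2.1 - u 1 + 1, m.2.2.1 - u 2, m.2.2.2 - u 3]) ?_ ?_
      · intro j; fin_cases j <;> simp <;> omega
      · unfold Good; simpa using this
  · have := step 2 (aux 2 chk2)
    simp only [Bool.or_eq_true] at this
    rcases this with this | this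
    · left; unfold Good; simpa using this
    · right
      refine Good.mono (w := ![m.1 - u 0, m.2.1 - u 1, m.2.2.1 - u 2 + 1, m.2.2.2 - u 3]) ?_ ?_
      · intro j; fin_cases j <;> simp <;> omega
      · unfold Good; simpa using this
  · have := step 3 (aux 3 chk3)
    simp only [Bool.or_eq_true] at this
    rcases this with this | this
    · left; unfold Good; simpa using this
    · right
      refine Good.mono (w := ![m.1 - u 0, m.2.1 - u 1, m.2.2.1 - u 2, m.2.2.2 - u 3 + 1]) ?_ ?_
      · intro j; fin_cases j <;> simp <;> omega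
      · unfold Good; simpa using this

theorem good_single (i : Fin 4) : Good (Pi.single i 4) := by
  fin_cases i <;> (unfold Good; decide)

theorem good_cosingle (i : Fin 4) : Good (fun j => if j = i then 0 else 1) := by
  fin_cases i <;> (unfold Good; decide)



abbrev G := FreeGroup ℕ

/-- the reduced word of `u` ends in the letter `(m, b)` -/
def Ends (m : ℕ) (b : Bool) (u : G) : Prop := u.toWord.getLast? = some (m, b)

theorem toWord_of_mul (j : ℕ) (u : G) :
    (FreeGroup.of j * u).toWord = List.casesOn u.toWord [(j, true)]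
      (fun hd tl => if j = hd.1 ∧ true = !hd.2 then tl else (j, true) :: hd :: tl) := by
  rw [FreeGroup.toWord_mul, FreeGroup.toWord_of, List.singleton_append, FreeGroup.reduce.cons,
    FreeGroup.reduce_toWord]

theorem ends_of_mul_ne {j m : ℕ} (h : j ≠ m) (b : Bool) (u : G) :
    Ends m b (FreeGroup.of j * u) ↔ Ends m b u := by
  unfold Ends
  rw [toWord_of_mul]
  rcases u.toWord with _ | ⟨hd, tl⟩
  · simp [h]
  · dsimp only
    split_ifs with hc
    · obtain ⟨h1, h2⟩ := hc
      rcases tl with _ | ⟨a, l⟩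
      · obtain ⟨x, y⟩ := hd
        simp only at h1 h2
        subst h1
        simp [h]
      · simp
    · simp

theorem ends_of_mul_self {m : ℕ} {u : G} (hu : u ≠ 1) :
    Ends m true (FreeGroup.of m * u) ↔ Ends m true u := by
  unfold Ends
  rw [toWord_of_mul]
  have hu' : u.toWord ≠ [] := by
    intro h; exact hu (FreeGroup.toWord_eq_nil_iff.1 h)
  revert hu'
  rcases u.toWord with _ | ⟨hd, tl⟩
  · intro h; exact absurd rfl h
  · intro _
    dsimp only
    split_ifs with hc
    · obtain ⟨h1, h2⟩ := hc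
      rcases tl with _ | ⟨a, l⟩
      · obtain ⟨x, y⟩ := hd
        simp only at h1 h2
        subst h1
        cases y <;> simp_all
      · simp
    · simp

theorem not_ends_one (m : ℕ) (b : Bool) : ¬ Ends m b 1 := by
  unfold Ends; simp

theorem ends_of (m : ℕ) : Ends m true (FreeGroup.of m) := by
  unfold Ends; simp

theorem ends_of_inv (m : ℕ) : Ends m false (FreeGroup.of m)⁻¹ := by
  unfold Ends; simp [FreeGroup.toWord_inv, FreeGroup.invRev]

/-- `g` only involves letters of index less than `m` (as far as we need it) -/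
def Lev (m : ℕ) (g : G) : Prop := ∀ k, m ≤ k → ∀ b u, Ends k b (g * u) ↔ Ends k b u

theorem Lev.one (m : ℕ) : Lev m 1 := by
  intro k _ b u; simp

theorem Lev.mul {m : ℕ} {g h : G} (hg : Lev m g) (hh : Lev m h) : Lev m (g * h) := by
  intro k hk b u
  rw [mul_assoc, hg k hk, hh k hk]

theorem Lev.inv {m : ℕ} {g : G} (hg : Lev m g) : Lev m g⁻¹ := by
  intro k hk b u
  rw [← hg k hk b (g⁻¹ * u)]
  simp

theorem Lev.mono {m n : ℕ} (h : m ≤ n) {g : G} (hg : Lev m g) : Lev n g := by
  intro k hk b u
  exact hg k (h.trans hk) b u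

theorem Lev.of {j m : ℕ} (h : j < m) : Lev m (FreeGroup.of j) := by
  intro k hk b u
  exact ends_of_mul_ne (by omega) b u

theorem exists_lev (g : G) : ∃ m, Lev m g := by
  induction g using FreeGroup.induction_on with
  | C1 => exact ⟨0, Lev.one 0⟩
  | of j => exact ⟨j + 1, Lev.of (Nat.lt_succ_self j)⟩
  | inv_of j h => obtain ⟨m, hm⟩ := h; exact ⟨m, hm.inv⟩
  | mul x y hx hy =>
    obtain ⟨m, hm⟩ := hx
    obtain ⟨n, hn⟩ := hy
    exact ⟨max m n, (hm.mono (le_max_left _ _)).mul (hn.mono (le_max_right _ _))⟩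

theorem Lev.not_ends {m k : ℕ} {g : G} (hg : Lev m g) (hk : m ≤ k) (b : Bool) : ¬ Ends k b g := by
  have := hg k hk b 1
  rw [mul_one] at this
  rw [this]
  exact not_ends_one k b


/-! ### Tasks and their labels -/

abbrev CTask := Fin 4 × Finset G
abbrev PTask := G × Fin 4 × Fin 4
abbrev Task := CTask ⊕ PTask

noncomputable def lvl (g : G) : ℕ := Classical.choose (exists_lev g)

theorem lev_lvl (g : G) : Lev (lvl g) g := Classical.choose_spec (exists_lev g)

noncomputable def tlvl : Task → ℕ
  | Sum.inl τ => τ.2.sup lvl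
  | Sum.inr r => lvl r.1

instance countableG : Countable G := FreeGroup.toWord_injective.countable

noncomputable def enc : Task → ℕ := Classical.choose (exists_injective_nat Task)

theorem enc_inj : Function.Injective enc := Classical.choose_spec (exists_injective_nat Task)

noncomputable def lab (τ : Task) : ℕ := Nat.pair (enc τ) (tlvl τ)

theorem lab_inj : Function.Injective lab := by
  intro a b h
  unfold lab at h
  exact enc_inj (Nat.pair_eq_pair.1 h).1

theorem tlvl_le_lab (τ : Task) : tlvl τ ≤ lab τ := Nat.right_le_pair _ _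

theorem lev_of_mem {i : Fin 4} {S : Finset G} {t : G} (ht : t ∈ S) {m : ℕ}
    (hm : lab (Sum.inl (i, S)) ≤ m) : Lev m t := by
  have h1 : lvl t ≤ S.sup lvl := Finset.le_sup (f := lvl) ht
  have h2 : S.sup lvl ≤ lab (Sum.inl (i, S)) := tlvl_le_lab (Sum.inl (i, S))
  exact (lev_lvl t).mono (h1.trans (h2.trans hm))

theorem lev_of_presc (r : PTask) {m : ℕ} (hm : lab (Sum.inr r) ≤ m) : Lev m r.1 := by
  have h2 : lvl r.1 ≤ lab (Sum.inr r) := tlvl_le_lab (Sum.inr r)
  exact (lev_lvl r.1).mono (h2.trans hm)

abbrev Idx := (G × CTask) ⊕ PTask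

noncomputable def ilab : Idx → ℕ
  | Sum.inl κ => lab (Sum.inl κ.2)
  | Sum.inr r => lab (Sum.inr r)

/-- constraint at `h` for the task `(i, S)` -/
def VC (d : G → Fin 4) (κ : G × CTask) : Prop :=
  κ.2.2.card ≤ 4 → ∀ s ∈ κ.2.2,
    ¬ (d (FreeGroup.of (lab (Sum.inl κ.2)) * κ.1) = κ.2.1 ∧ d (s * κ.1) = κ.2.1)

/-- prescription for the task `(g, i, j)` -/
def VP (d : G → Fin 4) (r : PTask) : Prop :=
  d (r.1 * (FreeGroup.of (lab (Sum.inr r)))⁻¹) = r.2.1 ∧ d (FreeGroup.of (lab (Sum.inr r))) = r.2.2

def Valid (d : G → Fin 4) : Idx → Prop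
  | Sum.inl κ => VC d κ
  | Sum.inr r => VP d r

/-! ### Gluing -/

open Classical in
/-- glue two colourings along the cut `V` -/
noncomputable def cut (V : G → Prop) (d2 d1 : G → Fin 4) : G → Fin 4 :=
  fun g => if V g then d2 g else d1 g

theorem cut_pos {V : G → Prop} {d2 d1 : G → Fin 4} {g : G} (h : V g) : cut V d2 d1 g = d2 g := by
  unfold cut; simp [h]

theorem cut_neg {V : G → Prop} {d2 d1 : G → Fin 4} {g : G} (h : ¬ V g) : cut V d2 d1 g = d1 g := by
  unfold cut; simp [h]

/-- a constraint lying on one side of the cut stays valid -/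
theorem VC_cut {V : G → Prop} {d2 d1 : G → Fin 4} {κ : G × CTask}
    (h2 : VC d2 κ) (h1 : VC d1 κ)
    (ht : ∀ s ∈ κ.2.2, V (s * κ.1) ↔ V κ.1)
    (hx : V (FreeGroup.of (lab (Sum.inl κ.2)) * κ.1) ↔ V κ.1) : VC (cut V d2 d1) κ := by
  intro hc s hs
  by_cases hV : V κ.1
  · rw [cut_pos (hx.2 hV), cut_pos ((ht s hs).2 hV)]
    exact h2 hc s hs
  · rw [cut_neg (fun h => hV (hx.1 h)), cut_neg (fun h => hV ((ht s hs).1 h))]
    exact h1 hc s hs

/-- the half-tree cut at the edge `(h, m)` -/
def Half (h : G) (m : ℕ) (g : G) : Prop := Ends m true (g * h⁻¹)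

theorem half_tail {κ κ' : G × CTask} (hle : lab (Sum.inl κ'.2) ≤ lab (Sum.inl κ.2)) :
    ∀ s ∈ κ'.2.2, Half κ.1 (lab (Sum.inl κ.2)) (s * κ'.1) ↔ Half κ.1 (lab (Sum.inl κ.2)) κ'.1 := by
  intro s hs
  unfold Half
  rw [mul_assoc]
  exact lev_of_mem (i := κ'.2.1) (S := κ'.2.2) hs hle _ le_rfl _ _

theorem half_head {κ κ' : G × CTask} (hle : lab (Sum.inl κ'.2) ≤ lab (Sum.inl κ.2)) (hne : κ' ≠ κ) :
    Half κ.1 (lab (Sum.inl κ.2)) (FreeGroup.of (lab (Sum.inl κ'.2)) * κ'.1) ↔
      Half κ.1 (lab (Sum.inl κ.2)) κ'.1 := by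
  unfold Half
  rw [mul_assoc]
  rcases hle.lt_or_eq with hlt | heq
  · exact ends_of_mul_ne (by omega) _ _
  · have h2 : κ'.2 = κ.2 := Sum.inl_injective (lab_inj heq)
    rw [heq]
    apply ends_of_mul_self
    intro h1
    apply hne
    exact Prod.ext (mul_inv_eq_one.1 h1) h2

theorem glue_self {κ : G × CTask} {d2 d1 : G → Fin 4}
    (hcond : κ.2.2.card ≤ 4 → ((∀ s ∈ κ.2.2, d1 (s * κ.1) ≠ κ.2.1) ∨
      d2 (FreeGroup.of (lab (Sum.inl κ.2)) * κ.1) ≠ κ.2.1)) :
    VC (cut (Half κ.1 (lab (Sum.inl κ.2))) d2 d1) κ := by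
  intro hc s hs
  have hx : Half κ.1 (lab (Sum.inl κ.2)) (FreeGroup.of (lab (Sum.inl κ.2)) * κ.1) := by
    unfold Half
    rw [mul_assoc, mul_inv_cancel, mul_one]
    exact ends_of _
  have ht : ¬ Half κ.1 (lab (Sum.inl κ.2)) (s * κ.1) := by
    unfold Half
    rw [mul_assoc, mul_inv_cancel, mul_one]
    exact (lev_of_mem (i := κ.2.1) (S := κ.2.2) hs le_rfl).not_ends le_rfl _
  rw [cut_pos hx, cut_neg ht]
  rcases hcond hc with h | h
  · exact fun hh => h s hs hh.2
  · exact fun hh => h hh.1

theorem glue {s : Finset Idx} {κ : G × CTask} (hmax : ∀ x ∈ s, ilab x ≤ ilab (Sum.inl κ))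
    (ha : Sum.inl κ ∉ s) {d2 d1 : G → Fin 4}
    (h2 : ∀ κ', Sum.inl κ' ∈ s → VC d2 κ') (h1 : ∀ κ', Sum.inl κ' ∈ s → VC d1 κ')
    (hcond : κ.2.2.card ≤ 4 → ((∀ s ∈ κ.2.2, d1 (s * κ.1) ≠ κ.2.1) ∨
      d2 (FreeGroup.of (lab (Sum.inl κ.2)) * κ.1) ≠ κ.2.1)) :
    ∀ κ', Sum.inl κ' ∈ insert (Sum.inl κ) s →
      VC (cut (Half κ.1 (lab (Sum.inl κ.2))) d2 d1) κ' := by
  intro κ' hκ'
  rw [Finset.mem_insert] at hκ'
  rcases hκ' with h | h
  · have h' : κ' = κ := Sum.inl_injective h
    subst h'
    exact glue_self hcond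
  · have hne : κ' ≠ κ := by
      rintro rfl; exact ha h
    have hle : lab (Sum.inl κ'.2) ≤ lab (Sum.inl κ.2) := hmax _ h
    exact VC_cut (h2 κ' h) (h1 κ' h) (half_tail hle) (half_head hle hne)

theorem good_of_le_single {v : Fin 4 → ℕ} {i : Fin 4} (h : ∀ j, v j ≤ if j = i then 4 else 0) :
    Good v := by
  refine Good.mono (w := Pi.single i 4) ?_ (good_single i)
  intro j
  refine (h j).trans ?_
  by_cases hj : j = i
  · subst hj; simp
  · simp [hj]

/-- avoidance on finitely many vertices -/
theorem inv_exists (T : Finset Idx) : ∀ P : Fin 4 → Finset G, Good (fun i => (P i).card) →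
    ∃ d : G → Fin 4, (∀ κ, Sum.inl κ ∈ T → VC d κ) ∧ ∀ i, ∀ g ∈ P i, d g ≠ i := by
  classical
  induction T using Finset.induction_on_max_value ilab with
  | empty =>
    intro P hP
    obtain ⟨i, hi⟩ := hP.zero
    refine ⟨fun _ => i, by simp, ?_⟩
    intro j g hg hij
    subst hij
    rw [Finset.card_eq_zero] at hi
    rw [hi] at hg
    simp at hg
  | insert a s ha hmax ih =>
    intro P hP
    rcases a with κ | r
    swap
    · obtain ⟨d, hd, hd'⟩ := ih P hP
      refine ⟨d, ?_, hd'⟩
      intro κ hκ
      rw [Finset.mem_insert] at hκ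
      rcases hκ with h | h
      · exact absurd h (by simp)
      · exact hd κ h
    · set m := lab (Sum.inl κ.2) with hm
      set V := Half κ.1 m with hV
      set P2 : Fin 4 → Finset G := fun j => (P j).filter V with hP2
      set P1 : Fin 4 → Finset G := fun j => (P j).filter (fun g => ¬ V g) with hP1
      have hsum : (fun i => (P i).card) = (fun i => (P1 i).card) + (fun i => (P2 i).card) := by
        funext j
        simp only [Pi.add_apply, hP1, hP2]
        rw [add_comm]
        exact (Finset.card_filter_add_card_filter_not V).symm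
      have hg1 : Good (fun i => (P1 i).card) :=
        Good.mono (fun j => Finset.card_le_card (Finset.filter_subset _ _)) hP
      have hg2 : Good (fun i => (P2 i).card) :=
        Good.mono (fun j => Finset.card_le_card (Finset.filter_subset _ _)) hP
      by_cases hc : κ.2.2.card ≤ 4
      · rw [hsum] at hP
        rcases hP.split κ.2.1 with h | h
        · obtain ⟨d1, hd1, hd1'⟩ := ih
            (fun j => P1 j ∪ (if j = κ.2.1 then κ.2.2.image (fun t => t * κ.1) else ∅)) (by
              refine Good.mono (fun j => ?_) h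
              refine (Finset.card_union_le _ _).trans ?_
              simp only [Pi.add_apply]
              by_cases hj : j = κ.2.1
              · rw [if_pos hj, hj, Pi.single_eq_same]
                exact Nat.add_le_add_left (Finset.card_image_le.trans hc) _
              · rw [if_neg hj, Pi.single_eq_of_ne hj]
                simp)
          obtain ⟨d2, hd2, hd2'⟩ := ih P2 hg2
          refine ⟨cut V d2 d1, glue hmax ha hd2 hd1 (fun _ => Or.inl ?_), ?_⟩
          · intro t ht
            refine hd1' κ.2.1 (t * κ.1) ?_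
            rw [Finset.mem_union]
            right
            rw [if_pos rfl]
            exact Finset.mem_image_of_mem _ ht
          · intro i g hg
            by_cases hVg : V g
            · rw [cut_pos hVg]
              exact hd2' i g (Finset.mem_filter.2 ⟨hg, hVg⟩)
            · rw [cut_neg hVg]
              exact hd1' i g (Finset.mem_union_left _ (Finset.mem_filter.2 ⟨hg, hVg⟩))
        · obtain ⟨d2, hd2, hd2'⟩ := ih
            (fun j => P2 j ∪ (if j = κ.2.1 then {FreeGroup.of m * κ.1} else ∅)) (by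
              refine Good.mono (fun j => ?_) h
              refine (Finset.card_union_le _ _).trans ?_
              simp only [Pi.add_apply]
              by_cases hj : j = κ.2.1
              · rw [if_pos hj, hj, Pi.single_eq_same]
                simp
              · rw [if_neg hj, Pi.single_eq_of_ne hj]
                simp)
          obtain ⟨d1, hd1, hd1'⟩ := ih P1 hg1
          refine ⟨cut V d2 d1, glue hmax ha hd2 hd1 (fun _ => Or.inr ?_), ?_⟩
          · refine hd2' κ.2.1 _ ?_
            rw [Finset.mem_union]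
            right
            rw [if_pos rfl]
            exact Finset.mem_singleton_self _
          · intro i g hg
            by_cases hVg : V g
            · rw [cut_pos hVg]
              exact hd2' i g (Finset.mem_union_left _ (Finset.mem_filter.2 ⟨hg, hVg⟩))
            · rw [cut_neg hVg]
              exact hd1' i g (Finset.mem_filter.2 ⟨hg, hVg⟩)
      · obtain ⟨d, hd, hd'⟩ := ih P hP
        refine ⟨d, ?_, hd'⟩
        intro κ' hκ'
        rw [Finset.mem_insert] at hκ'
        rcases hκ' with h | h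
        · have h' : κ' = κ := Sum.inl_injective h
          subst h'
          intro hcc
          exact absurd hcc hc
        · exact hd κ' h

/-- prescriptions and constraints together, finitely many -/
theorem ext_exists (T : Finset Idx) : ∃ d : G → Fin 4, ∀ t ∈ T, Valid d t := by
  classical
  induction T using Finset.induction_on_max_value ilab with
  | empty => exact ⟨fun _ => 0, by simp⟩
  | insert a s ha hmax ih =>
    obtain ⟨d0, hd0⟩ := ih
    have hd0c : ∀ κ', Sum.inl κ' ∈ s → VC d0 κ' := fun κ' h => hd0 _ h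
    rcases a with κ | r
    · set m := lab (Sum.inl κ.2) with hm
      set V := Half κ.1 m with hV
      -- prescriptions in s live on the side of 1
      have hside : ∀ g, Lev m g → (V g ↔ V 1) := by
        intro g hg
        rw [hV]
        unfold Half
        rw [one_mul]
        exact hg m le_rfl _ _
      have hpr : ∀ r', Sum.inr r' ∈ s →
          Lev m (FreeGroup.of (lab (Sum.inr r'))) ∧
          Lev m (r'.1 * (FreeGroup.of (lab (Sum.inr r')))⁻¹) := by
        intro r' hr'
        have hle : lab (Sum.inr r') ≤ m := hmax _ hr'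
        have hne : lab (Sum.inr r') ≠ m := by
          intro h
          exact absurd (lab_inj h) (by simp)
        have hlt : lab (Sum.inr r') < m := lt_of_le_of_ne hle hne
        exact ⟨Lev.of hlt, (lev_of_presc r' hle).mul (Lev.of hlt).inv⟩
      by_cases h1 : V 1
      · obtain ⟨d1, hd1, hd1'⟩ := inv_exists s
          (fun j => if j = κ.2.1 ∧ κ.2.2.card ≤ 4 then κ.2.2.image (fun t => t * κ.1) else ∅) (by
            apply good_of_le_single (i := κ.2.1)
            intro j
            by_cases hj : j = κ.2.1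
            · by_cases hc : κ.2.2.card ≤ 4
              · rw [if_pos ⟨hj, hc⟩, if_pos hj]
                exact Finset.card_image_le.trans hc
              · rw [if_neg (fun h => hc h.2), if_pos hj]
                simp
            · rw [if_neg (fun h => hj h.1), if_neg hj]
              simp)
        have hg := glue hmax ha hd0c hd1 (fun hc => Or.inl (by
            intro t ht
            refine hd1' κ.2.1 (t * κ.1) ?_
            rw [if_pos ⟨rfl, hc⟩]
            exact Finset.mem_image_of_mem _ ht))
        refine ⟨cut V d0 d1, ?_⟩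
        intro t ht
        rcases t with κ' | r'
        · exact hg κ' ht
        · rw [Finset.mem_insert] at ht
          have hr' : Sum.inr r' ∈ s := by
            rcases ht with h | h
            · exact absurd h (by simp)
            · exact h
          obtain ⟨ha1, ha2⟩ := hpr r' hr'
          have hv := hd0 _ hr'
          change VP _ r'
          change VP _ r' at hv
          unfold VP
          rw [cut_pos ((hside _ ha1).2 h1), cut_pos ((hside _ ha2).2 h1)]
          exact hv
      · obtain ⟨d2, hd2, hd2'⟩ := inv_exists s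
          (fun j => if j = κ.2.1 then {FreeGroup.of m * κ.1} else ∅) (by
            apply good_of_le_single (i := κ.2.1)
            intro j
            by_cases hj : j = κ.2.1
            · rw [if_pos hj, if_pos hj]
              simp
            · rw [if_neg hj, if_neg hj]
              simp)
        have hg := glue hmax ha hd2 hd0c (fun _ => Or.inr (by
            refine hd2' κ.2.1 _ ?_
            rw [if_pos rfl]
            exact Finset.mem_singleton_self _))
        refine ⟨cut V d2 d0, ?_⟩
        intro t ht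
        rcases t with κ' | r'
        · exact hg κ' ht
        · rw [Finset.mem_insert] at ht
          have hr' : Sum.inr r' ∈ s := by
            rcases ht with h | h
            · exact absurd h (by simp)
            · exact h
          obtain ⟨ha1, ha2⟩ := hpr r' hr'
          have hv := hd0 _ hr'
          change VP _ r'
          change VP _ r' at hv
          unfold VP
          rw [cut_neg (fun h => h1 ((hside _ ha1).1 h)), cut_neg (fun h => h1 ((hside _ ha2).1 h))]
          exact hv
    · -- a prescription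
      set m := lab (Sum.inr r) with hm
      obtain ⟨d1, hd1, hd1'⟩ := inv_exists s
        (fun k => if k = r.2.2 then ∅ else {FreeGroup.of m}) (by
          refine Good.mono (w := fun j => if j = r.2.2 then 0 else 1) ?_ (good_cosingle _)
          intro j
          by_cases hj : j = r.2.2
          · simp [hj]
          · simp [hj])
      obtain ⟨d2, hd2, hd2'⟩ := inv_exists s
        (fun k => if k = r.2.1 then ∅ else {r.1 * (FreeGroup.of m)⁻¹}) (by
          refine Good.mono (w := fun j => if j = r.2.1 then 0 else 1) ?_ (good_cosingle _)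
          intro j
          by_cases hj : j = r.2.1
          · simp [hj]
          · simp [hj])
      have e1 : d1 (FreeGroup.of m) = r.2.2 := by
        by_contra hne
        refine hd1' (d1 (FreeGroup.of m)) (FreeGroup.of m) ?_ rfl
        rw [if_neg hne]
        exact Finset.mem_singleton_self _
      have e2 : d2 (r.1 * (FreeGroup.of m)⁻¹) = r.2.1 := by
        by_contra hne
        refine hd2' (d2 (r.1 * (FreeGroup.of m)⁻¹)) (r.1 * (FreeGroup.of m)⁻¹) ?_ rfl
        rw [if_neg hne]
        exact Finset.mem_singleton_self _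
      have hlev : Lev m r.1 := lev_of_presc r le_rfl
      refine ⟨cut (Ends m true) d1 (cut (Ends m false) d2 d0), ?_⟩
      have tail : ∀ κ', Sum.inl κ' ∈ s → ∀ b, ∀ t ∈ κ'.2.2,
          (Ends m b (t * κ'.1) ↔ Ends m b κ'.1) := by
        intro κ' hκ' b t ht
        exact lev_of_mem (i := κ'.2.1) (S := κ'.2.2) ht (hmax _ hκ') m le_rfl b _
      have head : ∀ κ', Sum.inl κ' ∈ s → ∀ b,
          (Ends m b (FreeGroup.of (lab (Sum.inl κ'.2)) * κ'.1) ↔ Ends m b κ'.1) := by
        intro κ' hκ' b
        have hne : lab (Sum.inl κ'.2) ≠ m := by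
          intro h
          exact absurd (lab_inj h) (by simp)
        exact ends_of_mul_ne hne b _
      intro t ht
      rw [Finset.mem_insert] at ht
      rcases t with κ' | r'
      · have hκ' : Sum.inl κ' ∈ s := by
          rcases ht with h | h
          · exact absurd h (by simp)
          · exact h
        change VC _ κ'
        exact VC_cut (hd1 κ' hκ') (VC_cut (hd2 κ' hκ') (hd0c κ' hκ') (tail κ' hκ' false)
          (head κ' hκ' false)) (tail κ' hκ' true) (head κ' hκ' true)
      · change VP _ r'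
        rcases ht with h | h
        · have h' : r' = r := Sum.inr_injective h
          subst h'
          unfold VP
          have n1 : ¬ Ends m true (r'.1 * (FreeGroup.of m)⁻¹) := by
            rw [hlev m le_rfl]
            have := ends_of_inv m
            unfold Ends at this ⊢
            rw [this]
            simp
          have n2 : Ends m false (r'.1 * (FreeGroup.of m)⁻¹) := by
            rw [hlev m le_rfl]
            exact ends_of_inv m
          rw [← hm, cut_neg n1, cut_pos n2, cut_pos (ends_of m)]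
          exact ⟨e2, e1⟩
        · have hle : lab (Sum.inr r') ≤ m := hmax _ h
          have hne : lab (Sum.inr r') ≠ m := by
            intro h'
            have h'' : r' = r := Sum.inr_injective (lab_inj h')
            subst h''
            exact ha h
          have hlt : lab (Sum.inr r') < m := lt_of_le_of_ne hle hne
          have l1 : Lev m (FreeGroup.of (lab (Sum.inr r'))) := Lev.of hlt
          have l2 : Lev m (r'.1 * (FreeGroup.of (lab (Sum.inr r')))⁻¹) :=
            (lev_of_presc r' hle).mul (Lev.of hlt).inv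
          have hv := hd0 _ h
          change VP _ r' at hv
          unfold VP
          rw [cut_neg (l1.not_ends le_rfl _), cut_neg (l1.not_ends le_rfl _),
            cut_neg (l2.not_ends le_rfl _), cut_neg (l2.not_ends le_rfl _)]
          exact hv

theorem isClopen_eq (a : G) (i : Fin 4) : IsClopen {d : G → Fin 4 | d a = i} := by
  have : {d : G → Fin 4 | d a = i} = (fun d : G → Fin 4 => d a) ⁻¹' {i} := by
    ext d; simp
  rw [this]
  exact (isClopen_discrete {i}).preimage (continuous_apply a)

theorem isClosed_valid (t : Idx) : IsClosed {d : G → Fin 4 | Valid d t} := by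
  rcases t with κ | r
  · change IsClosed {d : G → Fin 4 | VC d κ}
    unfold VC
    by_cases hc : κ.2.2.card ≤ 4
    · have : {d : G → Fin 4 | κ.2.2.card ≤ 4 → ∀ s ∈ κ.2.2,
          ¬ (d (FreeGroup.of (lab (Sum.inl κ.2)) * κ.1) = κ.2.1 ∧ d (s * κ.1) = κ.2.1)} =
          ⋂ s ∈ κ.2.2, ({d : G → Fin 4 | d (FreeGroup.of (lab (Sum.inl κ.2)) * κ.1) = κ.2.1} ∩
            {d : G → Fin 4 | d (s * κ.1) = κ.2.1})ᶜ := by
        ext d
        simp [hc]
      rw [this]
      exact isClosed_biInter fun s _ =>
        (((isClopen_eq _ _).inter (isClopen_eq _ _)).compl).isClosed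
    · have : {d : G → Fin 4 | κ.2.2.card ≤ 4 → ∀ s ∈ κ.2.2,
          ¬ (d (FreeGroup.of (lab (Sum.inl κ.2)) * κ.1) = κ.2.1 ∧ d (s * κ.1) = κ.2.1)} =
          Set.univ := by
        ext d
        simp only [Set.mem_ofPred_eq, Set.mem_univ, iff_true]
        intro h
        exact absurd h hc
      rw [this]
      exact isClosed_univ
  · change IsClosed {d : G → Fin 4 | VP d r}
    unfold VP
    exact ((isClopen_eq _ _).inter (isClopen_eq _ _)).isClosed

theorem exists_colouring : ∃ d : G → Fin 4, ∀ t, Valid d t := by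
  have := CompactSpace.iInter_nonempty (t := fun t : Idx => {d : G → Fin 4 | Valid d t})
    isClosed_valid (by
      intro s
      obtain ⟨d, hd⟩ := ext_exists s
      exact ⟨d, by simpa using hd⟩)
  obtain ⟨d, hd⟩ := this
  exact ⟨d, by simpa using hd⟩

/-- The negation of the preceding statement: For every group G partitioned into n nonempty cells that pairwise commute as sets, some cell A has the property that at most n translates of A·A⁻¹ cover G. -/
theorem result :
    ¬ (∀ (G : Type) [Group G] (n : ℕ) (A : Fin n → Set G),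
      (∀ i, (A i).Nonempty) →
      Pairwise (fun i j => Disjoint (A i) (A j)) →
      (⋃ i, A i) = Set.univ →
      (∀ i j, A i * A j = A j * A i) →
      ∃ i : Fin n, ∃ F : Finset G, F.card ≤ n ∧
        (F : Set G) * (A i * (A i)⁻¹) = Set.univ) := by
  classical
  intro H
  obtain ⟨d, hd⟩ := exists_colouring
  have hprod : ∀ i j : Fin 4, ({g : FreeGroup ℕ | d g = i} * {g : FreeGroup ℕ | d g = j} :
      Set (FreeGroup ℕ)) = Set.univ := by
    intro i j
    ext g
    simp only [Set.mem_univ, iff_true]
    obtain ⟨h1, h2⟩ : VP d (g, i, j) := hd (Sum.inr (g, i, j))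
    exact ⟨_, h1, _, h2, by simp⟩
  obtain ⟨i, F, hF, hU⟩ := H (FreeGroup ℕ) 4 (fun i => {g | d g = i}) (by
      intro i
      have h : (1 : FreeGroup ℕ) ∈ ({g : FreeGroup ℕ | d g = i} * {g : FreeGroup ℕ | d g = i} :
        Set (FreeGroup ℕ)) := by rw [hprod]; trivial
      obtain ⟨a, ha, _⟩ := h
      exact ⟨a, ha⟩) (by
      intro i j hij
      refine Set.disjoint_left.2 ?_
      intro g hg hg'
      exact hij (hg.symm.trans hg')) (by
      ext g
      simp) (by
      intro i j
      rw [hprod, hprod])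
  set S : Finset (FreeGroup ℕ) := F.image (fun f => f⁻¹) with hS
  have hSc : S.card ≤ 4 := Finset.card_image_le.trans hF
  have ht : (FreeGroup.of (lab (Sum.inl (i, S))))⁻¹ ∈
      ((F : Set (FreeGroup ℕ)) * ({g | d g = i} * ({g | d g = i})⁻¹) : Set (FreeGroup ℕ)) := by
    rw [hU]; trivial
  obtain ⟨f, hf, c, hc, hfc⟩ := ht
  obtain ⟨a, ha, b, hb, hab⟩ := hc
  have hV : VC d (f * a, i, S) := hd (Sum.inl (f * a, i, S))
  refine hV hSc f⁻¹ ?_ ⟨?_, ?_⟩
  · rw [hS]; exact Finset.mem_image_of_mem _ hf
  · have e : FreeGroup.of (lab (Sum.inl (i, S))) * (f * a) = b⁻¹ := by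
      have h1 : f * (a * b) = (FreeGroup.of (lab (Sum.inl (i, S))))⁻¹ := by
        rw [← hfc, ← hab]
      have h2 : f * a = (FreeGroup.of (lab (Sum.inl (i, S))))⁻¹ * b⁻¹ := by
        rw [← h1]; group
      rw [h2]; group
    change d (FreeGroup.of (lab (Sum.inl (i, S))) * (f * a)) = i
    rw [e]
    exact hb
  · change d (f⁻¹ * (f * a)) = i
    rw [inv_mul_cancel_left]
    exact ha

end Pool.Agent.S01146
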