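import Pool.Statements.S01461
import Pool.Agent.Lib.MP_52bd65_al.Limit

set_option autoImplicit false
open Pool Pool.MP_52bd65_al

namespace Pool.Agent.S01461

/-- There is a group with a left-invariant finitely additive probability mean on all its subsets, acting monotonically on a linearly ordered set with at least two points, such that any increasing n-tuple can be sent to any other increasing n-tuple. -/
theorem result :
    ∃ (G : Type) (_ : Group G) (X : Type) (_ : LinearOrder X) (_ : MulAction G X),
      Nontrivial X ∧
      (∀ g : G, Monotone (fun x : X => g • x)) ∧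
      (∀ n : ℕ, ∀ x y : Fin n → X, StrictMono x → StrictMono y →
        ∃ g : G, ∀ i, g • x i = y i) ∧
      (∃ m : Set G → ℝ,
        (∀ A, 0 ≤ m A) ∧ m Set.univ = 1 ∧
        (∀ A B : Set G, Disjoint A B → m (A ∪ B) = m A + m B) ∧
        (∀ (g : G) (A : Set G), m ((fun h => g * h) '' A) = m A)) := by
  refine ⟨Pool.Agent.Lib.MP_52bd65_al.LG, inferInstance, Pool.Agent.Lib.MP_52bd65_al.LX,
    inferInstance, inferInstance, Pool.Agent.Lib.MP_52bd65_al.LX_nontrivial,
    Pool.Agent.Lib.MP_52bd65_al.LG_monotone, ?_, ?_⟩
  · exact Pool.Agent.Lib.MP_52bd65_al.LG_trans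
  · exact Pool.Agent.Lib.MP_52bd65_al.FolS_LG.top.mean

end Pool.Agent.S01461
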