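import Pool.Statements.S01520

set_option autoImplicit false
open scoped Topology Manifold
open Pool Pool.MP_55fee7_al

namespace Pool.Agent.S01520

/-- Identity theorem for analytic curves in a Hausdorff analytic manifold. -/
theorem curve_identity {E : Type*} [NormedAddCommGroup E] [NormedSpace ℝ E]
    {M : Type*} [TopologicalSpace M] [T2Space M] [ChartedSpace E M]
    [IsManifold 𝓘(ℝ, E) ⊤ M]
    {f g : ℝ → M} {I : Set ℝ} (hI : IsPreconnected I)
    (hf : ∀ t ∈ I, ContMDiffAt 𝓘(ℝ, ℝ) 𝓘(ℝ, E) ⊤ f t)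
    (hg : ∀ t ∈ I, ContMDiffAt 𝓘(ℝ, ℝ) 𝓘(ℝ, E) ⊤ g t)
    {t0 : ℝ} (ht0 : t0 ∈ I) (h0 : f =ᶠ[𝓝 t0] g) : ∀ t ∈ I, f t = g t := by
  have key : I ⊆ {t | f =ᶠ[𝓝 t] g} := by
    refine hI.subset_of_closure_inter_subset isOpen_setOfPred_eventually_nhds ⟨t0, ht0, h0⟩ ?_
    rintro t ⟨htc, htI⟩
    by_cases htu : t ∈ {t | f =ᶠ[𝓝 t] g}
    · exact htu
    have hfreq : ∃ᶠ s in 𝓝[≠] t, f s = g s := by
      rw [Filter.frequently_iff]
      intro U hU
      obtain ⟨V, hVo, htV, hVU⟩ := mem_nhdsWithin.1 hU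
      obtain ⟨s, hsV, hsu⟩ := mem_closure_iff.1 htc V hVo htV
      refine ⟨s, hVU ⟨hsV, ?_⟩, Filter.EventuallyEq.eq_of_nhds hsu⟩
      rintro rfl
      exact htu hsu
    have hfc := (hf t htI).continuousAt
    have hgc := (hg t htI).continuousAt
    have hfg : f t = g t := by
      refine tendsto_nhds_unique_of_frequently_eq hfc.tendsto hgc.tendsto ?_
      exact hfreq.filter_mono nhdsWithin_le_nhds
    have hAf : AnalyticAt ℝ (extChartAt 𝓘(ℝ, E) (f t) ∘ f) t := by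
      apply ContDiffAt.analyticAt
      rw [← contMDiffAt_iff_contDiffAt]
      exact (contMDiffAt_iff_target.1 (hf t htI)).2
    have hAg : AnalyticAt ℝ (extChartAt 𝓘(ℝ, E) (f t) ∘ g) t := by
      apply ContDiffAt.analyticAt
      rw [← contMDiffAt_iff_contDiffAt, hfg]
      exact (contMDiffAt_iff_target.1 (hg t htI)).2
    have hev : ∀ᶠ z in 𝓝 t, (extChartAt 𝓘(ℝ, E) (f t) ∘ f) z
        = (extChartAt 𝓘(ℝ, E) (f t) ∘ g) z := by
      refine (hAf.frequently_eq_iff_eventually_eq hAg).1 ?_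
      refine hfreq.mono ?_
      intro s hs
      simp only [Function.comp_apply, hs]
    have hsf : ∀ᶠ z in 𝓝 t, f z ∈ (extChartAt 𝓘(ℝ, E) (f t)).source :=
      hfc.tendsto.eventually (extChartAt_source_mem_nhds (I := 𝓘(ℝ, E)) (f t))
    have hsg : ∀ᶠ z in 𝓝 t, g z ∈ (extChartAt 𝓘(ℝ, E) (f t)).source := by
      have := extChartAt_source_mem_nhds (I := 𝓘(ℝ, E)) (f t)
      rw [hfg] at this ⊢
      exact hgc.tendsto.eventually this
    show f =ᶠ[𝓝 t] g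
    filter_upwards [hev, hsf, hsg] with z hz hz1 hz2
    exact (extChartAt 𝓘(ℝ, E) (f t)).injOn hz1 hz2 hz
  intro t ht
  exact Filter.EventuallyEq.eq_of_nhds (key ht)


/-- The model space of the local loop. -/
abbrev L : Type := ℝ × ℂ × ℂ × ℂ

/-- The unit circle parametrisation. -/
noncomputable def g (b : ℝ) : ℂ := Complex.exp ((b : ℂ) * Complex.I)

theorem g_zero : g 0 = 1 := by simp [g]

theorem g_add (a b : ℝ) : g (a + b) = g a * g b := by
  simp [g, add_mul, Complex.exp_add]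

theorem g_pi : g Real.pi = -1 := by
  simp [g, Complex.exp_pi_mul_I]

theorem g_contDiff : ContDiff ℝ ⊤ g := by
  have h : ContDiff ℝ ⊤ (fun b : ℝ => (b : ℂ)) := Complex.ofRealCLM.contDiff
  have h2 : ContDiff ℝ ⊤ (fun b : ℝ => (b : ℂ) * Complex.I) := h.mul contDiff_const
  exact h2.cexp

theorem g_norm (b : ℝ) : ‖g b‖ = 1 := by
  simp [g, Complex.norm_exp_ofReal_mul_I]

/-- The local loop multiplication. -/
noncomputable def mulL (p q : L) : L :=
  (p.1 + q.1, p.2.1 + g p.1 ^ 2 * q.2.1, p.2.2.1 + g p.1 ^ 2 * q.2.2.1,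
    p.2.2.2 + g p.1 * q.2.2.2 + g p.1 * (p.2.1 * q.2.2.1 - p.2.2.1 * q.2.1)
      / ((1 + g p.1) * (1 + g q.1) * (1 + g p.1 * g q.1)))

theorem mulL_zero_left (q : L) : mulL 0 q = q := by
  simp [mulL, g_zero]

theorem mulL_zero_right (p : L) : mulL p 0 = p := by
  simp [mulL, g_zero]

theorem mulL_analyticAt : AnalyticAt ℝ (fun p : L × L => mulL p.1 p.2) (0, 0) := by
  have hg : ContDiff ℝ ⊤ g := g_contDiff
  have hg1 : AnalyticAt ℝ (fun p : L × L => g p.1.1) (0, 0) :=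
    (hg.comp (contDiff_fst.comp contDiff_fst)).contDiffAt.analyticAt
  have hg2 : AnalyticAt ℝ (fun p : L × L => g p.2.1) (0, 0) :=
    (hg.comp (contDiff_fst.comp contDiff_snd)).contDiffAt.analyticAt
  have hb1 : AnalyticAt ℝ (fun p : L × L => p.1.1) (0, 0) :=
    (contDiff_fst.comp contDiff_fst).contDiffAt.analyticAt
  have hb2 : AnalyticAt ℝ (fun p : L × L => p.2.1) (0, 0) :=
    (contDiff_fst.comp contDiff_snd).contDiffAt.analyticAt
  have hu1 : AnalyticAt ℝ (fun p : L × L => p.1.2.1) (0, 0) := by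
    apply ContDiffAt.analyticAt; fun_prop
  have hu2 : AnalyticAt ℝ (fun p : L × L => p.1.2.2.1) (0, 0) := by
    apply ContDiffAt.analyticAt; fun_prop
  have hs : AnalyticAt ℝ (fun p : L × L => p.1.2.2.2) (0, 0) := by
    apply ContDiffAt.analyticAt; fun_prop
  have hv1 : AnalyticAt ℝ (fun p : L × L => p.2.2.1) (0, 0) := by
    apply ContDiffAt.analyticAt; fun_prop
  have hv2 : AnalyticAt ℝ (fun p : L × L => p.2.2.2.1) (0, 0) := by
    apply ContDiffAt.analyticAt; fun_prop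
  have ht : AnalyticAt ℝ (fun p : L × L => p.2.2.2.2) (0, 0) := by
    apply ContDiffAt.analyticAt; fun_prop
  have hone : AnalyticAt ℝ (fun _ : L × L => (1 : ℂ)) (0, 0) := analyticAt_const
  have h1 : ((1 + g ((0, 0) : L × L).1.1) * (1 + g ((0, 0) : L × L).2.1)
      * (1 + g ((0, 0) : L × L).1.1 * g ((0, 0) : L × L).2.1)) ≠ 0 := by
    simp only [Prod.fst_zero, g_zero]
    norm_num
  exact (hb1.add hb2).prod ((hu1.add ((hg1.pow 2).mul hv1)).prod
    ((hu2.add ((hg1.pow 2).mul hv2)).prod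
      ((hs.add (hg1.mul ht)).add ((hg1.mul ((hu1.mul hv2).sub (hu2.mul hv1))).div
        (((hone.add hg1).mul (hone.add hg2)).mul (hone.add (hg1.mul hg2))) h1))))

theorem mulL_left_alt (p q : L) (h1 : 1 + g p.1 ≠ 0) (h2 : 1 + g q.1 ≠ 0)
    (h3 : 1 + g p.1 * g q.1 ≠ 0) (h4 : 1 + g p.1 ^ 2 ≠ 0)
    (h5 : 1 + g p.1 ^ 2 * g q.1 ≠ 0) :
    mulL p (mulL p q) = mulL (mulL p p) q := by
  obtain ⟨b, u1, u2, s⟩ := p
  obtain ⟨c, v1, v2, t⟩ := q
  simp only [mulL, g_add] at *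
  refine Prod.ext ?_ (Prod.ext ?_ (Prod.ext ?_ ?_))
  · simp only; ring
  · simp only; ring
  · simp only; ring
  · simp only
    generalize g b = q at *
    generalize g c = r at *
    have h6 : 1 + q * q ≠ 0 := by rwa [← pow_two]
    have h7 : 1 + q * (q * r) ≠ 0 := by
      have : q * (q * r) = q ^ 2 * r := by ring
      rwa [this]
    have h8 : 1 + q * q * r ≠ 0 := by rwa [← pow_two]
    field_simp
    ring

theorem mulL_right_alt (p q : L) (h1 : 1 + g p.1 ≠ 0) (h2 : 1 + g q.1 ≠ 0)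
    (h3 : 1 + g p.1 * g q.1 ≠ 0) (h4 : 1 + g p.1 ^ 2 ≠ 0)
    (h5 : 1 + g p.1 ^ 2 * g q.1 ≠ 0) :
    mulL (mulL q p) p = mulL q (mulL p p) := by
  obtain ⟨b, u1, u2, s⟩ := p
  obtain ⟨c, v1, v2, t⟩ := q
  simp only [mulL, g_add] at *
  refine Prod.ext ?_ (Prod.ext ?_ (Prod.ext ?_ ?_))
  · simp only; ring
  · simp only; ring
  · simp only; ring
  · simp only
    generalize g b = q at *
    generalize g c = r at *
    have h3' : 1 + r * q ≠ 0 := by rwa [mul_comm r q]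
    have h6 : 1 + q * q ≠ 0 := by rwa [← pow_two]
    have h7 : 1 + r * q * q ≠ 0 := by
      have : r * q * q = q ^ 2 * r := by ring
      rwa [this]
    have h8 : 1 + r * (q * q) ≠ 0 := by
      have : r * (q * q) = q ^ 2 * r := by ring
      rwa [this]
    have h9 : 1 + r * q ^ 2 ≠ 0 := by rwa [mul_comm r (q ^ 2)]
    field_simp
    ring


/-- The local loop of this file cannot be realised inside a global analytic loop
with power alternativity near the identity: two expressions of the same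
one-parameter curve differ by a nontrivial element of the centre direction. -/
theorem no_global {E : Type*} [NormedAddCommGroup E] [NormedSpace ℝ E] [CompleteSpace E]
    {M : Type*} [TopologicalSpace M] [T2Space M] [ChartedSpace E M]
    [IsManifold 𝓘(ℝ, E) ⊤ M]
    (mul rdiv : M → M → M) (o : M) (Φ : L → M) (Ψ : M → L)
    (hone : ∀ x, mul o x = x)
    (hrdiv : ∀ a b, rdiv (mul b a) a = b)
    (hmul : ContMDiff (𝓘(ℝ, E).prod 𝓘(ℝ, E)) 𝓘(ℝ, E) ⊤ (fun p : M × M => mul p.1 p.2))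
    (hΦ0 : Φ 0 = o)
    (hΦ : ContMDiffAt 𝓘(ℝ, L) 𝓘(ℝ, E) ⊤ Φ 0)
    (hΨ : ∀ᶠ p in 𝓝 (0 : L), Ψ (Φ p) = p)
    (hhom : ∀ᶠ p in 𝓝 ((0, 0) : L × L), Φ (mulL p.1 p.2) = mul (Φ p.1) (Φ p.2)) :
    False := by
  -- a good ball
  have hΦev : ∀ᶠ p in 𝓝 (0 : L), ContMDiffAt 𝓘(ℝ, L) 𝓘(ℝ, E) ⊤ Φ p :=
    (contMDiffAt_iff_contMDiffAt_nhds (by simp)).1 hΦ
  obtain ⟨ε, hε, hball⟩ := Metric.eventually_nhds_iff.1 (hΦev.and hΨ)
  have hball' : ∀ p : L, ‖p‖ < ε → ContMDiffAt 𝓘(ℝ, L) 𝓘(ℝ, E) ⊤ Φ p ∧ Ψ (Φ p) = p := by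
    intro p hp
    exact hball (by simpa [dist_zero_right] using hp)
  -- products of analytic curves
  have hmulc : ∀ (f g : ℝ → M) (t : ℝ), ContMDiffAt 𝓘(ℝ, ℝ) 𝓘(ℝ, E) ⊤ f t →
      ContMDiffAt 𝓘(ℝ, ℝ) 𝓘(ℝ, E) ⊤ g t →
      ContMDiffAt 𝓘(ℝ, ℝ) 𝓘(ℝ, E) ⊤ (fun s => mul (f s) (g s)) t := by
    intro f g t hf hg
    exact (hmul.contMDiffAt (x := (f t, g t))).comp t (hf.prodMk hg)
  set sq : M → M := fun x => mul x x with hsq
  -- iterated squares
  have hsqc : ∀ (n : ℕ) (f : ℝ → M) (t : ℝ), ContMDiffAt 𝓘(ℝ, ℝ) 𝓘(ℝ, E) ⊤ f t →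
      ContMDiffAt 𝓘(ℝ, ℝ) 𝓘(ℝ, E) ⊤ (fun s => sq^[n] (f s)) t := by
    intro n
    induction n with
    | zero => intro f t hf; simpa using hf
    | succ n ih =>
      intro f t hf
      simp only [Function.iterate_succ, Function.comp_apply]
      exact ih _ t (hmulc f f t hf hf)
  -- curves in the model space
  have hΦcurve : ∀ (c : ℝ → L) (t : ℝ), ContDiffAt ℝ ⊤ c t → ‖c t‖ < ε →
      ContMDiffAt 𝓘(ℝ, ℝ) 𝓘(ℝ, E) ⊤ (fun s => Φ (c s)) t := by
    intro c t hc hct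
    exact (hball' (c t) hct).1.comp t hc.contMDiffAt
  have hhomc : ∀ (c d : ℝ → L), Continuous c → Continuous d → c 0 = 0 → d 0 = 0 →
      ∀ᶠ t in 𝓝 (0 : ℝ), Φ (mulL (c t) (d t)) = mul (Φ (c t)) (Φ (d t)) := by
    intro c d hc hd hc0 hd0
    have h1 : Filter.Tendsto (fun t : ℝ => (c t, d t)) (𝓝 0) (𝓝 ((0, 0) : L × L)) := by
      have h2 : Continuous (fun t : ℝ => (c t, d t)) := hc.prodMk hd
      have h3 := h2.tendsto 0
      simp only [hc0, hd0] at h3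
      exact h3
    exact h1.eventually hhom
  -- the one-parameter curve of the first basis vector
  have hZev : ∀ n : ℕ, ∀ᶠ t in 𝓝 (0 : ℝ),
      sq^[n] (Φ ((t * Real.pi / 2 ^ n, 0, 0, 0) : L)) = Φ ((t * Real.pi, 0, 0, 0) : L) := by
    intro n
    induction n with
    | zero => simp
    | succ n ih =>
      have h1 := hhomc (fun t => ((t * Real.pi / 2 ^ (n + 1), 0, 0, 0) : L))
        (fun t => ((t * Real.pi / 2 ^ (n + 1), 0, 0, 0) : L))
        (by fun_prop) (by fun_prop) (by simp) (by simp)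
      filter_upwards [ih, h1] with t ht1 ht2
      rw [Function.iterate_succ, Function.comp_apply]
      have h3 : sq (Φ ((t * Real.pi / 2 ^ (n + 1), 0, 0, 0) : L))
          = Φ ((t * Real.pi / 2 ^ n, 0, 0, 0) : L) := by
        rw [hsq]
        simp only
        rw [← ht2]
        congr 1
        simp only [mulL]
        refine Prod.ext ?_ (Prod.ext ?_ (Prod.ext ?_ ?_))
        · simp only; rw [pow_succ]; field_simp; ring
        · simp
        · simp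
        · simp
      rw [h3, ht1]
  obtain ⟨N, hN⟩ : ∃ N : ℕ, 2 * Real.pi / 2 ^ N < ε := by
    obtain ⟨N, hN⟩ := pow_unbounded_of_one_lt (2 * Real.pi / ε) (one_lt_two : (1 : ℝ) < 2)
    refine ⟨N, ?_⟩
    rw [div_lt_iff₀ hε] at hN
    rw [div_lt_iff₀ (by positivity)]
    linarith [mul_comm (2 ^ N : ℝ) ε]
  set Z : ℝ → M := fun t => sq^[N] (Φ ((t * Real.pi / 2 ^ N, 0, 0, 0) : L)) with hZ
  have hZc : ∀ t ∈ Set.Ioo (-2 : ℝ) 2, ContMDiffAt 𝓘(ℝ, ℝ) 𝓘(ℝ, E) ⊤ Z t := by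
    intro t ht
    refine hsqc N _ t (hΦcurve (fun t => ((t * Real.pi / 2 ^ N, 0, 0, 0) : L)) t ?_ ?_)
    · fun_prop
    · have h1 : |t| < 2 := abs_lt.2 ht
      have h2 : ‖((t * Real.pi / 2 ^ N, 0, 0, 0) : L)‖ = |t| * Real.pi / 2 ^ N := by
        rw [Prod.norm_mk]
        simp [abs_of_pos Real.pi_pos]
        positivity
      rw [h2]
      refine lt_of_le_of_lt ?_ hN
      gcongr
  -- the small parameter
  obtain ⟨δ, hδ, hδ1, hδ2⟩ : ∃ δ : ℝ, 0 < δ ∧ 2 * δ < ε ∧ 2 * δ ^ 2 < ε := by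
    refine ⟨min 1 ε / 4, by positivity, ?_, ?_⟩
    · have := min_le_right 1 ε
      linarith
    · have h1 := min_le_right 1 ε
      have h2 := min_le_left 1 ε
      have h3 : 0 < min 1 ε := by positivity
      nlinarith
  set h : ℝ → ℂ := fun t => g (t * Real.pi) ^ 2 - 1 with hh
  set κ : ℝ → ℂ := fun t => (g (t * Real.pi) - 1) ^ 2 / 2 with hκ
  have hgc : ContDiff ℝ ⊤ (fun t : ℝ => g (t * Real.pi)) :=
    g_contDiff.comp (contDiff_id.mul contDiff_const)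
  have hhc : ContDiff ℝ ⊤ h := (hgc.pow 2).sub contDiff_const
  have hκc : ContDiff ℝ ⊤ κ := ((hgc.sub contDiff_const).pow 2).div_const 2
  have hhb : ∀ t, ‖h t‖ ≤ 2 := by
    intro t
    refine (norm_sub_le _ _).trans ?_
    rw [norm_pow, g_norm]
    norm_num
  have hκb : ∀ t, ‖κ t‖ ≤ 2 := by
    intro t
    simp only [hκ, norm_div, norm_pow]
    have h1 : ‖g (t * Real.pi) - 1‖ ≤ 2 := by
      refine (norm_sub_le _ _).trans ?_
      rw [g_norm]
      norm_num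
    have h2 : ‖g (t * Real.pi) - 1‖ ^ 2 ≤ 2 ^ 2 := by gcongr
    have h3 : ‖(2 : ℂ)‖ = 2 := by norm_num
    rw [h3]
    linarith
  -- the curves
  set cA : ℝ → L := fun t => (0, 0, h t * δ, κ t * δ ^ 2) with hcA
  set cU : ℝ → L := fun t => (0, h t * δ, 0, 0) with hcU
  set cW : ℝ → L := fun t => (0, h t * δ, h t * δ, 0) with hcW
  have hcAc : ContDiff ℝ ⊤ cA :=
    contDiff_const.prodMk (contDiff_const.prodMk
      ((hhc.mul contDiff_const).prodMk (hκc.mul contDiff_const)))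
  have hcUc : ContDiff ℝ ⊤ cU :=
    contDiff_const.prodMk ((hhc.mul contDiff_const).prodMk
      (contDiff_const.prodMk contDiff_const))
  have hcWc : ContDiff ℝ ⊤ cW :=
    contDiff_const.prodMk ((hhc.mul contDiff_const).prodMk
      ((hhc.mul contDiff_const).prodMk contDiff_const))
  have hδn : ‖(δ : ℂ)‖ = δ := by
    rw [Complex.norm_real, Real.norm_of_nonneg hδ.le]
  have hb1 : ∀ t, ‖h t * δ‖ < ε := by
    intro t
    rw [norm_mul, hδn]
    refine lt_of_le_of_lt ?_ hδ1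
    gcongr
    exact hhb t
  have hb2 : ∀ t, ‖κ t * δ ^ 2‖ < ε := by
    intro t
    rw [norm_mul, norm_pow, hδn]
    refine lt_of_le_of_lt ?_ hδ2
    gcongr
    exact hκb t
  have hcAb : ∀ t, ‖cA t‖ < ε := by
    intro t
    simp only [hcA, Prod.norm_mk, norm_zero, sup_lt_iff]
    exact ⟨hε, hε, hb1 t, hb2 t⟩
  have hcUb : ∀ t, ‖cU t‖ < ε := by
    intro t
    simp only [hcU, Prod.norm_mk, norm_zero, sup_lt_iff]
    exact ⟨hε, hb1 t, hε, hε⟩
  have hcWb : ∀ t, ‖cW t‖ < ε := by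
    intro t
    simp only [hcW, Prod.norm_mk, norm_zero, sup_lt_iff]
    exact ⟨hε, hb1 t, hb1 t, hε⟩
  have hg0 : g ((0 : ℝ) * Real.pi) = 1 := by rw [zero_mul, g_zero]
  have hh0 : h 0 = 0 := by simp [hh, g_zero]
  have hκ0 : κ 0 = 0 := by simp [hκ, g_zero]
  have hcA0 : cA 0 = 0 := by simp [hcA, hh0, hκ0]
  have hcU0 : cU 0 = 0 := by simp [hcU, hh0]
  have hcW0 : cW 0 = 0 := by simp [hcW, hh0]
  set z : ℝ → L := fun t => (t * Real.pi, 0, 0, 0) with hz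
  have hzc : Continuous z := by
    rw [hz]
    fun_prop
  have hz0 : z 0 = 0 := by simp [hz]
  have hZ0 : ∀ᶠ t in 𝓝 (0 : ℝ), Z t = Φ (z t) := hZev N
  -- the two global curves
  have hF : ∀ t ∈ Set.Ioo (-2 : ℝ) 2,
      ContMDiffAt 𝓘(ℝ, ℝ) 𝓘(ℝ, E) ⊤ (fun t => mul (Φ (cW t)) (Z t)) t := by
    intro t ht
    exact hmulc _ _ t (hΦcurve cW t hcWc.contDiffAt (hcWb t)) (hZc t ht)
  have hG : ∀ t ∈ Set.Ioo (-2 : ℝ) 2,
      ContMDiffAt 𝓘(ℝ, ℝ) 𝓘(ℝ, E) ⊤
        (fun t => mul (Φ (cA t)) (mul (Φ (cU t)) (Z t))) t := by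
    intro t ht
    exact hmulc _ _ t (hΦcurve cA t hcAc.contDiffAt (hcAb t))
      (hmulc _ _ t (hΦcurve cU t hcUc.contDiffAt (hcUb t)) (hZc t ht))
  have hmulLc : ContinuousAt (fun t : ℝ => mulL (cU t) (z t)) 0 := by
    have h1 : ContinuousAt (fun p : L × L => mulL p.1 p.2) (cU 0, z 0) := by
      rw [hcU0, hz0]
      exact mulL_analyticAt.continuousAt
    exact h1.comp (f := fun t : ℝ => (cU t, z t))
      (hcUc.continuous.prodMk hzc).continuousAt
  have hloc : (fun t => mul (Φ (cW t)) (Z t)) =ᶠ[𝓝 0]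
      (fun t => mul (Φ (cA t)) (mul (Φ (cU t)) (Z t))) := by
    have e1 := hhomc cW z hcWc.continuous hzc hcW0 hz0
    have e2 := hhomc cU z hcUc.continuous hzc hcU0 hz0
    have e3 : ∀ᶠ t in 𝓝 (0 : ℝ), Φ (mulL (cA t) (mulL (cU t) (z t)))
        = mul (Φ (cA t)) (Φ (mulL (cU t) (z t))) := by
      have h1 : Filter.Tendsto (fun t : ℝ => (cA t, mulL (cU t) (z t))) (𝓝 0)
          (𝓝 ((0, 0) : L × L)) := by
        have h2 := (hcAc.continuous.continuousAt (x := (0 : ℝ))).prodMk hmulLc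
        have h3 := h2.tendsto
        simp only [hcA0, hcU0, hz0, mulL_zero_left] at h3
        exact h3
      exact h1.eventually hhom
    have e4 : ∀ᶠ t in 𝓝 (0 : ℝ), 1 + g (t * Real.pi) ≠ 0 := by
      have h1 : ContinuousAt (fun t : ℝ => 1 + g (t * Real.pi)) 0 :=
        (continuous_const.add hgc.continuous).continuousAt
      refine h1.eventually_ne ?_
      rw [hg0]
      norm_num
    filter_upwards [e1, e2, e3, e4, hZ0] with t h1 h2 h3 h4 h5
    rw [h5, ← h1, ← h2, ← h3]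
    congr 1
    simp only [hcW, hcA, hcU, hz, hh, hκ, mulL, g_zero, zero_add]
    refine Prod.ext ?_ (Prod.ext ?_ (Prod.ext ?_ ?_))
    · simp
    · simp
    · simp
    · simp only
      generalize g (t * Real.pi) = q at *
      field_simp
      ring
  have hfin := curve_identity (E := E) isPreconnected_Ioo hF hG
    (by norm_num : (0 : ℝ) ∈ Set.Ioo (-2 : ℝ) 2) hloc 1 (by norm_num)
  have hh1 : h 1 = 0 := by simp [hh, g_pi]
  have hκ1 : κ 1 = 2 := by
    simp only [hκ, one_mul, g_pi]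
    norm_num
  have hcU1 : cU 1 = 0 := by simp [hcU, hh1]
  have hcW1 : cW 1 = 0 := by simp [hcW, hh1]
  have hcA1 : cA 1 = (0, 0, 0, 2 * (δ : ℂ) ^ 2) := by simp [hcA, hh1, hκ1]
  simp only [hcU1, hcW1, hcA1, hΦ0, hone] at hfin
  have hend : Φ ((0, 0, 0, 2 * (δ : ℂ) ^ 2) : L) = o := by
    have h1 := hrdiv (Z 1) (Φ ((0, 0, 0, 2 * (δ : ℂ) ^ 2) : L))
    rw [← hfin] at h1
    rw [← h1]
    have h2 := hrdiv (Z 1) o
    rwa [hone] at h2
  have hA1 := (hball' (cA 1) (hcAb 1)).2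
  rw [hcA1, hend, ← hΦ0, (hball' 0 (by simpa using hε)).2] at hA1
  have h7 : (0 : ℂ) = 2 * (δ : ℂ) ^ 2 := congrArg (fun p : L => p.2.2.2) hA1
  have h8 : (δ : ℂ) ≠ 0 := by
    exact_mod_cast hδ.ne'
  have h9 : 2 * (δ : ℂ) ^ 2 ≠ 0 := mul_ne_zero two_ne_zero (pow_ne_zero 2 h8)
  exact h9 h7.symm

theorem finrank_L : Module.finrank ℝ (EuclideanSpace ℝ (Fin 7)) = Module.finrank ℝ L := by
  simp [L, Module.finrank_prod, Complex.finrank_real_complex]

/-- The negation of the preceding statement: Every real-analytic local loop germ at 0 in ℝⁿ satisfying both alternative laws near 0 is locally analytically isomorphic, near the identity, to a global Hausdorff analytic alternative loop with analytic multiplication and divisions. -/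
theorem result :
    ¬ (∀ (n : ℕ) (m : EuclideanSpace ℝ (Fin n) → EuclideanSpace ℝ (Fin n) → EuclideanSpace ℝ (Fin n)),
    AnalyticAt ℝ (fun p : EuclideanSpace ℝ (Fin n) × EuclideanSpace ℝ (Fin n) => m p.1 p.2) (0, 0) →
    (∀ᶠ x in 𝓝 (0 : EuclideanSpace ℝ (Fin n)), m 0 x = x ∧ m x 0 = x) →
    (∀ᶠ p in 𝓝 ((0, 0) : EuclideanSpace ℝ (Fin n) × EuclideanSpace ℝ (Fin n)),
        m p.1 (m p.1 p.2) = m (m p.1 p.1) p.2 ∧ m (m p.2 p.1) p.1 = m p.2 (m p.1 p.1)) →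
    ∃ (M : Type) (_ : TopologicalSpace M) (_ : T2Space M)
      (_ : ChartedSpace (EuclideanSpace ℝ (Fin n)) M)
      (_ : IsManifold 𝓘(ℝ, EuclideanSpace ℝ (Fin n)) ⊤ M)
      (mul ldiv rdiv : M → M → M) (e : M)
      (φ : EuclideanSpace ℝ (Fin n) → M) (ψ : M → EuclideanSpace ℝ (Fin n)),
      (∀ x : M, mul e x = x ∧ mul x e = x) ∧
      (∀ a b : M, mul a (ldiv a b) = b ∧ ldiv a (mul a b) = b ∧
        mul (rdiv b a) a = b ∧ rdiv (mul b a) a = b) ∧
      (∀ x y : M, mul x (mul x y) = mul (mul x x) y ∧ mul (mul y x) x = mul y (mul x x)) ∧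
      ContMDiff (𝓘(ℝ, EuclideanSpace ℝ (Fin n)).prod 𝓘(ℝ, EuclideanSpace ℝ (Fin n)))
        𝓘(ℝ, EuclideanSpace ℝ (Fin n)) ⊤ (fun p : M × M => mul p.1 p.2) ∧
      ContMDiff (𝓘(ℝ, EuclideanSpace ℝ (Fin n)).prod 𝓘(ℝ, EuclideanSpace ℝ (Fin n)))
        𝓘(ℝ, EuclideanSpace ℝ (Fin n)) ⊤ (fun p : M × M => ldiv p.1 p.2) ∧
      ContMDiff (𝓘(ℝ, EuclideanSpace ℝ (Fin n)).prod 𝓘(ℝ, EuclideanSpace ℝ (Fin n)))
        𝓘(ℝ, EuclideanSpace ℝ (Fin n)) ⊤ (fun p : M × M => rdiv p.1 p.2) ∧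
      φ 0 = e ∧
      ContMDiffAt 𝓘(ℝ, EuclideanSpace ℝ (Fin n)) 𝓘(ℝ, EuclideanSpace ℝ (Fin n)) ⊤ φ 0 ∧
      ContMDiffAt 𝓘(ℝ, EuclideanSpace ℝ (Fin n)) 𝓘(ℝ, EuclideanSpace ℝ (Fin n)) ⊤ ψ e ∧
      (∀ᶠ x in 𝓝 (0 : EuclideanSpace ℝ (Fin n)), ψ (φ x) = x) ∧
      (∀ᶠ y in 𝓝 e, φ (ψ y) = y) ∧
      (∀ᶠ p in 𝓝 ((0, 0) : EuclideanSpace ℝ (Fin n) × EuclideanSpace ℝ (Fin n)),
        φ (m p.1 p.2) = mul (φ p.1) (φ p.2))) := by
  intro H
  let E7 := EuclideanSpace ℝ (Fin 7)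
  let J : E7 ≃L[ℝ] L := ContinuousLinearEquiv.ofFinrankEq finrank_L
  have hJ0 : J 0 = 0 := map_zero J
  have hJs0 : J.symm 0 = 0 := map_zero J.symm
  have A1 : AnalyticAt ℝ (fun p : E7 × E7 => J.symm (mulL (J p.1) (J p.2))) (0, 0) := by
    have ha : AnalyticAt ℝ (fun p : E7 × E7 => (J p.1, J p.2)) (0, 0) := by
      apply ContDiffAt.analyticAt
      exact ((J.contDiff.comp contDiff_fst).prodMk (J.contDiff.comp contDiff_snd)).contDiffAt
    have hb : AnalyticAt ℝ (fun p : L × L => mulL p.1 p.2)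
        ((fun p : E7 × E7 => (J p.1, J p.2)) (0, 0)) := by
      simp only [hJ0]
      exact mulL_analyticAt
    have hc := AnalyticAt.comp (g := fun p : L × L => mulL p.1 p.2)
      (f := fun p : E7 × E7 => (J p.1, J p.2)) hb ha
    exact AnalyticAt.comp (g := J.symm) (J.symm.toContinuousLinearMap.analyticAt _) hc
  have A2 : ∀ᶠ x in 𝓝 (0 : E7), J.symm (mulL (J 0) (J x)) = x ∧
      J.symm (mulL (J x) (J 0)) = x := by
    refine Filter.Eventually.of_forall fun x => ?_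
    simp only [hJ0, mulL_zero_left, mulL_zero_right, ContinuousLinearEquiv.symm_apply_apply,
      and_self]
  have A3 : ∀ᶠ p in 𝓝 ((0, 0) : E7 × E7),
      J.symm (mulL (J p.1) (J (J.symm (mulL (J p.1) (J p.2)))))
        = J.symm (mulL (J (J.symm (mulL (J p.1) (J p.1)))) (J p.2)) ∧
      J.symm (mulL (J (J.symm (mulL (J p.2) (J p.1)))) (J p.1))
        = J.symm (mulL (J p.2) (J (J.symm (mulL (J p.1) (J p.1))))) := by
    have hgc : Continuous g := g_contDiff.continuous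
    have hp1 : ContinuousAt (fun p : E7 × E7 => g (J p.1).1) (0, 0) :=
      (hgc.comp (continuous_fst.comp (J.continuous.comp continuous_fst))).continuousAt
    have hp2 : ContinuousAt (fun p : E7 × E7 => g (J p.2).1) (0, 0) :=
      (hgc.comp (continuous_fst.comp (J.continuous.comp continuous_snd))).continuousAt
    have c1 : ∀ᶠ p in 𝓝 ((0, 0) : E7 × E7), 1 + g (J p.1).1 ≠ 0 := by
      refine (continuousAt_const.add hp1).eventually_ne ?_
      simp only [Pi.add_apply, Pi.mul_apply, Pi.pow_apply, hJ0, Prod.fst_zero, g_zero]; norm_num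
    have c2 : ∀ᶠ p in 𝓝 ((0, 0) : E7 × E7), 1 + g (J p.2).1 ≠ 0 := by
      refine (continuousAt_const.add hp2).eventually_ne ?_
      simp only [Pi.add_apply, Pi.mul_apply, Pi.pow_apply, hJ0, Prod.fst_zero, g_zero]; norm_num
    have c3 : ∀ᶠ p in 𝓝 ((0, 0) : E7 × E7), 1 + g (J p.1).1 * g (J p.2).1 ≠ 0 := by
      refine (continuousAt_const.add (hp1.mul hp2)).eventually_ne ?_
      simp only [Pi.add_apply, Pi.mul_apply, Pi.pow_apply, hJ0, Prod.fst_zero, g_zero]; norm_num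
    have c4 : ∀ᶠ p in 𝓝 ((0, 0) : E7 × E7), 1 + g (J p.1).1 ^ 2 ≠ 0 := by
      refine (continuousAt_const.add (hp1.pow 2)).eventually_ne ?_
      simp only [Pi.add_apply, Pi.mul_apply, Pi.pow_apply, hJ0, Prod.fst_zero, g_zero]; norm_num
    have c5 : ∀ᶠ p in 𝓝 ((0, 0) : E7 × E7), 1 + g (J p.1).1 ^ 2 * g (J p.2).1 ≠ 0 := by
      refine (continuousAt_const.add ((hp1.pow 2).mul hp2)).eventually_ne ?_
      simp only [Pi.add_apply, Pi.mul_apply, Pi.pow_apply, hJ0, Prod.fst_zero, g_zero]; norm_num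
    filter_upwards [c1, c2, c3, c4, c5] with p d1 d2 d3 d4 d5
    simp only [ContinuousLinearEquiv.apply_symm_apply]
    exact ⟨congrArg J.symm (mulL_left_alt _ _ d1 d2 d3 d4 d5),
      congrArg J.symm (mulL_right_alt _ _ d1 d2 d3 d4 d5)⟩
  obtain ⟨M, _, _, _, _, mul, ldiv, rdiv, e, φ, ψ, h1, h2, h3, h4, h5, h6, h7, h8, h9, h10,
    h11, h12⟩ := H 7 (fun x y => J.symm (mulL (J x) (J y))) A1 A2 A3
  refine no_global (E := EuclideanSpace ℝ (Fin 7)) mul rdiv e (fun p => φ (J.symm p))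
    (fun y => J (ψ y)) (fun x => (h1 x).1) (fun a b => (h2 a b).2.2.2) h4 ?_ ?_ ?_ ?_
  · simp only [hJs0, h7]
  · have hs : ContMDiffAt 𝓘(ℝ, L) 𝓘(ℝ, E7) ⊤ J.symm 0 :=
      J.symm.contDiff.contDiffAt.contMDiffAt
    have h8' : ContMDiffAt 𝓘(ℝ, E7) 𝓘(ℝ, E7) ⊤ φ (J.symm 0) := by
      rw [hJs0]; exact h8
    exact h8'.comp 0 hs
  · have hs : Filter.Tendsto J.symm (𝓝 0) (𝓝 0) := by
      have := J.symm.continuous.tendsto 0
      rwa [hJs0] at this
    filter_upwards [hs.eventually h10] with p hp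
    rw [hp]
    simp
  · have hs : Filter.Tendsto (fun p : L × L => (J.symm p.1, J.symm p.2)) (𝓝 (0, 0))
        (𝓝 ((0, 0) : E7 × E7)) := by
      have h := ((J.symm.continuous.comp continuous_fst).prodMk
        (J.symm.continuous.comp continuous_snd)).tendsto ((0, 0) : L × L)
      simp only [Function.comp_apply, hJs0] at h
      exact h
    filter_upwards [hs.eventually h12] with p hp
    simpa using hp

end Pool.Agent.S01520
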