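import Pool.Statements.S01602
import Pool.Agent.Lib.MP_5d0ca0_al.Main

set_option autoImplicit false
open Pool Pool.MP_5d0ca0_al

namespace Pool.Agent.S01602

open Pool.Agent.Lib.MP_5d0ca0_al in
/-- The negation of the preceding statement: For every compact totally disconnected group G whose open normal subgroups have p-power index (pro-p), if every closed subnormal subgroup is topologically finitely generated, then the number of infinite-index steps in finite closed subnormal series from ⊥ to ⊤ is uniformly bounded. -/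
theorem result :
    ¬ (∀ (G : Type) [Group G] [TopologicalSpace G] [IsTopologicalGroup G]
      [CompactSpace G] [TotallyDisconnectedSpace G] (p : ℕ), p.Prime →
      (∀ N : Subgroup G, IsOpen (N : Set G) → N.Normal → ∃ k : ℕ, N.index = p ^ k) →
      (∀ H : Subgroup G, IsClosed (H : Set G) →
        (∃ n : ℕ, ∃ s : Fin (n + 1) → Subgroup G, s 0 = H ∧ s (Fin.last n) = ⊤ ∧
          ∀ i : Fin n, IsClosed (s i.castSucc : Set G) ∧ s i.castSucc ≤ s i.succ ∧
            ((s i.castSucc).subgroupOf (s i.succ)).Normal) →
        ∃ S : Finset G, (Subgroup.closure (S : Set G)).topologicalClosure = H) →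
      ∃ N : ℕ, ∀ n : ℕ, ∀ s : Fin (n + 1) → Subgroup G, s 0 = ⊥ → s (Fin.last n) = ⊤ →
        (∀ i : Fin n, IsClosed (s i.castSucc : Set G) ∧ s i.castSucc ≤ s i.succ ∧
            ((s i.castSucc).subgroupOf (s i.succ)).Normal) →
        (Finset.univ.filter (fun i : Fin n => (s i.castSucc).relIndex (s i.succ) = 0)).card ≤ N) := by
  intro H
  obtain ⟨N, hN⟩ := H (GG : Type) 3 (by norm_num) (fun N h1 h2 => pro3 N h1 h2) (by
    rintro H hH ⟨n, s, h0, h1, h2⟩
    have h := subnormal_tfg TFG_top JI NA open_ne_bot n s h1 h2 0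
    rw [h0] at h
    exact h)
  obtain ⟨n, s, h0, h1, h2, h3⟩ := chain_GG (N + 1)
  have h4 := hN n s h0 h1 h2
  omega

end Pool.Agent.S01602
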