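import Pool.Statements.S01800
import Pool.Agent.Lib.MP_6afe75_al.InfPart

set_option autoImplicit false
open Pool Pool.MP_6afe75_al

namespace Pool.Agent.S01800

open Pool.Agent.Lib.MP_6afe75_al in
theorem no_finite {B : Type} [Finite B] (g : LatticeHom L (Setoid B)) (hinj : Function.Injective g)
    (hg : ∀ (x y : L) (a b : B), (g (x ⊔ y)).r a b ↔ ∃ c : B, (g x).r a c ∧ (g y).r c b) :
    False := by
  let G2 : LatticeHom (Submodule (ZMod 2) V2) (Setoid B) := g.comp lo
  let G3 : LatticeHom (Submodule (ZMod 3) V3) (Setoid B) := g.comp up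
  have hG2 : ∀ (x y : Submodule (ZMod 2) V2) (a b : B),
      (G2 (x ⊔ y)) a b ↔ ∃ c : B, (G2 x) a c ∧ (G2 y) c b := by
    intro x y a b
    have h1 : G2 (x ⊔ y) = g (lo x ⊔ lo y) := by
      change g (lo (x ⊔ y)) = _
      rw [map_sup]
    rw [h1]
    exact hg (lo x) (lo y) a b
  have hG3 : ∀ (x y : Submodule (ZMod 3) V3) (a b : B),
      (G3 (x ⊔ y)) a b ↔ ∃ c : B, (G3 x) a c ∧ (G3 y) c b := by
    intro x y a b
    have h1 : G3 (x ⊔ y) = g (up x ⊔ up y) := by
      change g (up (x ⊔ y)) = _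
      rw [map_sup]
    rw [h1]
    exact hg (up x) (up y) a b
  have P2 := planeRep_of_hom G2 hG2
  have P3 := planeRep_of_hom G3 hG3
  have eT : G2 ⊤ = G3 atomP := congrArg g lo_top
  have eL : G2 lineL = G3 ⊥ := congrArg g lo_line
  -- a base point in a nontrivial class
  have hne : G2 ⊤ ≠ G2 lineL := fun h => lo_ne (hinj h)
  have hex : ∃ o c, (G2 ⊤) o c ∧ ¬ (G2 lineL) o c := by
    by_contra hcon
    push Not at hcon
    apply hne
    apply le_antisymm
    · intro a b hab
      exact hcon a b hab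
    · exact OrderHomClass.mono G2 le_top
  obtain ⟨o, c, hoc, hnoc⟩ := hex
  have hF2 : G2 (Hp 1 1 0) ⊓ G2 (Hp 0 1 1) ≤ G2 (Hp 1 0 1) := by
    rw [← map_inf]
    apply OrderHomClass.mono G2
    rintro v ⟨h1, h2⟩
    rw [SetLike.mem_coe, mem_Hp] at h1 h2
    rw [mem_Hp]
    have h4 : (2 : ZMod 2) = 0 := rfl
    linear_combination h1 + h2 - v 1 * h4
  have hF3 : G3 (Hp 1 1 0) ⊓ G3 (Hp 0 1 1) ⊓ G3 (Hp 1 0 1) ≤ G3 (Hp 1 0 0) := by
    rw [← map_inf, ← map_inf]
    apply OrderHomClass.mono G3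
    rintro v ⟨⟨h1, h2⟩, h3⟩
    rw [SetLike.mem_coe, mem_Hp] at h1 h2 h3
    rw [mem_Hp]
    have h4 : (3 : ZMod 3) = 0 := rfl
    linear_combination 2 * h1 - 2 * h2 + 2 * h3 - v 0 * h4
  have even := even_card P2 hF2 o ⟨c, hoc, hnoc⟩
  have odd := odd_card P3 hF3 o
  have hP : (atomP : Submodule (ZMod 3) V3) ⊔ Hp 1 1 1 = ⊤ := by
    rw [eq_top_iff]
    intro v _
    rw [Submodule.mem_sup]
    refine ⟨![v 0 + v 1 + v 2, 0, 0], by rw [mem_atomP]; simp, ![- (v 1 + v 2), v 1, v 2], ?_, ?_⟩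
    · simp [mem_Hp]
    · ext i
      fin_cases i
      · simp only [Fin.zero_eta, Fin.isValue, Pi.add_apply, Matrix.cons_val_zero]
        ring
      · simp
      · simp
  have hcard := card_coord_eq (G3 ⊤) (G3 (Hp 1 1 1)) (G3 atomP) (G3 ⊥) o
    (OrderHomClass.mono G3 le_top) (OrderHomClass.mono G3 bot_le)
    (by
      rw [← map_inf]
      apply OrderHomClass.mono G3
      rintro v ⟨h1, h2⟩
      rw [SetLike.mem_coe] at h1 h2
      rw [mem_atomP] at h1
      rw [mem_Hp, h1.1, h1.2] at h2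
      rw [Submodule.mem_bot]
      ext j
      fin_cases j
      · simpa using h2
      · exact h1.1
      · exact h1.2)
    (by
      intro d hd
      rw [← hP] at hd
      exact (hG3 _ _ o d).1 hd)
  rw [eT, eL] at even
  rw [hcard] at even
  exact odd even

/-- The negation of the preceding statement: Every finite lattice that embeds into the equivalence relations on some set, with each join realized as relational composition, also has such an embedding on a finite set. -/
theorem result :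
    ¬ (∀ (L : Type) [Lattice L] [Finite L],
      (∃ (A : Type) (f : LatticeHom L (Setoid A)), Function.Injective f ∧
        ∀ (x y : L) (a b : A), (f (x ⊔ y)).r a b ↔ ∃ c : A, (f x).r a c ∧ (f y).r c b) →
      (∃ (B : Type) (_ : Finite B) (g : LatticeHom L (Setoid B)), Function.Injective g ∧
        ∀ (x y : L) (a b : B), (g (x ⊔ y)).r a b ↔ ∃ c : B, (g x).r a c ∧ (g y).r c b)) := by
  intro H
  obtain ⟨B, hB, g, hinj, hg⟩ := @H Pool.Agent.Lib.MP_6afe75_al.L _
    Pool.Agent.Lib.MP_6afe75_al.finite_L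
    ⟨Pool.Agent.Lib.MP_6afe75_al.A,
      Pool.Agent.Lib.MP_6afe75_al.L.subtype,
      Subtype.val_injective,
      Pool.Agent.Lib.MP_6afe75_al.incl_comp⟩
  exact no_finite g hinj hg

end Pool.Agent.S01800
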