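import Pool.Statements.S01925
import Pool.Agent.Lib.MP_74ab55_al.Final

set_option autoImplicit false
open Pool Pool.MP_74ab55_al

namespace Pool.Agent.S01925

/-- In every group with a two-sided invariant linear order, the elements g for which some fixed n makes the n-fold commutator [x,g,…,g] trivial for all x form exactly a subgroup. -/
theorem result :
    ∀ (G : Type) [Group G] [LinearOrder G] [MulLeftMono G] [MulRightMono G],
      ∃ H : Subgroup G, ∀ g : G,
        g ∈ H ↔ ∃ n : ℕ, ∀ x : G, (fun y : G => y⁻¹ * g⁻¹ * y * g)^[n] x = 1 := by
  exact Pool.Agent.Lib.MP_74ab55_al.final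

end Pool.Agent.S01925
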