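import Pool.Statements.S02513
import Pool.Agent.Lib.MP_a06c1e_al.Final

set_option autoImplicit false
open Pool Pool.MP_a06c1e_al

namespace Pool.Agent.S02513

/-- In Thompson's group F, given as ⟨x0,x1 ∣ [x0x1⁻¹, x0⁻¹x1x0], [x0x1⁻¹, x0⁻²x1x0²]⟩, every finitely generated maximal subgroup is isomorphic to a group with finitely many generators and finitely many relations. -/
theorem result :
    ∀ H : Subgroup (PresentedGroup
      ({ (FreeGroup.of (0 : Fin 2) * (FreeGroup.of (1 : Fin 2))⁻¹) *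
          ((FreeGroup.of (0 : Fin 2))⁻¹ * FreeGroup.of (1 : Fin 2) * FreeGroup.of (0 : Fin 2)) *
          (FreeGroup.of (0 : Fin 2) * (FreeGroup.of (1 : Fin 2))⁻¹)⁻¹ *
          ((FreeGroup.of (0 : Fin 2))⁻¹ * FreeGroup.of (1 : Fin 2) * FreeGroup.of (0 : Fin 2))⁻¹,
         (FreeGroup.of (0 : Fin 2) * (FreeGroup.of (1 : Fin 2))⁻¹) *
          (((FreeGroup.of (0 : Fin 2)) ^ 2)⁻¹ * FreeGroup.of (1 : Fin 2) * (FreeGroup.of (0 : Fin 2)) ^ 2) *
          (FreeGroup.of (0 : Fin 2) * (FreeGroup.of (1 : Fin 2))⁻¹)⁻¹ *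
          (((FreeGroup.of (0 : Fin 2)) ^ 2)⁻¹ * FreeGroup.of (1 : Fin 2) * (FreeGroup.of (0 : Fin 2)) ^ 2)⁻¹ }
        : Set (FreeGroup (Fin 2)))),
      H.FG → IsCoatom H →
        ∃ n : ℕ, ∃ rels : Set (FreeGroup (Fin n)), rels.Finite ∧ Nonempty (H ≃* PresentedGroup rels) := by
  intro H hfg hH
  haveI : Group.IsFinitelyPresented H := Pool.Agent.ThF.main H hfg hH
  exact Group.IsFinitelyPresented.exists_mulEquiv_presentedGroup

end Pool.Agent.S02513
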