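import Pool.Statements.S03444
import Pool.Agent.Lib.MP_ea8b67_al.Fin

set_option autoImplicit false
open Pool Pool.MP_ea8b67_al

namespace Pool.Agent.S03444

/-- The negation of the preceding statement: The lattice of soluble Fitting classes of finite groups is modular: whenever X ⊆ Z, every group in (X join Y) meet Z lies in X join (Y meet Z), where join is the smallest soluble Fitting class containing both. -/
theorem result :
    ¬ (∀ (SF : ((G : Type) → [Group G] → Prop) → Prop),
      SF = (fun (F : (G : Type) → [Group G] → Prop) =>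
        (∀ (G : Type) [Group G], F G → Finite G ∧ IsSolvable G) ∧
        (∃ (G : Type) (_ : Group G), F G) ∧
        (∀ (G H : Type) [Group G] [Group H], (G ≃* H) → F G → F H) ∧
        (∀ (G : Type) [Group G] (N : Subgroup G), N.Normal → F G → F N) ∧
        (∀ (G : Type) [Group G] [Finite G] (N M : Subgroup G),
          N.Normal → M.Normal → F N → F M → F ↥(N ⊔ M))) →
      ∀ (X Y Z : (G : Type) → [Group G] → Prop),
        SF X → SF Y → SF Z →
        (∀ (G : Type) [Group G], X G → Z G) →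
        ∀ (G : Type) [Group G],
          ((∀ (F : (G : Type) → [Group G] → Prop), SF F →
              (∀ (H : Type) [Group H], X H → F H) →
              (∀ (H : Type) [Group H], Y H → F H) → F G) ∧ Z G) →
          ∀ (F : (G : Type) → [Group G] → Prop), SF F →
            (∀ (H : Type) [Group H], X H → F H) →
            (∀ (H : Type) [Group H], (Y H ∧ Z H) → F H) → F G) := by
  intro h
  have hW := h _ rfl
  have key := hW Pool.Agent.Lib.MP_ea8b67_al.CW Pool.Agent.Lib.MP_ea8b67_al.CY
    Pool.Agent.Lib.MP_ea8b67_al.CZ ?_ ?_ ?_ Pool.Agent.Lib.MP_ea8b67_al.CW.sub_CZ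
    Pool.Agent.Lib.MP_ea8b67_al.TT ⟨?_, Pool.Agent.Lib.MP_ea8b67_al.CZ_TT⟩
    Pool.Agent.Lib.MP_ea8b67_al.CW ?_ (fun _ _ hH => hH)
    (fun H _ hH => Pool.Agent.Lib.MP_ea8b67_al.YZ_sub_W H hH.1 hH.2)
  · exact Pool.Agent.Lib.MP_ea8b67_al.not_CW_TT key
  · exact Pool.Agent.Lib.MP_ea8b67_al.sf_CW
  · exact Pool.Agent.Lib.MP_ea8b67_al.sf_CY
  · exact Pool.Agent.Lib.MP_ea8b67_al.sf_CZ
  · intro F hF hX hY
    exact Pool.Agent.Lib.MP_ea8b67_al.TT_mem F hF.2.2.1 hF.2.2.2.1 hF.2.2.2.2 hX hY
  · exact Pool.Agent.Lib.MP_ea8b67_al.sf_CW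

end Pool.Agent.S03444
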