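import Pool.Statements.S03759

set_option autoImplicit false
open Pool Pool.MP_09f91e_an

namespace Pool.Agent.S03759

/-- There are two positive isotropic conductivities and a 3D multiple rank laminate of them whose normalized field matrix has cofactor trace strictly positive on one cell and strictly negative on another. -/
theorem result :
    ∃ s1 s2 : ℝ, 0 < s1 ∧ 0 < s2 ∧
    ∃ L : List (ℝ × ℝ × Matrix (Fin 3) (Fin 3) ℝ),
      (∀ P : List (ℝ × ℝ × Matrix (Fin 3) (Fin 3) ℝ) → Prop,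
        P [((1 : ℝ), s1, (1 : Matrix (Fin 3) (Fin 3) ℝ))] →
        P [((1 : ℝ), s2, (1 : Matrix (Fin 3) (Fin 3) ℝ))] →
        (∀ A B : List (ℝ × ℝ × Matrix (Fin 3) (Fin 3) ℝ), P A → P B →
          ∀ t : ℝ, 0 < t → t < 1 →
          ∀ n : Fin 3 → ℝ, n ≠ 0 →
          ∀ EA EB : Matrix (Fin 3) (Fin 3) ℝ,
            t • EA + (1 - t) • EB = 1 →
            (∃ c : Fin 3 → ℝ, EA - EB = Matrix.vecMulVec n c) →
            Matrix.vecMul n
              ((A.map (fun p => (p.1 * p.2.1) • p.2.2)).sum * EA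
                - (B.map (fun p => (p.1 * p.2.1) • p.2.2)).sum * EB) = 0 →
            P (A.map (fun p => (t * p.1, p.2.1, p.2.2 * EA))
                ++ B.map (fun p => ((1 - t) * p.1, p.2.1, p.2.2 * EB)))) →
        P L) ∧
      ∃ a ∈ L, ∃ b ∈ L,
        0 < (Matrix.adjugate a.2.2).trace ∧ (Matrix.adjugate b.2.2).trace < 0 := by
  refine ⟨1, 40, by norm_num, by norm_num,
    [((1/120 : ℝ), (40 : ℝ), (!![97/889, -111/1778, 0; 140/127, -590/1143, 0; 0, 0, 1] : Matrix (Fin 3) (Fin 3) ℝ)),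
      ((1/60 : ℝ), (1 : ℝ), (!![3880/889, -2220/889, 0; 140/127, -590/1143, 0; 0, 0, 1] : Matrix (Fin 3) (Fin 3) ℝ)),
      ((19/40 : ℝ), (40 : ℝ), (!![579/889, -2171/5334, 0; -380/889, 2690/8001, 0; 0, 0, 1] : Matrix (Fin 3) (Fin 3) ℝ)),
      ((1/2 : ℝ), (1 : ℝ), (!![1097/889, 1256/2667, 0; 312/889, 1517/889, 0; 0, 0, 1] : Matrix (Fin 3) (Fin 3) ℝ))],
    ?_, ?_⟩
  · intro P h1 h2 hstep
    rw [Matrix.one_fin_three] at h1 h2
    -- rank one: the phase 40 (fraction 1/3) layered with the phase 1 in the direction (1,0,0)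
    have k1 := hstep _ _ h2 h1 (1/3) (by norm_num) (by norm_num) ![1, 0, 0]
      (by intro h; have := congrFun h 0; simp at this)
      !![1/27, 0, 0; 0, 1, 0; 0, 0, 1] !![40/27, 0, 0; 0, 1, 0; 0, 0, 1]
      (by rw [Matrix.one_fin_three]; ext i j; fin_cases i <;> fin_cases j <;> norm_num)
      ⟨![-13/9, 0, 0], by
        ext i j; fin_cases i <;> fin_cases j <;> norm_num [Matrix.vecMulVec_apply]⟩
      (by
        ext j; fin_cases j <;>
          simp [Matrix.vecMul, dotProduct, Fin.sum_univ_three] <;> norm_num)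
    have e1 : (List.map (fun p : ℝ × ℝ × Matrix (Fin 3) (Fin 3) ℝ =>
          ((1/3 : ℝ) * p.1, p.2.1, p.2.2 * !![1/27, 0, 0; 0, 1, 0; 0, 0, 1]))
            [((1 : ℝ), (40 : ℝ), (!![1, 0, 0; 0, 1, 0; 0, 0, 1] : Matrix (Fin 3) (Fin 3) ℝ))] ++
          List.map (fun p : ℝ × ℝ × Matrix (Fin 3) (Fin 3) ℝ =>
            ((1 - 1/3 : ℝ) * p.1, p.2.1, p.2.2 * !![40/27, 0, 0; 0, 1, 0; 0, 0, 1]))
            [((1 : ℝ), (1 : ℝ), (!![1, 0, 0; 0, 1, 0; 0, 0, 1] : Matrix (Fin 3) (Fin 3) ℝ))]) =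
        [((1/3 : ℝ), (40 : ℝ), (!![1/27, 0, 0; 0, 1, 0; 0, 0, 1] : Matrix (Fin 3) (Fin 3) ℝ)),
          ((2/3 : ℝ), (1 : ℝ), (!![40/27, 0, 0; 0, 1, 0; 0, 0, 1] : Matrix (Fin 3) (Fin 3) ℝ))] := by
      simp; norm_num
    rw [e1] at k1
    -- rank two: the previous one (fraction 1/20) layered with the phase 40 in the direction (3,2,0)
    have k2 := hstep _ _ k1 h2 (1/20) (by norm_num) (by norm_num) ![3, 2, 0]
      (by intro h; have := congrFun h 0; simp at this)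
      !![243/53, 171/106, 0; 380/159, 110/53, 0; 0, 0, 1]
      !![43/53, -9/106, 0; -20/159, 50/53, 0; 0, 0, 1]
      (by rw [Matrix.one_fin_three]; ext i j; fin_cases i <;> fin_cases j <;> norm_num)
      ⟨![200/159, 30/53, 0], by
        ext i j; fin_cases i <;> fin_cases j <;> norm_num [Matrix.vecMulVec_apply]⟩
      (by
        ext j; fin_cases j <;>
          simp [Matrix.vecMul, dotProduct, Fin.sum_univ_three] <;> norm_num)
    have e2 : (List.map (fun p : ℝ × ℝ × Matrix (Fin 3) (Fin 3) ℝ =>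
          ((1/20 : ℝ) * p.1, p.2.1, p.2.2 * !![243/53, 171/106, 0; 380/159, 110/53, 0; 0, 0, 1]))
            [((1/3 : ℝ), (40 : ℝ), (!![1/27, 0, 0; 0, 1, 0; 0, 0, 1] : Matrix (Fin 3) (Fin 3) ℝ)),
          ((2/3 : ℝ), (1 : ℝ), (!![40/27, 0, 0; 0, 1, 0; 0, 0, 1] : Matrix (Fin 3) (Fin 3) ℝ))] ++
          List.map (fun p : ℝ × ℝ × Matrix (Fin 3) (Fin 3) ℝ =>
            ((1 - 1/20 : ℝ) * p.1, p.2.1, p.2.2 * !![43/53, -9/106, 0; -20/159, 50/53, 0; 0, 0, 1]))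
            [((1 : ℝ), (40 : ℝ), (!![1, 0, 0; 0, 1, 0; 0, 0, 1] : Matrix (Fin 3) (Fin 3) ℝ))]) =
        [((1/60 : ℝ), (40 : ℝ), (!![9/53, 19/318, 0; 380/159, 110/53, 0; 0, 0, 1] : Matrix (Fin 3) (Fin 3) ℝ)),
      ((1/30 : ℝ), (1 : ℝ), (!![360/53, 380/159, 0; 380/159, 110/53, 0; 0, 0, 1] : Matrix (Fin 3) (Fin 3) ℝ)),
      ((19/20 : ℝ), (40 : ℝ), (!![43/53, -9/106, 0; -20/159, 50/53, 0; 0, 0, 1] : Matrix (Fin 3) (Fin 3) ℝ))] := by
      simp; norm_num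
    rw [e2] at k2
    -- rank three: the previous one (fraction 1/2) layered with the phase 1 in the direction (2,3,0)
    have k3 := hstep _ _ k2 h1 (1/2) (by norm_num) (by norm_num) ![2, 3, 0]
      (by intro h; have := congrFun h 0; simp at this)
      !![681/889, -1256/2667, 0; -312/889, 261/889, 0; 0, 0, 1]
      !![1097/889, 1256/2667, 0; 312/889, 1517/889, 0; 0, 0, 1]
      (by rw [Matrix.one_fin_three]; ext i j; fin_cases i <;> fin_cases j <;> norm_num)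
      ⟨![-208/889, -1256/2667, 0], by
        ext i j; fin_cases i <;> fin_cases j <;> norm_num [Matrix.vecMulVec_apply]⟩
      (by
        ext j; fin_cases j <;>
          simp [Matrix.vecMul, dotProduct, Fin.sum_univ_three] <;> norm_num)
    have e3 : (List.map (fun p : ℝ × ℝ × Matrix (Fin 3) (Fin 3) ℝ =>
          ((1/2 : ℝ) * p.1, p.2.1, p.2.2 * !![681/889, -1256/2667, 0; -312/889, 261/889, 0; 0, 0, 1]))
            [((1/60 : ℝ), (40 : ℝ), (!![9/53, 19/318, 0; 380/159, 110/53, 0; 0, 0, 1] : Matrix (Fin 3) (Fin 3) ℝ)),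
      ((1/30 : ℝ), (1 : ℝ), (!![360/53, 380/159, 0; 380/159, 110/53, 0; 0, 0, 1] : Matrix (Fin 3) (Fin 3) ℝ)),
      ((19/20 : ℝ), (40 : ℝ), (!![43/53, -9/106, 0; -20/159, 50/53, 0; 0, 0, 1] : Matrix (Fin 3) (Fin 3) ℝ))] ++
          List.map (fun p : ℝ × ℝ × Matrix (Fin 3) (Fin 3) ℝ =>
            ((1 - 1/2 : ℝ) * p.1, p.2.1, p.2.2 * !![1097/889, 1256/2667, 0; 312/889, 1517/889, 0; 0, 0, 1]))
            [((1 : ℝ), (1 : ℝ), (!![1, 0, 0; 0, 1, 0; 0, 0, 1] : Matrix (Fin 3) (Fin 3) ℝ))]) =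
        [((1/120 : ℝ), (40 : ℝ), (!![97/889, -111/1778, 0; 140/127, -590/1143, 0; 0, 0, 1] : Matrix (Fin 3) (Fin 3) ℝ)),
      ((1/60 : ℝ), (1 : ℝ), (!![3880/889, -2220/889, 0; 140/127, -590/1143, 0; 0, 0, 1] : Matrix (Fin 3) (Fin 3) ℝ)),
      ((19/40 : ℝ), (40 : ℝ), (!![579/889, -2171/5334, 0; -380/889, 2690/8001, 0; 0, 0, 1] : Matrix (Fin 3) (Fin 3) ℝ)),
      ((1/2 : ℝ), (1 : ℝ), (!![1097/889, 1256/2667, 0; 312/889, 1517/889, 0; 0, 0, 1] : Matrix (Fin 3) (Fin 3) ℝ))] := by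
      simp; norm_num
    rw [e3] at k3
    exact k3
  · refine ⟨((1/2 : ℝ), (1 : ℝ), (!![1097/889, 1256/2667, 0; 312/889, 1517/889, 0; 0, 0, 1] : Matrix (Fin 3) (Fin 3) ℝ)),
      by simp, ((1/120 : ℝ), (40 : ℝ), (!![97/889, -111/1778, 0; 140/127, -590/1143, 0; 0, 0, 1] : Matrix (Fin 3) (Fin 3) ℝ)),
      by simp, ?_, ?_⟩
    · rw [Matrix.adjugate_fin_three_of, Matrix.trace_fin_three]
      simp
      norm_num
    · rw [Matrix.adjugate_fin_three_of, Matrix.trace_fin_three]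
      simp
      norm_num

end Pool.Agent.S03759
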