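import Pool.Statements.S04268
import Pool.Agent.Lib.LipThree.Main

set_option autoImplicit false
open Pool Pool.MP_31d174_an

namespace Pool.Agent.S04268

/-- The negation of the preceding statement: Any three Lipschitz real-valued functions on the real Hilbert space ℓ² of square-summable sequences have a common point at which all three are Fréchet differentiable. -/
theorem result :
    ¬ (∀ (f₁ f₂ f₃ : lp (fun _ : ℕ => ℝ) 2 → ℝ) (K₁ K₂ K₃ : NNReal),
      LipschitzWith K₁ f₁ → LipschitzWith K₂ f₂ → LipschitzWith K₃ f₃ →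
      ∃ x : lp (fun _ : ℕ => ℝ) 2,
        DifferentiableAt ℝ f₁ x ∧ DifferentiableAt ℝ f₂ x ∧ DifferentiableAt ℝ f₃ x) := by
  intro h
  obtain ⟨F, hF, hnd⟩ := Pool.Agent.LipThree.main
  obtain ⟨x, h0, h1, h2⟩ := h (F 0) (F 1) (F 2) 1 1 1 (hF 0) (hF 1) (hF 2)
  refine hnd x ?_
  intro i
  fin_cases i
  · exact h0
  · exact h1
  · exact h2

end Pool.Agent.S04268
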