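import Pool.Statements.S05097

set_option autoImplicit false
open scoped ENNReal
open Pool Pool.MP_786be7_an

namespace Pool.Agent.S05097

/-- smooth version of the positive part of `r - t` -/
noncomputable def tau (t κ r : ℝ) : ℝ := Real.sqrt ((max (r - t) 0)^2 + κ^2) - κ

lemma tau_lip {κ : ℝ} (hκ : 0 < κ) (t r s : ℝ) : |tau t κ r - tau t κ s| ≤ |r - s| := by
  unfold tau
  set a := max (r - t) 0
  set b := max (s - t) 0
  have hab : |a - b| ≤ |r - s| := by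
    have := abs_max_sub_max_le_abs (r - t) (s - t) 0
    have h2 : r - t - (s - t) = r - s := by ring
    rw [h2] at this
    exact this
  have ha : 0 ≤ a := le_max_right _ _
  have hb : 0 ≤ b := le_max_right _ _
  have hA : 0 < a^2 + κ^2 := by positivity
  have hB : 0 < b^2 + κ^2 := by positivity
  have hsA : a ≤ Real.sqrt (a^2 + κ^2) := by
    apply Real.le_sqrt_of_sq_le; nlinarith [sq_nonneg κ]
  have hsB : b ≤ Real.sqrt (b^2 + κ^2) := by
    apply Real.le_sqrt_of_sq_le; nlinarith [sq_nonneg κ]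
  have hpA : 0 < Real.sqrt (a^2 + κ^2) := Real.sqrt_pos.mpr hA
  have hpB : 0 < Real.sqrt (b^2 + κ^2) := Real.sqrt_pos.mpr hB
  have hkey : |Real.sqrt (a^2 + κ^2) - Real.sqrt (b^2 + κ^2)| ≤ |a - b| := by
    have h1 : (Real.sqrt (a^2 + κ^2) - Real.sqrt (b^2 + κ^2)) * (Real.sqrt (a^2 + κ^2) + Real.sqrt (b^2 + κ^2))
        = (a - b) * (a + b) := by
      have e1 := Real.mul_self_sqrt hA.le
      have e2 := Real.mul_self_sqrt hB.le
      nlinarith
    have h2 : |Real.sqrt (a^2 + κ^2) - Real.sqrt (b^2 + κ^2)| * (Real.sqrt (a^2 + κ^2) + Real.sqrt (b^2 + κ^2))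
        = |a - b| * (a + b) := by
      rw [← abs_of_pos (show 0 < Real.sqrt (a^2 + κ^2) + Real.sqrt (b^2 + κ^2) by positivity), ← abs_mul, h1, abs_mul,
        abs_of_nonneg (show 0 ≤ a + b by positivity)]
    by_contra hcon
    push Not at hcon
    have h3 : |a - b| * (Real.sqrt (a^2 + κ^2) + Real.sqrt (b^2 + κ^2)) <
        |Real.sqrt (a^2 + κ^2) - Real.sqrt (b^2 + κ^2)| * (Real.sqrt (a^2 + κ^2) + Real.sqrt (b^2 + κ^2)) :=
      mul_lt_mul_of_pos_right hcon (by positivity)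
    have h4 : |a - b| * (a + b) ≤ |a - b| * (Real.sqrt (a^2 + κ^2) + Real.sqrt (b^2 + κ^2)) :=
      mul_le_mul_of_nonneg_left (by linarith) (abs_nonneg _)
    linarith
  calc |Real.sqrt (a^2 + κ^2) - κ - (Real.sqrt (b^2 + κ^2) - κ)|
      = |Real.sqrt (a^2 + κ^2) - Real.sqrt (b^2 + κ^2)| := by congr 1; ring
    _ ≤ |a - b| := hkey
    _ ≤ |r - s| := hab

lemma tau_eq_zero {t κ r : ℝ} (hκ : 0 ≤ κ) (h : r ≤ t) : tau t κ r = 0 := by
  unfold tau
  rw [max_eq_right (by linarith)]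
  simp [Real.sqrt_sq hκ]

lemma tau_ge (t κ r : ℝ) : r - t - κ ≤ tau t κ r := by
  unfold tau
  have h1 : max (r - t) 0 ≤ Real.sqrt ((max (r - t) 0)^2 + κ^2) := by
    apply Real.le_sqrt_of_sq_le; nlinarith [sq_nonneg κ]
  have h2 : r - t ≤ max (r - t) 0 := le_max_left _ _
  linarith

lemma tau_nonneg (κ t r : ℝ) : 0 ≤ tau t κ r := by
  unfold tau
  have h1 : κ ≤ Real.sqrt ((max (r - t) 0)^2 + κ^2) := by
    apply Real.le_sqrt_of_sq_le; nlinarith [sq_nonneg (max (r - t) 0)]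
  linarith

lemma differentiable_maxsq : Differentiable ℝ (fun r : ℝ => (max r 0)^2) := by
  intro r
  rcases lt_trichotomy r 0 with h | h | h
  · have : (fun r : ℝ => (max r 0)^2) =ᶠ[nhds r] (fun _ => (0:ℝ)) := by
      filter_upwards [gt_mem_nhds h] with s hs
      rw [max_eq_right hs.le]; simp
    exact (differentiableAt_const _).congr_of_eventuallyEq this
  · subst h
    have : HasDerivAt (fun r : ℝ => (max r 0)^2) 0 0 := by
      rw [hasDerivAt_iff_isLittleO]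
      simp only [max_self, sub_zero, smul_zero]
      have h1 : (fun r : ℝ => (max r 0)^2 - 0^2) =O[nhds 0] (fun r : ℝ => r^2) := by
        apply Asymptotics.IsBigO.of_bound 1
        filter_upwards with s
        have hs : max s 0 ≤ |s| := max_le (le_abs_self s) (abs_nonneg s)
        have hs0 : 0 ≤ max s 0 := le_max_right _ _
        rw [Real.norm_eq_abs, Real.norm_eq_abs]
        have : (max s 0)^2 - 0^2 = (max s 0)^2 := by ring
        rw [this, abs_of_nonneg (by positivity), abs_of_nonneg (by positivity), one_mul]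
        nlinarith [sq_abs s]
      have h2 : (fun r : ℝ => r^2) =o[nhds 0] (fun r : ℝ => r) := by
        simpa using (Asymptotics.isLittleO_pow_id (𝕜 := ℝ) (show 1 < 2 by norm_num))
      simpa using h1.trans_isLittleO h2
    exact this.differentiableAt
  · have : (fun r : ℝ => (max r 0)^2) =ᶠ[nhds r] (fun r => r^2) := by
      filter_upwards [lt_mem_nhds h] with s hs
      rw [max_eq_left hs.le]
    exact (by fun_prop : DifferentiableAt ℝ (fun r : ℝ => r^2) r).congr_of_eventuallyEq this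

lemma tau_diff {κ : ℝ} (hκ : 0 < κ) (t : ℝ) : Differentiable ℝ (tau t κ) := by
  unfold tau
  have h1 : Differentiable ℝ (fun r : ℝ => (max (r - t) 0)^2) :=
    differentiable_maxsq.comp (by fun_prop : Differentiable ℝ (fun r : ℝ => r - t))
  intro r
  have h2 : DifferentiableAt ℝ (fun r : ℝ => (max (r - t) 0)^2 + κ^2) r := (h1 r).add_const _
  exact (h2.sqrt (by positivity)).sub_const _

section basis

variable {X : Type} [NormedAddCommGroup X] [NormedSpace ℝ X] [CompleteSpace X]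
  {Γ : Type} (e : Γ → X) (f : Γ → X →L[ℝ] ℝ)

/-- partial sum operator -/
noncomputable def S (A : Finset Γ) : X →L[ℝ] X := ∑ γ ∈ A, (f γ).smulRight (e γ)

omit [CompleteSpace X] in
lemma S_apply (A : Finset Γ) (x : X) : S e f A x = ∑ γ ∈ A, f γ x • e γ := by
  simp [S]

lemma S_bound (hs : ∀ x : X, HasSum (fun γ : Γ => f γ x • e γ) x) :
    ∃ K : ℝ, 0 < K ∧ ∀ (A : Finset Γ) (x : X), ‖∑ γ ∈ A, f γ x • e γ‖ ≤ K * ‖x‖ := by
  classical
  have h1 : ∀ x : X, ∃ C, ∀ A : Finset Γ, ‖S e f A x‖ ≤ C := by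
    intro x
    obtain ⟨s, hs'⟩ := (summable_iff_vanishing_norm.mp (hs x).summable) 1 one_pos
    refine ⟨(∑ γ ∈ s, ‖f γ x • e γ‖) + 1, fun A => ?_⟩
    rw [S_apply, ← Finset.sum_inter_add_sum_sdiff A s]
    refine (norm_add_le _ _).trans (add_le_add ?_ ?_)
    · refine (norm_sum_le _ _).trans ?_
      exact Finset.sum_le_sum_of_subset_of_nonneg Finset.inter_subset_right (fun _ _ _ => norm_nonneg _)
    · exact (hs' _ Finset.sdiff_disjoint).le
  obtain ⟨C, hC⟩ := banach_steinhaus h1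
  refine ⟨max C 1, by positivity, fun A x => ?_⟩
  rw [← S_apply e f]
  calc ‖S e f A x‖ ≤ ‖S e f A‖ * ‖x‖ := (S e f A).le_opNorm x
    _ ≤ max C 1 * ‖x‖ := mul_le_mul_of_nonneg_right ((hC A).trans (le_max_left _ _)) (norm_nonneg _)

lemma mult_bound (h1 : ∀ i : Γ, f i (e i) = 1) (h0 : ∀ i j : Γ, i ≠ j → f i (e j) = 0)
    {K : ℝ} (hK : ∀ (A : Finset Γ) (x : X), ‖∑ γ ∈ A, f γ x • e γ‖ ≤ K * ‖x‖)
    (A : Finset Γ) (a b : Γ → ℝ) (hab : ∀ γ ∈ A, |a γ| ≤ |b γ|) :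
    ‖∑ γ ∈ A, a γ • e γ‖ ≤ 2 * K * ‖∑ γ ∈ A, b γ • e γ‖ := by
  classical
  set z := ∑ γ ∈ A, b γ • e γ with hz
  have hfz : ∀ γ ∈ A, f γ z = b γ := by
    intro γ hγ
    rw [hz, map_sum, Finset.sum_eq_single γ]
    · simp [h1]
    · intro j _ hj
      simp [h0 γ j (Ne.symm hj)]
    · intro h; exact absurd hγ h
  by_cases hw : (∑ γ ∈ A, a γ • e γ) = 0
  · rw [hw, norm_zero]
    have := hK ∅ z
    simp at this
    nlinarith
  obtain ⟨g, hg1, hg2⟩ := exists_dual_vector ℝ _ (norm_ne_zero_iff.mpr hw)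
  have hg3 : ‖∑ γ ∈ A, a γ • e γ‖ = ∑ γ ∈ A, a γ * g (e γ) := by
    rw [← show g (∑ γ ∈ A, a γ • e γ) = ‖∑ γ ∈ A, a γ • e γ‖ from by simpa using hg2]
    simp [map_sum]
  rw [hg3]
  have hstep : ∀ B : Finset Γ, B ⊆ A → |∑ γ ∈ B, b γ * g (e γ)| ≤ K * ‖z‖ := by
    intro B hB
    have : ∑ γ ∈ B, b γ * g (e γ) = g (∑ γ ∈ B, f γ z • e γ) := by
      simp only [map_sum, map_smul, smul_eq_mul]
      exact Finset.sum_congr rfl (fun γ hγ => by rw [hfz γ (hB hγ)])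
    rw [this]
    calc |g (∑ γ ∈ B, f γ z • e γ)| ≤ ‖g‖ * ‖∑ γ ∈ B, f γ z • e γ‖ := g.le_opNorm _
      _ ≤ 1 * (K * ‖z‖) := by rw [hg1]; exact mul_le_mul_of_nonneg_left (hK B z) (by norm_num)
      _ = K * ‖z‖ := by ring
  calc ∑ γ ∈ A, a γ * g (e γ) ≤ ∑ γ ∈ A, |b γ * g (e γ)| := by
        apply Finset.sum_le_sum
        intro γ hγ
        calc a γ * g (e γ) ≤ |a γ * g (e γ)| := le_abs_self _
          _ = |a γ| * |g (e γ)| := abs_mul _ _
          _ ≤ |b γ| * |g (e γ)| := mul_le_mul_of_nonneg_right (hab γ hγ) (abs_nonneg _)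
          _ = |b γ * g (e γ)| := (abs_mul _ _).symm
    _ = ∑ γ ∈ A with 0 ≤ b γ * g (e γ), b γ * g (e γ) - ∑ γ ∈ A with ¬ (0 ≤ b γ * g (e γ)), b γ * g (e γ) := by
        rw [← Finset.sum_filter_add_sum_filter_not A (fun γ => 0 ≤ b γ * g (e γ)), sub_eq_add_neg,
          ← Finset.sum_neg_distrib]
        congr 1
        · apply Finset.sum_congr rfl
          intro γ hγ
          rw [Finset.mem_filter] at hγ
          exact abs_of_nonneg hγ.2
        · apply Finset.sum_congr rfl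
          intro γ hγ
          rw [Finset.mem_filter] at hγ
          exact abs_of_neg (not_le.mp hγ.2)
    _ ≤ K * ‖z‖ + K * ‖z‖ := by
        have i1 := hstep _ (Finset.filter_subset (fun γ => 0 ≤ b γ * g (e γ)) A)
        have i2 := hstep _ (Finset.filter_subset (fun γ => ¬ (0 ≤ b γ * g (e γ))) A)
        have j1 := (abs_le.mp i1).2
        have j2 := (abs_le.mp i2).1
        linarith
    _ = 2 * K * ‖z‖ := by ring

lemma dom_summable (hs : ∀ x : X, HasSum (fun γ : Γ => f γ x • e γ) x)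
    {C : ℝ} (hC0 : 0 < C)
    (hC : ∀ (A : Finset Γ) (a b : Γ → ℝ), (∀ γ ∈ A, |a γ| ≤ |b γ|) →
      ‖∑ γ ∈ A, a γ • e γ‖ ≤ C * ‖∑ γ ∈ A, b γ • e γ‖)
    (x : X) (a : Γ → ℝ) (ha : ∀ γ, |a γ| ≤ |f γ x|) :
    Summable (fun γ => a γ • e γ) ∧ ‖∑' γ, a γ • e γ‖ ≤ C * ‖x‖ := by
  have hsum : Summable (fun γ => a γ • e γ) := by
    rw [summable_iff_vanishing_norm]
    intro ε hε
    obtain ⟨s, hs'⟩ := (summable_iff_vanishing_norm.mp (hs x).summable) (ε / C) (by positivity)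
    refine ⟨s, fun t ht => ?_⟩
    calc ‖∑ γ ∈ t, a γ • e γ‖ ≤ C * ‖∑ γ ∈ t, f γ x • e γ‖ := hC t a _ (fun γ _ => ha γ)
      _ < C * (ε / C) := mul_lt_mul_of_pos_left (hs' t ht) hC0
      _ = ε := by field_simp
  refine ⟨hsum, ?_⟩
  have t1 := (hsum.hasSum).norm
  have t2 : Filter.Tendsto (fun A : Finset Γ => C * ‖∑ γ ∈ A, f γ x • e γ‖) Filter.atTop (nhds (C * ‖x‖)) :=
    Filter.Tendsto.const_mul C (hs x).norm
  exact le_of_tendsto_of_tendsto' t1 t2 (fun A => hC A a _ (fun γ _ => ha γ))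

section T

variable (hs : ∀ x : X, HasSum (fun γ : Γ => f γ x • e γ) x)
    {C : ℝ} (hC0 : 0 < C)
    (hC : ∀ (A : Finset Γ) (a b : Γ → ℝ), (∀ γ ∈ A, |a γ| ≤ |b γ|) →
      ‖∑ γ ∈ A, a γ • e γ‖ ≤ C * ‖∑ γ ∈ A, b γ • e γ‖)
    (τ : Γ → ℝ → ℝ) (hτ0 : ∀ γ, τ γ 0 = 0) (hτ : ∀ γ r s, |τ γ r - τ γ s| ≤ |r - s|)

/-- coordinatewise nonlinear map -/
noncomputable def T (τ : Γ → ℝ → ℝ) (x : X) : X := ∑' γ, τ γ (f γ x) • e γ

include hs hC0 hC hτ0 hτ in
lemma T_summable (x : X) : Summable (fun γ => τ γ (f γ x) • e γ) :=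
  (dom_summable e f hs hC0 hC x (fun γ => τ γ (f γ x)) (fun γ => by
    have := hτ γ (f γ x) 0
    rwa [hτ0, sub_zero, sub_zero] at this)).1

include hs hC0 hC hτ0 hτ in
lemma T_lip (x y : X) : ‖T e f τ x - T e f τ y‖ ≤ C * ‖x - y‖ := by
  unfold T
  rw [← (T_summable e f hs hC0 hC τ hτ0 hτ x).tsum_sub (T_summable e f hs hC0 hC τ hτ0 hτ y)]
  simp_rw [← sub_smul]
  refine (dom_summable e f hs hC0 hC (x - y) (fun γ => τ γ (f γ x) - τ γ (f γ y)) (fun γ => ?_)).2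
  rw [map_sub]
  exact hτ γ _ _

lemma T_zero (hτ0 : ∀ γ, τ γ 0 = 0) : T e f τ 0 = 0 := by
  simp [T, hτ0]

include hs hC0 hC in
/-- bounded multiplier operators -/
lemma exists_mult (m : Γ → ℝ) (hm : ∀ γ, |m γ| ≤ 1) :
    ∃ L : X →L[ℝ] X, ∀ h, L h = ∑' γ, (m γ * f γ h) • e γ := by
  have hle : ∀ h γ, |m γ * f γ h| ≤ |f γ h| := by
    intro h γ
    rw [abs_mul]
    exact mul_le_of_le_one_left (abs_nonneg _) (hm γ)
  refine ⟨LinearMap.mkContinuous
    { toFun := fun h => ∑' γ, (m γ * f γ h) • e γ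
      map_add' := fun h k => ?_
      map_smul' := fun c h => ?_ } C (fun h => ?_), fun h => rfl⟩
  · rw [← (dom_summable e f hs hC0 hC h _ (hle h)).1.tsum_add (dom_summable e f hs hC0 hC k _ (hle k)).1]
    congr 1
    funext γ
    rw [map_add, mul_add, add_smul]
  · rw [RingHom.id_apply, ← (dom_summable e f hs hC0 hC h _ (hle h)).1.tsum_const_smul c]
    congr 1
    funext γ
    rw [map_smul, smul_smul, smul_eq_mul]
    congr 1
    ring
  · exact (dom_summable e f hs hC0 hC h _ (hle h)).2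

include hs hC0 hC hτ0 hτ in
lemma T_gateaux (h1 : ∀ i : Γ, f i (e i) = 1) (h0 : ∀ i j : Γ, i ≠ j → f i (e j) = 0)
    (hτd : ∀ γ, Differentiable ℝ (τ γ)) (x : X) :
    ∃ L : X →L[ℝ] X, ∀ h : X, HasDerivAt (fun t : ℝ => T e f τ (x + t • h)) (L h) 0 := by
  classical
  have hm : ∀ γ, |deriv (τ γ) (f γ x)| ≤ 1 := by
    intro γ
    have hl : LipschitzWith 1 (τ γ) := by
      apply LipschitzWith.of_dist_le_mul
      intro r s
      simpa [Real.dist_eq] using hτ γ r s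
    have := norm_deriv_le_of_lipschitz (x₀ := f γ x) hl
    simpa using this
  obtain ⟨L, hL⟩ := exists_mult e f hs hC0 hC (fun γ => deriv (τ γ) (f γ x)) hm
  refine ⟨L, fun h => ?_⟩
  rw [hasDerivAt_iff_isLittleO]
  rw [Asymptotics.isLittleO_iff]
  intro c hc
  -- choose finite set
  have hsh := (hs h)
  obtain ⟨s, hsε⟩ : ∃ s : Finset Γ, ‖h - ∑ γ ∈ s, f γ h • e γ‖ < c / (4 * C) := by
    have := (Metric.tendsto_atTop.mp hsh) (c / (4 * C)) (by positivity)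
    obtain ⟨s, hs1⟩ := this
    refine ⟨s, ?_⟩
    have := hs1 s le_rfl
    rwa [dist_comm, dist_eq_norm] at this
  set k := h - ∑ γ ∈ s, f γ h • e γ with hk
  -- derivative of the finite part
  have hfin : HasDerivAt (fun t : ℝ => ∑ γ ∈ s, τ γ (f γ x + t * f γ h) • e γ)
      (∑ γ ∈ s, (deriv (τ γ) (f γ x) * f γ h) • e γ) 0 := by
    apply HasDerivAt.fun_sum
    intro γ _
    apply HasDerivAt.smul_const
    have h1 : HasDerivAt (fun t : ℝ => f γ x + t * f γ h) (f γ h) 0 := by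
      simpa using ((hasDerivAt_id (0:ℝ)).mul_const (f γ h)).const_add (f γ x)
    have h2 : HasDerivAt (τ γ) (deriv (τ γ) (f γ x)) (f γ x + 0 * f γ h) := by
      have := (hτd γ (f γ x)).hasDerivAt
      simpa using this
    exact h2.comp 0 h1
  rw [hasDerivAt_iff_isLittleO, Asymptotics.isLittleO_iff] at hfin
  filter_upwards [hfin (show 0 < c / 2 by positivity)] with t ht
  simp only [sub_zero, zero_smul, add_zero, zero_mul] at ht ⊢
  set r : Γ → ℝ := fun γ => τ γ (f γ x + t * f γ h) - τ γ (f γ x) - t * (deriv (τ γ) (f γ x) * f γ h) with hr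
  have hfk_in : ∀ γ ∈ s, f γ k = 0 := by
    intro γ hγ
    rw [hk, map_sub, map_sum, Finset.sum_eq_single γ]
    · simp [h1]
    · intro j _ hj
      simp [h0 γ j (Ne.symm hj)]
    · intro h'; exact absurd hγ h'
  have hfk_out : ∀ γ, γ ∉ s → f γ k = f γ h := by
    intro γ hγ
    rw [hk, map_sub, map_sum, Finset.sum_eq_zero, sub_zero]
    intro j hj
    have : γ ≠ j := fun hh => hγ (hh ▸ hj)
    simp [h0 γ j this]
  have hrle : ∀ γ, |r γ| ≤ 2 * |t| * |f γ h| := by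
    intro γ
    have e1 : |τ γ (f γ x + t * f γ h) - τ γ (f γ x)| ≤ |t| * |f γ h| := by
      have := hτ γ (f γ x + t * f γ h) (f γ x)
      rwa [add_sub_cancel_left, abs_mul] at this
    have e2 : |t * (deriv (τ γ) (f γ x) * f γ h)| ≤ |t| * |f γ h| := by
      rw [abs_mul, abs_mul]
      exact mul_le_mul_of_nonneg_left (mul_le_of_le_one_left (abs_nonneg _) (hm γ)) (abs_nonneg _)
    calc |r γ| ≤ |τ γ (f γ x + t * f γ h) - τ γ (f γ x)| + |t * (deriv (τ γ) (f γ x) * f γ h)| := abs_sub _ _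
      _ ≤ 2 * |t| * |f γ h| := by linarith
  have hdom : ∀ γ, |if γ ∈ s then 0 else r γ| ≤ |f γ ((2 * t) • k)| := by
    intro γ
    split_ifs with hγ
    · rw [abs_zero]; exact abs_nonneg _
    · rw [map_smul, smul_eq_mul, hfk_out γ hγ, abs_mul, abs_mul, abs_two]
      exact hrle γ
  obtain ⟨hsum2, hle2⟩ := dom_summable e f hs hC0 hC ((2 * t) • k) _ hdom
  have hsum1 : Summable (fun γ => (if γ ∈ s then r γ else 0) • e γ) := by
    apply summable_of_ne_finset_zero (s := s)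
    intro b hb
    simp [hb]
  have hsumx := T_summable e f hs hC0 hC τ hτ0 hτ x
  have hsumxt := T_summable e f hs hC0 hC τ hτ0 hτ (x + t • h)
  have hsumL : Summable (fun γ => (deriv (τ γ) (f γ x) * f γ h) • e γ) :=
    (dom_summable e f hs hC0 hC h _ (fun γ => by
      rw [abs_mul]; exact mul_le_of_le_one_left (abs_nonneg _) (hm γ))).1
  have hD : T e f τ (x + t • h) - T e f τ x - t • L h
      = ∑ γ ∈ s, r γ • e γ + ∑' γ, (if γ ∈ s then 0 else r γ) • e γ := by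
    have e1 : ∑ γ ∈ s, r γ • e γ = ∑' γ, (if γ ∈ s then r γ else 0) • e γ := by
      rw [tsum_eq_sum (s := s)]
      · apply Finset.sum_congr rfl
        intro γ hγ
        simp [hγ]
      · intro b hb
        simp [hb]
    rw [e1, ← hsum1.tsum_add hsum2, hL, ← hsumL.tsum_const_smul t]
    unfold T
    rw [← hsumxt.tsum_sub hsumx, ← (hsumxt.sub hsumx).tsum_sub (hsumL.const_smul t)]
    congr 1
    funext γ
    rw [← add_smul, smul_smul, ← sub_smul, ← sub_smul]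
    congr 1
    by_cases hγ : γ ∈ s
    · simp [hγ, hr, map_add, map_smul]
    · simp [hγ, hr, map_add, map_smul]
  have hS : ∑ γ ∈ s, r γ • e γ = ∑ γ ∈ s, τ γ (f γ x + t * f γ h) • e γ - ∑ γ ∈ s, τ γ (f γ x) • e γ
      - t • ∑ γ ∈ s, (deriv (τ γ) (f γ x) * f γ h) • e γ := by
    rw [Finset.smul_sum, ← Finset.sum_sub_distrib, ← Finset.sum_sub_distrib]
    apply Finset.sum_congr rfl
    intro γ _
    rw [smul_smul, ← sub_smul, ← sub_smul]
  rw [hD, hS]
  refine (norm_add_le _ _).trans ?_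
  have hfinal : ‖∑' γ, (if γ ∈ s then 0 else r γ) • e γ‖ ≤ c / 2 * ‖t‖ := by
    refine hle2.trans ?_
    rw [norm_smul, norm_mul]
    have : ‖(2:ℝ)‖ = 2 := by norm_num
    rw [this]
    have h3 : C * (2 * ‖t‖ * ‖k‖) ≤ C * (2 * ‖t‖ * (c / (4 * C))) := by
      apply mul_le_mul_of_nonneg_left _ hC0.le
      exact mul_le_mul_of_nonneg_left hsε.le (by positivity)
    refine h3.trans (le_of_eq ?_)
    field_simp
    ring
  linarith

include hs hC0 hC hτ0 hτ in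
lemma T_coord (h1 : ∀ i : Γ, f i (e i) = 1) (h0 : ∀ i j : Γ, i ≠ j → f i (e j) = 0)
    (x : X) (i : Γ) : f i (T e f τ x) = τ i (f i x) := by
  have hsum := T_summable e f hs hC0 hC τ hτ0 hτ x
  have h2 := (f i).hasSum hsum.hasSum
  have h3 : HasSum (fun γ => f i (τ γ (f γ x) • e γ)) (τ i (f i x)) := by
    have := hasSum_single (f := fun γ => f i (τ γ (f γ x) • e γ)) i (fun j hj => by
      simp [h0 i j (Ne.symm hj)])
    simpa [h1] using this
  exact h2.unique h3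

end T

end basis

/-- approximation of arbitrary values at finitely many points by a countable family of functions -/
lemma thresholds {Γ : Type} (ι : Γ → ℝ) (hι : Function.Injective ι) :
    ∃ P : ℕ → Γ → ℝ, ∀ (F : Finset Γ) (v : Γ → ℝ) (ε : ℝ), 0 < ε →
      ∃ n, ∀ γ ∈ F, |P n γ - v γ| < ε := by
  classical
  refine ⟨fun n γ => TopologicalSpace.denseSeq C(ℝ, ℝ) n (ι γ), fun F v ε hε => ?_⟩
  -- interpolation
  let p : Polynomial ℝ := Lagrange.interpolate F ι v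
  have hp : ∀ γ ∈ F, p.eval (ι γ) = v γ := fun γ hγ =>
    Lagrange.eval_interpolate_at_node v (hι.injOn) hγ
  let g : C(ℝ, ℝ) := p.toContinuousMap
  have hopen : IsOpen {k : C(ℝ, ℝ) | ∀ γ ∈ F, |k (ι γ) - v γ| < ε} := by
    have : {k : C(ℝ, ℝ) | ∀ γ ∈ F, |k (ι γ) - v γ| < ε} = ⋂ γ ∈ F, {k : C(ℝ, ℝ) | |k (ι γ) - v γ| < ε} := by
      ext k; simp
    rw [this]
    apply isOpen_biInter_finset
    intro γ _
    have hc : Continuous (fun k : C(ℝ, ℝ) => |k (ι γ) - v γ|) :=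
      ((continuous_eval_const (F := C(ℝ, ℝ)) (ι γ)).sub continuous_const).abs
    exact isOpen_lt hc continuous_const
  obtain ⟨k, hk1, n, hn⟩ := (TopologicalSpace.denseRange_denseSeq C(ℝ, ℝ)).inter_open_nonempty _ hopen
    ⟨g, fun γ hγ => by simp [g, hp γ hγ, hε]⟩
  refine ⟨n, fun γ hγ => ?_⟩
  show |TopologicalSpace.denseSeq C(ℝ, ℝ) n (ι γ) - v γ| < ε
  rw [hn]
  exact hk1 γ hγ

lemma exists_inj {X : Type} [NormedAddCommGroup X] [NormedSpace ℝ X]
    {Γ : Type} (e : Γ → X) (f : Γ → X →L[ℝ] ℝ)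
    (h1 : ∀ i : Γ, f i (e i) = 1) (h0 : ∀ i j : Γ, i ≠ j → f i (e j) = 0)
    {K : ℝ} (hK0 : 0 < K) (hK : ∀ (A : Finset Γ) (x : X), ‖∑ γ ∈ A, f γ x • e γ‖ ≤ K * ‖x‖)
    (D : Set X) (hD : Dense D) (hDc : Cardinal.mk ↥D = Cardinal.continuum) :
    ∃ ι : Γ → ℝ, Function.Injective ι := by
  have hne : ∀ i, e i ≠ 0 := by
    intro i hi
    have := h1 i
    rw [hi, map_zero] at this
    exact zero_ne_one this
  have hd : ∀ i, ∃ d : D, ‖(‖e i‖⁻¹ • e i) - (d : X)‖ < 1 / (2 * K) := by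
    intro i
    obtain ⟨d, hd, hd2⟩ := hD.exists_dist_lt (‖e i‖⁻¹ • e i) (show (0:ℝ) < 1 / (2 * K) by positivity)
    exact ⟨⟨d, hd⟩, by rwa [dist_eq_norm] at hd2⟩
  choose d hd using hd
  have hinj : Function.Injective d := by
    intro i j hij
    by_contra hne'
    have e1 : ‖(‖e i‖⁻¹ • e i) - (‖e j‖⁻¹ • e j)‖ < 1 / K := by
      calc ‖(‖e i‖⁻¹ • e i) - (‖e j‖⁻¹ • e j)‖
          = ‖((‖e i‖⁻¹ • e i) - (d i : X)) - ((‖e j‖⁻¹ • e j) - (d j : X))‖ := by rw [hij]; congr 1; abel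
        _ ≤ _ := norm_sub_le _ _
        _ < 1 / (2 * K) + 1 / (2 * K) := add_lt_add (hd i) (hd j)
        _ = 1 / K := by field_simp; norm_num
    have e2 := hK {i} ((‖e i‖⁻¹ • e i) - (‖e j‖⁻¹ • e j))
    rw [Finset.sum_singleton, map_sub, map_smul, map_smul, h1 i, h0 i j hne', smul_eq_mul, smul_eq_mul,
      mul_one, mul_zero, sub_zero, norm_smul, norm_inv, norm_norm,
      inv_mul_cancel₀ (norm_ne_zero_iff.mpr (hne i))] at e2
    have e3 : K * ‖(‖e i‖⁻¹ • e i) - (‖e j‖⁻¹ • e j)‖ < K * (1 / K) := mul_lt_mul_of_pos_left e1 hK0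
    rw [mul_one_div_cancel hK0.ne'] at e3
    linarith
  have hcard : Cardinal.mk Γ ≤ Cardinal.mk ℝ := by
    rw [Cardinal.mk_real, ← hDc]
    exact Cardinal.mk_le_of_injective hinj
  obtain ⟨ι⟩ := hcard
  exact ⟨ι, ι.injective⟩

section main

variable {X : Type} [NormedAddCommGroup X] [NormedSpace ℝ X] [CompleteSpace X]
  {Γ : Type} (e : Γ → X) (f : Γ → X →L[ℝ] ℝ) (N : X → ℝ) (P : ℕ → Γ → ℝ)

/-- index set -/
abbrev J := ℕ × {q : ℚ // 0 < q} × {q : ℚ // 0 < q} × Bool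

/-- sign -/
noncomputable def sg (b : Bool) : ℝ := if b then 1 else -1

lemma sg_abs (b : Bool) : |sg b| = 1 := by cases b <;> simp [sg]

/-- coordinate functions of the nonlinear map -/
noncomputable def tj (j : J) (γ : Γ) (r : ℝ) : ℝ := tau (max (P j.1 γ) 0) (j.2.1.1 : ℝ) (sg j.2.2.2 * r)

lemma tj_zero (j : J) (γ : Γ) : tj P j γ 0 = 0 := by
  unfold tj
  apply tau_eq_zero
  · exact_mod_cast j.2.1.2.le
  · rw [mul_zero]; exact le_max_right _ _

lemma tj_lip (j : J) (γ : Γ) (r s : ℝ) : |tj P j γ r - tj P j γ s| ≤ |r - s| := by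
  unfold tj
  refine (tau_lip (by exact_mod_cast j.2.1.2) _ _ _).trans ?_
  rw [← mul_sub, abs_mul, sg_abs, one_mul]

lemma tj_diff (j : J) (γ : Γ) : Differentiable ℝ (tj P j γ) := by
  unfold tj
  have h1 := tau_diff (κ := (j.2.1.1 : ℝ)) (by exact_mod_cast j.2.1.2) (max (P j.1 γ) 0)
  exact h1.comp (by fun_prop : Differentiable ℝ (fun r : ℝ => sg j.2.2.2 * r))

/-- the coordinate functions of the embedding -/
noncomputable def G (j : J) (x : X) : ℝ := tau (j.2.2.1.1 : ℝ) (j.2.2.1.1 : ℝ) (N (T e f (tj P j) x))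

lemma N_sub (hN1 : ∀ x y : X, N (x + y) ≤ N x + N y) (hN2 : ∀ (c : ℝ) (x : X), N (c • x) = |c| * N x)
    {b : ℝ} (hNb : ∀ x, N x ≤ b * ‖x‖) (x y : X) : |N x - N y| ≤ b * ‖x - y‖ := by
  have e1 : N x ≤ N (x - y) + N y := by
    have := hN1 (x - y) y
    rwa [sub_add_cancel] at this
  have e2 : N y ≤ N (x - y) + N x := by
    have := hN1 (y - x) x
    rw [sub_add_cancel] at this
    have h3 : N (y - x) = N (x - y) := by
      have := hN2 (-1) (x - y)
      simpa using this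
    rwa [h3] at this
  have e3 := hNb (x - y)
  rw [abs_le]
  constructor <;> linarith

variable (hs : ∀ x : X, HasSum (fun γ : Γ => f γ x • e γ) x)
    {C : ℝ} (hC0 : 0 < C)
    (hC : ∀ (A : Finset Γ) (a b : Γ → ℝ), (∀ γ ∈ A, |a γ| ≤ |b γ|) →
      ‖∑ γ ∈ A, a γ • e γ‖ ≤ C * ‖∑ γ ∈ A, b γ • e γ‖)
    (hN1 : ∀ x y : X, N (x + y) ≤ N x + N y) (hN2 : ∀ (c : ℝ) (x : X), N (c • x) = |c| * N x)
    {a b : ℝ} (ha : 0 < a) (hb : 0 < b) (hNa : ∀ x, a * ‖x‖ ≤ N x) (hNb : ∀ x, N x ≤ b * ‖x‖)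

include hs hC0 hC hN1 hN2 hb hNb in
lemma G_lip (j : J) (x y : X) : |G e f N P j x - G e f N P j y| ≤ b * C * ‖x - y‖ := by
  unfold G
  refine (tau_lip (by exact_mod_cast j.2.2.1.2) _ _ _).trans ?_
  refine (N_sub N hN1 hN2 hNb _ _).trans ?_
  rw [mul_assoc]
  exact mul_le_mul_of_nonneg_left (T_lip e f hs hC0 hC (tj P j) (tj_zero P j) (tj_lip P j) x y) hb.le

include hN2 in
lemma G_zero (j : J) : G e f N P j 0 = 0 := by
  unfold G
  rw [T_zero e f (tj P j) (tj_zero P j)]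
  have : N 0 = 0 := by
    have := hN2 0 0
    simpa using this
  rw [this]
  apply tau_eq_zero
  · exact_mod_cast j.2.2.1.2.le
  · exact_mod_cast j.2.2.1.2.le

include hs hC0 hC hN1 hN2 hb hNb in
lemma G_gateaux (h1 : ∀ i : Γ, f i (e i) = 1) (h0 : ∀ i j : Γ, i ≠ j → f i (e j) = 0)
    (hNd : ∀ x : X, x ≠ 0 → DifferentiableAt ℝ N x) (j : J) (x : X) :
    ∃ g : X →L[ℝ] ℝ, ∀ h : X, HasDerivAt (fun t : ℝ => G e f N P j (x + t • h)) (g h) 0 := by
  have hq : (0:ℝ) < (j.2.2.1.1 : ℝ) := by exact_mod_cast j.2.2.1.2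
  by_cases hcase : N (T e f (tj P j) x) < (j.2.2.1.1 : ℝ)
  · refine ⟨0, fun h => ?_⟩
    have hcont : Continuous (fun t : ℝ => N (T e f (tj P j) (x + t • h))) := by
      have hN : Continuous N := by
        have : LipschitzWith ⟨b, hb.le⟩ N := LipschitzWith.of_dist_le_mul (fun x y => by
          rw [Real.dist_eq, dist_eq_norm]; exact N_sub N hN1 hN2 hNb x y)
        exact this.continuous
      have hT : Continuous (T e f (tj P j)) := by
        have : LipschitzWith ⟨C, hC0.le⟩ (T e f (tj P j)) := LipschitzWith.of_dist_le_mul (fun x y => by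
          rw [dist_eq_norm, dist_eq_norm]
          exact T_lip e f hs hC0 hC (tj P j) (tj_zero P j) (tj_lip P j) x y)
        exact this.continuous
      exact hN.comp (hT.comp (by fun_prop))
    have hev : (fun t : ℝ => G e f N P j (x + t • h)) =ᶠ[nhds 0] (fun _ => (0:ℝ)) := by
      have hlt : N (T e f (tj P j) (x + (0:ℝ) • h)) < (j.2.2.1.1 : ℝ) := by simpa using hcase
      filter_upwards [hcont.continuousAt.eventually_lt_const hlt] with t ht
      exact tau_eq_zero hq.le ht.le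
    simpa using (hasDerivAt_const (0:ℝ) (0:ℝ)).congr_of_eventuallyEq hev
  · have hTne : T e f (tj P j) x ≠ 0 := by
      intro h
      rw [h] at hcase
      have : N 0 = 0 := by
        have := hN2 0 0
        simpa using this
      rw [this] at hcase
      exact hcase hq
    obtain ⟨L, hL⟩ := T_gateaux e f hs hC0 hC (tj P j) (tj_zero P j) (tj_lip P j) h1 h0 (tj_diff P j) x
    refine ⟨(deriv (tau (j.2.2.1.1 : ℝ) (j.2.2.1.1 : ℝ)) (N (T e f (tj P j) x))) •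
      ((fderiv ℝ N (T e f (tj P j) x)).comp L), fun h => ?_⟩
    have hx0 : x + (0:ℝ) • h = x := by simp
    have d1 : HasFDerivAt N (fderiv ℝ N (T e f (tj P j) x)) (T e f (tj P j) (x + (0:ℝ) • h)) := by
      rw [hx0]; exact (hNd _ hTne).hasFDerivAt
    have d2 := d1.comp_hasDerivAt (0:ℝ) (hL h)
    have d3 : HasDerivAt (tau (j.2.2.1.1 : ℝ) (j.2.2.1.1 : ℝ))
        (deriv (tau (j.2.2.1.1 : ℝ) (j.2.2.1.1 : ℝ)) (N (T e f (tj P j) x)))
        (N (T e f (tj P j) (x + (0:ℝ) • h))) := by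
      rw [hx0]; exact (tau_diff hq _ _).hasDerivAt
    exact d3.comp (0:ℝ) d2

include hs hC0 hC ha hb hNa hNb in
lemma sepA (h1 : ∀ i : Γ, f i (e i) = 1) (h0 : ∀ i j : Γ, i ≠ j → f i (e j) = 0)
    (hK : ∀ (A : Finset Γ) (x : X), ‖∑ γ ∈ A, f γ x • e γ‖ ≤ C * ‖x‖)
    (hP : ∀ (F : Finset Γ) (v : Γ → ℝ) (ε : ℝ), 0 < ε → ∃ n, ∀ γ ∈ F, |P n γ - v γ| < ε)
    (x y : X) (σ : Bool) (F : Finset Γ) (A ε : ℝ) (hA0 : 0 < A)
    (hA : A = ‖∑ γ ∈ F, (max (max (sg σ * f γ x) 0 - max (sg σ * f γ y) 0) 0) • e γ‖)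
    (hε : ‖y - ∑ γ ∈ F, f γ y • e γ‖ ≤ ε) (q : {q : ℚ // 0 < q})
    (hq1 : b * (C * ε) ≤ (q.1 : ℝ)) (hq2 : 6 * (q.1 : ℝ) ≤ a * (A / (2 * C ^ 2))) :
    ∃ j : J, 4 * (q.1 : ℝ) ≤ |G e f N P j x - G e f N P j y| := by
  classical
  have hq : (0:ℝ) < (q.1 : ℝ) := by exact_mod_cast q.2
  set E : ℝ := ∑ γ ∈ F, ‖e γ‖ + 1 with hE
  have hE0 : 0 < E := by
    have : 0 ≤ ∑ γ ∈ F, ‖e γ‖ := Finset.sum_nonneg (fun _ _ => norm_nonneg _)
    linarith
  set κ0 : ℝ := A / (4 * C * E) with hκ0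
  have hκ0pos : 0 < κ0 := by positivity
  obtain ⟨κ, hκ1, hκ2⟩ := exists_rat_btwn hκ0pos
  have hκpos : (0:ℚ) < κ := by exact_mod_cast hκ1
  obtain ⟨n, hn⟩ := hP F (fun γ => max (sg σ * f γ y) 0 + κ0 / 2) (κ0 / 2) (by positivity)
  set j : J := (n, ⟨κ, hκpos⟩, q, σ) with hj
  -- thresholds
  have ht1 : ∀ γ ∈ F, max (sg σ * f γ y) 0 ≤ max (P n γ) 0 := by
    intro γ hγ
    have := abs_lt.mp (hn γ hγ)
    apply max_le
    · have h2 := le_max_left (sg σ * f γ y) 0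
      exact le_max_of_le_left (by linarith [this.1])
    · exact le_max_right _ _
  have ht2 : ∀ γ ∈ F, max (P n γ) 0 ≤ max (sg σ * f γ y) 0 + κ0 := by
    intro γ hγ
    have := abs_lt.mp (hn γ hγ)
    apply max_le
    · linarith [this.2]
    · have h2 := le_max_right (sg σ * f γ y) 0
      linarith
  have htj : ∀ γ r, tj P j γ r = tau (max (P n γ) 0) (κ : ℝ) (sg σ * r) := fun γ r => rfl
  have htj0 : ∀ γ r, 0 ≤ tj P j γ r := fun γ r => by rw [htj]; exact tau_nonneg _ _ _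
  refine ⟨j, ?_⟩
  -- T y is small
  have hTy : ‖T e f (tj P j) y‖ ≤ C * ε := by
    have hdom : ∀ γ, |tj P j γ (f γ y)| ≤ |f γ (y - ∑ γ ∈ F, f γ y • e γ)| := by
      intro γ
      by_cases hγ : γ ∈ F
      · have : tj P j γ (f γ y) = 0 := by
          rw [htj]
          apply tau_eq_zero (by exact_mod_cast hκpos.le)
          exact (le_max_left _ _).trans (ht1 γ hγ)
        rw [this, abs_zero]
        exact abs_nonneg _
      · have hout : f γ (y - ∑ γ ∈ F, f γ y • e γ) = f γ y := by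
          rw [map_sub, map_sum, Finset.sum_eq_zero, sub_zero]
          intro i hi
          have : γ ≠ i := fun hh => hγ (hh ▸ hi)
          simp [h0 γ i this]
        rw [hout]
        have := tj_lip P j γ (f γ y) 0
        rwa [tj_zero, sub_zero, sub_zero] at this
    refine (dom_summable e f hs hC0 hC _ _ hdom).2.trans ?_
    exact mul_le_mul_of_nonneg_left hε hC0.le
  have hNy : N (T e f (tj P j) y) ≤ (q.1 : ℝ) := by
    refine (hNb _).trans (le_trans ?_ hq1)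
    exact mul_le_mul_of_nonneg_left hTy hb.le
  have hGy : G e f N P j y = 0 := by
    unfold G
    exact tau_eq_zero hq.le hNy
  -- T x is large
  have hTx : A / (2 * C ^ 2) ≤ ‖T e f (tj P j) x‖ := by
    have hu : ∀ γ ∈ F, |max (max (sg σ * f γ x) 0 - max (sg σ * f γ y) 0) 0|
        ≤ |tj P j γ (f γ x) + (κ + κ0)| := by
      intro γ hγ
      have hκr : (0:ℝ) < (κ:ℝ) := by exact_mod_cast hκpos
      rw [abs_of_nonneg (le_max_right _ _), abs_of_nonneg (by have := htj0 γ (f γ x); linarith)]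
      apply max_le
      · have g1 := htj0 γ (f γ x)
        have g2 := tau_ge (max (P n γ) 0) (κ : ℝ) (sg σ * f γ x)
        rw [← htj] at g2
        have g3 := ht2 γ hγ
        have g4 := ht1 γ hγ
        have g5 : 0 ≤ max (sg σ * f γ y) 0 := le_max_right _ _
        rcases le_total (sg σ * f γ x) 0 with hx | hx
        · rw [max_eq_right hx]; linarith
        · rw [max_eq_left hx]; linarith
      · have := htj0 γ (f γ x)
        linarith
    have hA2 := hC F _ _ hu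
    rw [← hA] at hA2
    have hsplit : ∑ γ ∈ F, (tj P j γ (f γ x) + ((κ:ℝ) + κ0)) • e γ
        = ∑ γ ∈ F, f γ (T e f (tj P j) x) • e γ + ((κ:ℝ) + κ0) • ∑ γ ∈ F, e γ := by
      rw [Finset.smul_sum, ← Finset.sum_add_distrib]
      apply Finset.sum_congr rfl
      intro γ _
      rw [T_coord e f hs hC0 hC (tj P j) (tj_zero P j) (tj_lip P j) h1 h0 x γ, add_smul]
    have hκr : (0:ℝ) < (κ:ℝ) := by exact_mod_cast hκpos
    have hnorm : ‖∑ γ ∈ F, (tj P j γ (f γ x) + ((κ:ℝ) + κ0)) • e γ‖ ≤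
        C * ‖T e f (tj P j) x‖ + 2 * κ0 * E := by
      rw [hsplit]
      refine (norm_add_le _ _).trans (add_le_add (hK F _) ?_)
      rw [norm_smul, Real.norm_eq_abs, abs_of_pos (by positivity)]
      have k1 : ‖∑ γ ∈ F, e γ‖ ≤ E := (norm_sum_le _ _).trans (by rw [hE]; linarith)
      calc ((κ:ℝ) + κ0) * ‖∑ γ ∈ F, e γ‖ ≤ ((κ:ℝ) + κ0) * E :=
            mul_le_mul_of_nonneg_left k1 (by positivity)
        _ ≤ 2 * κ0 * E := mul_le_mul_of_nonneg_right (by linarith) hE0.le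
    have hA3 : A ≤ C * (C * ‖T e f (tj P j) x‖ + 2 * κ0 * E) :=
      hA2.trans (mul_le_mul_of_nonneg_left hnorm hC0.le)
    have hA4 : C * (2 * κ0 * E) = A / 2 := by
      rw [hκ0]; field_simp; norm_num
    have hA5 : A / 2 ≤ C ^ 2 * ‖T e f (tj P j) x‖ := by nlinarith
    rw [div_le_iff₀ (by positivity)]
    nlinarith
  have hNx : 6 * (q.1 : ℝ) ≤ N (T e f (tj P j) x) := by
    refine hq2.trans (le_trans ?_ (hNa _))
    exact mul_le_mul_of_nonneg_left hTx ha.le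
  have hGx : 4 * (q.1 : ℝ) ≤ G e f N P j x := by
    unfold G
    have := tau_ge (j.2.2.1.1 : ℝ) (j.2.2.1.1 : ℝ) (N (T e f (tj P j) x))
    have hjq : (j.2.2.1.1 : ℝ) = (q.1 : ℝ) := rfl
    rw [hjq] at this ⊢
    linarith
  rw [hGy, sub_zero]
  exact hGx.trans (le_abs_self _)

lemma real_split (p r : ℝ) : |p - r| ≤ |max (max p 0 - max r 0) 0 + max (max r 0 - max p 0) 0
    + max (max (-p) 0 - max (-r) 0) 0 + max (max (-r) 0 - max (-p) 0) 0| := by
  have n1 : 0 ≤ max (max p 0 - max r 0) 0 := le_max_right _ _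
  have n2 : 0 ≤ max (max r 0 - max p 0) 0 := le_max_right _ _
  have n3 : 0 ≤ max (max (-p) 0 - max (-r) 0) 0 := le_max_right _ _
  have n4 : 0 ≤ max (max (-r) 0 - max (-p) 0) 0 := le_max_right _ _
  have m1 : max p 0 - max r 0 ≤ max (max p 0 - max r 0) 0 := le_max_left _ _
  have m2 : max r 0 - max p 0 ≤ max (max r 0 - max p 0) 0 := le_max_left _ _
  have m3 : max (-p) 0 - max (-r) 0 ≤ max (max (-p) 0 - max (-r) 0) 0 := le_max_left _ _
  have m4 : max (-r) 0 - max (-p) 0 ≤ max (max (-r) 0 - max (-p) 0) 0 := le_max_left _ _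
  have hp : p = max p 0 - max (-p) 0 := by
    rcases le_total p 0 with h | h
    · rw [max_eq_right h, max_eq_left (by linarith)]; ring
    · rw [max_eq_left h, max_eq_right (by linarith)]; ring
  have hr : r = max r 0 - max (-r) 0 := by
    rcases le_total r 0 with h | h
    · rw [max_eq_right h, max_eq_left (by linarith)]; ring
    · rw [max_eq_left h, max_eq_right (by linarith)]; ring
  rw [abs_of_nonneg (by linarith : 0 ≤ max (max p 0 - max r 0) 0 + max (max r 0 - max p 0) 0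
    + max (max (-p) 0 - max (-r) 0) 0 + max (max (-r) 0 - max (-p) 0) 0)]
  rw [abs_le]
  constructor
  · linarith
  · linarith

include hs hC0 hC ha hb hNa hNb in
lemma sep (h1 : ∀ i : Γ, f i (e i) = 1) (h0 : ∀ i j : Γ, i ≠ j → f i (e j) = 0)
    (hK : ∀ (A : Finset Γ) (x : X), ‖∑ γ ∈ A, f γ x • e γ‖ ≤ C * ‖x‖)
    (hP : ∀ (F : Finset Γ) (v : Γ → ℝ) (ε : ℝ), 0 < ε → ∃ n, ∀ γ ∈ F, |P n γ - v γ| < ε)
    (x y : X) (hxy : x ≠ y) :
    ∃ j : J, (a / (48 * C ^ 3)) * ‖x - y‖ ≤ |G e f N P j x - G e f N P j y| := by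
  classical
  set δ := ‖x - y‖ with hδ
  have hδ0 : 0 < δ := norm_pos_iff.mpr (sub_ne_zero.mpr hxy)
  set q0 : ℝ := a * δ / (96 * C ^ 3) with hq0
  have hq0pos : 0 < q0 := by positivity
  obtain ⟨q, hqa, hqb⟩ := exists_rat_btwn (show q0 / 2 < q0 by linarith)
  have hqpos : (0:ℚ) < q := by
    have : (0:ℝ) < q := by linarith
    exact_mod_cast this
  set ε : ℝ := min (δ / 4) (q0 / (2 * (b * C))) with hε
  have hε0 : 0 < ε := lt_min (by positivity) (by positivity)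
  have hε1 : ε ≤ δ / 4 := min_le_left _ _
  have hε2 : b * (C * ε) ≤ q := by
    have : ε ≤ q0 / (2 * (b * C)) := min_le_right _ _
    have h2 : b * C * ε ≤ b * C * (q0 / (2 * (b * C))) := mul_le_mul_of_nonneg_left this (by positivity)
    have h3 : b * C * (q0 / (2 * (b * C))) = q0 / 2 := by field_simp
    nlinarith
  obtain ⟨s1, hs1⟩ := (Metric.tendsto_atTop.mp (hs x)) ε hε0
  obtain ⟨s2, hs2⟩ := (Metric.tendsto_atTop.mp (hs y)) ε hε0
  set F := s1 ∪ s2 with hF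
  have hx : ‖x - ∑ γ ∈ F, f γ x • e γ‖ ≤ ε := by
    have := hs1 F Finset.subset_union_left
    rw [dist_comm, dist_eq_norm] at this
    exact this.le
  have hy : ‖y - ∑ γ ∈ F, f γ y • e γ‖ ≤ ε := by
    have := hs2 F Finset.subset_union_right
    rw [dist_comm, dist_eq_norm] at this
    exact this.le
  have hxyF : δ / 2 ≤ ‖∑ γ ∈ F, (f γ x - f γ y) • e γ‖ := by
    have e1 : x - y = (∑ γ ∈ F, (f γ x - f γ y) • e γ) + (x - ∑ γ ∈ F, f γ x • e γ)
        - (y - ∑ γ ∈ F, f γ y • e γ) := by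
      have : ∑ γ ∈ F, (f γ x - f γ y) • e γ = ∑ γ ∈ F, f γ x • e γ - ∑ γ ∈ F, f γ y • e γ := by
        rw [← Finset.sum_sub_distrib]
        exact Finset.sum_congr rfl (fun γ _ => sub_smul _ _ _)
      rw [this]; abel
    have e2 : δ ≤ ‖∑ γ ∈ F, (f γ x - f γ y) • e γ‖ + ε + ε := by
      rw [hδ]
      calc ‖x - y‖ = _ := congrArg norm e1
        _ ≤ _ := (norm_sub_le _ _).trans (add_le_add ((norm_add_le _ _).trans (add_le_add le_rfl hx)) hy)
    linarith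
  set A1 : ℝ := ‖∑ γ ∈ F, (max (max (f γ x) 0 - max (f γ y) 0) 0) • e γ‖ with hA1
  set A2 : ℝ := ‖∑ γ ∈ F, (max (max (f γ y) 0 - max (f γ x) 0) 0) • e γ‖ with hA2
  set A3 : ℝ := ‖∑ γ ∈ F, (max (max (-(f γ x)) 0 - max (-(f γ y)) 0) 0) • e γ‖ with hA3
  set A4 : ℝ := ‖∑ γ ∈ F, (max (max (-(f γ y)) 0 - max (-(f γ x)) 0) 0) • e γ‖ with hA4
  have hsumA : δ / 2 ≤ C * (A1 + A2 + A3 + A4) := by
    refine hxyF.trans ((hC F _ _ (fun γ _ => real_split (f γ x) (f γ y))).trans ?_)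
    apply mul_le_mul_of_nonneg_left _ hC0.le
    simp_rw [add_smul, Finset.sum_add_distrib]
    exact (norm_add_le _ _).trans (add_le_add ((norm_add_le _ _).trans
      (add_le_add (norm_add_le _ _) le_rfl)) le_rfl)
  have hfin : ∀ A : ℝ, δ / (8 * C) ≤ A → 0 < A ∧ 6 * (q : ℝ) ≤ a * (A / (2 * C ^ 2)) := by
    intro A hA
    have hA0 : 0 < A := lt_of_lt_of_le (by positivity) hA
    refine ⟨hA0, ?_⟩
    have k1 : 6 * (q:ℝ) ≤ 6 * q0 := by linarith
    have k2 : 6 * q0 = a * ((δ / (8 * C)) / (2 * C ^ 2)) := by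
      rw [hq0]; field_simp; norm_num
    rw [k2] at k1
    refine k1.trans ?_
    apply mul_le_mul_of_nonneg_left _ ha.le
    exact div_le_div_of_nonneg_right hA (by positivity)
  have hconc : a / (48 * C ^ 3) * δ ≤ 4 * (q : ℝ) := by
    have : a / (48 * C ^ 3) * δ = 2 * q0 := by rw [hq0]; field_simp; norm_num
    rw [this]; linarith
  have hcases : δ / (8 * C) ≤ A1 ∨ δ / (8 * C) ≤ A2 ∨ δ / (8 * C) ≤ A3 ∨ δ / (8 * C) ≤ A4 := by
    by_contra hcon
    push Not at hcon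
    obtain ⟨c1, c2, c3, c4⟩ := hcon
    have : C * (A1 + A2 + A3 + A4) < C * (4 * (δ / (8 * C))) :=
      mul_lt_mul_of_pos_left (by linarith) hC0
    have h2 : C * (4 * (δ / (8 * C))) = δ / 2 := by field_simp; norm_num
    linarith
  rcases hcases with hc | hc | hc | hc
  · obtain ⟨hA0, hq6⟩ := hfin _ hc
    obtain ⟨j, hj⟩ := sepA e f N P hs hC0 hC ha hb hNa hNb h1 h0 hK hP x y true F A1 ε hA0
      (by rw [hA1]; simp [sg]) hy ⟨q, hqpos⟩ hε2 hq6
    exact ⟨j, hconc.trans hj⟩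
  · obtain ⟨hA0, hq6⟩ := hfin _ hc
    obtain ⟨j, hj⟩ := sepA e f N P hs hC0 hC ha hb hNa hNb h1 h0 hK hP y x true F A2 ε hA0
      (by rw [hA2]; simp [sg]) hx ⟨q, hqpos⟩ hε2 hq6
    exact ⟨j, by rw [abs_sub_comm]; exact hconc.trans hj⟩
  · obtain ⟨hA0, hq6⟩ := hfin _ hc
    obtain ⟨j, hj⟩ := sepA e f N P hs hC0 hC ha hb hNa hNb h1 h0 hK hP x y false F A3 ε hA0
      (by rw [hA3]; simp [sg]) hy ⟨q, hqpos⟩ hε2 hq6
    exact ⟨j, hconc.trans hj⟩
  · obtain ⟨hA0, hq6⟩ := hfin _ hc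
    obtain ⟨j, hj⟩ := sepA e f N P hs hC0 hC ha hb hNa hNb h1 h0 hK hP y x false F A4 ε hA0
      (by rw [hA4]; simp [sg]) hx ⟨q, hqpos⟩ hε2 hq6
    exact ⟨j, by rw [abs_sub_comm]; exact hconc.trans hj⟩

end main

/-- Every real Banach space with an equivalent norm Fréchet smooth off 0, density continuum, and a (long) unconditional basis admits a bi-Lipschitz map into ℓ∞ whose every coordinate is Gâteaux differentiable everywhere. -/
theorem result :
  ∀ (X : Type) [NormedAddCommGroup X] [NormedSpace ℝ X] [CompleteSpace X],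
    (∃ N : X → ℝ, (∀ x y : X, N (x + y) ≤ N x + N y) ∧
      (∀ (c : ℝ) (x : X), N (c • x) = |c| * N x) ∧
      (∃ a b : ℝ, 0 < a ∧ 0 < b ∧ ∀ x : X, a * ‖x‖ ≤ N x ∧ N x ≤ b * ‖x‖) ∧
      ∀ x : X, x ≠ 0 → DifferentiableAt ℝ N x) →
    ((∃ D : Set X, Dense D ∧ Cardinal.mk ↥D = Cardinal.continuum) ∧
      ∀ D : Set X, Dense D → Cardinal.continuum ≤ Cardinal.mk ↥D) →
    (∃ (Γ : Type) (e : Γ → X) (f : Γ → X →L[ℝ] ℝ),
      (∀ i : Γ, f i (e i) = 1) ∧ (∀ i j : Γ, i ≠ j → f i (e j) = 0) ∧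
      ∀ x : X, HasSum (fun γ : Γ => f γ x • e γ) x) →
    ∃ (φ : X → lp (fun _ : ℕ => ℝ) ∞) (K L : NNReal),
      LipschitzWith K φ ∧ AntilipschitzWith L φ ∧
      ∀ (j : ℕ) (x : X), ∃ g : X →L[ℝ] ℝ, ∀ h : X,
        HasDerivAt (fun t : ℝ => φ (x + t • h) j) (g h) 0 := by
  intro X _ _ _ hN hdens hbasis
  obtain ⟨N, hN1, hN2, ⟨a, b, ha, hb, hNab⟩, hNd⟩ := hN
  obtain ⟨⟨D, hD, hDc⟩, -⟩ := hdens
  obtain ⟨Γ, e, f, h1, h0, hs⟩ := hbasis
  obtain ⟨K, hK0, hK⟩ := S_bound e f hs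
  have hC0 : (0:ℝ) < 2 * K := by positivity
  have hC := mult_bound e f h1 h0 hK
  have hK' : ∀ (A : Finset Γ) (x : X), ‖∑ γ ∈ A, f γ x • e γ‖ ≤ 2 * K * ‖x‖ := by
    intro A x
    refine (hK A x).trans ?_
    apply mul_le_mul_of_nonneg_right _ (norm_nonneg _)
    linarith
  obtain ⟨ι, hι⟩ := exists_inj e f h1 h0 hK0 hK D hD hDc
  obtain ⟨P, hP⟩ := thresholds ι hι
  have hNa : ∀ x, a * ‖x‖ ≤ N x := fun x => (hNab x).1
  have hNb : ∀ x, N x ≤ b * ‖x‖ := fun x => (hNab x).2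
  have : Nonempty J := ⟨(0, ⟨1, one_pos⟩, ⟨1, one_pos⟩, true)⟩
  obtain ⟨en, hen⟩ := exists_surjective_nat J
  have hlip : ∀ j x y, |G e f N P j x - G e f N P j y| ≤ b * (2 * K) * ‖x - y‖ :=
    fun j x y => G_lip e f N P hs hC0 hC hN1 hN2 hb hNb j x y
  have hmem : ∀ x : X, Memℓp (fun n : ℕ => G e f N P (en n) x) ∞ := by
    intro x
    apply memℓp_infty
    refine ⟨b * (2 * K) * ‖x‖, ?_⟩
    rintro _ ⟨n, rfl⟩
    have := hlip (en n) x 0
    rw [G_zero e f N P hN2, sub_zero, sub_zero] at this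
    exact this
  let φ : X → lp (fun _ : ℕ => ℝ) ∞ := fun x => ⟨fun n => G e f N P (en n) x, hmem x⟩
  have hφ : ∀ x n, φ x n = G e f N P (en n) x := fun x n => rfl
  refine ⟨φ, ⟨b * (2 * K), by positivity⟩, ⟨(a / (48 * (2 * K) ^ 3))⁻¹, by positivity⟩, ?_, ?_, ?_⟩
  · apply LipschitzWith.of_dist_le_mul
    intro x y
    rw [dist_eq_norm, dist_eq_norm]
    apply lp.norm_le_of_forall_le (mul_nonneg (NNReal.coe_nonneg _) (norm_nonneg _))
    intro n
    exact hlip (en n) x y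
  · apply AntilipschitzWith.of_le_mul_dist
    intro x y
    by_cases hxy : x = y
    · rw [hxy, dist_self]; exact mul_nonneg (NNReal.coe_nonneg _) dist_nonneg
    obtain ⟨j, hj⟩ := sep e f N P hs hC0 hC ha hb hNa hNb h1 h0 hK' hP x y hxy
    obtain ⟨n, hn⟩ := hen j
    have h2 : |G e f N P j x - G e f N P j y| ≤ ‖φ x - φ y‖ := by
      have := lp.norm_apply_le_norm (p := ∞) ENNReal.top_ne_zero (φ x - φ y) n
      rw [← hn]
      exact this
    rw [dist_eq_norm, dist_eq_norm]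
    have h3 := hj.trans h2
    have hpos : 0 < a / (48 * (2 * K) ^ 3) := by positivity
    show ‖x - y‖ ≤ (a / (48 * (2 * K) ^ 3))⁻¹ * ‖φ x - φ y‖
    rw [inv_mul_eq_div, le_div_iff₀ hpos, mul_comm]
    exact h3
  · intro n x
    exact G_gateaux e f N P hs hC0 hC hN1 hN2 hb hNb h1 h0 hNd (en n) x

end Pool.Agent.S05097
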