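import Pool.Statements.S05464
import Pool.Agent.Lib.MP_95e7ec_an.Hn.Final
import Pool.Agent.Lib.MP_95e7ec_an.Hn.Bridge

set_option autoImplicit false
open Pool Pool.MP_95e7ec_an

namespace Pool.Agent.S05464

/-- The negation of the preceding statement: There are K and N such that for every n ≥ N, every planar polynomial system of degree at most n has finitely many limit cycles (isolated nonconstant periodic orbits), at most K·n³ of them; i.e. the Hilbert numbers are O(n³). -/
theorem result :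
    ¬ (∃ K : ℝ, ∃ N : ℕ, ∀ n : ℕ, N ≤ n → ∀ P Q : MvPolynomial (Fin 2) ℝ,
      P.totalDegree ≤ n → Q.totalDegree ≤ n →
      ∃ S : Finset (Set (ℝ × ℝ)), (S.card : ℝ) ≤ K * (n : ℝ) ^ 3 ∧
        ∀ C : Set (ℝ × ℝ),
          ((∃ γ : ℝ → ℝ × ℝ, ∃ T : ℝ, 0 < T ∧
              (∀ t : ℝ, HasDerivAt γ
                (MvPolynomial.eval ![(γ t).1, (γ t).2] P,
                 MvPolynomial.eval ![(γ t).1, (γ t).2] Q) t) ∧
              (∀ t : ℝ, γ (t + T) = γ t) ∧
              (∃ s t : ℝ, γ s ≠ γ t) ∧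
              C = Set.range γ) ∧
           ∃ U : Set (ℝ × ℝ), IsOpen U ∧ C ⊆ U ∧
             ∀ C' : Set (ℝ × ℝ),
               (∃ γ : ℝ → ℝ × ℝ, ∃ T : ℝ, 0 < T ∧
                  (∀ t : ℝ, HasDerivAt γ
                    (MvPolynomial.eval ![(γ t).1, (γ t).2] P,
                     MvPolynomial.eval ![(γ t).1, (γ t).2] Q) t) ∧
                  (∀ t : ℝ, γ (t + T) = γ t) ∧
                  (∃ s t : ℝ, γ s ≠ γ t) ∧
                  C' = Set.range γ) →
               C' ⊆ U → C' = C) →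
          C ∈ S) := by
  exact Pool.Agent.Lib.MP_95e7ec_an.Hn.not_cubic
    (Pool.Agent.Lib.MP_95e7ec_an.Ww.growth_real Pool.Agent.Lib.MP_95e7ec_an.Hn.growth_cubic)

end Pool.Agent.S05464
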