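import Pool.Statements.S05718
import Mathlib

set_option autoImplicit false
open MeasureTheory Filter Topology
open Pool Pool.MP_a70d84_an

namespace Pool.Agent.S05718

/-- The sequence space. -/
noncomputable abbrev L2 := lp (fun _ : ℕ => ℂ) 2

/-- unit vectors -/
noncomputable abbrev ee (k : ℕ) : L2 := lp.single 2 k (1 : ℂ)

lemma ee_apply (k j : ℕ) : (ee k) j = if j = k then 1 else 0 := by
  rw [lp.single_apply]
  by_cases h : j = k
  · subst h; simp
  · simp [h]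

lemma inner_ee (j : ℕ) (x : L2) : inner ℂ (ee j) x = x j := by
  rw [lp.inner_single_left]
  simp

section flip

variable {P W : ℕ → (L2 →L[ℂ] L2)}
  (hP : ∀ (n : ℕ) (x : L2) (j : ℕ), (P n x) j = if j ≤ n then x j else 0)
  (hW : ∀ (n : ℕ) (x : L2) (j : ℕ), (W n x) j = if j ≤ n then x (n - j) else 0)

include hP in
lemma P_eq_sum (n : ℕ) (x : L2) : P n x = ∑ k ∈ Finset.range (n + 1), x k • ee k := by
  ext j
  rw [hP, lp.coeFn_sum, Finset.sum_apply]
  simp only [lp.coeFn_smul, Pi.smul_apply, ee_apply, smul_eq_mul, mul_ite, mul_one, mul_zero]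
  rw [Finset.sum_ite_eq]
  simp

include hP in
lemma PP (n : ℕ) (x : L2) : P n (P n x) = P n x := by
  ext j
  rw [hP, hP]
  split_ifs <;> rfl

include hP hW in
lemma PW (n : ℕ) (x : L2) : P n (W n x) = W n x := by
  ext j
  rw [hP, hW]
  split_ifs <;> rfl

include hP hW in
lemma WP (n : ℕ) (x : L2) : W n (P n x) = W n x := by
  ext j
  rw [hW, hW, hP]
  split_ifs with h1 h2
  · rfl
  · omega
  · rfl

include hP hW in
lemma WW (n : ℕ) (x : L2) : W n (W n x) = P n x := by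
  ext j
  rw [hP, hW, hW]
  split_ifs with h1 h2
  · have h3 : n - (n - j) = j := by omega
    rw [h3]
  · omega
  · rfl

lemma inner_sum_form (x y : L2) : inner ℂ x y = ∑' j, (starRingEnd ℂ (x j)) * y j := by
  rw [lp.inner_eq_tsum]
  congr 1
  ext j
  simp [mul_comm]

include hP in
lemma inner_P_left (n : ℕ) (x y : L2) : inner ℂ (P n x) y
    = ∑ j ∈ Finset.range (n + 1), (starRingEnd ℂ (x j)) * y j := by
  rw [inner_sum_form, tsum_eq_sum (s := Finset.range (n + 1))]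
  · apply Finset.sum_congr rfl
    intro j hj
    rw [hP, if_pos (by simpa [Nat.lt_succ_iff] using hj)]
  · intro j hj
    rw [hP, if_neg (by simpa [Nat.lt_succ_iff] using hj)]
    simp

include hP in
lemma inner_P_right (n : ℕ) (x y : L2) : inner ℂ x (P n y)
    = ∑ j ∈ Finset.range (n + 1), (starRingEnd ℂ (x j)) * y j := by
  rw [inner_sum_form, tsum_eq_sum (s := Finset.range (n + 1))]
  · apply Finset.sum_congr rfl
    intro j hj
    rw [hP, if_pos (by simpa [Nat.lt_succ_iff] using hj)]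
  · intro j hj
    rw [hP, if_neg (by simpa [Nat.lt_succ_iff] using hj)]
    simp

include hP in
lemma P_sa (n : ℕ) (x y : L2) : inner ℂ (P n x) y = inner ℂ x (P n y) := by
  rw [inner_P_left hP, inner_P_right hP]

include hP hW in
lemma W_sa (n : ℕ) (x y : L2) : inner ℂ (W n x) y = inner ℂ x (W n y) := by
  rw [← PW hP hW n x, ← PW hP hW n y, inner_P_left hP, inner_P_right hP]
  rw [← Finset.sum_range_reflect]
  apply Finset.sum_congr rfl
  intro j hj
  have hj' : j ≤ n := by simpa [Nat.lt_succ_iff] using hj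
  have h3 : n + 1 - 1 - j = n - j := by omega
  have h4 : n - (n - j) = j := by omega
  rw [hW, hW, h3, if_pos (by omega), if_pos hj', h4]

lemma norm_le_of_inner (x y : L2) (h : inner ℂ x x = inner ℂ y x) : ‖x‖ ≤ ‖y‖ := by
  by_cases hx : ‖x‖ = 0
  · rw [hx]; exact norm_nonneg _
  · have h1 : ‖x‖ ^ 2 = ‖(inner ℂ x x : ℂ)‖ := by
      rw [inner_self_eq_norm_sq_to_K]
      simp
    have h2 : ‖(inner ℂ y x : ℂ)‖ ≤ ‖y‖ * ‖x‖ := norm_inner_le_norm _ _
    rw [← h, ← h1] at h2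
    have h3 : 0 < ‖x‖ := lt_of_le_of_ne (norm_nonneg _) (Ne.symm hx)
    nlinarith

include hP in
lemma norm_P_le (n : ℕ) (x : L2) : ‖P n x‖ ≤ ‖x‖ := by
  apply norm_le_of_inner
  rw [P_sa hP, PP hP]

include hP hW in
lemma norm_W_le (n : ℕ) (x : L2) : ‖W n x‖ ≤ ‖x‖ := by
  have h1 : ‖W n x‖ ^ 2 = ‖(inner ℂ (W n x) (W n x) : ℂ)‖ := by
    rw [inner_self_eq_norm_sq_to_K]
    simp
  rw [W_sa hP hW, WW hP hW] at h1
  have h2 : ‖(inner ℂ x (P n x) : ℂ)‖ ≤ ‖x‖ * ‖P n x‖ := norm_inner_le_norm _ _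
  have h3 := norm_P_le hP n x
  have h4 : ‖W n x‖ ^ 2 ≤ ‖x‖ ^ 2 := by
    rw [h1]
    nlinarith [norm_nonneg x]
  exact le_of_sq_le_sq h4 (norm_nonneg _)

include hP in
lemma tendsto_P (x : L2) : Tendsto (fun n => P n x) atTop (𝓝 x) := by
  have h := (lp.hasSum_single (p := 2) (by norm_num) x).tendsto_sum_nat
  have h2 := h.comp (tendsto_add_atTop_nat 1)
  refine h2.congr ?_
  intro n
  rw [P_eq_sum hP]
  simp only [Function.comp]
  apply Finset.sum_congr rfl
  intro k _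
  rw [← lp.single_smul]
  simp

/-- weak null sequences -/
lemma weak_null (u : ℕ → L2) (hu : ∀ n, ‖u n‖ ≤ 1)
    (hc : ∀ j, Tendsto (fun n => (u n) j) atTop (𝓝 0)) (y : L2) :
    Tendsto (fun n => (inner ℂ y (u n) : ℂ)) atTop (𝓝 0) := by
  rw [Metric.tendsto_atTop]
  intro ε hε
  have h := (lp.hasSum_single (p := 2) (by norm_num) y).tendsto_sum_nat
  rw [Metric.tendsto_atTop] at h
  obtain ⟨m, hm⟩ := h (ε / 2) (by positivity)
  have hm := hm m le_rfl
  set z := ∑ k ∈ Finset.range m, lp.single 2 k (y k) with hz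
  have h2 : Tendsto (fun n => (inner ℂ z (u n) : ℂ)) atTop (𝓝 0) := by
    have h3 : (fun n => (inner ℂ z (u n) : ℂ)) =
        fun n => ∑ k ∈ Finset.range m, (starRingEnd ℂ (y k)) * (u n) k := by
      funext n
      rw [hz, sum_inner]
      apply Finset.sum_congr rfl
      intro k _
      rw [lp.inner_single_left]
      simp [mul_comm]
    rw [h3]
    have h4 : (0 : ℂ) = ∑ k ∈ Finset.range m, (starRingEnd ℂ (y k)) * 0 := by simp
    rw [h4]
    exact tendsto_finsetSum _ fun k _ => (hc k).const_mul _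
  rw [Metric.tendsto_atTop] at h2
  obtain ⟨N, hN⟩ := h2 (ε / 2) (by positivity)
  refine ⟨N, fun n hn => ?_⟩
  have h5 := hN n hn
  rw [dist_zero_right] at h5 ⊢
  have h6 : (inner ℂ y (u n) : ℂ) = inner ℂ z (u n) + inner ℂ (y - z) (u n) := by
    rw [← inner_add_left]
    congr 1
    abel
  rw [h6]
  have h7 : ‖(inner ℂ (y - z) (u n) : ℂ)‖ < ε / 2 := by
    calc _ ≤ ‖y - z‖ * ‖u n‖ := norm_inner_le_norm _ _
      _ ≤ ‖y - z‖ * 1 := by gcongr; exact hu n
      _ = dist z y := by rw [mul_one, dist_comm, dist_eq_norm]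
      _ < ε / 2 := hm
  calc _ ≤ ‖(inner ℂ z (u n) : ℂ)‖ + ‖(inner ℂ (y - z) (u n) : ℂ)‖ := norm_add_le _ _
    _ < ε := by linarith

lemma compact_null (K : L2 →L[ℂ] L2) (hK : IsCompactOperator K) (u : ℕ → L2) (hu : ∀ n, ‖u n‖ ≤ 1)
    (hc : ∀ j, Tendsto (fun n => (u n) j) atTop (𝓝 0)) :
    Tendsto (fun n => K (u n)) atTop (𝓝 0) := by
  obtain ⟨S, hS, hS'⟩ := IsCompactOperator.image_closedBall_subset_compact
    (f := (K : L2 →ₗ[ℂ] L2)) hK 1
  have hmem : ∀ n, K (u n) ∈ S := fun n => hS' ⟨u n, by simpa using hu n, rfl⟩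
  apply tendsto_of_subseq_tendsto
  intro ns hns
  obtain ⟨s, hs, ms, hms, hlim⟩ := hS.tendsto_subseq (fun n => hmem (ns n))
  refine ⟨ms, ?_⟩
  have hs0 : s = 0 := by
    ext j
    have h1 : Tendsto (fun n => (inner ℂ (ee j) (K (u (ns (ms n)))) : ℂ)) atTop
        (𝓝 (inner ℂ (ee j) s)) := by
      exact (tendsto_const_nhds).inner hlim
    have h2 : Tendsto (fun n => (inner ℂ (ee j) (K (u (ns (ms n)))) : ℂ)) atTop (𝓝 0) := by
      have h3 := weak_null u hu hc ((ContinuousLinearMap.adjoint K) (ee j))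
      have h4 := (h3.comp hns).comp hms.tendsto_atTop
      refine h4.congr ?_
      intro n
      simp only [Function.comp]
      rw [ContinuousLinearMap.adjoint_inner_left]
    rw [← inner_ee, tendsto_nhds_unique h1 h2]
    rfl
  rw [hs0] at hlim
  exact hlim

end flip

section ops

variable {P W : ℕ → (L2 →L[ℂ] L2)}
  (hP : ∀ (n : ℕ) (x : L2) (j : ℕ), (P n x) j = if j ≤ n then x j else 0)
  (hW : ∀ (n : ℕ) (x : L2) (j : ℕ), (W n x) j = if j ≤ n then x (n - j) else 0)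
  {T S : L2 →L[ℂ] L2} {c : ℤ → ℂ}
  (hT : ∀ j k : ℕ, (T (ee k)) j = c ((j : ℤ) - (k : ℤ)))
  (hc0 : ∀ l : ℤ, l < 0 → c l = 0)
  (hcr : ∀ l : ℤ, starRingEnd ℂ (c l) = c l)
  (hS : ∀ x y : L2, inner ℂ (S x) y = inner ℂ x (T y))
  (hTT : ∀ x : L2, S (T x) = x)

include hS in
lemma hS' (x y : L2) : inner ℂ x (S y) = inner ℂ (T x) y := by
  rw [← inner_conj_symm, hS, inner_conj_symm]

include hT hcr hS in
lemma adj_ee (j k : ℕ) : (S (ee k)) j = c ((k : ℤ) - (j : ℤ)) := by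
  rw [← inner_ee, hS' hS, lp.inner_single_right]
  rw [hT]
  simp [hcr]

include hP hT hc0 hcr hS in
lemma P_adj_ee (n j : ℕ) (hj : j ≤ n) : P n (S (ee j)) = S (ee j) := by
  ext k
  rw [hP, adj_ee hT hcr hS]
  split_ifs with h
  · rfl
  · rw [hc0]
    omega

include hP hT hc0 hcr hS in
lemma PTP (n : ℕ) (x : L2) : P n (T (P n x)) = P n (T x) := by
  ext j
  rw [hP, hP]
  split_ifs with h
  · rw [← inner_ee, ← inner_ee, ← hS, ← hS, ← P_sa hP, P_adj_ee hP hT hc0 hcr hS n j h]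
  · rfl

include hP hW hT hcr hS in
lemma WTW (n : ℕ) (x : L2) : W n (T (W n x)) = P n (S (P n x)) := by
  ext j
  rw [hP, hW]
  split_ifs with h
  · rw [P_eq_sum hP n x, ← PW hP hW n x, P_eq_sum hP n (W n x), map_sum, map_sum, lp.coeFn_sum,
      lp.coeFn_sum, Finset.sum_apply, Finset.sum_apply, ← Finset.sum_range_reflect]
    apply Finset.sum_congr rfl
    intro k hk
    have hk' : k ≤ n := by simpa [Nat.lt_succ_iff] using hk
    have h3 : n + 1 - 1 - k = n - k := by omega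
    have h4 : n - (n - k) = k := by omega
    rw [map_smul, map_smul, lp.coeFn_smul, lp.coeFn_smul, Pi.smul_apply, Pi.smul_apply, h3,
      hT, adj_ee hT hcr hS, hW, if_pos (by omega), h4]
    congr 2
    omega
  · rfl

include hP hW hT hcr hS in
lemma WSW (n : ℕ) (x : L2) : W n (S (W n x)) = P n (T (P n x)) := by
  apply ext_inner_right ℂ
  intro y
  rw [W_sa hP hW, hS, W_sa hP hW, WTW hP hW hT hcr hS, ← P_sa hP, hS' hS, ← P_sa hP]

/-- The projection onto the model space. -/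
noncomputable def KK (T S : L2 →L[ℂ] L2) : L2 →L[ℂ] L2 := 1 - T * S

lemma KK_apply (x : L2) : KK T S x = x - T (S x) := rfl

include hS in
lemma KK_sa (x y : L2) : inner ℂ (KK T S x) y = inner ℂ x (KK T S y) := by
  rw [KK_apply, KK_apply, inner_sub_left, inner_sub_right, ← hS' hS, ← hS]

include hTT in
lemma KK_idem (x : L2) : KK T S (KK T S x) = KK T S x := by
  rw [KK_apply, KK_apply, map_sub, map_sub, hTT]
  simp

include hS hTT in
lemma norm_KK_le (x : L2) : ‖KK T S x‖ ≤ ‖x‖ := by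
  apply norm_le_of_inner
  rw [KK_sa hS, KK_idem hTT]

/-- first factor -/
noncomputable def XX (P : ℕ → (L2 →L[ℂ] L2)) (T S : L2 →L[ℂ] L2) (n : ℕ) : L2 →L[ℂ] L2 :=
  P n - (P n * T * P n) * (P n * S * P n)

/-- second factor -/
noncomputable def YY (P : ℕ → (L2 →L[ℂ] L2)) (T S : L2 →L[ℂ] L2) (n : ℕ) : L2 →L[ℂ] L2 :=
  P n - (P n * S * P n) * (P n * T * P n)

lemma XX_apply (n : ℕ) (x : L2) : XX P T S n x = P n x - P n (T (P n (P n (S (P n x))))) := rfl

lemma YY_apply (n : ℕ) (x : L2) : YY P T S n x = P n x - P n (S (P n (P n (T (P n x))))) := rfl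

include hP hT hc0 hcr hS in
lemma XX_eq (n : ℕ) (x : L2) : XX P T S n x = P n (KK T S (P n x)) := by
  rw [XX_apply, PP hP, PTP hP hT hc0 hcr hS, KK_apply, map_sub, PP hP]

include hP hW hT hc0 hcr hS in
lemma YY_eq (n : ℕ) (x : L2) : YY P T S n x = W n (KK T S (W n x)) := by
  have h1 : W n (XX P T S n (W n x)) = W n (KK T S (W n x)) := by
    rw [XX_eq hP hT hc0 hcr hS, WP hP hW, PW hP hW]
  rw [← h1, XX_apply, YY_apply, map_sub, PW hP hW, WW hP hW, WP hP hW, PP hP, PP hP]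
  congr 1
  have h2 : P n (S (W n x)) = W n (P n (T (P n x))) := by
    rw [← WSW hP hW hT hcr hS, WW hP hW]
  rw [h2]
  have h3 := WTW hP hW hT hcr hS n (P n (T (P n x)))
  rw [PP hP] at h3
  rw [h3]

include hP hT hc0 hcr hS hTT in
lemma norm_XX_le (n : ℕ) (x : L2) : ‖XX P T S n x‖ ≤ ‖x‖ := by
  rw [XX_eq hP hT hc0 hcr hS]
  exact (norm_P_le hP _ _).trans ((norm_KK_le hS hTT _).trans (norm_P_le hP _ _))

include hP hW hT hc0 hcr hS hTT in
lemma norm_YY_le (n : ℕ) (x : L2) : ‖YY P T S n x‖ ≤ ‖x‖ := by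
  rw [YY_eq hP hW hT hc0 hcr hS]
  exact (norm_W_le hP hW _ _).trans ((norm_KK_le hS hTT _).trans (norm_W_le hP hW _ _))

/-- the counterexample sequence -/
noncomputable def AA (P : ℕ → (L2 →L[ℂ] L2)) (T S : L2 →L[ℂ] L2) (n : ℕ) : L2 →L[ℂ] L2 :=
  XX P T S n * YY P T S n

lemma AA_apply (n : ℕ) (x : L2) : AA P T S n x = XX P T S n (YY P T S n x) := rfl

include hP hW hT hc0 hcr hS in
lemma WAW (n : ℕ) (x : L2) : W n (AA P T S n (W n x)) = YY P T S n (XX P T S n x) := by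
  rw [AA_apply, YY_eq hP hW hT hc0 hcr hS, YY_eq hP hW hT hc0 hcr hS, XX_eq hP hT hc0 hcr hS,
    XX_eq hP hT hc0 hcr hS, WW hP hW, WP hP hW, PW hP hW, WP hP hW]

include hP in
lemma tendsto_P_comp {u : ℕ → L2} {v : L2} (h : Tendsto u atTop (𝓝 v)) :
    Tendsto (fun n => P n (u n)) atTop (𝓝 v) := by
  rw [tendsto_iff_norm_sub_tendsto_zero] at h ⊢
  have h2 := tendsto_iff_norm_sub_tendsto_zero.1 (tendsto_P hP v)
  have h3 := h.add h2
  rw [add_zero] at h3
  refine squeeze_zero (fun _ => norm_nonneg _) ?_ h3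
  intro n
  have h4 : P n (u n) - v = P n (u n - v) + (P n v - v) := by
    rw [map_sub]; abel
  rw [h4]
  exact (norm_add_le _ _).trans (by gcongr; exact norm_P_le hP _ _)

include hP hTT in
lemma tendsto_YY (x : L2) : Tendsto (fun n => YY P T S n x) atTop (𝓝 0) := by
  have h1 := tendsto_P hP x
  have h2 : Tendsto (fun n => P n (S (P n (P n (T (P n x)))))) atTop (𝓝 (S (T x))) := by
    apply tendsto_P_comp hP
    apply (S.continuous.tendsto _).comp
    apply tendsto_P_comp hP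
    apply tendsto_P_comp hP
    exact (T.continuous.tendsto _).comp h1
  have h3 := h1.sub h2
  rw [hTT, sub_self] at h3
  exact h3

include hP hT hc0 hcr hS hTT in
lemma tendsto_AA (x : L2) : Tendsto (fun n => AA P T S n x) atTop (𝓝 0) := by
  have h1 := tendsto_zero_iff_norm_tendsto_zero.1 (tendsto_YY hP hTT x)
  apply tendsto_zero_iff_norm_tendsto_zero.2
  refine squeeze_zero (fun _ => norm_nonneg _) ?_ h1
  intro n
  exact norm_XX_le hP hT hc0 hcr hS hTT n _

include hP hW hT hc0 hcr hS hTT in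
lemma tendsto_WAW (x : L2) : Tendsto (fun n => W n (AA P T S n (W n x))) atTop (𝓝 0) := by
  have h1 : Tendsto (fun n => XX P T S n x) atTop (𝓝 (KK T S x)) := by
    have h2 : (fun n => XX P T S n x) = fun n => P n (KK T S (P n x)) := by
      funext n
      exact XX_eq hP hT hc0 hcr hS n x
    rw [h2]
    apply tendsto_P_comp hP
    exact ((KK T S).continuous.tendsto _).comp (tendsto_P hP x)
  have h3 := tendsto_iff_norm_sub_tendsto_zero.1 h1
  have h4 := tendsto_zero_iff_norm_tendsto_zero.1 (tendsto_YY hP hTT (KK T S x))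
  have h5 := h3.add h4
  rw [add_zero] at h5
  apply tendsto_zero_iff_norm_tendsto_zero.2
  refine squeeze_zero (fun _ => norm_nonneg _) ?_ h5
  intro n
  rw [WAW hP hW hT hc0 hcr hS]
  have h6 : YY P T S n (XX P T S n x) = YY P T S n (XX P T S n x - KK T S x)
      + YY P T S n (KK T S x) := by
    rw [map_sub]; abel
  rw [h6]
  exact (norm_add_le _ _).trans (by gcongr; exact norm_YY_le hP hW hT hc0 hcr hS hTT _ _)

/-- Geometric vectors. -/
noncomputable def kr (r : ℝ) (h0 : 0 ≤ r) (h1 : r < 1) : L2 :=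
  ⟨fun j => ((r ^ j : ℝ) : ℂ), by
    apply memℓp_gen
    have h : Summable fun j : ℕ => (r ^ 2) ^ j := summable_geometric_of_lt_one (by positivity)
      (by nlinarith)
    refine h.congr ?_
    intro j
    rw [Complex.norm_real, Real.norm_of_nonneg (by positivity)]
    rw [← pow_mul, mul_comm 2 j, pow_mul]
    norm_num⟩

lemma kr_apply (r : ℝ) (h0 : 0 ≤ r) (h1 : r < 1) (j : ℕ) : (kr r h0 h1) j = ((r ^ j : ℝ) : ℂ) := rfl

lemma norm_kr_sq (r : ℝ) (h0 : 0 ≤ r) (h1 : r < 1) : ‖kr r h0 h1‖ ^ 2 = (1 - r ^ 2)⁻¹ := by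
  have h2 : ((‖kr r h0 h1‖ ^ 2 : ℝ) : ℂ) = ((1 - r ^ 2 : ℝ) : ℂ)⁻¹ := by
    have h3 : (inner ℂ (kr r h0 h1) (kr r h0 h1) : ℂ) = ((‖kr r h0 h1‖ ^ 2 : ℝ) : ℂ) := by
      rw [inner_self_eq_norm_sq_to_K]
      norm_cast
    rw [← h3, inner_sum_form]
    have h4 : ∀ j : ℕ, starRingEnd ℂ ((kr r h0 h1) j) * (kr r h0 h1) j = ((r ^ 2 : ℝ) : ℂ) ^ j := by
      intro j
      rw [kr_apply, Complex.conj_ofReal]
      push_cast
      ring
    rw [tsum_congr h4, tsum_geometric_of_norm_lt_one]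
    · push_cast
      ring
    · rw [Complex.norm_real, Real.norm_of_nonneg (by positivity)]
      nlinarith
  exact_mod_cast h2

/-- Normalised geometric vectors. -/
noncomputable def qr (r : ℝ) (h0 : 0 ≤ r) (h1 : r < 1) : L2 :=
  ((√(1 - r ^ 2) : ℝ) : ℂ) • kr r h0 h1

lemma norm_qr (r : ℝ) (h0 : 0 ≤ r) (h1 : r < 1) : ‖qr r h0 h1‖ = 1 := by
  have h2 : ‖qr r h0 h1‖ ^ 2 = 1 := by
    have h4 : 0 < 1 - r ^ 2 := by nlinarith
    rw [qr, norm_smul, mul_pow, norm_kr_sq, Complex.norm_real,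
      Real.norm_of_nonneg (Real.sqrt_nonneg _), Real.sq_sqrt h4.le]
    field_simp
  have h3 := norm_nonneg (qr r h0 h1)
  nlinarith

lemma qr_apply (r : ℝ) (h0 : 0 ≤ r) (h1 : r < 1) (j : ℕ) :
    (qr r h0 h1) j = ((√(1 - r ^ 2) * r ^ j : ℝ) : ℂ) := by
  rw [qr, lp.coeFn_smul, Pi.smul_apply, kr_apply, smul_eq_mul]
  push_cast
  ring

include hP hW in
lemma inner_W_qr (r : ℝ) (h0 : 0 ≤ r) (h1 : r < 1) (n : ℕ) :
    inner ℂ (W n (qr r h0 h1)) (qr r h0 h1) = (((1 - r ^ 2) * ((n + 1) * r ^ n) : ℝ) : ℂ) := by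
  rw [← PW hP hW, inner_P_left hP]
  have h2 : ∀ j ∈ Finset.range (n + 1), starRingEnd ℂ ((W n (qr r h0 h1)) j) * (qr r h0 h1) j
      = (((1 - r ^ 2) * r ^ n : ℝ) : ℂ) := by
    intro j hj
    have hj' : j ≤ n := by simpa [Nat.lt_succ_iff] using hj
    rw [hW, if_pos hj', qr_apply, qr_apply, Complex.conj_ofReal, ← Complex.ofReal_mul]
    congr 1
    have h4 : 0 ≤ 1 - r ^ 2 := by nlinarith
    have h5 : r ^ n = r ^ (n - j) * r ^ j := by
      rw [← pow_add]
      congr 1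
      omega
    rw [h5]
    nlinarith [Real.mul_self_sqrt h4, pow_nonneg h0 (n - j), pow_nonneg h0 j,
      mul_nonneg (pow_nonneg h0 (n - j)) (pow_nonneg h0 j)]
  rw [Finset.sum_congr rfl h2, Finset.sum_const, Finset.card_range]
  simp only [nsmul_eq_mul]
  push_cast
  ring

include hT hc0 hcr hS in
lemma S_qr (r : ℝ) (h0 : 0 ≤ r) (h1 : r < 1) (α : ℂ)
    (hα : HasSum (fun l : ℕ => c l * (r : ℂ) ^ l) α) : S (qr r h0 h1) = α • qr r h0 h1 := by
  have key : S (kr r h0 h1) = α • kr r h0 h1 := by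
    ext j
    rw [← inner_ee, hS' hS, inner_sum_form, lp.coeFn_smul, Pi.smul_apply, kr_apply, smul_eq_mul]
    have h2 : ∀ k : ℕ, starRingEnd ℂ ((T (ee j)) k) * (kr r h0 h1) k
        = c ((k : ℤ) - (j : ℤ)) * (r : ℂ) ^ k := by
      intro k
      rw [hT, hcr, kr_apply]
      push_cast
      ring
    rw [tsum_congr h2]
    apply HasSum.tsum_eq
    rw [← hasSum_nat_add_iff' j]
    have h3 : ∑ i ∈ Finset.range j, c ((i : ℤ) - (j : ℤ)) * (r : ℂ) ^ i = 0 := by
      apply Finset.sum_eq_zero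
      intro i hi
      rw [hc0, zero_mul]
      simp only [Finset.mem_range] at hi
      omega
    rw [h3, sub_zero]
    have h4 := hα.mul_right ((r : ℂ) ^ j)
    have h5 : α * ((r ^ j : ℝ) : ℂ) = α * (r : ℂ) ^ j := by push_cast; ring
    rw [h5]
    have h6 : (fun n : ℕ => c (((n + j : ℕ) : ℤ) - (j : ℤ)) * (r : ℂ) ^ (n + j))
        = fun n : ℕ => c (n : ℤ) * (r : ℂ) ^ n * (r : ℂ) ^ j := by
      funext n
      have h7 : ((n + j : ℕ) : ℤ) - (j : ℤ) = n := by push_cast; ring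
      rw [h7, pow_add, mul_assoc]
    rw [h6]
    exact h4
  rw [qr, map_smul, key, smul_comm]

include hP hW hT hc0 hcr hS hTT in
/-- lower bound -/
lemma lower (n : ℕ) (q : L2) (hq : ‖q‖ = 1) (α : ℝ) (hα : 0 ≤ α) (hSq : S q = (α : ℂ) • q)
    (γ : ℝ) (hγ : inner ℂ (W n q) q = (γ : ℂ)) (h1 : α ≤ γ) (h2 : α ≤ (γ - α) ^ 2) :
    ((γ - α) ^ 2 - α) ^ 2 ≤ ‖AA P T S n (P n q)‖ := by
  have hK : KK T S q = q - (α : ℂ) • T q := by rw [KK_apply, hSq, map_smul]
  have hTn : ‖T q‖ ≤ 1 := by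
    have h3 : ‖T q‖ ^ 2 = ‖(inner ℂ (T q) (T q) : ℂ)‖ := by
      rw [inner_self_eq_norm_sq_to_K]
      simp
    rw [← hS' hS, hTT] at h3
    have h4 : ‖(inner ℂ q q : ℂ)‖ ≤ ‖q‖ * ‖q‖ := norm_inner_le_norm _ _
    rw [hq] at h4
    nlinarith [norm_nonneg (T q)]
  have hαn : ‖(α : ℂ)‖ = α := by rw [Complex.norm_real, Real.norm_of_nonneg hα]
  -- general estimate
  have gen : ∀ w : L2, ‖w‖ ≤ 1 → ‖(inner ℂ w q : ℂ)‖ - α ≤ ‖KK T S w‖ := by
    intro w hw
    have h3 : (inner ℂ (KK T S w) q : ℂ) = inner ℂ w q - (α : ℂ) * inner ℂ w (T q) := by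
      rw [KK_sa hS, hK, inner_sub_right, inner_smul_right]
    have h4 : ‖(inner ℂ (KK T S w) q : ℂ)‖ ≤ ‖KK T S w‖ * ‖q‖ := norm_inner_le_norm _ _
    rw [hq, mul_one, h3] at h4
    have h5 : ‖(inner ℂ w (T q) : ℂ)‖ ≤ ‖w‖ * ‖T q‖ := norm_inner_le_norm _ _
    have h6 : ‖(inner ℂ w q : ℂ)‖ - ‖(α : ℂ) * inner ℂ w (T q)‖
        ≤ ‖(inner ℂ w q : ℂ) - (α : ℂ) * inner ℂ w (T q)‖ := norm_sub_norm_le _ _
    rw [norm_mul, hαn] at h6
    have h7 : ‖w‖ * ‖T q‖ ≤ 1 := by nlinarith [norm_nonneg w, norm_nonneg (T q)]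
    nlinarith
  have sqK : ∀ w : L2, (inner ℂ (KK T S w) w : ℂ) = ((‖KK T S w‖ ^ 2 : ℝ) : ℂ) := by
    intro w
    have h : (inner ℂ (KK T S w) w : ℂ) = inner ℂ (KK T S w) (KK T S w) := by
      rw [← KK_sa hS, KK_idem hTT]
    rw [h, inner_self_eq_norm_sq_to_K]
    norm_cast
  set v := YY P T S n (P n q) with hv
  have hWP : W n (P n q) = W n q := WP hP hW n q
  have hvn : ‖v‖ ≤ 1 := by
    have := norm_YY_le hP hW hT hc0 hcr hS hTT n (P n q)
    have h3 := norm_P_le hP n q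
    rw [hq] at h3
    linarith
  have hPv : P n v = v := by
    rw [hv, YY_eq hP hW hT hc0 hcr hS, PW hP hW]
  have hβ : (inner ℂ v q : ℂ) = ((‖KK T S (W n q)‖ ^ 2 : ℝ) : ℂ) := by
    rw [hv, YY_eq hP hW hT hc0 hcr hS, W_sa hP hW, hWP, sqK]
  have hβ1 : (γ - α) ^ 2 ≤ ‖(inner ℂ v q : ℂ)‖ := by
    rw [hβ, Complex.norm_real, Real.norm_of_nonneg (by positivity)]
    have h3 := gen (W n q) ((norm_W_le hP hW n q).trans hq.le)
    rw [hγ, Complex.norm_real, Real.norm_of_nonneg (hα.trans h1)] at h3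
    have h4 : 0 ≤ γ - α := by linarith
    gcongr
  have h3 := gen v hvn
  have h4 : (inner ℂ (AA P T S n (P n q)) v : ℂ) = ((‖KK T S v‖ ^ 2 : ℝ) : ℂ) := by
    rw [AA_apply, ← hv, XX_eq hP hT hc0 hcr hS, P_sa hP, hPv, sqK]
  have h5 : ‖(inner ℂ (AA P T S n (P n q)) v : ℂ)‖ ≤ ‖AA P T S n (P n q)‖ * ‖v‖ :=
    norm_inner_le_norm _ _
  rw [h4, Complex.norm_real, Real.norm_of_nonneg (by positivity)] at h5
  have h6 : ((γ - α) ^ 2 - α) ^ 2 ≤ ‖KK T S v‖ ^ 2 := by
    have h7 : 0 ≤ (γ - α) ^ 2 - α := by linarith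
    have h8 : (γ - α) ^ 2 - α ≤ ‖KK T S v‖ := by linarith
    gcongr
  have h9 : ‖AA P T S n (P n q)‖ * ‖v‖ ≤ ‖AA P T S n (P n q)‖ := by
    have := norm_nonneg (AA P T S n (P n q))
    nlinarith
  linarith

end ops

open AddCircle

/-- atomic inner function -/
noncomputable def gg (z : ℂ) : ℂ := Complex.exp ((z + 1) / (z - 1))

lemma gg_re (z : ℂ) : ((z + 1) / (z - 1)).re = (‖z‖ ^ 2 - 1) / Complex.normSq (z - 1) := by
  rw [Complex.div_re, ← Complex.normSq_eq_norm_sq, Complex.normSq_apply z]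
  simp only [Complex.add_re, Complex.one_re, Complex.sub_re, Complex.add_im, Complex.one_im,
    Complex.sub_im]
  ring

lemma norm_gg (z : ℂ) : ‖gg z‖ = Real.exp ((‖z‖ ^ 2 - 1) / Complex.normSq (z - 1)) := by
  rw [gg, Complex.norm_exp, gg_re]

lemma norm_gg_le (z : ℂ) (hz : ‖z‖ ≤ 1) : ‖gg z‖ ≤ 1 := by
  rw [norm_gg, Real.exp_le_one_iff]
  apply div_nonpos_of_nonpos_of_nonneg
  · nlinarith [norm_nonneg z]
  · exact Complex.normSq_nonneg _

lemma norm_gg_eq (z : ℂ) (hz : ‖z‖ = 1) : ‖gg z‖ = 1 := by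
  rw [norm_gg, hz]
  simp

lemma gg_conj (z : ℂ) : gg (starRingEnd ℂ z) = starRingEnd ℂ (gg z) := by
  rw [gg, gg, ← Complex.exp_conj]
  congr 1
  simp

lemma gg_diff : DifferentiableOn ℂ gg (Metric.ball 0 1) := by
  intro z hz
  have h1 : z - 1 ≠ 0 := by
    intro h
    have : z = 1 := by linear_combination h
    rw [this] at hz
    simp at hz
  apply DifferentiableAt.differentiableWithinAt
  unfold gg
  fun_prop (disch := assumption)

lemma gg_cont (z : ℂ) (hz : z ≠ 1) : ContinuousAt gg z := by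
  have h1 : z - 1 ≠ 0 := sub_ne_zero.2 hz
  unfold gg
  fun_prop (disch := assumption)

lemma gg_meas : Measurable gg := by
  unfold gg
  fun_prop

/-- Taylor coefficients -/
noncomputable def cT (n : ℕ) : ℂ := ((n.factorial : ℂ))⁻¹ * iteratedDeriv n gg 0

lemma hasSum_gg (w : ℂ) (hw : ‖w‖ < 1) : HasSum (fun n : ℕ => cT n * w ^ n) (gg w) := by
  have h := Complex.hasSum_taylorSeries_on_ball gg_diff (z := w) (by simpa using hw)
  have h6 : (fun n : ℕ => cT n * w ^ n) =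
      fun n : ℕ => ((n.factorial : ℂ))⁻¹ • (w - 0) ^ n • iteratedDeriv n gg 0 := by
    funext n
    simp only [cT, smul_eq_mul, sub_zero]
    ring
  rw [h6]
  exact h

lemma integral_fourier' (k : ℤ) :
    ∫ t : AddCircle (1 : ℝ), fourier k t ∂haarAddCircle = if k = 0 then 1 else 0 := by
  have h := congrFun (fourierCoeff_fourier (T := 1) k) 0
  rw [fourierCoeff] at h
  simp only [neg_zero, fourier_zero, one_smul] at h
  rw [h, Pi.single_apply]
  simp [eq_comm]

lemma coeff_R (R : ℝ) (h0 : 0 ≤ R) (h1 : R < 1) (m : ℤ) :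
    fourierCoeff (fun t : AddCircle (1 : ℝ) => gg (R * fourier 1 t)) m
      = if 0 ≤ m then cT m.toNat * (R : ℂ) ^ m.toNat else 0 := by
  rw [fourierCoeff]
  set F : ℕ → AddCircle (1 : ℝ) → ℂ := fun n t => (cT n * (R : ℂ) ^ n) * fourier (n - m) t with hF
  have hnR : ∀ t : AddCircle (1 : ℝ), ‖(R : ℂ) * fourier 1 t‖ = R := by
    intro t
    rw [norm_mul, Complex.norm_real, Real.norm_of_nonneg h0, fourier_apply, Circle.norm_coe, mul_one]
  have hsum : ∀ t, HasSum (fun n => F n t) (fourier (-m) t • gg (R * fourier 1 t)) := by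
    intro t
    have h := (hasSum_gg (R * fourier 1 t) (by rw [hnR]; exact h1)).mul_left (fourier (-m) t)
    rw [smul_eq_mul]
    have h6 : (fun n => F n t) =
        fun n : ℕ => fourier (-m) t * (cT n * ((R : ℂ) * fourier 1 t) ^ n) := by
      funext n
      have h7 : (fourier (n - m) t : ℂ) = fourier (-m) t * (fourier 1 t) ^ n := by
        rw [sub_eq_neg_add, fourier_add]
        congr 1
        rw [fourier_apply, fourier_apply]
        rw [one_zsmul, natCast_zsmul, AddCircle.toCircle_nsmul, Circle.coe_pow]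
      simp only [hF]
      rw [h7]
      ring
    rw [h6]
    exact h
  have hsm : Summable fun n : ℕ => ‖cT n * (R : ℂ) ^ n‖ := by
    have h := (hasSum_gg R (by rw [Complex.norm_real, Real.norm_of_nonneg h0]; exact h1)).summable
    exact h.norm
  have hFn : ∀ n t, ‖F n t‖ = ‖cT n * (R : ℂ) ^ n‖ := by
    intro n t
    rw [hF]
    simp only [norm_mul, fourier_apply, Circle.norm_coe, mul_one]
  have hint : ∀ n, Integrable (F n) haarAddCircle := by
    intro n
    apply Integrable.const_mul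
    exact (map_continuous (fourier (n - m))).integrable_of_hasCompactSupport
      (HasCompactSupport.of_compactSpace _)
  have key := hasSum_integral_of_summable_integral_norm (μ := haarAddCircle) hint (by
    simp only [hFn, integral_const, probReal_univ, one_smul]
    exact hsm)
  have h2 : ∫ a, (∑' i, F i a) ∂haarAddCircle
      = ∫ t : AddCircle (1 : ℝ), fourier (-m) t • gg (R * fourier 1 t) ∂haarAddCircle := by
    congr 1
    funext t
    exact (hsum t).tsum_eq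
  rw [← h2, ← key.tsum_eq]
  have h3 : ∀ n : ℕ, ∫ t, F n t ∂haarAddCircle = if (n : ℤ) = m then cT n * (R : ℂ) ^ n else 0 := by
    intro n
    rw [hF]
    simp only
    rw [integral_const_mul, integral_fourier']
    simp only [sub_eq_zero]
    split_ifs <;> simp
  simp only [h3]
  split_ifs with hm
  · rw [tsum_eq_single m.toNat]
    · rw [if_pos (by omega)]
    · intro n hn
      rw [if_neg]
      omega
  · have h4 : ∀ n : ℕ, (if (n : ℤ) = m then cT n * (R : ℂ) ^ n else 0) = 0 := by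
      intro n
      rw [if_neg]
      omega
    simp only [h4, tsum_zero]

/-- boundary function -/
noncomputable def af (t : AddCircle (1 : ℝ)) : ℂ := gg (fourier 1 t)

lemma norm_fourier_apply (k : ℤ) (t : AddCircle (1 : ℝ)) : ‖(fourier k t : ℂ)‖ = 1 := by
  rw [fourier_apply, Circle.norm_coe]

lemma norm_af (t : AddCircle (1 : ℝ)) : ‖af t‖ = 1 := norm_gg_eq _ (norm_fourier_apply _ _)

lemma meas_af : Measurable af := gg_meas.comp (map_continuous (fourier 1)).measurable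

/-- Fourier coefficients of the inner function -/
noncomputable def cc (m : ℤ) : ℂ := fourierCoeff af m

lemma fourier_one_ne (x : ℝ) (h0 : 0 < x) (h1 : x < 1) : (fourier 1 (x : AddCircle (1 : ℝ)) : ℂ) ≠ 1 := by
  rw [fourier_coe_apply]
  intro h
  rw [Complex.exp_eq_one_iff] at h
  obtain ⟨n, hn⟩ := h
  have h2 : (x : ℂ) = n := by
    have h3 : (2 * (Real.pi : ℂ) * Complex.I) ≠ 0 := by
      simp [Real.pi_ne_zero]
    field_simp at hn
    simpa using hn
  have h4 : x = n := by exact_mod_cast h2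
  rw [h4] at h0 h1
  have h5 : (0 : ℤ) < n := by exact_mod_cast h0
  have h6 : n < (1 : ℤ) := by exact_mod_cast h1
  omega

lemma tendsto_coeff (m : ℤ) : Tendsto (fun k : ℕ => fourierCoeff
    (fun t : AddCircle (1 : ℝ) => gg (((1 - 1 / ((k : ℝ) + 1) : ℝ) : ℂ) * fourier 1 t)) m) atTop
    (𝓝 (cc m)) := by
  simp only [cc, fourierCoeff_eq_intervalIntegral _ _ (0 : ℝ)]
  apply Tendsto.const_smul
  have hR : Tendsto (fun k : ℕ => (1 - 1 / ((k : ℝ) + 1) : ℝ)) atTop (𝓝 1) := by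
    have := (tendsto_one_div_add_atTop_nhds_zero_nat (𝕜 := ℝ)).const_sub 1
    simpa using this
  apply intervalIntegral.tendsto_integral_filter_of_dominated_convergence (fun _ => (1 : ℝ))
  · apply Eventually.of_forall
    intro k
    apply Measurable.aestronglyMeasurable
    simp only [smul_eq_mul]
    apply Measurable.mul
    · exact ((map_continuous (fourier (-m))).comp (AddCircle.continuous_mk' 1)).measurable
    · apply gg_meas.comp
      apply Measurable.const_mul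
      exact ((map_continuous (fourier 1)).comp (AddCircle.continuous_mk' 1)).measurable
  · apply Eventually.of_forall
    intro k
    apply Eventually.of_forall
    intro x _
    rw [norm_smul, norm_fourier_apply, one_mul]
    apply norm_gg_le
    rw [norm_mul, norm_fourier_apply, mul_one, Complex.norm_real]
    have h1 : 0 < 1 / ((k : ℝ) + 1) := by positivity
    have h2 : 1 / ((k : ℝ) + 1) ≤ 1 := by
      rw [div_le_one (by positivity)]
      linarith [Nat.cast_nonneg (α := ℝ) k]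
    rw [Real.norm_of_nonneg (by linarith)]
    linarith
  · exact intervalIntegrable_const
  · have h1 : ∀ᵐ x : ℝ, x ≠ 1 := by
      rw [ae_iff]
      simp
    filter_upwards [h1] with x hx hx2
    rw [Set.uIoc_of_le (by norm_num)] at hx2
    have hx3 : (fourier 1 (x : AddCircle (1 : ℝ)) : ℂ) ≠ 1 :=
      fourier_one_ne x hx2.1 (lt_of_le_of_ne (by simpa using hx2.2) hx)
    apply Tendsto.const_smul
    have h2 := gg_cont _ hx3
    apply h2.tendsto.comp
    have h3 : Tendsto (fun k : ℕ => (((1 - 1 / ((k : ℝ) + 1) : ℝ) : ℂ))) atTop (𝓝 ((1 : ℝ) : ℂ)) :=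
      (Complex.continuous_ofReal.tendsto _).comp hR
    have h4 := h3.mul_const (fourier 1 (x : AddCircle (1 : ℝ)) : ℂ)
    simpa using h4

lemma cc_eq (m : ℤ) : cc m = if 0 ≤ m then cT m.toNat else 0 := by
  have h1 := tendsto_coeff m
  have h2 : ∀ k : ℕ, fourierCoeff
    (fun t : AddCircle (1 : ℝ) => gg (((1 - 1 / ((k : ℝ) + 1) : ℝ) : ℂ) * fourier 1 t)) m
      = if 0 ≤ m then cT m.toNat * ((1 - 1 / ((k : ℝ) + 1) : ℝ) : ℂ) ^ m.toNat else 0 := by
    intro k
    apply coeff_R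
    · have h2 : 1 / ((k : ℝ) + 1) ≤ 1 := by
        rw [div_le_one (by positivity)]
        linarith [Nat.cast_nonneg (α := ℝ) k]
      linarith
    · have h1 : 0 < 1 / ((k : ℝ) + 1) := by positivity
      linarith
  simp only [h2] at h1
  refine tendsto_nhds_unique h1 ?_
  split_ifs with h
  · have hR : Tendsto (fun k : ℕ => (1 - 1 / ((k : ℝ) + 1) : ℝ)) atTop (𝓝 1) := by
      have := (tendsto_one_div_add_atTop_nhds_zero_nat (𝕜 := ℝ)).const_sub 1
      simpa using this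
    have h3 : Tendsto (fun k : ℕ => (((1 - 1 / ((k : ℝ) + 1) : ℝ) : ℂ))) atTop (𝓝 ((1 : ℝ) : ℂ)) :=
      (Complex.continuous_ofReal.tendsto _).comp hR
    have h4 := (h3.pow m.toNat).const_mul (cT m.toNat)
    simpa using h4
  · exact tendsto_const_nhds

lemma af_neg (t : AddCircle (1 : ℝ)) : af (-t) = starRingEnd ℂ (af t) := by
  rw [af, af, ← gg_conj]
  congr 1
  rw [← fourier_neg]
  rw [fourier_apply, fourier_apply]
  simp

lemma coeff_conj (f : AddCircle (1 : ℝ) → ℂ) (m : ℤ) :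
    fourierCoeff (fun t => starRingEnd ℂ (f t)) m = starRingEnd ℂ (fourierCoeff f (-m)) := by
  rw [fourierCoeff, fourierCoeff, ← integral_conj]
  congr 1
  funext t
  rw [smul_eq_mul, smul_eq_mul, map_mul, ← fourier_neg, neg_neg]

lemma coeff_neg (f : AddCircle (1 : ℝ) → ℂ) (m : ℤ) :
    fourierCoeff (fun t => f (-t)) m = fourierCoeff f (-m) := by
  rw [fourierCoeff, fourierCoeff, ← integral_neg_eq_self]
  congr 1
  funext t
  rw [neg_neg, neg_neg]
  congr 1
  rw [fourier_apply, fourier_apply]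
  simp

lemma cc_real (m : ℤ) : starRingEnd ℂ (cc m) = cc m := by
  have h1 := coeff_conj af (-m)
  have h2 := coeff_neg af (-m)
  rw [neg_neg] at h1 h2
  have h3 : (fun t => af (-t)) = fun t => starRingEnd ℂ (af t) := by
    funext t
    exact af_neg t
  rw [h3] at h2
  rw [cc, ← h1, h2]


/-! ### The Toeplitz operator -/

/-- shifted functions -/
noncomputable def fk (k : ℤ) (t : AddCircle (1 : ℝ)) : ℂ := fourier k t * af t

lemma memLp_fk (k : ℤ) : MemLp (fk k) 2 (haarAddCircle (T := (1 : ℝ))) := by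
  apply MemLp.of_bound _ 1
  · apply Eventually.of_forall
    intro t
    rw [fk, norm_mul, norm_fourier_apply, norm_af, one_mul]
  · apply Measurable.aestronglyMeasurable
    exact (map_continuous (fourier k)).measurable.mul meas_af

/-- classes of the shifted functions -/
noncomputable def Fk (k : ℤ) : Lp ℂ 2 (haarAddCircle (T := (1 : ℝ))) := (memLp_fk k).toLp

lemma coeff_fk (k m : ℤ) : fourierCoeff (fk k) m = cc (m - k) := by
  rw [cc, fourierCoeff, fourierCoeff]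
  congr 1
  funext t
  rw [fk, smul_eq_mul, smul_eq_mul, ← mul_assoc, ← fourier_add]
  congr 3
  ring

lemma repr_Fk (k m : ℤ) : fourierBasis.repr (Fk k) m = cc (m - k) := by
  rw [fourierBasis_repr, Fk, fourierCoeff_congr_ae (MemLp.coeFn_toLp (memLp_fk k)), coeff_fk]

lemma inner_Fk (k l : ℤ) : inner ℂ (Fk k) (Fk l) = if k = l then (1 : ℂ) else 0 := by
  rw [L2.inner_def]
  have h1 : ∫ t, inner ℂ (Fk k t) (Fk l t) ∂haarAddCircle
      = ∫ t, (fourier (l - k) t : ℂ) ∂(haarAddCircle (T := (1 : ℝ))) := by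
    apply integral_congr_ae
    filter_upwards [MemLp.coeFn_toLp (memLp_fk k), MemLp.coeFn_toLp (memLp_fk l)] with t h2 h3
    rw [Fk, Fk, h2, h3, fk, fk]
    have h4 : starRingEnd ℂ (af t) * af t = 1 := by
      rw [mul_comm, Complex.mul_conj, Complex.normSq_eq_norm_sq, norm_af]
      simp
    have h5 : (fourier (l - k) t : ℂ) = starRingEnd ℂ (fourier k t) * fourier l t := by
      rw [← fourier_neg, ← fourier_add]
      congr 2
      ring
    rw [h5]
    simp only [RCLike.inner_apply, map_mul]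
    linear_combination (starRingEnd ℂ (fourier k t) * fourier l t) * h4
  rw [h1, integral_fourier']
  simp only [sub_eq_zero, eq_comm]

lemma mem_col (k : ℕ) : Memℓp (fun j : ℕ => cc ((j : ℤ) - (k : ℤ))) 2 := by
  have h := lp.memℓp (fourierBasis.repr (Fk k))
  rw [memℓp_gen_iff (by norm_num)] at h ⊢
  have h2 := h.comp_injective (Nat.cast_injective (R := ℤ))
  refine h2.congr ?_
  intro j
  simp only [Function.comp]
  rw [repr_Fk]

/-- columns -/
noncomputable def col (k : ℕ) : L2 := ⟨fun j : ℕ => cc ((j : ℤ) - (k : ℤ)), mem_col k⟩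

lemma col_apply (k j : ℕ) : (col k) j = cc ((j : ℤ) - (k : ℤ)) := rfl

lemma cc_neg_zero (l : ℤ) (hl : l < 0) : cc l = 0 := by
  rw [cc_eq, if_neg (by omega)]

lemma orth_col : Orthonormal ℂ col := by
  rw [orthonormal_iff_ite]
  intro k l
  have h1 : inner ℂ (fourierBasis.repr (Fk k)) (fourierBasis.repr (Fk l))
      = inner ℂ (Fk k) (Fk l) := LinearIsometryEquiv.inner_map_map _ _ _
  rw [inner_Fk, lp.inner_eq_tsum] at h1
  rw [inner_sum_form]
  have h2 : (if k = l then (1 : ℂ) else 0) = if (k : ℤ) = (l : ℤ) then (1 : ℂ) else 0 := by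
    simp
  rw [h2, ← h1]
  rw [← (Nat.cast_injective (R := ℤ)).tsum_eq]
  · congr 1
    funext j
    rw [repr_Fk, repr_Fk, col_apply, col_apply]
    simp [mul_comm]
  · intro m hm
    by_contra hcon
    apply hm
    have hneg : m < 0 := by
      by_contra hge
      apply hcon
      exact ⟨m.toNat, by simp; omega⟩
    simp only []
    rw [repr_Fk, repr_Fk, cc_neg_zero (m - l) (by omega)]
    simp

/-- The Toeplitz operator with the inner symbol. -/
noncomputable def TT : L2 →L[ℂ] L2 :=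
  (orth_col.orthogonalFamily.linearIsometry).toContinuousLinearMap

lemma TT_ee (j k : ℕ) : (TT (ee k)) j = cc ((j : ℤ) - (k : ℤ)) := by
  have h : TT (ee k) = col k := by
    have h1 := orth_col.orthogonalFamily.linearIsometry_apply_single (i := k) (1 : ℂ)
    simp only [LinearIsometry.toSpanSingleton_apply, one_smul] at h1
    exact h1
  rw [h, col_apply]

lemma TT_inner (x y : L2) : inner ℂ (TT x) (TT y) = inner ℂ x y :=
  LinearIsometry.inner_map_map _ _ _

/-- Its adjoint. -/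
noncomputable def SS : L2 →L[ℂ] L2 := ContinuousLinearMap.adjoint TT

lemma SS_inner (x y : L2) : inner ℂ (SS x) y = inner ℂ x (TT y) :=
  ContinuousLinearMap.adjoint_inner_left _ _ _

lemma SS_TT (x : L2) : SS (TT x) = x := by
  apply ext_inner_right ℂ
  intro y
  rw [SS_inner, TT_inner]

lemma toLp_coeff (f : AddCircle (1 : ℝ) → ℂ) (hf : Measurable f) (hb : ∀ t, ‖f t‖ ≤ 1) :
    ∃ a : Lp ℂ ⊤ (volume : Measure (AddCircle (1 : ℝ))), ∀ m : ℤ,
      fourierCoeff (⇑a : AddCircle (1 : ℝ) → ℂ) m = fourierCoeff f m := by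
  have hm : MemLp f ⊤ (volume : Measure (AddCircle (1 : ℝ))) :=
    memLp_top_of_bound hf.aestronglyMeasurable 1 (Eventually.of_forall hb)
  refine ⟨hm.toLp, fun m => ?_⟩
  have h1 := hm.coeFn_toLp
  have h2 : (volume : Measure (AddCircle (1 : ℝ))) = haarAddCircle := by
    rw [volume_eq_smul_haarAddCircle]
    simp
  have h3 : ⇑(hm.toLp f) =ᵐ[haarAddCircle] f := by
    rw [← h2]
    exact h1
  rw [fourierCoeff_congr_ae h3]

/-! ### Concrete projections and flips -/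

/-- concrete projections -/
noncomputable def Pc (n : ℕ) : L2 →L[ℂ] L2 :=
  ∑ k ∈ Finset.range (n + 1), (innerSL ℂ (ee k)).smulRight (ee k)

/-- concrete flips -/
noncomputable def Wc (n : ℕ) : L2 →L[ℂ] L2 :=
  ∑ k ∈ Finset.range (n + 1), (innerSL ℂ (ee (n - k))).smulRight (ee k)

lemma hPc (n : ℕ) (x : L2) (j : ℕ) : (Pc n x) j = if j ≤ n then x j else 0 := by
  rw [Pc, sum_apply, lp.coeFn_sum, Finset.sum_apply]
  simp only [ContinuousLinearMap.smulRight_apply, innerSL_apply_apply, inner_ee, lp.coeFn_smul,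
    Pi.smul_apply, ee_apply, smul_eq_mul, mul_ite, mul_one, mul_zero]
  rw [Finset.sum_ite_eq]
  simp

lemma hWc (n : ℕ) (x : L2) (j : ℕ) : (Wc n x) j = if j ≤ n then x (n - j) else 0 := by
  rw [Wc, sum_apply, lp.coeFn_sum, Finset.sum_apply]
  simp only [ContinuousLinearMap.smulRight_apply, innerSL_apply_apply, inner_ee, lp.coeFn_smul,
    Pi.smul_apply, ee_apply, smul_eq_mul, mul_ite, mul_one, mul_zero]
  rw [Finset.sum_ite_eq]
  simp

/-- generators -/
abbrev gens (P : ℕ → (L2 →L[ℂ] L2)) : Set (ℕ → (L2 →L[ℂ] L2)) :=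
  {G : ℕ → (lp (fun _ : ℕ => ℂ) 2 →L[ℂ] lp (fun _ : ℕ => ℂ) 2) |
              ∃ a : Lp ℂ ⊤ (volume : Measure (AddCircle (1 : ℝ))),
              ∃ T : lp (fun _ : ℕ => ℂ) 2 →L[ℂ] lp (fun _ : ℕ => ℂ) 2,
                (∀ j k : ℕ, (T (lp.single 2 k (1 : ℂ) : lp (fun _ : ℕ => ℂ) 2)) j
                    = fourierCoeff (⇑a : AddCircle (1 : ℝ) → ℂ) ((j : ℤ) - (k : ℤ))) ∧
                ∀ n, G n = P n * T * P n}

lemma gen_T : (fun n => Pc n * TT * Pc n) ∈ gens Pc := by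
  obtain ⟨a, ha⟩ := toLp_coeff af meas_af (fun t => (norm_af t).le)
  refine ⟨a, TT, ?_, fun n => rfl⟩
  intro j k
  rw [TT_ee, ha, cc]

lemma gen_S : (fun n => Pc n * SS * Pc n) ∈ gens Pc := by
  obtain ⟨a, ha⟩ := toLp_coeff (fun t => af (-t)) (meas_af.comp measurable_neg)
    (fun t => (norm_af (-t)).le)
  refine ⟨a, SS, ?_, fun n => rfl⟩
  intro j k
  rw [adj_ee TT_ee cc_real SS_inner, ha, coeff_neg, cc]
  congr 1
  ring

lemma gen_one : (fun n => Pc n) ∈ gens Pc := by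
  obtain ⟨a, ha⟩ := toLp_coeff (fun _ => 1) measurable_const (fun t => by simp)
  refine ⟨a, 1, ?_, fun n => ?_⟩
  · intro j k
    rw [ha]
    have h1 : fourierCoeff (fun _ : AddCircle (1 : ℝ) => (1 : ℂ)) ((j : ℤ) - (k : ℤ))
        = if (j : ℤ) - k = 0 then 1 else 0 := by
      rw [fourierCoeff]
      simp only [smul_eq_mul, mul_one]
      rw [integral_fourier']
      rcases eq_or_ne ((j : ℤ) - k) 0 with h | h
      · rw [if_pos h, if_pos (by omega)]
      · rw [if_neg h, if_neg (by omega)]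
    rw [h1]
    have h2 : ((1 : L2 →L[ℂ] L2) (ee k)) j = (ee k) j := rfl
    rw [h2, ee_apply]
    simp only [sub_eq_zero, Nat.cast_inj]
  · ext x : 1
    have h : (Pc n * 1 * Pc n) x = Pc n (Pc n x) := rfl
    rw [h, PP hPc]

lemma AA_mem : (AA Pc TT SS) ∈ NonUnitalAlgebra.adjoin ℂ (gens Pc) := by
  have h1 := NonUnitalAlgebra.subset_adjoin ℂ gen_T
  have h2 := NonUnitalAlgebra.subset_adjoin ℂ gen_S
  have h3 := NonUnitalAlgebra.subset_adjoin ℂ gen_one
  exact mul_mem (sub_mem h3 (mul_mem h1 h2)) (sub_mem h3 (mul_mem h2 h1))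

/-- radii -/
noncomputable def rn (n : ℕ) : ℝ := 1 - 1 / ((n : ℝ) + 1)

lemma rn_nonneg (n : ℕ) : 0 ≤ rn n := by
  have h2 : 1 / ((n : ℝ) + 1) ≤ 1 := by
    rw [div_le_one (by positivity)]
    linarith [Nat.cast_nonneg (α := ℝ) n]
  rw [rn]
  linarith

lemma rn_lt (n : ℕ) : rn n < 1 := by
  have h1 : 0 < 1 / ((n : ℝ) + 1) := by positivity
  rw [rn]
  linarith

lemma gg_rn (n : ℕ) : gg (rn n) = ((Real.exp (-(2 * n + 1)) : ℝ) : ℂ) := by
  rw [gg, Complex.ofReal_exp]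
  congr 1
  rw [rn]
  have h1 : (n : ℂ) + 1 ≠ 0 := Nat.cast_add_one_ne_zero n
  push_cast
  field_simp
  ring

/-- vectors -/
noncomputable def qn (n : ℕ) : L2 := qr (rn n) (rn_nonneg n) (rn_lt n)

lemma SS_qn (n : ℕ) : SS (qn n) = ((Real.exp (-(2 * n + 1)) : ℝ) : ℂ) • qn n := by
  apply S_qr TT_ee cc_neg_zero cc_real SS_inner
  rw [← gg_rn]
  have h := hasSum_gg (rn n) (by
    rw [Complex.norm_real, Real.norm_of_nonneg (rn_nonneg n)]
    exact rn_lt n)
  have h2 : (fun l : ℕ => cc (l : ℤ) * ((rn n : ℝ) : ℂ) ^ l) = fun l : ℕ => cT l * ((rn n : ℝ) : ℂ) ^ l := by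
    funext l
    rw [cc_eq, if_pos (by omega)]
    simp
  rw [h2]
  exact h

lemma gamma_ge (n : ℕ) : 1 / 3 ≤ (1 - rn n ^ 2) * ((n + 1) * rn n ^ n) := by
  have h1 : (1 - rn n ^ 2) * ((n + 1) * rn n ^ n) = (1 + rn n) * rn n ^ n := by
    have h2 : (n : ℝ) + 1 ≠ 0 := by positivity
    have h3 : (1 - rn n) * ((n : ℝ) + 1) = 1 := by
      rw [rn]
      field_simp
      ring
    calc _ = (1 + rn n) * ((1 - rn n) * ((n : ℝ) + 1)) * rn n ^ n := by ring
      _ = _ := by rw [h3]; ring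
  rw [h1]
  have h4 : Real.exp (-1) ≤ rn n ^ n := by
    rcases Nat.eq_zero_or_pos n with h0 | hpos
    · subst h0
      simp
    · have hn : (0 : ℝ) < n := by exact_mod_cast hpos
      have h5 : rn n = (1 + 1 / (n : ℝ))⁻¹ := by
        rw [rn]
        field_simp
        ring
      rw [h5, inv_pow, Real.exp_neg]
      apply inv_anti₀ (by positivity)
      have h6 : 1 + 1 / (n : ℝ) ≤ Real.exp (1 / (n : ℝ)) := by
        have := Real.add_one_le_exp (1 / (n : ℝ))
        linarith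
      calc (1 + 1 / (n : ℝ)) ^ n ≤ (Real.exp (1 / (n : ℝ))) ^ n := by gcongr
        _ = Real.exp 1 := by
          rw [← Real.exp_nat_mul]
          congr 1
          field_simp
  have h7 : (1 : ℝ) / 3 ≤ Real.exp (-1) := by
    rw [Real.exp_neg, one_div]
    apply inv_anti₀ (Real.exp_pos _)
    exact Real.exp_one_lt_three.le
  have h8 := rn_nonneg n
  nlinarith

lemma tendsto_sn : Tendsto (fun n => √(1 - rn n ^ 2)) atTop (𝓝 0) := by
  have hR : Tendsto rn atTop (𝓝 1) := by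
    have h0 : rn = fun n : ℕ => 1 - 1 / ((n : ℝ) + 1) := rfl
    have := (tendsto_one_div_add_atTop_nhds_zero_nat (𝕜 := ℝ)).const_sub 1
    rw [h0]
    simpa using this
  have h2 := ((hR.pow 2).const_sub 1)
  have h3 := h2.sqrt
  simpa using h3

lemma norm_qn_apply_le (n j : ℕ) : ‖(qn n) j‖ ≤ √(1 - rn n ^ 2) := by
  rw [qn, qr_apply, Complex.norm_real, norm_mul, Real.norm_of_nonneg (Real.sqrt_nonneg _), norm_pow,
    Real.norm_of_nonneg (rn_nonneg n)]
  have h1 : rn n ^ j ≤ 1 := pow_le_one₀ (rn_nonneg n) (rn_lt n).le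
  have h2 := Real.sqrt_nonneg (1 - rn n ^ 2)
  nlinarith

lemma null_P (j : ℕ) : Tendsto (fun n => (Pc n (qn n)) j) atTop (𝓝 0) := by
  apply squeeze_zero_norm _ tendsto_sn
  intro n
  rw [hPc]
  split_ifs
  · exact norm_qn_apply_le n j
  · rw [norm_zero]
    exact Real.sqrt_nonneg _

lemma null_W (j : ℕ) : Tendsto (fun n => (Wc n (qn n)) j) atTop (𝓝 0) := by
  apply squeeze_zero_norm _ tendsto_sn
  intro n
  rw [hWc]
  split_ifs
  · exact norm_qn_apply_le n _
  · rw [norm_zero]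
    exact Real.sqrt_nonneg _

lemma norm_P_qn (n : ℕ) : ‖Pc n (qn n)‖ ≤ 1 := (norm_P_le hPc n _).trans (norm_qr _ _ _).le

lemma norm_W_qn (n : ℕ) : ‖Wc n (qn n)‖ ≤ 1 := (norm_W_le hPc hWc n _).trans (norm_qr _ _ _).le

lemma lower_AA (n : ℕ) (hn : 3 ≤ n) : 1 / 1000 ≤ ‖AA Pc TT SS n (Pc n (qn n))‖ := by
  have hα0 : 0 ≤ Real.exp (-(2 * n + 1)) := (Real.exp_pos _).le
  have hα1 : Real.exp (-(2 * (n : ℝ) + 1)) ≤ 1 / 50 := by
    have h3 : (3 : ℝ) ≤ n := by exact_mod_cast hn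
    have h4 : 50 ≤ Real.exp (2 * (n : ℝ) + 1) := by
      have h5 : (7 : ℝ) ≤ 2 * (n : ℝ) + 1 := by linarith
      have h6 : (2 : ℝ) ≤ Real.exp 1 := by
        have := Real.add_one_le_exp (1 : ℝ)
        linarith
      calc (50 : ℝ) ≤ 2 ^ 7 := by norm_num
        _ ≤ Real.exp 1 ^ 7 := by gcongr
        _ = Real.exp 7 := by
          rw [← Real.exp_nat_mul]
          norm_num
        _ ≤ _ := Real.exp_le_exp.2 h5
    rw [Real.exp_neg, one_div]
    exact inv_anti₀ (by norm_num) h4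
  have hγ := gamma_ge n
  set α := Real.exp (-(2 * (n : ℝ) + 1)) with hα
  set γ := (1 - rn n ^ 2) * ((n + 1) * rn n ^ n) with hγd
  have h1 : (3 / 10 : ℝ) ≤ γ - α := by linarith
  have h2 : (9 / 100 : ℝ) ≤ (γ - α) ^ 2 := by nlinarith
  have h3 : (7 / 100 : ℝ) ≤ (γ - α) ^ 2 - α := by linarith
  have h4 : (1 / 1000 : ℝ) ≤ ((γ - α) ^ 2 - α) ^ 2 := by nlinarith
  refine h4.trans ?_
  exact lower hPc hWc TT_ee cc_neg_zero cc_real SS_inner SS_TT n (qn n) (norm_qr _ _ _) α hα0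
    (SS_qn n) γ (inner_W_qr hPc hWc _ _ _ n) (by linarith) (by linarith)

/-- The negation of the preceding statement: On ℓ²(ℕ), a finite-section sequence has the form P_nKP_n+W_nK'W_n+C_n (K,K' compact, ‖C_n‖→0) iff it lies in the closed algebra generated by P_nT(a)P_n, a∈L^∞, and both s-lim A_n and s-lim W_nA_nW_n are compact. -/
theorem result :
    ¬ (∀ (P W : ℕ → (lp (fun _ : ℕ => ℂ) 2 →L[ℂ] lp (fun _ : ℕ => ℂ) 2)),
    (∀ (n : ℕ) (x : lp (fun _ : ℕ => ℂ) 2) (j : ℕ), (P n x) j = if j ≤ n then x j else 0) →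
    (∀ (n : ℕ) (x : lp (fun _ : ℕ => ℂ) 2) (j : ℕ), (W n x) j = if j ≤ n then x (n - j) else 0) →
    ∀ A : ℕ → (lp (fun _ : ℕ => ℂ) 2 →L[ℂ] lp (fun _ : ℕ => ℂ) 2),
      (∃ K K' : lp (fun _ : ℕ => ℂ) 2 →L[ℂ] lp (fun _ : ℕ => ℂ) 2,
        IsCompactOperator K ∧ IsCompactOperator K' ∧
        ∃ C : ℕ → (lp (fun _ : ℕ => ℂ) 2 →L[ℂ] lp (fun _ : ℕ => ℂ) 2),
          (∀ n, C n = P n * C n * P n) ∧
          Tendsto (fun n => ‖C n‖) atTop (𝓝 0) ∧
          ∀ n, A n = P n * K * P n + W n * K' * W n + C n)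
      ↔
      ((∀ ε : ℝ, 0 < ε →
          ∃ B ∈ NonUnitalAlgebra.adjoin ℂ
            {G : ℕ → (lp (fun _ : ℕ => ℂ) 2 →L[ℂ] lp (fun _ : ℕ => ℂ) 2) |
              ∃ a : Lp ℂ ⊤ (volume : Measure (AddCircle (1 : ℝ))),
              ∃ T : lp (fun _ : ℕ => ℂ) 2 →L[ℂ] lp (fun _ : ℕ => ℂ) 2,
                (∀ j k : ℕ, (T (lp.single 2 k (1 : ℂ) : lp (fun _ : ℕ => ℂ) 2)) j
                    = fourierCoeff (⇑a : AddCircle (1 : ℝ) → ℂ) ((j : ℤ) - (k : ℤ))) ∧
                ∀ n, G n = P n * T * P n},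
            ∀ n, ‖A n - B n‖ ≤ ε) ∧
       (∃ K : lp (fun _ : ℕ => ℂ) 2 →L[ℂ] lp (fun _ : ℕ => ℂ) 2,
          IsCompactOperator K ∧ ∀ x, Tendsto (fun n => A n x) atTop (𝓝 (K x))) ∧
       (∃ K : lp (fun _ : ℕ => ℂ) 2 →L[ℂ] lp (fun _ : ℕ => ℂ) 2,
          IsCompactOperator K ∧
          ∀ x, Tendsto (fun n => (W n * A n * W n) x) atTop (𝓝 (K x))))) := by
  intro h
  have h1 := h Pc Wc hPc hWc (AA Pc TT SS)
  have hz : IsCompactOperator (0 : L2 →L[ℂ] L2) := isCompactOperator_zero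
  have h2 := h1.2 ⟨fun ε hε => ⟨AA Pc TT SS, AA_mem, fun n => by
      rw [sub_self, norm_zero]
      exact hε.le⟩,
    ⟨0, hz, fun x => tendsto_AA hPc TT_ee cc_neg_zero cc_real SS_inner SS_TT x⟩,
    ⟨0, hz, fun x => tendsto_WAW hPc hWc TT_ee cc_neg_zero cc_real SS_inner SS_TT x⟩⟩
  obtain ⟨K, K', hK, hK', C, -, hC, hA⟩ := h2
  have h3 := compact_null K hK (fun n => Pc n (qn n)) norm_P_qn null_P
  have h4 := compact_null K' hK' (fun n => Wc n (qn n)) norm_W_qn null_W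
  have h5 := ((tendsto_zero_iff_norm_tendsto_zero.1 h3).add
    (tendsto_zero_iff_norm_tendsto_zero.1 h4)).add hC
  simp only [add_zero] at h5
  have h6 : ∀ n, 3 ≤ n → 1 / 1000 ≤ ‖K (Pc n (qn n))‖ + ‖K' (Wc n (qn n))‖ + ‖C n‖ := by
    intro n hn
    refine (lower_AA n hn).trans ?_
    rw [hA n]
    have h7 : (Pc n * K * Pc n + Wc n * K' * Wc n + C n) (Pc n (qn n))
        = Pc n (K (Pc n (qn n))) + Wc n (K' (Wc n (qn n))) + C n (Pc n (qn n)) := by
      have h8 : (Pc n * K * Pc n + Wc n * K' * Wc n + C n) (Pc n (qn n))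
        = Pc n (K (Pc n (Pc n (qn n)))) + Wc n (K' (Wc n (Pc n (qn n)))) + C n (Pc n (qn n)) := rfl
      rw [h8, PP hPc, WP hPc hWc]
    rw [h7]
    refine (norm_add₃_le).trans ?_
    have h9 := norm_P_le hPc n (K (Pc n (qn n)))
    have h10 := norm_W_le hPc hWc n (K' (Wc n (qn n)))
    have h11 := (C n).le_opNorm (Pc n (qn n))
    have h12 := norm_P_qn n
    have h13 : ‖C n‖ * ‖Pc n (qn n)‖ ≤ ‖C n‖ * 1 := by gcongr
    linarith
  have h7 : ∀ᶠ n in atTop, ‖K (Pc n (qn n))‖ + ‖K' (Wc n (qn n))‖ + ‖C n‖ < 1 / 1000 :=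
    h5.eventually (gt_mem_nhds (by norm_num))
  obtain ⟨N, hN⟩ := Filter.eventually_atTop.1 h7
  have h8 := hN (max N 3) (le_max_left _ _)
  have h9 := h6 (max N 3) (le_max_right _ _)
  linarith

end Pool.Agent.S05718
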