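import Pool.Statements.S05908
import Pool.Agent.Lib.MP_b7ec12_an.Asm2

set_option autoImplicit false
open MeasureTheory
open Pool Pool.MP_b7ec12_an

namespace Pool.Agent.S05908

/-- The negation of the preceding statement: Take a measure-preserving Lagrangian flow of a Borel field b on the 2-torus and a continuous W^{1,1} map f. If ∂_t f + (∇f)b is integrable in time along a.e. trajectory, then t ↦ f(t, H_t(x)) is absolutely continuous on [0,T] for a.e. x. -/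
theorem result :
    ¬ (∀ (T : ℝ), 0 < T →
  ∀ (b X f ft : ℝ → (Fin 2 → ℝ) → (Fin 2 → ℝ)) (Df : ℝ → (Fin 2 → ℝ) → Fin 2 → (Fin 2 → ℝ)),
  Measurable (Function.uncurry b) →
  (∀ (t : ℝ) (x : Fin 2 → ℝ) (k : Fin 2 → ℤ), b t (x + (fun i => (k i : ℝ))) = b t x) →
  Measurable (Function.uncurry X) →
  (∀ᵐ x ∂(volume.restrict (Set.pi Set.univ fun _ : Fin 2 => Set.Ico (0:ℝ) 1)),
     X 0 x = x ∧ IntegrableOn (fun t => b t (X t x)) (Set.Icc 0 T) ∧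
     ∀ t ∈ Set.Icc (0:ℝ) T, X t x = x + ∫ s in (0:ℝ)..t, b s (X s x)) →
  (∀ t ∈ Set.Icc (0:ℝ) T,
     Measure.map (fun x i => Int.fract (X t x i))
       (volume.restrict (Set.pi Set.univ fun _ : Fin 2 => Set.Ico (0:ℝ) 1))
     = volume.restrict (Set.pi Set.univ fun _ : Fin 2 => Set.Ico (0:ℝ) 1)) →
  ContinuousOn (Function.uncurry f) (Set.Icc (0:ℝ) T ×ˢ (Set.univ : Set (Fin 2 → ℝ))) →
  (∀ (t : ℝ) (x : Fin 2 → ℝ) (k : Fin 2 → ℤ), f t (x + (fun i => (k i : ℝ))) = f t x) →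
  Measurable (Function.uncurry ft) →
  Measurable (Function.uncurry Df) →
  (∀ R : ℝ,
     IntegrableOn (Function.uncurry ft) (Set.Ioo (0:ℝ) T ×ˢ Metric.closedBall (0 : Fin 2 → ℝ) R) ∧
     IntegrableOn (Function.uncurry Df) (Set.Ioo (0:ℝ) T ×ˢ Metric.closedBall (0 : Fin 2 → ℝ) R)) →
  (∀ φ : ℝ × (Fin 2 → ℝ) → ℝ, ContDiff ℝ 1 φ → HasCompactSupport φ →
     tsupport φ ⊆ Set.Ioo (0:ℝ) T ×ˢ (Set.univ : Set (Fin 2 → ℝ)) →
     ((∫ p, fderiv ℝ φ p ((1:ℝ), (0 : Fin 2 → ℝ)) • f p.1 p.2)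
        = - ∫ p, φ p • ft p.1 p.2) ∧
     ∀ j : Fin 2,
       (∫ p, fderiv ℝ φ p ((0:ℝ), (Pi.single j (1:ℝ) : Fin 2 → ℝ)) • f p.1 p.2)
         = - ∫ p, φ p • Df p.1 p.2 j) →
  (∀ᵐ x ∂(volume.restrict (Set.pi Set.univ fun _ : Fin 2 => Set.Ico (0:ℝ) 1)),
     IntegrableOn (fun t => ft t (X t x) + ∑ j : Fin 2, b t (X t x) j • Df t (X t x) j)
       (Set.Ioo (0:ℝ) T)) →
  ∀ᵐ x ∂(volume.restrict (Set.pi Set.univ fun _ : Fin 2 => Set.Ico (0:ℝ) 1)),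
     ∃ h : ℝ → (Fin 2 → ℝ), IntegrableOn h (Set.Icc (0:ℝ) T) ∧
       ∀ t ∈ Set.Icc (0:ℝ) T, f t (X t x) = f 0 (X 0 x) + ∫ s in (0:ℝ)..t, h s) := by
  intro H
  obtain ⟨P, c, hc⟩ := Pool.Agent.Lib.B7ec12.exists_data
  have hQm : MeasurableSet (Set.pi Set.univ fun _ : Fin 2 => Set.Ico (0:ℝ) 1) :=
    MeasurableSet.univ_pi fun _ => measurableSet_Ico
  have H1 := H P.A P.A_pos (Pool.Agent.Lib.B7ec12.vb P) (Pool.Agent.Lib.B7ec12.fl P)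
    (Pool.Agent.Lib.B7ec12.ff c) (fun _ _ => 0) (Pool.Agent.Lib.B7ec12.DF c)
    (Pool.Agent.Lib.B7ec12.vb_meas P) (Pool.Agent.Lib.B7ec12.vb_per P)
    (Pool.Agent.Lib.B7ec12.fl_meas P)
    ((ae_restrict_iff' hQm).2 (Filter.Eventually.of_forall
      (Pool.Agent.Lib.B7ec12.flow_ok P P.A)))
    (fun t _ => Pool.Agent.Lib.B7ec12.mp_ok P t)
    ((Pool.Agent.Lib.B7ec12.ff_cont c).continuousOn)
    (Pool.Agent.Lib.B7ec12.ff_per c)
    measurable_const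
    (Pool.Agent.Lib.B7ec12.DF_meas c)
    (fun R => ⟨integrableOn_zero, Pool.Agent.Lib.B7ec12.DF_int c P.A R⟩)
    (fun φ hφ hcs _ => Pool.Agent.Lib.B7ec12.weak_ok c φ hφ hcs)
    ((ae_restrict_iff' hQm).2 (Filter.Eventually.of_forall
      (Pool.Agent.Lib.B7ec12.g_ok P c hc P.A)))
  obtain ⟨x, _, hx2, hx3⟩ := Pool.Agent.Lib.B7ec12.exists_point P _ H1
  exact Pool.Agent.Lib.B7ec12.not_ac P c hc x hx2 hx3

end Pool.Agent.S05908
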