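import Pool.Statements.S06237
import Pool.Agent.Lib.MP_d1728b_an.HLP.Final

set_option autoImplicit false
open Pool Pool.MP_d1728b_an

namespace Pool.Agent.S06237

/-- For every finite set A of integers of size N and every arithmetic progression P of length N with nonzero step, the L1 norm on [0,1] of the exponential sum over A is at least that of the exponential sum over P. -/
theorem result :
    ∀ (A : Finset ℤ) (a d : ℤ), d ≠ 0 →
      (∫ θ in (0:ℝ)..1,
          ‖∑ k ∈ Finset.range A.card,
              Complex.exp (2 * (Real.pi : ℂ) * Complex.I * (((a + d * (k : ℤ) : ℤ)) : ℂ) * (θ : ℂ))‖)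
        ≤ ∫ θ in (0:ℝ)..1,
          ‖∑ x ∈ A, Complex.exp (2 * (Real.pi : ℂ) * Complex.I * (x : ℂ) * (θ : ℂ))‖ := by
  intro A a d hd
  exact Pool.Agent.MP_d1728b_an.HLP.strong_littlewood A a d hd

end Pool.Agent.S06237
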