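import Pool.Statements.S06265
import Pool.Agent.Lib.MP_d3943d_an.Main

set_option autoImplicit false
open Pool Pool.MP_d3943d_an

namespace Pool.Agent.S06265

/-- For N at least 2, any open set of finite volume, and any load bounded by 1: the clamped-plate deflection (H_0^2 weak solution of the bilaplacian equation) has total absolute deflection at most that of the ball of equal volume under unit load. -/
theorem result :
  ∀ (N : ℕ), 2 ≤ N →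
  ∀ (Ω : Set (EuclideanSpace ℝ (Fin N))), IsOpen Ω → MeasureTheory.volume Ω < ⊤ →
  ∀ (R : ℝ), 0 < R →
    MeasureTheory.volume Ω = MeasureTheory.volume (Metric.ball (0 : EuclideanSpace ℝ (Fin N)) R) →
  ∀ (ρ : EuclideanSpace ℝ (Fin N) → ℝ), Measurable ρ → (∀ x ∈ Ω, |ρ x| ≤ 1) →
  ∀ (u : EuclideanSpace ℝ (Fin N) → ℝ), MeasureTheory.MemLp u 2 MeasureTheory.volume →
  (∃ φ : ℕ → EuclideanSpace ℝ (Fin N) → ℝ,
     (∀ n, ContDiff ℝ ((⊤ : ℕ∞) : WithTop ℕ∞) (φ n) ∧ HasCompactSupport (φ n) ∧ tsupport (φ n) ⊆ Ω) ∧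
     (∀ ε : ℝ, 0 < ε → ∃ K : ℕ, ∀ n, K ≤ n → ∀ k, K ≤ k →
        ∫ x, ((φ n x - φ k x) ^ 2 + ‖fderiv ℝ (φ n - φ k) x‖ ^ 2
              + ‖fderiv ℝ (fderiv ℝ (φ n - φ k)) x‖ ^ 2) < ε) ∧
     Filter.Tendsto (fun n => ∫ x, (φ n x - u x) ^ 2) Filter.atTop (nhds 0)) →
  (∀ ψ : EuclideanSpace ℝ (Fin N) → ℝ, ContDiff ℝ ((⊤ : ℕ∞) : WithTop ℕ∞) ψ →
     HasCompactSupport ψ → tsupport ψ ⊆ Ω →
     ∫ x, u x * ∑ i : Fin N, ∑ j : Fin N,
        iteratedFDeriv ℝ 4 ψ x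
          ![EuclideanSpace.single i (1 : ℝ), EuclideanSpace.single i (1 : ℝ),
            EuclideanSpace.single j (1 : ℝ), EuclideanSpace.single j (1 : ℝ)]
      = ∫ x, ρ x * ψ x) →
  ∫ x in Ω, |u x| ≤
    ∫ x in Metric.ball (0 : EuclideanSpace ℝ (Fin N)) R,
      (R ^ 2 - ‖x‖ ^ 2) ^ 2 / (8 * (N : ℝ) * ((N : ℝ) + 2)) := by
  exact Pool.Agent.Lib.MP_d3943d_an.main_of_key Pool.Agent.Lib.MP_d3943d_an.key_all

end Pool.Agent.S06265
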