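import Pool.Statements.S06619
import Pool.Agent.Lib.MP_eee7b5_an.Main

set_option autoImplicit false
open Matrix
open Pool Pool.MP_eee7b5_an

namespace Pool.Agent.S06619

/-- For each dimension and ellipticity bounds λ ≤ Λ there are α>0 and C such that every classical solution of f_t + v·∇_x f = a_ij ∂_{v_iv_j} f with λI ≤ a ≤ ΛI, bounded by M on [0,1]×B1×B1, is α-Hölder with constant C·M on (1/2,1)×B½×B½. -/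
theorem result :
    ∀ (d : ℕ) (lam Lam : ℝ), 0 < lam → lam ≤ Lam →
    ∃ α : ℝ, 0 < α ∧ ∃ C : ℝ,
    ∀ (a : ℝ × EuclideanSpace ℝ (Fin d) × EuclideanSpace ℝ (Fin d) → Matrix (Fin d) (Fin d) ℝ)
      (f : ℝ × EuclideanSpace ℝ (Fin d) × EuclideanSpace ℝ (Fin d) → ℝ)
      (ft : ℝ × EuclideanSpace ℝ (Fin d) × EuclideanSpace ℝ (Fin d) → ℝ)
      (Dx : ℝ × EuclideanSpace ℝ (Fin d) × EuclideanSpace ℝ (Fin d) →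
        (EuclideanSpace ℝ (Fin d) →L[ℝ] ℝ))
      (Dv : ℝ × EuclideanSpace ℝ (Fin d) × EuclideanSpace ℝ (Fin d) →
        (EuclideanSpace ℝ (Fin d) →L[ℝ] ℝ))
      (D2v : ℝ × EuclideanSpace ℝ (Fin d) × EuclideanSpace ℝ (Fin d) →
        (EuclideanSpace ℝ (Fin d) →L[ℝ] EuclideanSpace ℝ (Fin d) →L[ℝ] ℝ))
      (M : ℝ),
      (∀ p ∈ Set.Ioo (0 : ℝ) 1 ×ˢ Metric.ball (0 : EuclideanSpace ℝ (Fin d)) 1 ×ˢ
          Metric.ball (0 : EuclideanSpace ℝ (Fin d)) 1,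
        ∀ ξ : Fin d → ℝ, lam * (ξ ⬝ᵥ ξ) ≤ ξ ⬝ᵥ (a p *ᵥ ξ) ∧ ξ ⬝ᵥ (a p *ᵥ ξ) ≤ Lam * (ξ ⬝ᵥ ξ)) →
      ContinuousOn ft (Set.Ioo (0 : ℝ) 1 ×ˢ Metric.ball (0 : EuclideanSpace ℝ (Fin d)) 1 ×ˢ
          Metric.ball (0 : EuclideanSpace ℝ (Fin d)) 1) →
      ContinuousOn Dx (Set.Ioo (0 : ℝ) 1 ×ˢ Metric.ball (0 : EuclideanSpace ℝ (Fin d)) 1 ×ˢ
          Metric.ball (0 : EuclideanSpace ℝ (Fin d)) 1) →
      ContinuousOn D2v (Set.Ioo (0 : ℝ) 1 ×ˢ Metric.ball (0 : EuclideanSpace ℝ (Fin d)) 1 ×ˢ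
          Metric.ball (0 : EuclideanSpace ℝ (Fin d)) 1) →
      (∀ p ∈ Set.Ioo (0 : ℝ) 1 ×ˢ Metric.ball (0 : EuclideanSpace ℝ (Fin d)) 1 ×ˢ
          Metric.ball (0 : EuclideanSpace ℝ (Fin d)) 1,
        HasDerivAt (fun s => f (s, p.2.1, p.2.2)) (ft p) p.1) →
      (∀ p ∈ Set.Ioo (0 : ℝ) 1 ×ˢ Metric.ball (0 : EuclideanSpace ℝ (Fin d)) 1 ×ˢ
          Metric.ball (0 : EuclideanSpace ℝ (Fin d)) 1,
        HasFDerivAt (fun y => f (p.1, y, p.2.2)) (Dx p) p.2.1) →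
      (∀ p ∈ Set.Ioo (0 : ℝ) 1 ×ˢ Metric.ball (0 : EuclideanSpace ℝ (Fin d)) 1 ×ˢ
          Metric.ball (0 : EuclideanSpace ℝ (Fin d)) 1,
        HasFDerivAt (fun w => f (p.1, p.2.1, w)) (Dv p) p.2.2) →
      (∀ p ∈ Set.Ioo (0 : ℝ) 1 ×ˢ Metric.ball (0 : EuclideanSpace ℝ (Fin d)) 1 ×ˢ
          Metric.ball (0 : EuclideanSpace ℝ (Fin d)) 1,
        HasFDerivAt (fun w => Dv (p.1, p.2.1, w)) (D2v p) p.2.2) →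
      (∀ p ∈ Set.Ioo (0 : ℝ) 1 ×ˢ Metric.ball (0 : EuclideanSpace ℝ (Fin d)) 1 ×ˢ
          Metric.ball (0 : EuclideanSpace ℝ (Fin d)) 1,
        ft p + Dx p p.2.2 = ∑ i, ∑ j, a p i j *
          D2v p (EuclideanSpace.single i (1 : ℝ)) (EuclideanSpace.single j (1 : ℝ))) →
      (∀ p ∈ Set.Icc (0 : ℝ) 1 ×ˢ Metric.ball (0 : EuclideanSpace ℝ (Fin d)) 1 ×ˢ
          Metric.ball (0 : EuclideanSpace ℝ (Fin d)) 1, |f p| ≤ M) →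
      ∀ p ∈ Set.Ioo (1 / 2 : ℝ) 1 ×ˢ Metric.ball (0 : EuclideanSpace ℝ (Fin d)) (1 / 2) ×ˢ
          Metric.ball (0 : EuclideanSpace ℝ (Fin d)) (1 / 2),
      ∀ q ∈ Set.Ioo (1 / 2 : ℝ) 1 ×ˢ Metric.ball (0 : EuclideanSpace ℝ (Fin d)) (1 / 2) ×ˢ
          Metric.ball (0 : EuclideanSpace ℝ (Fin d)) (1 / 2),
        |f p - f q| ≤ C * M * ‖p - q‖ ^ α := by
  
  exact Pool.Agent.Lib.MP_eee7b5_an.main

end Pool.Agent.S06619
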