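import Pool.Statements.S07058

set_option autoImplicit false
open Pool Pool.MP_095a77_co

namespace Pool.Agent.S07058

/-- A Cayley graph on `ZMod n` with connection set `S`. -/
def cay {n : ℕ} (S : Finset (ZMod n)) (h0 : (0 : ZMod n) ∉ S) (hneg : ∀ s ∈ S, -s ∈ S) :
    SimpleGraph (ZMod n) where
  Adj x y := y - x ∈ S
  symm := ⟨by
    intro x y h
    have := hneg _ h
    rwa [neg_sub] at this⟩
  loopless := ⟨by
    intro x h
    rw [sub_self] at h
    exact h0 h⟩

instance {n : ℕ} (S : Finset (ZMod n)) (h0 : (0 : ZMod n) ∉ S) (hneg : ∀ s ∈ S, -s ∈ S) :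
    DecidableRel (cay S h0 hneg).Adj := fun x y => inferInstanceAs (Decidable (y - x ∈ S))

theorem cay_degree {n : ℕ} [NeZero n] (S : Finset (ZMod n)) (h0 : (0 : ZMod n) ∉ S)
    (hneg : ∀ s ∈ S, -s ∈ S) : (cay S h0 hneg).IsRegularOfDegree S.card := by
  intro v
  rw [← SimpleGraph.card_neighborFinset_eq_degree]
  have : (cay S h0 hneg).neighborFinset v = S.image (fun s => v + s) := by
    ext y
    simp only [SimpleGraph.mem_neighborFinset, Finset.mem_image]
    constructor
    · intro h
      exact ⟨y - v, h, by ring⟩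
    · rintro ⟨s, hs, rfl⟩
      change v + s - v ∈ S
      simpa using hs
  rw [this, Finset.card_image_of_injective]
  intro a b h
  simpa using h

/-- Some element of `A` is followed by an element outside `A`. -/
theorem exists_boundary {n : ℕ} [NeZero n] (A : Finset (ZMod n)) (hA : A.Nonempty)
    (hA' : Aᶜ.Nonempty) : ∃ x, x ∈ A ∧ x + 1 ∉ A := by
  by_contra hcon
  push Not at hcon
  obtain ⟨a, ha⟩ := hA
  obtain ⟨b, hb⟩ := hA'
  have key : ∀ j : ℕ, a + (j : ZMod n) ∈ A := by
    intro j
    induction j with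
    | zero => simpa using ha
    | succ j ih =>
      have := hcon _ ih
      push_cast
      rwa [← add_assoc]
  have h1 := key (b - a).val
  rw [ZMod.natCast_zmod_val] at h1
  rw [Finset.mem_compl] at hb
  apply hb
  convert h1 using 1
  ring

theorem key_bound {n : ℕ} [NeZero n] (S E : Finset (ZMod n)) (h0 : (0 : ZMod n) ∉ S)
    (hneg : ∀ s ∈ S, -s ∈ S) (h1 : (1 : ZMod n) ∈ S)
    (hE : ∀ s ∈ S, s = -1 ∨ 1 + s ∈ S ∨ s ∈ E) (A : Finset (ZMod n)) (x : ZMod n)
    (hx : x ∈ A) (hx1 : x + 1 ∉ A) :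
    ((cay S h0 hneg).neighborFinset x ∩ A).card +
      ((cay S h0 hneg).neighborFinset (x + 1) ∩ Aᶜ).card + 1 ≤ S.card + E.card := by
  classical
  set N := (cay S h0 hneg).neighborFinset x with hN
  have hcard : N.card = S.card := by
    rw [hN, SimpleGraph.card_neighborFinset_eq_degree]
    exact cay_degree S h0 hneg x
  have hsub : ((cay S h0 hneg).neighborFinset (x + 1) ∩ Aᶜ) ⊆
      ((N \ A).erase (x + 1)) ∪ E.image (fun s => x + 1 + s) := by
    intro y hy
    rw [Finset.mem_inter, SimpleGraph.mem_neighborFinset, Finset.mem_compl] at hy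
    obtain ⟨hy1, hy2⟩ := hy
    have hy1' : y - (x + 1) ∈ S := hy1
    rcases hE _ hy1' with h | h | h
    · exfalso
      apply hy2
      have h' : y = x := by
        calc y = (y - (x + 1)) + (x + 1) := by ring
          _ = -1 + (x + 1) := by rw [h]
          _ = x := by ring
      rw [h']
      exact hx
    · rw [Finset.mem_union]
      left
      rw [Finset.mem_erase, Finset.mem_sdiff]
      refine ⟨?_, ?_, hy2⟩
      · rintro rfl
        rw [sub_self] at hy1'
        exact h0 hy1'
      · rw [hN, SimpleGraph.mem_neighborFinset]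
        change y - x ∈ S
        convert h using 1
        ring
    · rw [Finset.mem_union]
      right
      rw [Finset.mem_image]
      exact ⟨_, h, by ring⟩
  have h2 := Finset.card_le_card hsub
  have h3 := Finset.card_union_le ((N \ A).erase (x + 1)) (E.image (fun s => x + 1 + s))
  have h4 : (E.image (fun s => x + 1 + s)).card ≤ E.card := Finset.card_image_le
  have h5 : x + 1 ∈ N \ A := by
    rw [Finset.mem_sdiff, hN, SimpleGraph.mem_neighborFinset]
    refine ⟨?_, hx1⟩
    change x + 1 - x ∈ S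
    simpa using h1
  have h6 := Finset.card_erase_add_one h5
  have h7 := Finset.card_inter_add_card_sdiff N A
  omega

/-- The connection set. -/
def conn (m k : ℕ) (e : ℕ) [NeZero m] : Finset (ZMod (2 * m)) :=
  Finset.univ.filter (fun s => (1 ≤ s.val ∧ s.val ≤ k) ∨ (2 * m - k ≤ s.val) ∨ (e = 1 ∧ s.val = m))

theorem conn_card (m k e : ℕ) [NeZero m] (hk : k + 1 < m) (he : e ≤ 1) :
    (conn m k e).card = 2 * k + e := by
  classical
  have h1 : (conn m k e).card = ((Finset.range (2 * m)).filter (fun j => (1 ≤ j ∧ j ≤ k) ∨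
      (2 * m - k ≤ j) ∨ (e = 1 ∧ j = m))).card := by
    refine Finset.card_bij (fun s _ => s.val) ?_ ?_ ?_
    · intro s hs
      rw [conn, Finset.mem_filter] at hs
      rw [Finset.mem_filter, Finset.mem_range]
      exact ⟨ZMod.val_lt s, hs.2⟩
    · intro a _ b _ h
      exact ZMod.val_injective _ h
    · intro j hj
      rw [Finset.mem_filter, Finset.mem_range] at hj
      refine ⟨(j : ZMod (2 * m)), ?_, ?_⟩
      · rw [conn, Finset.mem_filter, ZMod.val_natCast_of_lt hj.1]
        exact ⟨Finset.mem_univ _, hj.2⟩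
      · exact ZMod.val_natCast_of_lt hj.1
  have h2 : ((Finset.range (2 * m)).filter (fun j => (1 ≤ j ∧ j ≤ k) ∨
      (2 * m - k ≤ j) ∨ (e = 1 ∧ j = m))) =
      (Finset.Icc 1 k ∪ Finset.Ico (2 * m - k) (2 * m)) ∪ Finset.Ico m (m + e) := by
    ext j
    simp only [Finset.mem_filter, Finset.mem_range, Finset.mem_union, Finset.mem_Icc,
      Finset.mem_Ico]
    omega
  rw [h1, h2, Finset.card_union_of_disjoint, Finset.card_union_of_disjoint]
  · simp only [Nat.card_Icc, Nat.card_Ico]
    omega
  · rw [Finset.disjoint_left]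
    intro j hj hj'
    simp only [Finset.mem_Icc, Finset.mem_Ico] at hj hj'
    omega
  · rw [Finset.disjoint_left]
    intro j hj hj'
    simp only [Finset.mem_union, Finset.mem_Icc, Finset.mem_Ico] at hj hj'
    omega

theorem conn_zero (m k e : ℕ) [NeZero m] (hk : k + 1 < m) : (0 : ZMod (2 * m)) ∉ conn m k e := by
  rw [conn, Finset.mem_filter, ZMod.val_zero]
  omega

theorem conn_neg (m k e : ℕ) [NeZero m] (hk : k + 1 < m) :
    ∀ s ∈ conn m k e, -s ∈ conn m k e := by
  intro s hs
  have hs0 : s ≠ 0 := by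
    rintro rfl
    exact conn_zero m k e hk hs
  rw [conn, Finset.mem_filter] at hs ⊢
  rw [ZMod.neg_val, if_neg hs0]
  have hlt := ZMod.val_lt s
  have hpos : s.val ≠ 0 := by
    rwa [Ne, ZMod.val_eq_zero]
  refine ⟨Finset.mem_univ _, ?_⟩
  omega

theorem conn_step (m k e : ℕ) [NeZero m] (hk : k + 1 < m) :
    ∀ s ∈ conn m k e, s = -1 ∨ 1 + s ∈ conn m k e ∨
      s ∈ ({(k : ZMod (2 * m)), (m : ZMod (2 * m))} : Finset (ZMod (2 * m))) := by
  intro s hs
  rw [conn, Finset.mem_filter] at hs
  have hlt := ZMod.val_lt s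
  haveI : Fact (1 < 2 * m) := ⟨by omega⟩
  have hone : (1 : ZMod (2 * m)).val = 1 := ZMod.val_one _
  by_cases h1 : s.val = k
  · right; right
    rw [Finset.mem_insert]
    left
    rw [← h1, ZMod.natCast_zmod_val]
  by_cases h2 : s.val = m
  · right; right
    rw [Finset.mem_insert, Finset.mem_singleton]
    right
    conv_lhs => rw [← ZMod.natCast_zmod_val s]
    rw [h2]
  by_cases h3 : s.val + 1 = 2 * m
  · left
    have h4 : s + 1 = 0 := by
      rw [← ZMod.natCast_zmod_val s]
      have : (((s.val + 1 : ℕ)) : ZMod (2 * m)) = 0 := by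
        rw [h3]
        exact ZMod.natCast_self _
      push_cast at this
      exact this
    exact eq_neg_of_add_eq_zero_left h4
  · right; left
    rw [conn, Finset.mem_filter, ZMod.val_add, hone, Nat.mod_eq_of_lt (by omega)]
    refine ⟨Finset.mem_univ _, ?_⟩
    omega

theorem conn_one (m k e : ℕ) [NeZero m] (hk : k + 1 < m) (hk0 : 1 ≤ k) :
    (1 : ZMod (2 * m)) ∈ conn m k e := by
  haveI : Fact (1 < 2 * m) := ⟨by omega⟩
  rw [conn, Finset.mem_filter, ZMod.val_one]
  exact ⟨Finset.mem_univ _, Or.inl ⟨le_refl _, hk0⟩⟩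

/-- The negation of the preceding statement: For every integer δ≥1 there are d and n0 so that every d-regular graph on more than n0 vertices splits into two nonempty parts where each vertex has at least d/2+δ neighbours in its own part. -/
theorem result :
    ¬ (∀ δ : ℕ, 1 ≤ δ → ∃ d n₀ : ℕ, ∀ (V : Type) [Fintype V] [DecidableEq V]
      (G : SimpleGraph V) [DecidableRel G.Adj],
      G.IsRegularOfDegree d → n₀ < Fintype.card V →
      ∃ A : Finset V, A.Nonempty ∧ Aᶜ.Nonempty ∧
        (∀ v ∈ A, (d : ℝ) / 2 + (δ : ℝ) ≤ ((G.neighborFinset v ∩ A).card : ℝ)) ∧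
        (∀ v ∈ Aᶜ, (d : ℝ) / 2 + (δ : ℝ) ≤ ((G.neighborFinset v ∩ Aᶜ).card : ℝ))) := by
  intro hall
  obtain ⟨d, n₀, h⟩ := hall 1 le_rfl
  set m := n₀ + d + 2 with hm
  set k := d / 2 with hk
  set e := d % 2 with he
  haveI : NeZero m := ⟨by omega⟩
  have hkm : k + 1 < m := by omega
  have he1 : e ≤ 1 := by omega
  have hd : 2 * k + e = d := by omega
  set S := conn m k e with hS
  have hcard : S.card = d := by rw [hS, conn_card m k e hkm he1, hd]
  have h0 := conn_zero m k e hkm
  have hneg := conn_neg m k e hkm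
  have hreg := cay_degree S h0 hneg
  rw [hcard] at hreg
  obtain ⟨A, hA, hA', h1, h2⟩ := h (ZMod (2 * m)) (cay S h0 hneg) hreg
    (by rw [ZMod.card]; omega)
  obtain ⟨x, hx, hx1⟩ := exists_boundary A hA hA'
  have e1 := h1 x hx
  have e2 := h2 (x + 1) (Finset.mem_compl.mpr hx1)
  by_cases hd2 : d < 2
  · have e3 : (((cay S h0 hneg).neighborFinset x ∩ A).card : ℝ) ≤ d := by
      have := Finset.card_le_card (Finset.inter_subset_left
        (s₁ := (cay S h0 hneg).neighborFinset x) (s₂ := A))
      rw [SimpleGraph.card_neighborFinset_eq_degree, hreg x] at this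
      exact_mod_cast this
    have e4 : (d : ℝ) < 2 := by exact_mod_cast hd2
    push_cast at e1
    linarith
  · have e3 := key_bound S {(k : ZMod (2 * m)), (m : ZMod (2 * m))} h0 hneg
      (conn_one m k e hkm (by omega)) (conn_step m k e hkm) A x hx hx1
    have e4 : ({(k : ZMod (2 * m)), (m : ZMod (2 * m))} : Finset (ZMod (2 * m))).card ≤ 2 :=
      Finset.card_le_two
    have e5 : (((cay S h0 hneg).neighborFinset x ∩ A).card : ℝ) +
      ((cay S h0 hneg).neighborFinset (x + 1) ∩ Aᶜ).card + 1 ≤ d + 2 := by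
      rw [hcard] at e3
      exact_mod_cast e3.trans (by omega)
    push_cast at e1 e2
    linarith

end Pool.Agent.S07058
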