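import Pool.Statements.S07593
import Pool.Agent.Lib.MP_20105c_co.Final

set_option autoImplicit false
open Pool Pool.MP_20105c_co

namespace Pool.Agent.S07593

/-- There is a constant k such that every acyclic directed graph whose underlying graph is a 2-tree and which has an upward planar drawing admits a topological vertex order and a k-colouring of its arcs with no two same-coloured arcs interleaving. -/
theorem result : ∃ k : ℕ, ∀ (n : ℕ) (A : Fin n → Fin n → Prop),
    (∀ v, ¬ Relation.TransGen A v v) →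
    (2 ≤ n ∧ ∃ σ : Equiv.Perm (Fin n),
      (∀ i j : Fin n, i.val = 0 → j.val = 1 → (A (σ i) (σ j) ∨ A (σ j) (σ i))) ∧
      (∀ i : Fin n, 2 ≤ i.val → ∃ a b : Fin n, a < i ∧ b < i ∧ a ≠ b ∧
        (A (σ a) (σ b) ∨ A (σ b) (σ a)) ∧
        (A (σ a) (σ i) ∨ A (σ i) (σ a)) ∧
        (A (σ b) (σ i) ∨ A (σ i) (σ b)) ∧
        (∀ c : Fin n, c < i → (A (σ c) (σ i) ∨ A (σ i) (σ c)) → c = a ∨ c = b))) →
    (∃ p : Fin n → ℝ × ℝ, Function.Injective p ∧
      ∃ γ : Fin n → Fin n → unitInterval → ℝ × ℝ,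
        (∀ u v, A u v → Continuous (γ u v) ∧ γ u v (0 : unitInterval) = p u ∧
          γ u v (1 : unitInterval) = p v ∧ StrictMono (fun t => (γ u v t).2)) ∧
        (∀ u v w t, A u v → γ u v t = p w → w = u ∨ w = v) ∧
        (∀ u v x y t s, A u v → A x y → γ u v t = γ x y s →
          (u = x ∧ v = y ∧ t = s) ∨
          ∃ w, γ u v t = p w ∧ (w = u ∨ w = v) ∧ (w = x ∨ w = y))) →
    ∃ τ : Fin n → ℕ, Function.Injective τ ∧ (∀ u v, A u v → τ u < τ v) ∧
      ∃ c : Fin n → Fin n → Fin k, ∀ u v x y, A u v → A x y → c u v = c x y →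
        ¬ (τ u < τ x ∧ τ x < τ v ∧ τ v < τ y) := UP2.final

end Pool.Agent.S07593
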