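-- S07639: proof. The case k = 1 and 1 < k ≤ 2 in Lib/MP_226de1_co, k > 2 in Lib/MP_226de1_co/{H,Sw,E}.
import Pool.Statements.S07639
import Pool.Agent.Lib.MP_226de1_co.Sw.Final
import Pool.Agent.Lib.MP_226de1_co.E.DiscDone
import Pool.Agent.Lib.MP_226de1_co.E.HalfDone

set_option autoImplicit false
open Pool Pool.MP_226de1_co

namespace Pool.Agent.S07639

/-- For every real k at least 1, no compact convex plane set with nonempty interior has two distinct interior points p such that, over all chords xy through p, the sum of px to the k and py to the k is constant. -/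
theorem result :
    ∀ k : ℝ, 1 ≤ k →
    ∀ K : Set (EuclideanSpace ℝ (Fin 2)), Convex ℝ K → IsCompact K → (interior K).Nonempty →
    ¬ ∃ p q : EuclideanSpace ℝ (Fin 2), p ≠ q ∧ p ∈ interior K ∧ q ∈ interior K ∧
      (∃ c : ℝ, ∀ x ∈ frontier K, ∀ y ∈ frontier K, x ≠ y → p ∈ segment ℝ x y →
        dist p x ^ k + dist p y ^ k = c) ∧
      (∃ c : ℝ, ∀ x ∈ frontier K, ∀ y ∈ frontier K, x ≠ y → q ∈ segment ℝ x y →
        dist q x ^ k + dist q y ^ k = c) :=
  EQW.frozen_of_exits EQS.exitDisc8 EQS.exitHalf8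

end Pool.Agent.S07639
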