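import Pool.Statements.S07991
import Pool.Agent.H71Beraha.Final

set_option autoImplicit false
open Pool Pool.MP_32b8b3_co

namespace Pool.Agent.S07991

/-- For every n in {8,9} or n≥11 and every ε>0, some finite planar graph with at least 3 vertices and 3∣V∣−6 edges (a plane triangulation) has a chromatic polynomial with a real root within ε of 2+2cos(2π/n). -/
theorem result :
    ∀ n : ℕ, (n = 8 ∨ n = 9 ∨ 11 ≤ n) → ∀ ε : ℝ, 0 < ε →
      ∃ (V : Type) (_ : Fintype V) (G : SimpleGraph V),
        3 ≤ Nat.card V ∧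
        Nat.card G.edgeSet + 6 = 3 * Nat.card V ∧
        (∃ (pos : V → ℂ) (arc : ∀ u v : V, Path (pos u) (pos v)),
          Function.Injective pos ∧
          (∀ u v : V, G.Adj u v → Function.Injective ⇑(arc u v)) ∧
          (∀ u v : V, G.Adj u v → ∀ t : unitInterval, ∀ w : V,
              arc u v t = pos w → t = 0 ∨ t = 1) ∧
          (∀ u v x y : V, G.Adj u v → G.Adj x y → s(u, v) ≠ s(x, y) →
              ∀ a b : unitInterval, arc u v a = arc x y b → a = 0 ∨ a = 1)) ∧
        ∃ p : Polynomial ℝ,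
          (∀ k : ℕ, p.eval (k : ℝ) = (Nat.card (G.Coloring (Fin k)) : ℝ)) ∧
          ∃ x : ℝ, |x - (2 + 2 * Real.cos (2 * Real.pi / (n : ℝ)))| < ε ∧ p.IsRoot x := by
  intro n hn ε hε
  exact Pool.Agent.H71Beraha.main n hn ε hε

end Pool.Agent.S07991
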