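import Pool.Statements.S08256
import Pool.Agent.Lib.MP_3d7595_co.Final

set_option autoImplicit false
open Pool Pool.MP_3d7595_co

namespace Pool.Agent.S08256

/-- The negation of the preceding statement: For every Δ there is c such that every finite graph with no K5 or K3,3 minor and max degree ≤ Δ embeds as a subgraph of H ⊠ P ⊠ K_c, with H finite K4-minor-free (treewidth ≤ 2) and P a path. -/
theorem result :
    ¬ (∀ Δ : ℕ, ∃ c : ℕ, ∀ (V : Type) [Fintype V] (G : SimpleGraph V),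
      (¬ ∃ f : Fin 5 → Set V, (∀ i, (G.induce (f i)).Connected) ∧
          (∀ i j, i ≠ j → Disjoint (f i) (f j)) ∧
          (∀ i j, i ≠ j → ∃ x ∈ f i, ∃ y ∈ f j, G.Adj x y)) →
      (¬ ∃ a b : Fin 3 → Set V,
          (∀ i, (G.induce (a i)).Connected ∧ (G.induce (b i)).Connected) ∧
          (∀ i j, i ≠ j → Disjoint (a i) (a j) ∧ Disjoint (b i) (b j)) ∧
          (∀ i j, Disjoint (a i) (b j) ∧ ∃ x ∈ a i, ∃ y ∈ b j, G.Adj x y)) →
      (∀ v, (G.neighborSet v).ncard ≤ Δ) →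
      ∃ (W : Type) (_ : Fintype W) (H : SimpleGraph W) (n : ℕ),
        (¬ ∃ f : Fin 4 → Set W, (∀ i, (H.induce (f i)).Connected) ∧
            (∀ i j, i ≠ j → Disjoint (f i) (f j)) ∧
            (∀ i j, i ≠ j → ∃ x ∈ f i, ∃ y ∈ f j, H.Adj x y)) ∧
        ∃ φ : V → W × Fin n × Fin c, Function.Injective φ ∧
          ∀ u v, G.Adj u v →
            ((φ u).1 = (φ v).1 ∨ H.Adj (φ u).1 (φ v).1) ∧
            ((φ u).2.1 = (φ v).2.1 ∨ (SimpleGraph.pathGraph n).Adj (φ u).2.1 (φ v).2.1)) := by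
  intro hall
  obtain ⟨c, hc⟩ := hall 100
  obtain ⟨p, hp⟩ := Pool.Agent.MP3d.no_embedding (c + 1) (by omega)
  have : Fintype p.VT := Fintype.ofFinite _
  obtain ⟨W, hW, H, n, hK4, φ, hφ, hadj⟩ := hc p.VT p.G p.planar.1 p.planar.2 p.degree_le
  apply hp
  refine ⟨W, hW, H, n, hK4, fun v => ((φ v).1, (φ v).2.1, (φ v).2.2.castSucc), ?_, ?_⟩
  · intro u v huv
    simp only [Prod.mk.injEq, Fin.castSucc_inj] at huv
    exact hφ (Prod.ext huv.1 (Prod.ext huv.2.1 huv.2.2))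
  · intro u v huv
    exact hadj u v huv

end Pool.Agent.S08256
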