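import Pool.Statements.S08684

set_option autoImplicit false
open Pool Pool.MP_4e77c2_co

namespace Pool.Agent.S08684

-- n 58
def nb : List (List ℕ) :=
  [[5, 12, 55], [2, 6, 13], [1, 7, 10], [4, 8, 14], [3, 9, 49], [0, 7, 20], [1, 8, 9], [2, 5, 9], [3, 6, 21], [4, 6, 7], [2, 11, 15], [10, 12, 18], [0, 11, 17], [1, 15, 16], [3, 16, 17], [10, 13, 17], [13, 14, 22], [12, 14, 15], [11, 19, 23], [18, 20, 52], [5, 19, 25], [8, 23, 24], [16, 24, 25], [18, 21, 25], [21, 22, 56], [20, 22, 23], [30, 31, 52], [28, 32, 39], [27, 33, 36], [30, 34, 40], [26, 29, 35], [26, 33, 46], [27, 34, 35], [28, 31, 35], [29, 32, 47], [30, 32, 33], [28, 37, 41], [36, 38, 44], [37, 43, 53], [27, 41, 42], [29, 42, 43], [36, 39, 43], [39, 40, 48], [38, 40, 41], [37, 45, 49], [44, 46, 50], [31, 45, 51], [34, 49, 50], [42, 50, 51], [4, 44, 47], [45, 47, 48], [46, 48, 54], [19, 26, 57], [38, 55, 56], [51, 56, 57], [0, 53, 57],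 [24, 53, 54], [52, 54, 55]]
def ed : List (ℕ × ℕ) :=
  [(14, 16), (3, 14), (14, 17), (12, 17), (15, 17), (11, 12), (0, 12), (10, 11), (11, 18), (10, 15), (13, 15), (2, 10), (13, 16), (16, 22), (1, 13), (1, 2), (2, 7), (1, 6), (6, 8), (3, 8), (6, 9), (3, 4), (7, 9), (4, 9), (5, 7), (8, 21), (21, 24), (21, 23), (22, 24), (22, 25), (23, 25), (18, 23), (20, 25), (5, 20), (0, 5), (18, 19), (19, 20), (19, 52), (0, 55), (4, 49), (24, 56), (54, 56), (53, 56), (53, 55), (55, 57), (52, 57), (54, 57), (26, 52), (38, 53), (51, 54), (46, 51), (48, 51), (31, 46), (45, 46), (45, 50), (44, 45), (44, 49), (47, 49), (48, 50), (47, 50), (42, 48), (37, 44), (37, 38), (38, 43), (36, 37), (40, 43), (41, 43), (36, 41), (39, 41), (40, 42), (39, 42), (28, 36), (27, 39), (27, 28), (28, 33), (26, 31), (31, 33), (26, 30), (33, 35), (27, 32), (30, 35), (32, 35), (29, 40), (29, 30), (34, 47), (29, 34), (32, 34)]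
def bk : List (List ℕ) :=
  [[], [0], [0, 1], [0], [0, 1], [1], [0, 2], [1], [0, 2], [1, 4], [0, 5], [1, 3], [1, 11], [0, 12], [1, 3], [0, 3], [0, 4], [1, 2], [0], [0, 17], [1, 2], [1, 19], [1, 5], [0, 1, 2], [1, 7], [5, 6], [0], [0, 1], [1, 14], [0, 15], [0, 2], [0, 3, 22], [1, 2], [0, 8], [0, 9, 27], [3, 26], [0, 2, 3], [0, 1], [3, 31], [15, 17], [11, 13], [0], [0, 1], [0, 4], [0, 5], [0, 7], [0, 1, 4], [1, 9], [4, 5], [2, 7], [0], [0, 1], [1], [0, 2], [0], [0, 1], [0, 16], [0, 17], [3, 6], [0, 1, 4], [1, 8], [4, 5], [0, 13], [0, 14], [1, 2], [1], [0, 2], [0, 2], [0, 1], [3, 8], [0, 1, 9], [3, 6], [1, 3], [0, 1], [0, 2], [22, 27], [0, 1, 23], [1, 29], [1, 3], [5, 6], [1, 2], [0, 1, 2], [12, 16], [0, 2, 5], [24, 26], [0, 1, 2], [0, 1, 4, 6]]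
def hc : List (List ℕ) :=
  [[1, 2, 10, 11, 12, 17, 15, 13, 16, 14, 3, 4, 9, 7, 5, 20, 25, 22, 24, 56, 53, 55, 57, 54, 51, 46, 45, 50, 48, 42, 39, 41, 36, 28, 27, 32, 34, 47, 49, 44, 37, 38, 43, 40, 29, 30, 35, 33, 31, 26, 52, 19, 18, 23, 21, 8, 6],
   [0, 5, 7, 2, 10, 15, 13, 16, 22, 24, 21, 23, 25, 20, 19, 18, 11, 12, 17, 14, 3, 8, 6, 9, 4, 49, 44, 37, 36, 28, 33, 31, 46, 45, 50, 47, 34, 29, 40, 42, 48, 51, 54, 56, 53, 38, 43, 41, 39, 27, 32, 35, 30, 26, 52, 57, 55],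
   [0, 5, 7, 9, 4, 3, 8, 6, 1, 13, 15, 10, 11, 18, 23, 21, 24, 56, 53, 55, 57, 54, 51, 46, 45, 50, 48, 42, 39, 41, 36, 28, 27, 32, 34, 47, 49, 44, 37, 38, 43, 40, 29, 30, 35, 33, 31, 26, 52, 19, 20, 25, 22, 16, 14, 17, 12],
   [0, 12, 11, 10, 15, 17, 14, 16, 13, 1, 2, 7, 5, 20, 19, 18, 23, 25, 22, 24, 21, 8, 6, 9, 4, 49, 44, 37, 36, 28, 33, 31, 46, 45, 50, 47, 34, 29, 40, 42, 48, 51, 54, 56, 53, 38, 43, 41, 39, 27, 32, 35, 30, 26, 52, 57, 55],
   [0, 5, 7, 9, 6, 8, 3, 14, 16, 22, 25, 20, 19, 52, 26, 30, 29, 34, 47, 49, 44, 37, 38, 43, 40, 42, 39, 41, 36, 28, 27, 32, 35, 33, 31, 46, 45, 50, 48, 51, 54, 57, 55, 53, 56, 24, 21, 23, 18, 11, 10, 2, 1, 13, 15, 17, 12],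
   [0, 12, 11, 18, 19, 20, 25, 23, 21, 24, 22, 16, 13, 1, 6, 8, 3, 14, 17, 15, 10, 2, 7, 9, 4, 49, 44, 37, 36, 28, 33, 31, 46, 45, 50, 47, 34, 29, 40, 42, 48, 51, 54, 56, 53, 38, 43, 41, 39, 27, 32, 35, 30, 26, 52, 57, 55],
   [0, 5, 20, 19, 52, 26, 30, 29, 34, 47, 49, 44, 37, 38, 43, 40, 42, 39, 41, 36, 28, 27, 32, 35, 33, 31, 46, 45, 50, 48, 51, 54, 57, 55, 53, 56, 24, 21, 8, 3, 4, 9, 7, 2, 1, 13, 15, 10, 11, 18, 23, 25, 22, 16, 14, 17, 12],
   [0, 5, 20, 19, 18, 23, 25, 22, 24, 21, 8, 3, 14, 16, 13, 15, 17, 12, 11, 10, 2, 1, 6, 9, 4, 49, 44, 37, 36, 28, 33, 31, 46, 45, 50, 47, 34, 29, 40, 42, 48, 51, 54, 56, 53, 38, 43, 41, 39, 27, 32, 35, 30, 26, 52, 57, 55],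
   [0, 5, 7, 2, 10, 11, 18, 23, 21, 24, 56, 53, 55, 57, 54, 51, 46, 45, 50, 48, 42, 39, 41, 36, 28, 27, 32, 34, 47, 49, 44, 37, 38, 43, 40, 29, 30, 35, 33, 31, 26, 52, 19, 20, 25, 22, 16, 14, 3, 4, 9, 6, 1, 13, 15, 17, 12],
   [0, 12, 11, 18, 19, 52, 26, 30, 29, 40, 42, 48, 50, 45, 44, 37, 36, 28, 27, 39, 41, 43, 38, 53, 56, 24, 22, 16, 13, 1, 6, 8, 21, 23, 25, 20, 5, 7, 2, 10, 15, 17, 14, 3, 4, 49, 47, 34, 32, 35, 33, 31, 46, 51, 54, 57, 55],
   [0, 5, 7, 2, 1, 13, 15, 17, 12, 11, 18, 19, 20, 25, 23, 21, 24, 22, 16, 14, 3, 8, 6, 9, 4, 49, 44, 37, 36, 28, 33, 31, 46, 45, 50, 47, 34, 29, 40, 42, 48, 51, 54, 56, 53, 38, 43, 41, 39, 27, 32, 35, 30, 26, 52, 57, 55],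
   [0, 5, 20, 25, 22, 24, 56, 53, 55, 57, 54, 51, 46, 45, 50, 48, 42, 39, 41, 36, 28, 27, 32, 34, 47, 49, 44, 37, 38, 43, 40, 29, 30, 35, 33, 31, 26, 52, 19, 18, 23, 21, 8, 6, 1, 13, 16, 14, 3, 4, 9, 7, 2, 10, 15, 17, 12],
   [0, 5, 7, 2, 1, 13, 16, 22, 24, 21, 23, 25, 20, 19, 18, 11, 10, 15, 17, 14, 3, 8, 6, 9, 4, 49, 44, 37, 36, 28, 33, 31, 46, 45, 50, 47, 34, 29, 40, 42, 48, 51, 54, 56, 53, 38, 43, 41, 39, 27, 32, 35, 30, 26, 52, 57, 55],
   [0, 5, 7, 9, 4, 3, 8, 6, 1, 2, 10, 15, 17, 14, 16, 22, 25, 20, 19, 52, 26, 30, 29, 34, 47, 49, 44, 37, 38, 43, 40, 42, 39, 41, 36, 28, 27, 32, 35, 33, 31, 46, 45, 50, 48, 51, 54, 57, 55, 53, 56, 24, 21, 23, 18, 11, 12],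
   [0, 5, 7, 9, 4, 3, 8, 6, 1, 2, 10, 11, 18, 23, 21, 24, 56, 53, 55, 57, 54, 51, 46, 45, 50, 48, 42, 39, 41, 36, 28, 27, 32, 34, 47, 49, 44, 37, 38, 43, 40, 29, 30, 35, 33, 31, 26, 52, 19, 20, 25, 22, 16, 13, 15, 17, 12],
   [0, 5, 20, 19, 52, 26, 30, 29, 34, 47, 49, 44, 37, 38, 43, 40, 42, 39, 41, 36, 28, 27, 32, 35, 33, 31, 46, 45, 50, 48, 51, 54, 57, 55, 53, 56, 24, 21, 8, 6, 1, 13, 16, 22, 25, 23, 18, 11, 10, 2, 7, 9, 4, 3, 14, 17, 12],
   [0, 5, 20, 19, 18, 23, 25, 22, 24, 21, 8, 6, 9, 7, 2, 1, 13, 15, 10, 11, 12, 17, 14, 3, 4, 49, 44, 37, 36, 28, 33, 31, 46, 45, 50, 47, 34, 29, 40, 42, 48, 51, 54, 56, 53, 38, 43, 41, 39, 27, 32, 35, 30, 26, 52, 57, 55],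
   [0, 5, 20, 19, 52, 26, 30, 29, 34, 47, 49, 44, 37, 38, 43, 40, 42, 39, 41, 36, 28, 27, 32, 35, 33, 31, 46, 45, 50, 48, 51, 54, 57, 55, 53, 56, 24, 21, 8, 6, 1, 13, 15, 10, 2, 7, 9, 4, 3, 14, 16, 22, 25, 23, 18, 11, 12],
   [0, 5, 7, 2, 1, 13, 16, 22, 24, 56, 53, 55, 57, 54, 51, 46, 45, 50, 48, 42, 39, 41, 36, 28, 27, 32, 34, 47, 49, 44, 37, 38, 43, 40, 29, 30, 35, 33, 31, 26, 52, 19, 20, 25, 23, 21, 8, 6, 9, 4, 3, 14, 17, 15, 10, 11, 12],
   [0, 12, 11, 18, 23, 25, 20, 5, 7, 2, 10, 15, 17, 14, 3, 8, 21, 24, 22, 16, 13, 1, 6, 9, 4, 49, 44, 37, 36, 28, 33, 31, 46, 45, 50, 47, 34, 29, 40, 42, 48, 51, 54, 56, 53, 38, 43, 41, 39, 27, 32, 35, 30, 26, 52, 57, 55],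
   [0, 5, 7, 2, 1, 6, 9, 4, 3, 8, 21, 23, 25, 22, 24, 56, 53, 55, 57, 54, 51, 46, 45, 50, 48, 42, 39, 41, 36, 28, 27, 32, 34, 47, 49, 44, 37, 38, 43, 40, 29, 30, 35, 33, 31, 26, 52, 19, 18, 11, 10, 15, 13, 16, 14, 17, 12],
   [0, 5, 20, 25, 23, 18, 19, 52, 26, 30, 29, 34, 47, 49, 44, 37, 38, 43, 40, 42, 39, 41, 36, 28, 27, 32, 35, 33, 31, 46, 45, 50, 48, 51, 54, 57, 55, 53, 56, 24, 22, 16, 14, 17, 15, 13, 1, 6, 8, 3, 4, 9, 7, 2, 10, 11, 12],
   [0, 5, 7, 2, 1, 6, 9, 4, 3, 8, 21, 24, 56, 53, 55, 57, 54, 51, 46, 45, 50, 48, 42, 39, 41, 36, 28, 27, 32, 34, 47, 49, 44, 37, 38, 43, 40, 29, 30, 35, 33, 31, 26, 52, 19, 20, 25, 23, 18, 11, 10, 15, 13, 16, 14, 17, 12],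
   [0, 5, 7, 2, 10, 15, 17, 12, 11, 18, 19, 20, 25, 22, 24, 21, 8, 3, 14, 16, 13, 1, 6, 9, 4, 49, 44, 37, 36, 28, 33, 31, 46, 45, 50, 47, 34, 29, 40, 42, 48, 51, 54, 56, 53, 38, 43, 41, 39, 27, 32, 35, 30, 26, 52, 57, 55],
   [0, 12, 11, 18, 19, 20, 5, 7, 2, 10, 15, 17, 14, 3, 8, 21, 23, 25, 22, 16, 13, 1, 6, 9, 4, 49, 44, 37, 36, 28, 33, 31, 46, 45, 50, 47, 34, 29, 40, 42, 48, 51, 54, 56, 53, 38, 43, 41, 39, 27, 32, 35, 30, 26, 52, 57, 55],
   [0, 5, 20, 19, 18, 23, 21, 24, 22, 16, 13, 15, 10, 11, 12, 17, 14, 3, 8, 6, 1, 2, 7, 9, 4, 49, 44, 37, 36, 28, 33, 31, 46, 45, 50, 47, 34, 29, 40, 42, 48, 51, 54, 56, 53, 38, 43, 41, 39, 27, 32, 35, 30, 26, 52, 57, 55],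
   [0, 5, 7, 2, 1, 6, 9, 4, 49, 44, 37, 38, 43, 40, 29, 30, 35, 33, 31, 46, 45, 50, 47, 34, 32, 27, 28, 36, 41, 39, 42, 48, 51, 54, 56, 53, 55, 57, 52, 19, 20, 25, 23, 18, 11, 10, 15, 13, 16, 22, 24, 21, 8, 3, 14, 17, 12],
   [0, 5, 7, 2, 1, 6, 9, 4, 49, 44, 37, 38, 43, 40, 29, 30, 26, 31, 46, 45, 50, 47, 34, 32, 35, 33, 28, 36, 41, 39, 42, 48, 51, 54, 56, 53, 55, 57, 52, 19, 20, 25, 23, 18, 11, 10, 15, 13, 16, 22, 24, 21, 8, 3, 14, 17, 12],
   [0, 5, 7, 2, 1, 6, 9, 4, 49, 44, 37, 36, 41, 39, 27, 32, 35, 33, 31, 46, 45, 50, 47, 34, 29, 30, 26, 52, 57, 55, 53, 38, 43, 40, 42, 48, 51, 54, 56, 24, 22, 16, 13, 15, 10, 11, 18, 19, 20, 25, 23, 21, 8, 3, 14, 17, 12],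
   [0, 5, 7, 2, 1, 6, 9, 4, 49, 44, 37, 36, 41, 39, 27, 28, 33, 31, 46, 45, 50, 47, 34, 32, 35, 30, 26, 52, 57, 55, 53, 38, 43, 40, 42, 48, 51, 54, 56, 24, 22, 16, 13, 15, 10, 11, 18, 19, 20, 25, 23, 21, 8, 3, 14, 17, 12],
   [0, 5, 7, 2, 1, 6, 9, 4, 49, 44, 37, 36, 28, 33, 35, 32, 27, 39, 41, 43, 38, 53, 55, 57, 52, 26, 31, 46, 45, 50, 47, 34, 29, 40, 42, 48, 51, 54, 56, 24, 22, 16, 13, 15, 10, 11, 18, 19, 20, 25, 23, 21, 8, 3, 14, 17, 12],
   [0, 5, 7, 2, 1, 6, 9, 4, 49, 47, 50, 48, 42, 39, 27, 32, 34, 29, 40, 43, 41, 36, 28, 33, 35, 30, 26, 52, 57, 55, 53, 38, 37, 44, 45, 46, 51, 54, 56, 24, 22, 16, 13, 15, 10, 11, 18, 19, 20, 25, 23, 21, 8, 3, 14, 17, 12],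
   [0, 5, 7, 2, 1, 6, 9, 4, 49, 44, 37, 36, 28, 27, 39, 41, 43, 38, 53, 55, 57, 52, 26, 30, 35, 33, 31, 46, 45, 50, 47, 34, 29, 40, 42, 48, 51, 54, 56, 24, 22, 16, 13, 15, 10, 11, 18, 19, 20, 25, 23, 21, 8, 3, 14, 17, 12],
   [0, 5, 7, 2, 1, 6, 9, 4, 49, 44, 37, 36, 28, 27, 39, 41, 43, 38, 53, 55, 57, 52, 26, 31, 46, 45, 50, 47, 34, 32, 35, 30, 29, 40, 42, 48, 51, 54, 56, 24, 22, 16, 13, 15, 10, 11, 18, 19, 20, 25, 23, 21, 8, 3, 14, 17, 12],
   [0, 5, 7, 2, 1, 6, 9, 4, 49, 47, 50, 48, 42, 39, 27, 32, 35, 30, 29, 40, 43, 41, 36, 28, 33, 31, 26, 52, 57, 55, 53, 38, 37, 44, 45, 46, 51, 54, 56, 24, 22, 16, 13, 15, 10, 11, 18, 19, 20, 25, 23, 21, 8, 3, 14, 17, 12],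
   [0, 5, 7, 2, 1, 6, 9, 4, 49, 44, 37, 36, 28, 33, 31, 46, 45, 50, 47, 34, 32, 27, 39, 41, 43, 38, 53, 55, 57, 52, 26, 30, 29, 40, 42, 48, 51, 54, 56, 24, 22, 16, 13, 15, 10, 11, 18, 19, 20, 25, 23, 21, 8, 3, 14, 17, 12],
   [0, 5, 7, 2, 1, 6, 9, 4, 49, 44, 37, 38, 43, 41, 39, 27, 28, 33, 35, 32, 34, 47, 50, 45, 46, 31, 26, 30, 29, 40, 42, 48, 51, 54, 56, 53, 55, 57, 52, 19, 20, 25, 23, 18, 11, 10, 15, 13, 16, 22, 24, 21, 8, 3, 14, 17, 12],
   [0, 5, 7, 2, 1, 6, 9, 4, 49, 44, 45, 46, 31, 26, 52, 57, 55, 53, 38, 43, 41, 36, 28, 33, 35, 30, 29, 40, 42, 39, 27, 32, 34, 47, 50, 48, 51, 54, 56, 24, 22, 16, 13, 15, 10, 11, 18, 19, 20, 25, 23, 21, 8, 3, 14, 17, 12],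
   [0, 5, 7, 2, 1, 6, 9, 4, 49, 44, 37, 36, 41, 43, 40, 29, 30, 26, 31, 46, 45, 50, 47, 34, 32, 35, 33, 28, 27, 39, 42, 48, 51, 54, 56, 53, 55, 57, 52, 19, 20, 25, 23, 18, 11, 10, 15, 13, 16, 22, 24, 21, 8, 3, 14, 17, 12],
   [0, 5, 7, 2, 1, 6, 9, 4, 49, 44, 37, 36, 41, 43, 38, 53, 55, 57, 52, 26, 30, 35, 32, 27, 28, 33, 31, 46, 45, 50, 47, 34, 29, 40, 42, 48, 51, 54, 56, 24, 22, 16, 13, 15, 10, 11, 18, 19, 20, 25, 23, 21, 8, 3, 14, 17, 12],
   [0, 5, 7, 2, 1, 6, 9, 4, 49, 44, 37, 36, 28, 27, 32, 35, 33, 31, 46, 45, 50, 47, 34, 29, 30, 26, 52, 57, 55, 53, 38, 43, 41, 39, 42, 48, 51, 54, 56, 24, 22, 16, 13, 15, 10, 11, 18, 19, 20, 25, 23, 21, 8, 3, 14, 17, 12],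
   [0, 5, 7, 2, 1, 6, 9, 4, 49, 44, 37, 36, 28, 33, 31, 46, 45, 50, 47, 34, 29, 40, 43, 38, 53, 55, 57, 52, 26, 30, 35, 32, 27, 39, 42, 48, 51, 54, 56, 24, 22, 16, 13, 15, 10, 11, 18, 19, 20, 25, 23, 21, 8, 3, 14, 17, 12],
   [0, 5, 7, 2, 1, 6, 9, 4, 49, 44, 45, 46, 31, 26, 30, 29, 40, 43, 38, 37, 36, 41, 39, 27, 28, 33, 35, 32, 34, 47, 50, 48, 51, 54, 56, 53, 55, 57, 52, 19, 20, 25, 23, 18, 11, 10, 15, 13, 16, 22, 24, 21, 8, 3, 14, 17, 12],
   [0, 5, 7, 2, 1, 6, 9, 4, 49, 44, 37, 38, 53, 55, 57, 52, 26, 30, 35, 32, 27, 39, 41, 36, 28, 33, 31, 46, 45, 50, 47, 34, 29, 40, 42, 48, 51, 54, 56, 24, 22, 16, 13, 15, 10, 11, 18, 19, 20, 25, 23, 21, 8, 3, 14, 17, 12],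
   [0, 5, 7, 2, 1, 6, 9, 4, 49, 47, 34, 32, 27, 28, 36, 37, 38, 53, 55, 57, 52, 26, 31, 33, 35, 30, 29, 40, 43, 41, 39, 42, 48, 50, 45, 46, 51, 54, 56, 24, 22, 16, 13, 15, 10, 11, 18, 19, 20, 25, 23, 21, 8, 3, 14, 17, 12],
   [0, 5, 7, 2, 1, 6, 9, 4, 49, 44, 37, 36, 28, 27, 39, 41, 43, 38, 53, 55, 57, 52, 26, 30, 29, 40, 42, 48, 50, 47, 34, 32, 35, 33, 31, 46, 51, 54, 56, 24, 22, 16, 13, 15, 10, 11, 18, 19, 20, 25, 23, 21, 8, 3, 14, 17, 12],
   [0, 5, 7, 2, 1, 6, 9, 4, 49, 44, 45, 50, 47, 34, 32, 27, 28, 36, 37, 38, 53, 55, 57, 52, 26, 31, 33, 35, 30, 29, 40, 43, 41, 39, 42, 48, 51, 54, 56, 24, 22, 16, 13, 15, 10, 11, 18, 19, 20, 25, 23, 21, 8, 3, 14, 17, 12],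
   [0, 5, 7, 2, 1, 6, 9, 4, 49, 44, 37, 36, 28, 27, 32, 34, 29, 40, 42, 39, 41, 43, 38, 53, 55, 57, 52, 26, 30, 35, 33, 31, 46, 45, 50, 48, 51, 54, 56, 24, 22, 16, 13, 15, 10, 11, 18, 19, 20, 25, 23, 21, 8, 3, 14, 17, 12],
   [0, 5, 7, 2, 1, 6, 9, 4, 49, 44, 37, 36, 41, 39, 42, 40, 43, 38, 53, 55, 57, 52, 26, 31, 33, 28, 27, 32, 35, 30, 29, 34, 47, 50, 45, 46, 51, 54, 56, 24, 22, 16, 13, 15, 10, 11, 18, 19, 20, 25, 23, 21, 8, 3, 14, 17, 12],
   [0, 5, 7, 2, 10, 15, 13, 1, 6, 9, 4, 3, 8, 21, 23, 25, 20, 19, 18, 11, 12, 17, 14, 16, 22, 24, 56, 54, 57, 52, 26, 30, 29, 40, 42, 48, 51, 46, 31, 33, 35, 32, 34, 47, 50, 45, 44, 37, 36, 28, 27, 39, 41, 43, 38, 53, 55],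
   [0, 5, 7, 2, 1, 6, 9, 4, 49, 47, 34, 29, 40, 43, 38, 53, 55, 57, 52, 26, 30, 35, 32, 27, 28, 33, 31, 46, 45, 44, 37, 36, 41, 39, 42, 48, 51, 54, 56, 24, 22, 16, 13, 15, 10, 11, 18, 19, 20, 25, 23, 21, 8, 3, 14, 17, 12],
   [0, 5, 7, 2, 10, 15, 13, 1, 6, 9, 4, 3, 8, 21, 23, 25, 20, 19, 18, 11, 12, 17, 14, 16, 22, 24, 56, 54, 57, 52, 26, 30, 29, 34, 32, 35, 33, 31, 46, 45, 44, 49, 47, 50, 48, 42, 40, 43, 41, 39, 27, 28, 36, 37, 38, 53, 55],
   [0, 5, 7, 2, 1, 6, 9, 4, 49, 44, 45, 50, 47, 34, 29, 30, 26, 31, 46, 51, 48, 42, 40, 43, 41, 39, 27, 32, 35, 33, 28, 36, 37, 38, 53, 55, 57, 54, 56, 24, 22, 16, 13, 15, 10, 11, 18, 19, 20, 25, 23, 21, 8, 3, 14, 17, 12],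
   [0, 5, 7, 2, 10, 15, 13, 1, 6, 9, 4, 3, 8, 21, 23, 25, 20, 19, 18, 11, 12, 17, 14, 16, 22, 24, 56, 54, 51, 46, 45, 50, 48, 42, 39, 41, 36, 28, 27, 32, 34, 47, 49, 44, 37, 38, 43, 40, 29, 30, 35, 33, 31, 26, 52, 57, 55],
   [0, 5, 7, 2, 1, 6, 9, 4, 49, 44, 37, 38, 43, 40, 42, 48, 51, 46, 45, 50, 47, 34, 29, 30, 35, 32, 27, 39, 41, 36, 28, 33, 31, 26, 52, 57, 55, 53, 56, 24, 22, 16, 13, 15, 10, 11, 18, 19, 20, 25, 23, 21, 8, 3, 14, 17, 12],
   [0, 5, 7, 2, 1, 6, 9, 4, 49, 44, 37, 36, 28, 33, 31, 46, 45, 50, 47, 34, 29, 40, 42, 48, 51, 54, 57, 52, 26, 30, 35, 32, 27, 39, 41, 43, 38, 53, 56, 24, 22, 16, 13, 15, 10, 11, 18, 19, 20, 25, 23, 21, 8, 3, 14, 17, 12],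
   [0, 5, 7, 2, 1, 6, 9, 4, 49, 44, 37, 36, 28, 33, 31, 46, 45, 50, 47, 34, 29, 40, 42, 48, 51, 54, 57, 55, 53, 38, 43, 41, 39, 27, 32, 35, 30, 26, 52, 19, 20, 25, 23, 18, 11, 10, 15, 13, 16, 22, 24, 21, 8, 3, 14, 17, 12],
   [0, 5, 7, 2, 10, 15, 13, 1, 6, 9, 4, 3, 8, 21, 24, 22, 16, 14, 17, 12, 11, 18, 23, 25, 20, 19, 52, 26, 30, 29, 34, 47, 49, 44, 37, 38, 43, 40, 42, 39, 41, 36, 28, 27, 32, 35, 33, 31, 46, 45, 50, 48, 51, 54, 56, 53, 55]]

/-- adjacency test -/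
def adjB (u v : ℕ) : Bool := (nb.getD u []).elem v

theorem adjB_symm : ∀ u v : Fin 58, adjB u v = true → adjB v u = true := by
  decide +kernel

theorem adjB_irr : ∀ u : Fin 58, ¬ adjB u u = true := by
  decide +kernel

/-- The graph: an iterated dot product of Petersen graphs. -/
def G : SimpleGraph (Fin 58) where
  Adj u v := adjB u v = true
  symm := ⟨fun u v h => adjB_symm u v h⟩
  loopless := ⟨fun u h => adjB_irr u h⟩

instance : DecidableRel G.Adj := fun u v => inferInstanceAs (Decidable (adjB u v = true))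

theorem G_reg : G.IsRegularOfDegree 3 := by
  unfold SimpleGraph.IsRegularOfDegree
  decide +kernel

/-! ## No 3-edge-colouring -/

def ok (c : ℕ) (as : List ℕ) (ds : List ℕ) : Bool := ds.all fun d => !(as.getD d 3 == c)

def search : List (List ℕ) → List ℕ → Bool
  | [], _ => true
  | ds :: rest, as =>
     (ok 0 as ds && search rest (0 :: as)) || ((ok 1 as ds && search rest (1 :: as)) ||
       (ok 2 as ds && search rest (2 :: as)))

theorem search_false : search (bk.drop 2) [1, 0] = false := by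
  decide +kernel

theorem search_sound (g : ℕ → ℕ) (hg : ∀ i, g i < 3) : ∀ (l : List (List ℕ)) (as : List ℕ),
    (∀ d < as.length, as.getD d 3 = g (as.length - 1 - d)) →
    (∀ k < l.length, ∀ d ∈ l.getD k [], d < as.length + k ∧
      g (as.length + k) ≠ g (as.length + k - 1 - d)) → search l as = true := by
  intro l
  induction l with
  | nil => intro as _ _; rfl
  | cons ds rest ih =>
    intro as h1 h2
    have hok : ok (g as.length) as ds = true := by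
      unfold ok
      rw [List.all_eq_true]
      intro d hd
      obtain ⟨h3, h4⟩ := h2 0 (by simp) d (by simpa using hd)
      simp only [Nat.add_zero] at h3 h4
      rw [h1 d h3]
      simp only [Bool.not_eq_true', beq_eq_false_iff_ne, ne_eq]
      exact fun h => h4 h.symm
    have hs : search rest (g as.length :: as) = true := by
      apply ih
      · intro d hd
        simp only [List.length_cons] at hd ⊢
        rcases d with _ | d
        · simp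
        · simp only [List.getD_cons_succ]
          rw [h1 d (by omega)]
          congr 1
          omega
      · intro k hk d hd
        have := h2 (k + 1) (by simpa using hk) d (by simpa using hd)
        simp only [List.length_cons]
        obtain ⟨h3, h4⟩ := this
        refine ⟨by omega, ?_⟩
        have e1 : as.length + 1 + k = as.length + (k + 1) := by omega
        rw [e1]
        exact h4
    have h3 := hg as.length
    unfold search
    generalize g as.length = x at *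
    interval_cases x <;> simp [hok, hs]

def sh (e f : ℕ × ℕ) : Bool :=
  decide (e.1 < 58) && decide (e.2 < 58) && decide (f.1 < 58) && decide (f.2 < 58) &&
  adjB e.1 e.2 && adjB f.1 f.2 &&
  ((e.1 == f.1 && e.2 != f.2) || (e.1 == f.2 && e.2 != f.1) ||
   (e.2 == f.1 && e.1 != f.2) || (e.2 == f.2 && e.1 != f.1))

theorem ed_check : ∀ i < 87, ∀ d ∈ bk.getD i [], d < i ∧
    sh (ed.getD i (0, 0)) (ed.getD (i - 1 - d) (0, 0)) = true := by
  decide +kernel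

theorem bk_length : bk.length = 87 := by decide +kernel

theorem bk_one : 0 ∈ bk.getD 1 [] := by decide +kernel

theorem sh_ne (c : Fin 58 → Fin 58 → Fin 3) (hs : ∀ u v, c u v = c v u)
    (hp : ∀ u v w, G.Adj u v → G.Adj u w → v ≠ w → c u v ≠ c u w) (e f : ℕ × ℕ)
    (h : sh e f = true) :
    c (Fin.ofNat 58 e.1) (Fin.ofNat 58 e.2) ≠ c (Fin.ofNat 58 f.1) (Fin.ofNat 58 f.2) := by
  obtain ⟨a, b⟩ := e
  obtain ⟨x, y⟩ := f
  simp only [sh, Bool.and_eq_true, decide_eq_true_eq, Bool.or_eq_true, beq_iff_eq, bne_iff_ne,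
    ne_eq] at h
  obtain ⟨⟨⟨⟨⟨⟨ha, hb⟩, hx⟩, hy⟩, hab⟩, hxy⟩, h⟩ := h
  have key : ∀ u v : ℕ, u < 58 → v < 58 → adjB u v = true →
      G.Adj (Fin.ofNat 58 u) (Fin.ofNat 58 v) := by
    intro u v hu hv huv
    show adjB (Fin.ofNat 58 u : Fin 58).val (Fin.ofNat 58 v : Fin 58).val = true
    simp only [Fin.val_ofNat]
    rwa [Nat.mod_eq_of_lt hu, Nat.mod_eq_of_lt hv]
  have inj : ∀ u v : ℕ, u < 58 → v < 58 → u ≠ v → Fin.ofNat 58 u ≠ Fin.ofNat 58 v := by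
    intro u v hu hv huv hh
    have := congrArg Fin.val hh
    simp only [Fin.val_ofNat] at this
    rw [Nat.mod_eq_of_lt hu, Nat.mod_eq_of_lt hv] at this
    exact huv this
  have hab' := key a b ha hb hab
  have hxy' := key x y hx hy hxy
  rcases h with ((⟨h1, h2⟩ | ⟨h1, h2⟩) | ⟨h1, h2⟩) | ⟨h1, h2⟩
  · subst h1
    exact hp _ _ _ hab' hxy' (inj _ _ hb hy h2)
  · subst h1
    rw [hs (Fin.ofNat 58 x)]
    exact hp _ _ _ hab' hxy'.symm (inj _ _ hb hx h2)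
  · subst h1
    rw [hs (Fin.ofNat 58 a)]
    exact hp _ _ _ hab'.symm hxy' (inj _ _ ha hy h2)
  · subst h1
    rw [hs (Fin.ofNat 58 a), hs (Fin.ofNat 58 x)]
    exact hp _ _ _ hab'.symm hxy'.symm (inj _ _ ha hx h2)

theorem no_col (c : Fin 58 → Fin 58 → Fin 3) (hs : ∀ u v, c u v = c v u)
    (hp : ∀ u v w, G.Adj u v → G.Adj u w → v ≠ w → c u v ≠ c u w) : False := by
  obtain ⟨f, hf⟩ : ∃ f : ℕ → ℕ, ∀ i, f i = (c (Fin.ofNat 58 (ed.getD i (0, 0)).1)
    (Fin.ofNat 58 (ed.getD i (0, 0)).2)).val := ⟨_, fun _ => rfl⟩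
  have hf3 : ∀ i, f i < 3 := fun i => by rw [hf]; exact Fin.isLt _
  have hne : ∀ i < 87, ∀ d ∈ bk.getD i [], d < i ∧ f i ≠ f (i - 1 - d) := by
    intro i hi d hd
    obtain ⟨h1, h2⟩ := ed_check i hi d hd
    refine ⟨h1, fun h => ?_⟩
    rw [hf, hf] at h
    exact sh_ne c hs hp _ _ h2 (Fin.ext h)
  have h01 : f 1 ≠ f 0 := (hne 1 (by norm_num) 0 bk_one).2
  obtain ⟨σ, hσ⟩ : ∃ σ : ℕ → ℕ, ∀ t, σ t = if t = f 0 then 0 else if t = f 1 then 1 else 2 :=
    ⟨_, fun _ => rfl⟩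
  have hσ3 : ∀ t, σ t < 3 := by
    intro t; rw [hσ]; split_ifs <;> norm_num
  have hσi : ∀ s t, s < 3 → t < 3 → s ≠ t → σ s ≠ σ t := by
    intro s t hs ht hst
    have a0 := hf3 0
    have a1 := hf3 1
    rw [hσ, hσ]
    split_ifs <;> omega
  have := search_sound (fun i => σ (f i)) (fun i => hσ3 _) (bk.drop 2) [1, 0] (by
    intro d hd
    simp only [List.length_cons, List.length_nil] at hd
    interval_cases d
    · simp [hσ, h01]
    · simp [hσ]) (by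
    intro k hk d hd
    rw [List.length_drop, bk_length] at hk
    have e0 : (bk.drop 2).getD k [] = bk.getD (k + 2) [] := by
      rw [List.getD_eq_getElem?_getD, List.getD_eq_getElem?_getD, List.getElem?_drop]
      congr 2
      omega
    rw [e0] at hd
    obtain ⟨h1, h2⟩ := hne (k + 2) (by omega) d hd
    simp only [List.length_cons, List.length_nil]
    have e1 : 0 + 1 + 1 + k = k + 2 := by omega
    rw [e1]
    exact ⟨h1, hσi _ _ (hf3 _) (hf3 _) h2⟩)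
  rw [search_false] at this
  exact Bool.false_ne_true this

theorem G_not_col : ¬ G.lineGraph.Colorable 3 := by
  rintro ⟨C⟩
  apply no_col (fun u v => if h : G.Adj u v then C ⟨s(u, v), h⟩ else 0)
  · intro u v
    by_cases h : G.Adj u v
    · have h' := h.symm
      simp only [h, h', dite_true]
      congr 1
      exact Subtype.ext Sym2.eq_swap
    · have h' : ¬ G.Adj v u := fun h' => h h'.symm
      simp only [h, h', dite_false]
  · intro u v w h1 h2 h3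
    simp only [h1, h2, dite_true]
    apply C.valid
    rw [SimpleGraph.lineGraph_adj_iff_exists]
    refine ⟨?_, u, ?_, ?_⟩
    · intro h
      have := Subtype.ext_iff.1 h
      simp only [Sym2.eq_iff] at this
      rcases this with ⟨_, h4⟩ | ⟨h4, h5⟩
      · exact h3 h4
      · exact h3 (h5.trans h4)
    · exact Sym2.mem_mk_left _ _
    · exact Sym2.mem_mk_left _ _

/-! ## Not Hamiltonian -/

theorem G_not_ham : ¬ G.IsHamiltonian := by
  intro hG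
  obtain ⟨a, p, hp⟩ := hG (by simp)
  have hc : (SimpleGraph.cycleGraph 58).IsContained G :=
    (SimpleGraph.cycleGraph_isContained_iff (by norm_num)).2
      ⟨a, p, hp.isCycle, by rw [hp.length_eq]; simp⟩
  obtain ⟨f⟩ := hc
  have hbij : Function.Bijective f := Finite.injective_iff_bijective.1 f.injective
  let e : Fin 58 ≃ Fin 58 := Equiv.ofBijective f hbij
  have he : ∀ i, e i = f i := fun i => rfl
  have hadj : ∀ i, G.Adj (e i) (e (i + 1)) := by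
    intro i
    rw [he, he]
    apply f.toHom.map_adj
    rw [SimpleGraph.cycleGraph_adj]
    right
    simp
  have hadj' : ∀ u, G.Adj u (e (e.symm u + 1)) := by
    intro u
    have := hadj (e.symm u)
    rwa [Equiv.apply_symm_apply] at this
  have hadj'' : ∀ u, G.Adj u (e (e.symm u - 1)) := by
    intro u
    have := hadj (e.symm u - 1)
    rw [sub_add_cancel, Equiv.apply_symm_apply] at this
    exact this.symm
  have hm : ∀ i : ℕ, i % 2 < 3 := fun i => by omega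
  have val1 : ∀ i : Fin 58, (i + 1).val = (i.val + 1) % 58 := by
    intro i; rw [Fin.val_add]; rfl
  apply no_col (fun u v =>
    if e.symm v = e.symm u + 1 then ⟨(e.symm u).val % 2, hm _⟩
    else if e.symm u = e.symm v + 1 then ⟨(e.symm v).val % 2, hm _⟩ else 2)
  · intro u v
    generalize e.symm u = i
    generalize e.symm v = j
    by_cases h1 : j = i + 1
    · by_cases h2 : i = j + 1
      · exfalso
        have a1 := congrArg Fin.val h1
        have a2 := congrArg Fin.val h2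
        rw [val1] at a1 a2
        have := i.isLt
        have := j.isLt
        omega
      · rw [if_pos h1, if_neg h2, if_pos h1]
    · by_cases h2 : i = j + 1
      · rw [if_neg h1, if_pos h2, if_pos h2]
      · rw [if_neg h1, if_neg h2, if_neg h2, if_neg h1]
  · intro u v w h1 h2 h3
    have hv : e (e.symm v) = v := Equiv.apply_symm_apply _ _
    have hw : e (e.symm w) = w := Equiv.apply_symm_apply _ _
    have hjk : e.symm v ≠ e.symm w := fun h => h3 (e.symm.injective h)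
    have hdeg : ¬ (e.symm v ≠ e.symm u + 1 ∧ e.symm u ≠ e.symm v + 1 ∧
        e.symm w ≠ e.symm u + 1 ∧ e.symm u ≠ e.symm w + 1) := by
      rintro ⟨k1, k2, k3, k4⟩
      have hcard : ({e (e.symm u + 1), e (e.symm u - 1), v, w} : Finset (Fin 58)).card = 4 := by
        have n1 : e (e.symm u + 1) ≠ e (e.symm u - 1) := by
          intro h
          have h := e.injective h
          have : (1 : Fin 58) = -1 := by
            have h5 : e.symm u + 1 = e.symm u + (-1) := by rw [h]; exact sub_eq_add_neg _ _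
            exact add_left_cancel h5
          exact absurd this (by decide)
        have n2 : e (e.symm u + 1) ≠ v := by
          intro h; apply k1; rw [← h, Equiv.symm_apply_apply]
        have n3 : e (e.symm u + 1) ≠ w := by
          intro h; apply k3; rw [← h, Equiv.symm_apply_apply]
        have n4 : e (e.symm u - 1) ≠ v := by
          intro h; apply k2; rw [← h, Equiv.symm_apply_apply]; simp
        have n5 : e (e.symm u - 1) ≠ w := by
          intro h; apply k4; rw [← h, Equiv.symm_apply_apply]; simp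
        rw [Finset.card_insert_of_notMem (by simp [n1, n2, n3]),
          Finset.card_insert_of_notMem (by simp [n4, n5]),
          Finset.card_insert_of_notMem (by simp [h3]), Finset.card_singleton]
      have hsub : ({e (e.symm u + 1), e (e.symm u - 1), v, w} : Finset (Fin 58)) ⊆
          G.neighborFinset u := by
        intro x hx
        simp only [Finset.mem_insert, Finset.mem_singleton] at hx
        rw [SimpleGraph.mem_neighborFinset]
        rcases hx with rfl | rfl | rfl | rfl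
        · exact hadj' u
        · exact hadj'' u
        · exact h1
        · exact h2
      have h6 := Finset.card_le_card hsub
      rw [hcard, SimpleGraph.card_neighborFinset_eq_degree, G_reg u] at h6
      omega
    revert hjk hdeg
    generalize e.symm u = i
    generalize e.symm v = j
    generalize e.symm w = k
    intro hjk hdeg
    have := i.isLt
    have := j.isLt
    have := k.isLt
    have hext : ∀ x y : Fin 58, x = y ↔ x.val = y.val := fun x y => Fin.ext_iff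
    simp only [ne_eq, hext, val1] at hjk hdeg ⊢
    intro h
    split_ifs at h <;> simp only [Fin.ext_iff, Fin.val_two] at h <;> omega

/-! ## Hypohamiltonian -/

def hcv (v i : ℕ) : ℕ := (hc.getD v []).getD i 0

theorem hc_check : ∀ v < 58, ∀ i < 57, hcv v i < 58 ∧ hcv v i ≠ v ∧
    adjB (hcv v i) (hcv v ((i + 1) % 57)) = true := by
  decide +kernel

theorem hc_nodup : ∀ v < 58, (hc.getD v []).Nodup ∧ (hc.getD v []).length = 57 := by
  decide +kernel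

theorem hcv_inj (v : ℕ) (hv : v < 58) (i j : ℕ) (hi : i < 57) (hj : j < 57)
    (h : hcv v i = hcv v j) : i = j := by
  obtain ⟨h1, h2⟩ := hc_nodup v hv
  unfold hcv at h
  have e1 : (hc.getD v []).getD i 0 = (hc.getD v [])[i]'(by omega) :=
    List.getD_eq_getElem _ _ (by omega)
  have e2 : (hc.getD v []).getD j 0 = (hc.getD v [])[j]'(by omega) :=
    List.getD_eq_getElem _ _ (by omega)
  rw [e1, e2] at h
  exact (List.Nodup.getElem_inj_iff h1).1 h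

theorem G_hypo (v : Fin 58) : (G.induce {w | w ≠ v}).IsHamiltonian := by
  intro _
  have hcard : Fintype.card ↥{w : Fin 58 | w ≠ v} = 57 := by
    have h1 := Finset.filter_ne' (Finset.univ : Finset (Fin 58)) v
    simp only [ne_eq] at h1
    simp only [ne_eq, Set.mem_ofPred_eq, Fintype.card_subtype]
    rw [h1, Finset.card_erase_of_mem (Finset.mem_univ _), Finset.card_univ, Fintype.card_fin]
  have hc : (SimpleGraph.cycleGraph 57).IsContained (G.induce {w | w ≠ v}) := by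
    refine ⟨⟨⟨fun i => ⟨⟨hcv v i, (hc_check v v.isLt i i.isLt).1⟩, ?_⟩, ?_⟩, ?_⟩⟩
    · intro h
      exact (hc_check v v.isLt i i.isLt).2.1 (congrArg Fin.val h)
    · intro i j hij
      have key : ∀ i j : Fin 57, j - i = 1 → adjB (hcv v i) (hcv v j) = true := by
        intro i j hij
        have h1 : j = i + 1 := eq_add_of_sub_eq' hij
        have h2 : j.val = (i.val + 1) % 57 := by
          rw [h1, Fin.val_add]; rfl
        rw [h2]
        exact (hc_check v v.isLt i i.isLt).2.2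
      rw [SimpleGraph.cycleGraph_adj] at hij
      show adjB (hcv v i) (hcv v j) = true
      rcases hij with h | h
      · have h3 := key j i h
        exact adjB_symm ⟨hcv v j, (hc_check v v.isLt j j.isLt).1⟩
          ⟨hcv v i, (hc_check v v.isLt i i.isLt).1⟩ h3
      · exact key i j h
    · intro i j h
      have h1 := congrArg Subtype.val h
      have h2 := congrArg Fin.val h1
      exact Fin.ext (hcv_inj v v.isLt i j i.isLt j.isLt h2)
  obtain ⟨a, p, hp, hl⟩ := (SimpleGraph.cycleGraph_isContained_iff (by norm_num)).1 hc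
  exact ⟨a, p, SimpleGraph.Walk.isHamiltonianCycle_iff_isCycle_and_length_eq.2
    ⟨hp, by rw [hl, hcard]⟩⟩

/-! ## No short even cycles -/

def nbl (u : ℕ) : List ℕ := nb.getD u []

theorem chk4 : ∀ a < 58, ∀ b ∈ nbl a, ∀ c ∈ nbl b, c = a ∨ ∀ d ∈ nbl c, d = b ∨
    a ∉ nbl d := by
  decide +kernel

theorem chk6 : ∀ a < 58, ∀ b ∈ nbl a, ∀ c ∈ nbl b, c = a ∨ ∀ d ∈ nbl c, d = b ∨
    ∀ e ∈ nbl d, e = c ∨ e = a ∨ ∀ f ∈ nbl e, f = d ∨ f = b ∨ a ∉ nbl f := by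
  decide +kernel

theorem adj_iff (u v : Fin 58) : G.Adj u v ↔ v.val ∈ nbl u.val := by
  show adjB u v = true ↔ _
  unfold adjB nbl
  exact List.elem_iff

theorem no4 (a b c d : Fin 58) (h1 : G.Adj a b) (h2 : G.Adj b c) (h3 : G.Adj c d)
    (h4 : G.Adj d a) (hac : a ≠ c) (hbd : b ≠ d) : False := by
  rw [adj_iff] at h1 h2 h3 h4
  rcases chk4 a a.isLt b h1 c h2 with h | h
  · exact hac (Fin.ext h.symm)
  · rcases h d h3 with h | h
    · exact hbd (Fin.ext h.symm)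
    · exact h h4

theorem no6 (a b c d e f : Fin 58) (h1 : G.Adj a b) (h2 : G.Adj b c) (h3 : G.Adj c d)
    (h4 : G.Adj d e) (h5 : G.Adj e f) (h6 : G.Adj f a) (hac : a ≠ c) (hbd : b ≠ d)
    (hce : c ≠ e) (hae : a ≠ e) (hdf : d ≠ f) (hbf : b ≠ f) : False := by
  rw [adj_iff] at h1 h2 h3 h4 h5 h6
  rcases chk6 a a.isLt b h1 c h2 with h | h
  · exact hac (Fin.ext h.symm)
  rcases h d h3 with h | h
  · exact hbd (Fin.ext h.symm)
  rcases h e h4 with h | h | h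
  · exact hce (Fin.ext h.symm)
  · exact hae (Fin.ext h.symm)
  rcases h f h5 with h | h | h
  · exact hdf (Fin.ext h.symm)
  · exact hbf (Fin.ext h.symm)
  · exact h h6

/-! ## Three perfect matchings -/

section matchings

variable (p q r : Fin 58 → Fin 58)

/-- the edge from v to w is missed by all three matchings -/
def U (v w : Fin 58) : Prop := G.Adj v w ∧ p v ≠ w ∧ q v ≠ w ∧ r v ≠ w

/-- the edge from v to w is in at least two of the three matchings -/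
def D (v w : Fin 58) : Prop := (p v = w ∧ q v = w) ∨ (p v = w ∧ r v = w) ∨ (q v = w ∧ r v = w)

variable {p q r}

theorem nbrs3 (v : Fin 58) : ∃ a b c, a ≠ b ∧ a ≠ c ∧ b ≠ c ∧ G.Adj v a ∧ G.Adj v b ∧
    G.Adj v c ∧ ∀ w, G.Adj v w → w = a ∨ w = b ∨ w = c := by
  have h := G_reg v
  rw [← SimpleGraph.card_neighborFinset_eq_degree, Finset.card_eq_three] at h
  obtain ⟨a, b, c, h1, h2, h3, h4⟩ := h
  have hm : ∀ w, G.Adj v w ↔ w = a ∨ w = b ∨ w = c := by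
    intro w
    rw [← SimpleGraph.mem_neighborFinset, h4]
    simp
  exact ⟨a, b, c, h1, h2, h3, (hm a).2 (by simp), (hm b).2 (by simp), (hm c).2 (by simp),
    fun w => (hm w).1⟩

variable (hp : ∀ v, G.Adj v (p v)) (hq : ∀ v, G.Adj v (q v)) (hr : ∀ v, G.Adj v (r v))
  (hpp : ∀ v, p (p v) = v) (hqq : ∀ v, q (q v) = v) (hrr : ∀ v, r (r v) = v)

include hpp hqq hrr in
theorem U_symm {v w : Fin 58} (h : U p q r v w) : U p q r w v := by
  obtain ⟨h1, h2, h3, h4⟩ := h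
  refine ⟨h1.symm, ?_, ?_, ?_⟩
  · intro h; apply h2; rw [← h, hpp]
  · intro h; apply h3; rw [← h, hqq]
  · intro h; apply h4; rw [← h, hrr]

include hpp hqq hrr in
theorem D_symm {v w : Fin 58} (h : D p q r v w) : D p q r w v := by
  rcases h with ⟨h1, h2⟩ | ⟨h1, h2⟩ | ⟨h1, h2⟩
  · left; exact ⟨by rw [← h1, hpp], by rw [← h2, hqq]⟩
  · right; left; exact ⟨by rw [← h1, hpp], by rw [← h2, hrr]⟩
  · right; right; exact ⟨by rw [← h1, hqq], by rw [← h2, hrr]⟩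

theorem D_unique {v w x : Fin 58} (h : D p q r v w) (h' : D p q r v x) : w = x := by
  rcases h with ⟨h1, h2⟩ | ⟨h1, h2⟩ | ⟨h1, h2⟩ <;>
  rcases h' with ⟨h3, h4⟩ | ⟨h3, h4⟩ | ⟨h3, h4⟩ <;>
  first
  | exact h1.symm.trans h3
  | exact h1.symm.trans h4
  | exact h2.symm.trans h3
  | exact h2.symm.trans h4

theorem D_not_U {v w : Fin 58} (h : D p q r v w) (h' : U p q r v w) : False := by
  obtain ⟨_, h1, h2, h3⟩ := h'
  rcases h with ⟨h4, h5⟩ | ⟨h4, h5⟩ | ⟨h4, h5⟩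
  · exact h1 h4
  · exact h1 h4
  · exact h2 h4

include hp hq in
theorem D_adj {v w : Fin 58} (h : D p q r v w) : G.Adj v w := by
  rcases h with ⟨h4, h5⟩ | ⟨h4, h5⟩ | ⟨h4, h5⟩
  · rw [← h4]; exact hp v
  · rw [← h4]; exact hp v
  · rw [← h4]; exact hq v

/-- a vertex with a doubly covered edge has a missed edge -/
theorem U_of_D {v w : Fin 58} (h : D p q r v w) : ∃ z, U p q r v z := by
  obtain ⟨a, b, c, hab, hac, hbc, ha, hb, hc, hall⟩ := nbrs3 v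
  by_contra hcon
  push Not at hcon
  have h1 := hcon a
  have h2 := hcon b
  have h3 := hcon c
  unfold U at h1 h2 h3
  unfold D at h
  simp only [ha, hb, hc, true_and, not_and, not_not, ne_eq] at h1 h2 h3
  generalize p v = x at *
  generalize q v = y at *
  generalize r v = z at *
  grind

include hp hq hr in
/-- a vertex with a missed edge has a doubly covered edge -/
theorem D_of_U {v w : Fin 58} (h : U p q r v w) : ∃ z, D p q r v z := by
  obtain ⟨a, b, c, hab, hac, hbc, ha, hb, hc, hall⟩ := nbrs3 v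
  have h1 := hall _ (hp v)
  have h2 := hall _ (hq v)
  have h3 := hall _ (hr v)
  have h4 := hall _ h.1
  unfold U at h
  unfold D
  obtain ⟨-, h5, h6, h7⟩ := h
  by_contra hcon
  push Not at hcon
  have e1 := hcon a
  have e2 := hcon b
  have e3 := hcon c
  clear hcon
  generalize p v = x at *
  generalize q v = y at *
  generalize r v = z at *
  grind

/-- two missed edges at one vertex force all matchings to agree there -/
theorem three_of_two_U {v a b : Fin 58} (hab : a ≠ b) (h : U p q r v a) (h' : U p q r v b)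
    (hp : G.Adj v (p v)) (hq : G.Adj v (q v)) (hr : G.Adj v (r v)) :
    q v = p v ∧ r v = p v := by
  obtain ⟨x, y, z, hxy, hxz, hyz, hx, hy, hz, hall⟩ := nbrs3 v
  have h1 := hall _ hp
  have h2 := hall _ hq
  have h3 := hall _ hr
  have h4 := hall _ h.1
  have h5 := hall _ h'.1
  unfold U at h h'
  obtain ⟨-, h6, h7, h8⟩ := h
  obtain ⟨-, h9, h10, h11⟩ := h'
  generalize p v = s at *
  generalize q v = t at *
  generalize r v = u at *
  grind

/-- if all matchings agree at a vertex, two edges are missed there -/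
theorem two_U_of_three {v : Fin 58} (h1 : q v = p v) (h2 : r v = p v) :
    ∃ a b, a ≠ b ∧ U p q r v a ∧ U p q r v b := by
  obtain ⟨x, y, z, hxy, hxz, hyz, hx, hy, hz, hall⟩ := nbrs3 v
  unfold U
  rw [h1, h2]
  by_cases e1 : p v = x
  · exact ⟨y, z, hyz, by grind, by grind⟩
  · by_cases e2 : p v = y
    · exact ⟨x, z, hxz, by grind, by grind⟩
    · exact ⟨x, y, hxy, by grind, by grind⟩

/-- the set of missed edges -/
def E0 (p q r : Fin 58 → Fin 58) : Set (Sym2 (Fin 58)) := {e | ∃ v w, e = s(v, w) ∧ U p q r v w}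

include hp hq hr hpp hqq hrr in
theorem not_three : (E0 p q r).ncard ≠ 3 := by
  intro hcard
  have hmem : ∀ {v w}, U p q r v w → s(v, w) ∈ E0 p q r := fun {v w} h => ⟨v, w, rfl, h⟩
  -- four distinct missed edges are impossible
  have hfour : ∀ e1 e2 e3 e4 : Sym2 (Fin 58), e1 ∈ E0 p q r → e2 ∈ E0 p q r → e3 ∈ E0 p q r →
      e4 ∈ E0 p q r → e1 ≠ e2 → e1 ≠ e3 → e1 ≠ e4 → e2 ≠ e3 → e2 ≠ e4 → e3 ≠ e4 → False := by
    intro e1 e2 e3 e4 m1 m2 m3 m4 n12 n13 n14 n23 n24 n34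
    have hsub : (({e1, e2, e3, e4} : Finset (Sym2 (Fin 58))) : Set (Sym2 (Fin 58))) ⊆
        E0 p q r := by
      intro x hx
      simp only [Finset.coe_insert, Finset.coe_singleton, Set.mem_insert_iff,
        Set.mem_singleton_iff] at hx
      rcases hx with rfl | rfl | rfl | rfl <;> assumption
    have h1 := Set.ncard_le_ncard hsub (Set.toFinite _)
    rw [Set.ncard_coe_finset, hcard, Finset.card_insert_of_notMem (by simp [n12, n13, n14]),
      Finset.card_insert_of_notMem (by simp [n23, n24]),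
      Finset.card_insert_of_notMem (by simp [n34]), Finset.card_singleton] at h1
    omega
  have hirr : ∀ v, ¬ G.Adj v v := fun v => G.loopless.irrefl v
  have hUs : ∀ {v w}, U p q r v w → U p q r w v := fun {v w} h => U_symm hpp hqq hrr h
  have hDs : ∀ {v w}, D p q r v w → D p q r w v := fun {v w} h => D_symm hpp hqq hrr h
  -- each vertex has at most one missed edge
  have hUu : ∀ {v a b}, U p q r v a → U p q r v b → a = b := by
    intro v a b ha hb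
    by_contra hab
    obtain ⟨e1, e2⟩ := three_of_two_U hab ha hb (hp v) (hq v) (hr v)
    have f1 : q (p v) = p (p v) := by rw [hpp]; nth_rewrite 1 [← e1]; exact hqq v
    have f2 : r (p v) = p (p v) := by rw [hpp]; nth_rewrite 1 [← e2]; exact hrr v
    obtain ⟨c, d, hcd, hc, hd⟩ := two_U_of_three f1 f2
    have hva : v ≠ a := fun h => hirr v (by nth_rewrite 2 [h]; exact ha.1)
    have hvb : v ≠ b := fun h => hirr v (by nth_rewrite 2 [h]; exact hb.1)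
    have hvp : v ≠ p v := fun h => hirr v (by nth_rewrite 2 [h]; exact hp v)
    have hpa : p v ≠ a := ha.2.1
    have hpb : p v ≠ b := hb.2.1
    have hcv : c ≠ v := by
      intro h; apply hc.2.1; rw [hpp, h]
    have hdv : d ≠ v := by
      intro h; apply hd.2.1; rw [hpp, h]
    have hpc : p v ≠ c := fun h => hirr (p v) (by nth_rewrite 2 [h]; exact hc.1)
    have hpd : p v ≠ d := fun h => hirr (p v) (by nth_rewrite 2 [h]; exact hd.1)
    refine hfour s(v, a) s(v, b) s(p v, c) s(p v, d) (hmem ha) (hmem hb) (hmem hc) (hmem hd)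
      ?_ ?_ ?_ ?_ ?_ ?_ <;> simp only [ne_eq, Sym2.eq_iff] <;> grind
  have hDe : ∀ {v w}, U p q r v w → ∃ z, D p q r v z := fun {v w} h =>
    D_of_U hp hq hr h
  obtain ⟨e0, he0⟩ : (E0 p q r).Nonempty := by
    rw [Set.nonempty_iff_ne_empty]
    intro h
    rw [h, Set.ncard_empty] at hcard
    omega
  obtain ⟨a1, b1, rfl, u1⟩ := he0
  obtain ⟨a2, d1⟩ := hDe (hUs u1)
  obtain ⟨b2, u2⟩ := U_of_D (hDs d1)
  obtain ⟨a3, d2⟩ := hDe (hUs u2)
  obtain ⟨b3, u3⟩ := U_of_D (hDs d2)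
  obtain ⟨a4, d3⟩ := hDe (hUs u3)
  obtain ⟨b4, u4⟩ := U_of_D (hDs d3)
  have hDadj : ∀ {v w}, D p q r v w → G.Adj v w := fun {v w} h => D_adj hp hq h
  -- consecutive edges differ
  have step1 : ∀ {a b a' b'}, U p q r a b → D p q r b a' → U p q r a' b' →
      s(a, b) ≠ s(a', b') := by
    intro a b a' b' h1 h2 h3 h
    rw [Sym2.eq_iff] at h
    rcases h with ⟨h4, h5⟩ | ⟨h4, h5⟩
    · subst h4; exact D_not_U h2 (hUs h1)
    · subst h5; exact hirr _ (hDadj h2)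
  have step2 : ∀ {a b a' b' a'' b''}, U p q r a b → D p q r b a' → U p q r a' b' →
      D p q r b' a'' → U p q r a'' b'' → s(a, b) ≠ s(a'', b'') := by
    intro a b a' b' a'' b'' h1 h2 h3 h4 h5 h
    have hne := step1 h1 h2 h3
    rw [Sym2.eq_iff] at h
    rcases h with ⟨h6, h7⟩ | ⟨h6, h7⟩
    · subst h6
      refine no4 a b a' b' h1.1 (hDadj h2) h3.1 (hDadj h4) ?_ ?_
      · intro h; subst h; exact D_not_U h2 (hUs h1)
      · intro h; subst h
        have := hUu (hUs h1) (hUs h3)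
        subst this
        exact hne rfl
    · subst h7
      have h8 := D_unique h2 (hDs h4)
      subst h8
      exact hirr _ h3.1
  have n12 := step1 u1 d1 u2
  have n23 := step1 u2 d2 u3
  have n34 := step1 u3 d3 u4
  have n13 := step2 u1 d1 u2 d2 u3
  have n24 := step2 u2 d2 u3 d3 u4
  have n14 : s(a1, b1) ≠ s(a4, b4) := by
    intro h
    rw [Sym2.eq_iff] at h
    have ha12 : a1 ≠ a2 := by
      intro h; subst h; exact D_not_U d1 (hUs u1)
    have ha23 : a2 ≠ a3 := by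
      intro h; subst h; exact D_not_U d2 (hUs u2)
    have ha13 : a1 ≠ a3 := by
      intro h; subst h
      have := hUu u1 u3
      subst this
      exact n13 rfl
    have hb12 : b1 ≠ b2 := by
      intro h; subst h
      have := hUu (hUs u1) (hUs u2)
      exact ha12 this
    have hb23 : b2 ≠ b3 := by
      intro h; subst h
      have := hUu (hUs u2) (hUs u3)
      exact ha23 this
    have hb13 : b1 ≠ b3 := by
      intro h; subst h
      have := hUu (hUs u1) (hUs u3)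
      exact ha13 this
    rcases h with ⟨h6, h7⟩ | ⟨h6, h7⟩
    · subst h6
      exact no6 a1 b1 a2 b2 a3 b3 u1.1 (hDadj d1) u2.1 (hDadj d2) u3.1 (hDadj d3)
        ha12 hb12 ha23 ha13 hb23 hb13
    · subst h7
      have h8 := D_unique d1 (hDs d3)
      subst h8
      have h9 := hUu u2 (hUs u3)
      subst h9
      exact hirr _ (hDadj d2)
  exact hfour _ _ _ _ (hmem u1) (hmem u2) (hmem u3) (hmem u4) n12 n13 n14 n23 n24 n34

end matchings

theorem exists_partner (M : G.Subgraph) (hM : M.IsPerfectMatching) :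
    ∃ p : Fin 58 → Fin 58, (∀ v, G.Adj v (p v)) ∧ (∀ v, p (p v) = v) ∧
      ∀ v w, M.Adj v w ↔ p v = w := by
  have h : ∀ v, ∃! w, M.Adj v w := fun v => hM.1 (hM.2 v)
  choose p hp1 hp2 using h
  refine ⟨p, fun v => (hp1 v).adj_sub, fun v => ?_, fun v w => ⟨fun h => ?_, fun h => ?_⟩⟩
  · exact (hp2 _ _ (hp1 v).symm).symm
  · exact (hp2 _ _ h).symm
  · rw [← h]; exact hp1 v

/-- negation of the conjecture -/
theorem result :
    ¬ (∀ (V : Type) [Fintype V] [DecidableEq V] (G : SimpleGraph V) [DecidableRel G.Adj],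
      G.IsRegularOfDegree 3 →
      ¬ G.lineGraph.Colorable 3 →
      ¬ G.IsHamiltonian →
      (∀ v : V, (G.induce {w | w ≠ v}).IsHamiltonian) →
      (∃ M₁ M₂ M₃ : G.Subgraph, M₁.IsPerfectMatching ∧ M₂.IsPerfectMatching ∧
          M₃.IsPerfectMatching ∧
          (G.edgeSet \ (M₁.edgeSet ∪ M₂.edgeSet ∪ M₃.edgeSet)).ncard = 3) ∧
      (∀ M₁ M₂ M₃ : G.Subgraph, M₁.IsPerfectMatching → M₂.IsPerfectMatching →
          M₃.IsPerfectMatching →
          3 ≤ (G.edgeSet \ (M₁.edgeSet ∪ M₂.edgeSet ∪ M₃.edgeSet)).ncard)) := by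
  intro H
  obtain ⟨⟨M₁, M₂, M₃, h1, h2, h3, hcard⟩, -⟩ := H (Fin 58) G G_reg G_not_col G_not_ham G_hypo
  obtain ⟨p, hp, hpp, hpM⟩ := exists_partner M₁ h1
  obtain ⟨q, hq, hqq, hqM⟩ := exists_partner M₂ h2
  obtain ⟨r, hr, hrr, hrM⟩ := exists_partner M₃ h3
  apply not_three hp hq hr hpp hqq hrr
  rw [← hcard]
  congr 1
  ext e
  induction e with
  | h v w =>
    simp only [Set.mem_sdiff, Set.mem_union, SimpleGraph.mem_edgeSet, SimpleGraph.Subgraph.mem_edgeSet,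
      hpM, hqM, hrM, not_or]
    constructor
    · rintro ⟨a, b, hab, hU⟩
      rw [Sym2.eq_iff] at hab
      rcases hab with ⟨rfl, rfl⟩ | ⟨rfl, rfl⟩
      · exact ⟨hU.1, ⟨hU.2.1, hU.2.2.1⟩, hU.2.2.2⟩
      · have hU' := U_symm hpp hqq hrr hU
        exact ⟨hU'.1, ⟨hU'.2.1, hU'.2.2.1⟩, hU'.2.2.2⟩
    · rintro ⟨h4, ⟨h5, h6⟩, h7⟩
      exact ⟨v, w, rfl, h4, h5, h6, h7⟩

end Pool.Agent.S08684
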