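-- Statement S08962 (negation), byte-identical to the frozen statement Pool.MP_5bb92a_co.PoolFrozen.S08962.
-- For h = 1/10000 the cylinders pack with density at least pi/3.464 > pi/sqrt 12: see Pool/Agent/Lib/MP_5bb92a_co/Defs.lean.
import Pool.Statements.S08962
import Pool.Agent.Lib.MP_5bb92a_co.Main

set_option autoImplicit false
open Pool Pool.MP_5bb92a_co

namespace Pool.Agent.S08962

/-- The negation of the preceding statement: For every h>0, the supremum over all packings of isometric copies of the solid cylinder x²+y²≤1, 0≤z≤h (disjoint interiors) of the limsup, as R→∞, of the covered fraction of the radius-R ball equals π/√12. -/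
theorem result :
    ¬ (∀ h : ℝ, 0 < h →
      (⨆ (P : Set (Set (EuclideanSpace ℝ (Fin 3))))
         (_ : (∀ A ∈ P, ∃ f : EuclideanSpace ℝ (Fin 3) ≃ᵢ EuclideanSpace ℝ (Fin 3),
                A = f '' {p : EuclideanSpace ℝ (Fin 3) |
                  p 0 ^ 2 + p 1 ^ 2 ≤ 1 ∧ 0 ≤ p 2 ∧ p 2 ≤ h}) ∧
              (∀ A ∈ P, ∀ B ∈ P, A ≠ B → Disjoint (interior A) (interior B))),
         Filter.limsup
           (fun R : ℝ =>
             MeasureTheory.volume ((⋃₀ P) ∩ Metric.ball (0 : EuclideanSpace ℝ (Fin 3)) R) /
               MeasureTheory.volume (Metric.ball (0 : EuclideanSpace ℝ (Fin 3)) R))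
           Filter.atTop)
      = ENNReal.ofReal (Real.pi / Real.sqrt 12)) :=
  Pool.Agent.Lib.MP_5bb92a_co.main

end Pool.Agent.S08962
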