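import Pool.Statements.S09989
import Pool.Agent.Lib.MP_8b3902_co.F.Full

set_option autoImplicit false
open Pool Pool.MP_8b3902_co

namespace Pool.Agent.S09989

/-- For any finite list of forbidden induced subgraphs, if every finite graph avoiding them has treewidth bounded by a function of its clique number, then all such graphs have tree decompositions whose bags have independence number at most some uniform K. -/
theorem result :
    ∀ (k : ℕ) (n : Fin k → ℕ) (H : ∀ i, SimpleGraph (Fin (n i))),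
      (∃ f : ℕ → ℕ, ∀ (V : Type) [Fintype V] (G : SimpleGraph V),
        (∀ i, IsEmpty (H i ↪g G)) → ∀ c : ℕ, G.CliqueFree (c + 1) →
        ∃ (m : ℕ) (T : SimpleGraph (Fin m)) (B : Fin m → Finset V),
          T.IsTree ∧ (∀ v : V, ∃ t, v ∈ B t) ∧
          (∀ u v : V, G.Adj u v → ∃ t, u ∈ B t ∧ v ∈ B t) ∧
          (∀ v : V, (T.induce {t : Fin m | v ∈ B t}).Connected) ∧
          ∀ t, (B t).card ≤ f c + 1) →
      ∃ K : ℕ, ∀ (V : Type) [Fintype V] (G : SimpleGraph V),
        (∀ i, IsEmpty (H i ↪g G)) →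
        ∃ (m : ℕ) (T : SimpleGraph (Fin m)) (B : Fin m → Finset V),
          T.IsTree ∧ (∀ v : V, ∃ t, v ∈ B t) ∧
          (∀ u v : V, G.Adj u v → ∃ t, u ∈ B t ∧ v ∈ B t) ∧
          (∀ v : V, (T.induce {t : Fin m | v ∈ B t}).Connected) ∧
          ∀ t, ∀ S : Finset V, S ⊆ B t →
            (∀ u ∈ S, ∀ w ∈ S, ¬ G.Adj u w) → S.card ≤ K :=
  Pool.Agent.MP_8b3902_co.main_full

end Pool.Agent.S09989
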