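import Pool.Statements.S10037
import Pool.Agent.FdF.Assembly
import Pool.Agent.FdF.Frozen

set_option autoImplicit false
open Classical
open Pool Pool.MP_8cac16_co

namespace Pool.Agent.S10037

/-- For every ε>0 and all large n, any oriented graph on n vertices with no induced oriented 4-cycle has at least (4/9−ε)·C(n,3) vertex triples in which some vertex is isolated or has outdegree 2. -/
theorem result :
    ∀ ε : ℝ, ε > 0 → ∃ N : ℕ, ∀ n : ℕ, n ≥ N →
      ∀ R : Fin n → Fin n → Prop,
        (∀ u v, R u v → ¬ R v u) →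
        (¬ ∃ a b c d : Fin n, R a b ∧ R b c ∧ R c d ∧ R d a ∧
            ¬ R a c ∧ ¬ R c a ∧ ¬ R b d ∧ ¬ R d b) →
        (((Finset.univ.powersetCard 3).filter (fun s : Finset (Fin n) =>
            ∃ x ∈ s, (∀ y ∈ s, y ≠ x → (¬ R x y ∧ ¬ R y x)) ∨
                     (∀ y ∈ s, y ≠ x → R x y))).card : ℝ)
          ≥ (4 / 9 - ε) * ((n.choose 3 : ℕ) : ℝ) := by
  exact Pool.Agent.FdF.frozen_of (fun V _ G => Pool.Agent.FdF.WOG.T_ge G)

end Pool.Agent.S10037
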