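import Pool.Statements.S11530
import Pool.Agent.Lib.MP_cf1753_co.Final

set_option autoImplicit false
open scoped Classical
open Pool Pool.MP_cf1753_co

namespace Pool.Agent.S11530

/-- The negation of the preceding statement: For every partial order on labels 1..p whose maximal chains all have the same sum of +1 per ascending cover and −1 per descending cover, the descent polynomial over linear extensions has only real roots. -/
theorem result :
    ¬ (∀ (p : ℕ) (le : Fin p → Fin p → Prop),
    (∀ a, le a a) →
    (∀ a b, le a b → le b a → a = b) →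
    (∀ a b c, le a b → le b c → le a c) →
    (∃ r : ℤ, ∀ (k : ℕ) (c : Fin (k + 1) → Fin p),
      (∀ y, le y (c 0) → y = c 0) →
      (∀ y, le (c (Fin.last k)) y → y = c (Fin.last k)) →
      (∀ i : Fin k, le (c i.castSucc) (c i.succ) ∧ c i.castSucc ≠ c i.succ ∧
        ∀ z, le (c i.castSucc) z → le z (c i.succ) → z = c i.castSucc ∨ z = c i.succ) →
      ∑ i : Fin k, (if c i.castSucc < c i.succ then (1 : ℤ) else -1) = r) →
    ∀ z : ℂ,
      Polynomial.aeval z
        (∑ σ ∈ Finset.univ.filter
            (fun σ : Equiv.Perm (Fin p) => ∀ i j, le (σ i) (σ j) → i ≤ j),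
          (Polynomial.X : Polynomial ℝ) ^
            (Finset.univ.filter
              (fun i : Fin p => ∃ j : Fin p, j.val = i.val + 1 ∧ σ j < σ i)).card) = 0 →
      z.im = 0) := by
  intro h
  exact Pool.Agent.Lib.MP_cf1753_co.not_real
    (h 52 Pool.Agent.Lib.MP_cf1753_co.le Pool.Agent.Lib.MP_cf1753_co.le_refl'
      Pool.Agent.Lib.MP_cf1753_co.le_antisymm' Pool.Agent.Lib.MP_cf1753_co.le_trans'
      ⟨1, Pool.Agent.Lib.MP_cf1753_co.signGraded⟩)

end Pool.Agent.S11530
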