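import Pool.Statements.S11571
-- import your own Pool.Agent.* helpers here
import Pool.Agent.Lib.MP_d08991_co.Final

set_option autoImplicit false
open Classical
open Pool Pool.MP_d08991_co

namespace Pool.Agent.S11571

/-- Every Laman (minimally rigid planar) graph on n vertices has a generic planar realization with at least 2^(n-3) real frameworks having the same edge lengths, pairwise not congruent. -/
theorem result :
    ∀ (V : Type) [Fintype V] (G : SimpleGraph V),
      (Finset.univ.filter (fun x : V × V => G.Adj x.1 x.2)).card + 6 = 4 * Fintype.card V →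
      (∀ S : Finset V, 2 ≤ S.card →
        ((S ×ˢ S).filter (fun x : V × V => G.Adj x.1 x.2)).card + 6 ≤ 4 * S.card) →
      ∃ p : V → EuclideanSpace ℝ (Fin 2),
        AlgebraicIndependent ℚ (fun x : V × Fin 2 => p x.1 x.2) ∧
        ∃ q : Fin (2 ^ (Fintype.card V - 3)) → V → EuclideanSpace ℝ (Fin 2),
          (∀ i u v, G.Adj u v → dist (q i u) (q i v) = dist (p u) (p v)) ∧
          (∀ i j, i ≠ j → ∃ u v, dist (q i u) (q i v) ≠ dist (q j u) (q j v)) := by
  intro V _ G hcard hsp
  have hn : 2 ≤ Fintype.card V := by omega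
  have key : ∀ S : Finset V, 2 * (G.edgeFinset ∩ S.sym2).card =
      ((S ×ˢ S).filter (fun x : V × V => G.Adj x.1 x.2)).card := by
    intro S
    let H : SimpleGraph V := SimpleGraph.mk (fun x y => G.Adj x y ∧ x ∈ S ∧ y ∈ S)
      ⟨fun x y h => ⟨h.1.symm, h.2.2, h.2.1⟩⟩ ⟨fun x h => G.loopless.irrefl x h.1⟩
    have h1 : H.edgeFinset = G.edgeFinset ∩ S.sym2 := by
      ext e
      induction e using Sym2.inductionOn with
      | hf x y =>
        rw [Finset.mem_inter, SimpleGraph.mem_edgeFinset, SimpleGraph.mem_edgeFinset,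
          Finset.mk_mem_sym2_iff]
        exact Iff.rfl
    have h2 := H.two_mul_card_edgeFinset
    rw [h1] at h2
    rw [h2]
    congr 1
    ext x
    simp only [Finset.mem_filter, Finset.mem_univ, true_and, Finset.mem_product]
    constructor
    · intro h; exact ⟨h.2, h.1⟩
    · intro h; exact ⟨h.2, h.1⟩
  obtain ⟨p, hp, q, hq1, hq2⟩ := Pool.Agent.Lib.MP_d08991_co.main_bound (V := V) G.edgeFinset
    (fun e he => G.not_isDiag_of_mem_edgeFinset he) (fun S hS => by
      have h1 := hsp S hS
      rw [← key S] at h1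
      omega) hn
  exact ⟨p, hp, q, fun i u v huv => hq1 i u v (by
    rw [SimpleGraph.mem_edgeFinset]; exact huv), hq2⟩

end Pool.Agent.S11571
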