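import Pool.Statements.S11585
import Pool.Agent.Lib.MP_d0f9e0_co.GH.Main
import Pool.Agent.Lib.MP_d0f9e0_co.AN45.OneA2
import Pool.Agent.Lib.MP_d0f9e0_co.PH.Quad13c

set_option autoImplicit false
open Pool Pool.MP_d0f9e0_co

namespace Pool.Agent.S11585

/-- For every dimension d ≥ 1 there are d² unit vectors in complex d-space whose pairwise Hermitian inner products, for distinct indices, all have absolute value 1/√(d+1). -/
theorem result :
    ∀ d : ℕ, 1 ≤ d →
      ∃ v : Fin (d ^ 2) → EuclideanSpace ℂ (Fin d),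
        (∀ i, ‖v i‖ = 1) ∧
        (∀ i j, i ≠ j → ‖inner ℂ (v i) (v j)‖ = 1 / Real.sqrt ((d : ℝ) + 1)) :=
  GH.main_of Pool.Agent.MP_d0f9e0_co.AN45.oneA2
    fun _ _ _ _ _ _ _ hθ hA h1 hLat hL _ hx _ hy => PH.zquad hθ hA h1 hLat hL hx hy

end Pool.Agent.S11585
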