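import Pool.Statements.S12292

set_option autoImplicit false
open Pool Pool.MP_eee601_co

namespace Pool.Agent.S12292

section
open Finset

/-- reflexive point-line relation -/
def rel {p : ℕ} (x y : ZMod p × ZMod p) : Prop := x = y ∨ x.2 + y.2 = x.1 * y.1

lemma rel_refl {p : ℕ} (x : ZMod p × ZMod p) : rel x x := Or.inl rfl

lemma rel_symm {p : ℕ} {x y : ZMod p × ZMod p} (h : rel x y) : rel y x := by
  rcases h with h | h
  · exact Or.inl h.symm
  · right
    rw [add_comm, h, mul_comm]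

open Classical in
lemma common_le {p : ℕ} [Fact p.Prime] (x y : ZMod p × ZMod p) (hxy : x ≠ y) :
    (univ.filter (fun z : ZMod p × ZMod p => x.2 + z.2 = x.1 * z.1 ∧ y.2 + z.2 = y.1 * z.1)).card ≤ 1 := by
  rw [Finset.card_le_one]
  intro a ha b hb
  simp only [mem_filter, mem_univ, true_and] at ha hb
  obtain ⟨ha1, ha2⟩ := ha
  obtain ⟨hb1, hb2⟩ := hb
  have hne : x.1 - y.1 ≠ 0 := by
    intro h0
    have h1 : x.1 = y.1 := sub_eq_zero.mp h0
    have h2 : x.2 = y.2 := by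
      have := ha1
      rw [h1, ← ha2] at this
      exact add_right_cancel this
    exact hxy (Prod.ext h1 h2)
  have e1 : (x.1 - y.1) * a.1 = x.2 - y.2 := by
    rw [sub_mul, ← ha1, ← ha2]; ring
  have e2 : (x.1 - y.1) * b.1 = x.2 - y.2 := by
    rw [sub_mul, ← hb1, ← hb2]; ring
  have h1 : a.1 = b.1 := mul_left_cancel₀ hne (e1.trans e2.symm)
  have h2 : a.2 = b.2 := by
    have := ha1
    rw [h1, ← hb1] at this
    exact add_left_cancel this
  exact Prod.ext h1 h2

open Classical in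
lemma codeg {p : ℕ} [Fact p.Prime] (x y : ZMod p × ZMod p) (hxy : x ≠ y) :
    (univ.filter (fun z : ZMod p × ZMod p => rel x z ∧ rel y z)).card ≤ 3 := by
  have hsub : univ.filter (fun z : ZMod p × ZMod p => rel x z ∧ rel y z) ⊆
      insert x (insert y (univ.filter (fun z : ZMod p × ZMod p => x.2 + z.2 = x.1 * z.1 ∧ y.2 + z.2 = y.1 * z.1))) := by
    intro z hz
    simp only [mem_filter, mem_univ, true_and, mem_insert] at hz ⊢
    obtain ⟨h1, h2⟩ := hz
    rcases h1 with h1 | h1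
    · left; exact h1.symm
    · rcases h2 with h2 | h2
      · right; left; exact h2.symm
      · right; right; exact ⟨h1, h2⟩
  refine (card_le_card hsub).trans ?_
  refine (card_insert_le _ _).trans ?_
  have := card_insert_le y (univ.filter (fun z : ZMod p × ZMod p => x.2 + z.2 = x.1 * z.1 ∧ y.2 + z.2 = y.1 * z.1))
  have h3 := common_le x y hxy
  omega

open Classical in
lemma deg_eq {p : ℕ} [Fact p.Prime] (x : ZMod p × ZMod p) :
    (univ.filter (fun z : ZMod p × ZMod p => x.2 + z.2 = x.1 * z.1)).card = p := by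
  have : (univ.filter (fun z : ZMod p × ZMod p => x.2 + z.2 = x.1 * z.1)) =
      (univ : Finset (ZMod p)).image (fun c => (c, x.1 * c - x.2)) := by
    ext ⟨c, d⟩
    simp only [mem_filter, mem_univ, true_and, mem_image, Prod.mk.injEq, exists_eq_left]
    constructor
    · intro h
      rw [← h]; ring
    · intro h
      rw [← h]; ring
  rw [this, card_image_of_injective]
  · simp [ZMod.card]
  · intro a b h
    exact (Prod.mk.inj h).1

open Classical in
lemma indep_bound {p : ℕ} [Fact p.Prime] (S : Finset (ZMod p × ZMod p))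
    (hS : ∀ x ∈ S, ∀ y ∈ S, x ≠ y → ¬ rel x y) : S.card ≤ p + Nat.sqrt (p ^ 3) := by
  by_contra hcon
  push Not at hcon
  set k := S.card with hk
  set N : ZMod p × ZMod p → ℤ := fun z => ((S.filter (fun x => x.2 + z.2 = x.1 * z.1)).card : ℤ) with hN
  have hN1 : ∑ z, N z = k * p := by
    have : ∑ z, N z = ∑ z : ZMod p × ZMod p, ∑ x ∈ S, (if x.2 + z.2 = x.1 * z.1 then (1:ℤ) else 0) := by
      refine sum_congr rfl fun z _ => ?_
      simp [hN]
    rw [this, sum_comm]
    have h2 : ∀ x ∈ S, ∑ z : ZMod p × ZMod p, (if x.2 + z.2 = x.1 * z.1 then (1:ℤ) else 0) = p := by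
      intro x _
      have h9 := deg_eq x
      have h10 : ∑ z : ZMod p × ZMod p, (if x.2 + z.2 = x.1 * z.1 then (1:ℤ) else 0) = ((univ.filter (fun z : ZMod p × ZMod p => x.2 + z.2 = x.1 * z.1)).card : ℤ) := by simp
      rw [h10, h9]
    rw [sum_congr rfl h2]
    simp [hk]
  have hN2 : ∑ z, N z ^ 2 ≤ k * p + k ^ 2 := by
    have : ∑ z, N z ^ 2 = ∑ z : ZMod p × ZMod p, ∑ x ∈ S, ∑ y ∈ S, (if x.2 + z.2 = x.1 * z.1 ∧ y.2 + z.2 = y.1 * z.1 then (1:ℤ) else 0) := by
      refine sum_congr rfl fun z _ => ?_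
      have : N z = ∑ x ∈ S, (if x.2 + z.2 = x.1 * z.1 then (1:ℤ) else 0) := by simp [hN]
      rw [sq, this, sum_mul_sum]
      refine sum_congr rfl fun x _ => sum_congr rfl fun y _ => ?_
      by_cases h1 : x.2 + z.2 = x.1 * z.1 <;> by_cases h2 : y.2 + z.2 = y.1 * z.1 <;> simp [h1, h2]
    rw [this, sum_comm]
    have h3 : ∀ x ∈ S, ∑ z : ZMod p × ZMod p, ∑ y ∈ S, (if x.2 + z.2 = x.1 * z.1 ∧ y.2 + z.2 = y.1 * z.1 then (1:ℤ) else 0) ≤ p + k := by
      intro x hx
      rw [sum_comm]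
      rw [← add_sum_erase _ _ hx]
      have e1 : ∑ z : ZMod p × ZMod p, (if x.2 + z.2 = x.1 * z.1 ∧ x.2 + z.2 = x.1 * z.1 then (1:ℤ) else 0) = p := by
        have h9 := deg_eq x
        have h10 : ∑ z : ZMod p × ZMod p, (if x.2 + z.2 = x.1 * z.1 ∧ x.2 + z.2 = x.1 * z.1 then (1:ℤ) else 0) = ((univ.filter (fun z : ZMod p × ZMod p => x.2 + z.2 = x.1 * z.1)).card : ℤ) := by simp
        rw [h10, h9]
      have e2 : ∑ y ∈ S.erase x, ∑ z : ZMod p × ZMod p, (if x.2 + z.2 = x.1 * z.1 ∧ y.2 + z.2 = y.1 * z.1 then (1:ℤ) else 0) ≤ ∑ y ∈ S.erase x, (1:ℤ) := by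
        refine sum_le_sum fun y hy => ?_
        have hne : x ≠ y := (ne_of_mem_erase hy).symm
        have := common_le x y hne
        have h5 : ∑ z : ZMod p × ZMod p, (if x.2 + z.2 = x.1 * z.1 ∧ y.2 + z.2 = y.1 * z.1 then (1:ℤ) else 0) = ((univ.filter (fun z : ZMod p × ZMod p => x.2 + z.2 = x.1 * z.1 ∧ y.2 + z.2 = y.1 * z.1)).card : ℤ) := by
          simp
        rw [h5]
        exact_mod_cast this
      have e3 : ∑ y ∈ S.erase x, (1:ℤ) ≤ k := by
        simp only [sum_const, nsmul_eq_mul, mul_one]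
        exact_mod_cast (card_erase_le)
      rw [e1]
      linarith
    calc _ ≤ ∑ x ∈ S, ((p:ℤ) + k) := sum_le_sum h3
      _ = k * p + k ^ 2 := by simp [← hk]; ring
  have hN3 : ∑ z, ((p:ℤ) * N z - k) ^ 2 ≤ p ^ 3 * k := by
    have hcard : (∑ z : ZMod p × ZMod p, (1:ℤ)) = p ^ 2 := by
      simp [ZMod.card, sq]
    have : ∑ z, ((p:ℤ) * N z - k) ^ 2 = (p:ℤ)^2 * ∑ z, N z ^ 2 - 2 * p * k * ∑ z, N z + k ^ 2 * ∑ z : ZMod p × ZMod p, (1:ℤ) := by
      rw [mul_sum, mul_sum, mul_sum, ← sum_sub_distrib, ← sum_add_distrib]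
      refine sum_congr rfl fun z _ => ?_
      ring
    rw [this, hcard, hN1]
    have hp0 : (0:ℤ) ≤ (p:ℤ)^2 := by positivity
    nlinarith [mul_le_mul_of_nonneg_left hN2 hp0]
  have hN4 : ∀ z ∈ S, N z ≤ 1 := by
    intro z hz
    have : (S.filter (fun x => x.2 + z.2 = x.1 * z.1)) ⊆ {z} := by
      intro x hx
      simp only [mem_filter] at hx
      by_contra hne
      simp only [mem_singleton] at hne
      exact hS x hx.1 z hz hne (Or.inr hx.2)
    have h2 := card_le_card this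
    simp only [card_singleton] at h2
    simp only [hN]
    exact_mod_cast h2
  have hkp : p + Nat.sqrt (p^3) + 1 ≤ k := hcon
  have hN5 : (k:ℤ) * ((k:ℤ) - p) ^ 2 ≤ ∑ z, ((p:ℤ) * N z - k) ^ 2 := by
    have h1 : ∑ z ∈ S, ((p:ℤ) * N z - k) ^ 2 ≤ ∑ z, ((p:ℤ) * N z - k) ^ 2 :=
      sum_le_sum_of_subset_of_nonneg (subset_univ _) (fun _ _ _ => sq_nonneg _)
    have h2 : ∑ z ∈ S, ((k:ℤ) - p) ^ 2 ≤ ∑ z ∈ S, ((p:ℤ) * N z - k) ^ 2 := by
      refine sum_le_sum fun z hz => ?_
      have h3 := hN4 z hz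
      have h4 : (p:ℤ) * N z ≤ p := by
        have : (0:ℤ) ≤ p := by positivity
        nlinarith
      have h5 : (0:ℤ) ≤ (k:ℤ) - p := by
        have : (p:ℤ) + Nat.sqrt (p^3) + 1 ≤ k := by exact_mod_cast hkp
        have : (0:ℤ) ≤ Nat.sqrt (p^3) := by positivity
        linarith
      nlinarith
    have h3 : ∑ z ∈ S, ((k:ℤ) - p) ^ 2 = (k:ℤ) * ((k:ℤ) - p) ^ 2 := by
      simp [← hk]
    linarith
  have hfin : (k:ℤ) * ((k:ℤ) - p) ^ 2 ≤ p ^ 3 * k := hN5.trans hN3
  have hkpos : (0:ℤ) < k := by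
    have : 0 < k := by omega
    exact_mod_cast this
  have h6 : ((k:ℤ) - p) ^ 2 ≤ p ^ 3 := by
    by_contra h
    push Not at h
    nlinarith
  have h7 : p ^ 3 < (Nat.sqrt (p^3) + 1) ^ 2 := by
    have := Nat.lt_succ_sqrt (p^3)
    rw [sq]; exact this
  have h8 : ((Nat.sqrt (p^3) : ℤ) + 1) ^ 2 ≤ ((k:ℤ) - p) ^ 2 := by
    have h9 : ((Nat.sqrt (p^3) : ℤ) + 1) ≤ (k:ℤ) - p := by
      have : (p:ℤ) + Nat.sqrt (p^3) + 1 ≤ k := by exact_mod_cast hkp
      linarith
    have h10 : (0:ℤ) ≤ (Nat.sqrt (p^3) : ℤ) + 1 := by positivity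
    nlinarith
  have h11 : ((p:ℤ)) ^ 3 < ((Nat.sqrt (p^3) : ℤ) + 1) ^ 2 := by exact_mod_cast h7
  linarith

lemma amgm (s : ℕ) (r : Fin s → ℕ) : s ^ s * ∏ i, r i ≤ (∑ i, r i) ^ s := by
  rcases Nat.eq_zero_or_pos s with h0 | hs
  · subst h0; simp
  have hs' : (0:ℝ) < s := by exact_mod_cast hs
  have h := Real.geom_mean_le_arith_mean_weighted (univ : Finset (Fin s)) (fun _ => (1:ℝ) / s) (fun i => (r i : ℝ))
    (fun i _ => by positivity) (by simp; field_simp) (fun i _ => by positivity)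
  have h1 : (∏ i, ((r i : ℝ)) ^ ((1:ℝ)/s)) = (∏ i, (r i : ℝ)) ^ ((1:ℝ)/s) := by
    rw [Real.finsetProd_rpow]
    intro i _; positivity
  rw [h1] at h
  have h2 : ∑ i, (1:ℝ)/s * (r i : ℝ) = (∑ i, (r i : ℝ)) / s := by
    rw [← mul_sum]; ring
  rw [h2] at h
  have h3 : (∏ i, (r i : ℝ)) ≤ ((∑ i, (r i : ℝ)) / s) ^ s := by
    have h4 : 0 ≤ (∏ i, (r i : ℝ)) := by positivity
    have h5 := pow_le_pow_left₀ (Real.rpow_nonneg h4 _) h s
    rw [← Real.rpow_natCast, ← Real.rpow_mul h4] at h5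
    rw [one_div, inv_mul_cancel₀ (ne_of_gt hs'), Real.rpow_one] at h5
    exact h5
  rw [div_pow, le_div_iff₀ (by positivity)] at h3
  have h4 : ((s ^ s * ∏ i, r i : ℕ) : ℝ) ≤ (((∑ i, r i) ^ s : ℕ) : ℝ) := by
    push_cast
    linarith
  exact_mod_cast h4

lemma fact_bound (s : ℕ) : s ^ s ≤ 3 ^ s * s.factorial := by
  have h := Real.pow_div_factorial_le_exp (x := (s:ℝ)) (by positivity) s
  have h1 : Real.exp (s:ℝ) ≤ 3 ^ s := by
    have : Real.exp (s:ℝ) = (Real.exp 1) ^ s := by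
      rw [← Real.exp_nat_mul]; simp
    rw [this]
    exact pow_le_pow_left₀ (Real.exp_pos 1).le (by linarith [Real.exp_one_lt_d9]) s
  have h2 := h.trans h1
  rw [div_le_iff₀ (by positivity)] at h2
  exact_mod_cast h2

open Classical in
lemma sum_sq_bound {p : ℕ} [Fact p.Prime] (s w : ℕ) (φ : Fin s → ZMod p × ZMod p)
    (hw : ∀ v, (univ.filter (fun i => φ i = v)).card ≤ w) :
    ∑ i, (univ.filter (fun j => rel (φ i) (φ j))).card ^ 2 ≤ 4 * w * s ^ 2 := by
  have h1 : ∀ i, (univ.filter (fun j => rel (φ i) (φ j))).card ^ 2 =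
      ∑ a, ∑ b, (if rel (φ i) (φ a) ∧ rel (φ i) (φ b) then 1 else 0) := by
    intro i
    have : (univ.filter (fun j => rel (φ i) (φ j))).card = ∑ a, (if rel (φ i) (φ a) then 1 else 0) := by simp
    rw [sq, this, sum_mul_sum]
    refine sum_congr rfl fun x _ => sum_congr rfl fun y _ => ?_
    by_cases h1 : rel (φ i) (φ x) <;> by_cases h2 : rel (φ i) (φ y) <;> simp [h1, h2]
  rw [sum_congr rfl (fun i _ => h1 i)]
  rw [sum_comm]
  have h2 : ∀ a, ∑ i, ∑ b, (if rel (φ i) (φ a) ∧ rel (φ i) (φ b) then 1 else 0) ≤ 4 * w * s := by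
    intro a
    rw [sum_comm]
    have h3 : ∀ b, ∑ i, (if rel (φ i) (φ a) ∧ rel (φ i) (φ b) then 1 else 0) ≤ (if φ b = φ a then s else 0) + 3 * w := by
      intro b
      by_cases hab : φ b = φ a
      · rw [if_pos hab]
        have : ∑ i, (if rel (φ i) (φ a) ∧ rel (φ i) (φ b) then 1 else 0) ≤ ∑ i : Fin s, 1 := by
          refine sum_le_sum fun i _ => ?_
          split_ifs <;> simp
        simp only [sum_const, card_univ, Fintype.card_fin, smul_eq_mul, mul_one] at this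
        omega
      · rw [if_neg hab, zero_add]
        have hc := codeg (φ a) (φ b) (fun h => hab h.symm)
        have h4 : ∑ i, (if rel (φ i) (φ a) ∧ rel (φ i) (φ b) then 1 else 0) =
            (univ.filter (fun i => rel (φ i) (φ a) ∧ rel (φ i) (φ b))).card := by simp
        rw [h4]
        set Z := univ.filter (fun z : ZMod p × ZMod p => rel (φ a) z ∧ rel (φ b) z) with hZ
        have h5 : (univ.filter (fun i => rel (φ i) (φ a) ∧ rel (φ i) (φ b))) ⊆
            Z.biUnion (fun z => univ.filter (fun i => φ i = z)) := by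
          intro i hi
          simp only [mem_filter, mem_univ, true_and, mem_biUnion, exists_eq_right'] at hi ⊢
          rw [hZ]
          simp only [mem_filter, mem_univ, true_and]
          exact ⟨rel_symm hi.1, rel_symm hi.2⟩
        refine (card_le_card h5).trans (card_biUnion_le.trans ?_)
        refine (sum_le_sum (fun z _ => hw z)).trans ?_
        rw [sum_const, smul_eq_mul]
        exact Nat.mul_le_mul_right _ hc
    refine (sum_le_sum (fun b _ => h3 b)).trans ?_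
    rw [sum_add_distrib]
    have h6 : ∑ b, (if φ b = φ a then s else 0) ≤ w * s := by
      rw [← sum_filter, sum_const, smul_eq_mul]
      exact Nat.mul_le_mul_right _ (hw _)
    simp only [sum_const, card_univ, Fintype.card_fin, smul_eq_mul]
    nlinarith
  refine (sum_le_sum (fun a _ => h2 a)).trans ?_
  simp only [sum_const, card_univ, Fintype.card_fin, smul_eq_mul]
  nlinarith

open Classical in
lemma perm_count {p : ℕ} [Fact p.Prime] (s w : ℕ) (φ : Fin s → ZMod p × ZMod p)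
    (hw : ∀ v, (univ.filter (fun i => φ i = v)).card ≤ w) :
    (s ^ s * (univ.filter (fun π : Equiv.Perm (Fin s) => ∀ i, rel (φ i) (φ (π i)))).card) ^ 2
      ≤ (4 * w * s ^ 3) ^ s := by
  set r : Fin s → ℕ := fun i => (univ.filter (fun j => rel (φ i) (φ j))).card with hr
  have h1 : (univ.filter (fun π : Equiv.Perm (Fin s) => ∀ i, rel (φ i) (φ (π i)))).card ≤ ∏ i, r i := by
    have : ∏ i, r i = (Fintype.piFinset (fun i => univ.filter (fun j => rel (φ i) (φ j)))).card := by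
      rw [Fintype.card_piFinset]
    rw [this]
    refine card_le_card_of_injOn (fun π => (π : Fin s → Fin s)) ?_ ?_
    · intro π hπ
      simp only [coe_filter, mem_univ, true_and, Set.mem_ofPred_eq] at hπ
      simp only [mem_coe, Fintype.mem_piFinset, mem_filter, mem_univ, true_and]
      exact hπ
    · intro π _ π' _ h
      exact Equiv.coe_fn_injective h
  have h2 : s ^ s * (univ.filter (fun π : Equiv.Perm (Fin s) => ∀ i, rel (φ i) (φ (π i)))).card ≤ (∑ i, r i) ^ s :=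
    (Nat.mul_le_mul_left _ h1).trans (amgm s r)
  have h3 : (∑ i, r i) ^ 2 ≤ 4 * w * s ^ 3 := by
    have h4 := sq_sum_le_card_mul_sum_sq (s := (univ : Finset (Fin s))) (f := r)
    have h5 := sum_sq_bound s w φ hw
    rw [card_univ, Fintype.card_fin] at h4
    calc (∑ i, r i) ^ 2 ≤ s * ∑ i, r i ^ 2 := h4
      _ ≤ s * (4 * w * s ^ 2) := Nat.mul_le_mul_left _ h5
      _ = 4 * w * s ^ 3 := by ring
  calc _ ≤ ((∑ i, r i) ^ s) ^ 2 := Nat.pow_le_pow_left h2 2
    _ = ((∑ i, r i) ^ 2) ^ s := by rw [← pow_mul, ← pow_mul, mul_comm]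
    _ ≤ _ := Nat.pow_le_pow_left h3 s

open Classical in
lemma exists_perms {p : ℕ} [Fact p.Prime] (s' t : ℕ) (hs' : 0 < s')
    (hp : 3 ^ 8 * 4 ^ 6 * t ^ 4 < p) :
    ∃ π : Fin 16 → Equiv.Perm (Fin (p ^ 2 * s')), ∀ φ : Fin (p ^ 2 * s') → ZMod p × ZMod p,
      (∀ v, (univ.filter (fun i => φ i = v)).card ≤ (p + Nat.sqrt (p ^ 3)) * t * s') →
      ∃ l i, ¬ rel (φ i) (φ (π l i)) := by
  set s := p ^ 2 * s' with hs
  set w := (p + Nat.sqrt (p ^ 3)) * t * s' with hw
  have hppos : 0 < p := (Fact.out : p.Prime).pos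
  have hspos : 0 < s := by positivity
  by_contra hcon
  push Not at hcon
  -- choose a map for each tuple
  have hsub : (univ : Finset (Fin 16 → Equiv.Perm (Fin s))) ⊆
      (univ.filter (fun φ : Fin s → ZMod p × ZMod p => ∀ v, (univ.filter (fun i => φ i = v)).card ≤ w)).biUnion
        (fun φ => Fintype.piFinset (fun _ : Fin 16 => univ.filter (fun π : Equiv.Perm (Fin s) => ∀ i, rel (φ i) (φ (π i))))) := by
    intro π _
    obtain ⟨φ, h1, h2⟩ := hcon π
    simp only [mem_biUnion, mem_filter, mem_univ, true_and, Fintype.mem_piFinset]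
    exact ⟨φ, h1, h2⟩
  have hcard := (card_le_card hsub).trans card_biUnion_le
  have hlhs : (univ : Finset (Fin 16 → Equiv.Perm (Fin s))).card = s.factorial ^ 16 := by
    rw [card_univ, Fintype.card_fun, Fintype.card_perm, Fintype.card_fin, Fintype.card_fin]
  rw [hlhs] at hcard
  -- multiply by (s^s)^16
  have hmul : (s ^ s) ^ 16 * s.factorial ^ 16 ≤ (p ^ 2) ^ s * ((4 * w * s ^ 3) ^ s) ^ 8 := by
    refine (Nat.mul_le_mul_left _ hcard).trans ?_
    rw [mul_sum]
    have : ∀ φ ∈ (univ.filter (fun φ : Fin s → ZMod p × ZMod p => ∀ v, (univ.filter (fun i => φ i = v)).card ≤ w)),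
        (s ^ s) ^ 16 * (Fintype.piFinset (fun _ : Fin 16 => univ.filter (fun π : Equiv.Perm (Fin s) => ∀ i, rel (φ i) (φ (π i))))).card
          ≤ ((4 * w * s ^ 3) ^ s) ^ 8 := by
      intro φ hφ
      simp only [mem_filter, mem_univ, true_and] at hφ
      rw [Fintype.card_piFinset, prod_const, card_univ, Fintype.card_fin, ← mul_pow]
      have := Nat.pow_le_pow_left (perm_count s w φ hφ) 8
      rw [← pow_mul] at this
      exact this
    refine (sum_le_sum this).trans ?_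
    rw [sum_const, smul_eq_mul]
    refine Nat.mul_le_mul_right _ ?_
    refine (card_filter_le _ _).trans ?_
    rw [card_univ, Fintype.card_fun, Fintype.card_prod, ZMod.card, Fintype.card_fin, sq]
  have hmul2 : (s ^ 32) ^ s ≤ (3 ^ 16 * p ^ 2 * (4 * w * s ^ 3) ^ 8) ^ s := by
    have h1 : (s ^ s) ^ 16 ≤ (3 ^ s * s.factorial) ^ 16 := Nat.pow_le_pow_left (fact_bound s) 16
    calc (s ^ 32) ^ s = (s ^ s) ^ 16 * (s ^ s) ^ 16 := by ring
      _ ≤ (s ^ s) ^ 16 * (3 ^ s * s.factorial) ^ 16 := Nat.mul_le_mul_left _ h1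
      _ = (3 ^ s) ^ 16 * ((s ^ s) ^ 16 * s.factorial ^ 16) := by ring
      _ ≤ (3 ^ s) ^ 16 * ((p ^ 2) ^ s * ((4 * w * s ^ 3) ^ s) ^ 8) := Nat.mul_le_mul_left _ hmul
      _ = (3 ^ 16) ^ s * (p ^ 2) ^ s * ((4 * w * s ^ 3) ^ 8) ^ s := by
          rw [← pow_mul 3 s 16, mul_comm s 16, pow_mul 3 16 s, ← pow_mul _ s 8, mul_comm s 8, pow_mul _ 8 s]
          exact (mul_assoc _ _ _).symm
      _ = _ := by rw [← mul_pow, ← mul_pow]
  have hmul3 : s ^ 32 ≤ 3 ^ 16 * p ^ 2 * (4 * w * s ^ 3) ^ 8 :=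
    (Nat.pow_le_pow_iff_left (by omega)).mp hmul2
  have hα : (p + Nat.sqrt (p ^ 3)) ^ 2 ≤ 4 * p ^ 3 := by
    have h1 : Nat.sqrt (p ^ 3) ^ 2 ≤ p ^ 3 := Nat.sqrt_le' _
    have h2 : p ^ 2 ≤ p ^ 3 := Nat.pow_le_pow_right hppos (by norm_num)
    nlinarith [sq_nonneg ((p:ℤ) - Nat.sqrt (p^3)), two_mul_le_add_sq p (Nat.sqrt (p^3))]
  have hα8 : (p + Nat.sqrt (p ^ 3)) ^ 8 ≤ 4 ^ 4 * p ^ 12 := by
    calc (p + Nat.sqrt (p ^ 3)) ^ 8 = ((p + Nat.sqrt (p ^ 3)) ^ 2) ^ 4 := by ring
      _ ≤ (4 * p ^ 3) ^ 4 := Nat.pow_le_pow_left hα 4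
      _ = _ := by ring
  have hfin : s ^ 24 * (p ^ 16 * s' ^ 8) ≤ s ^ 24 * ((3 ^ 16 * 4 ^ 12 * t ^ 8 * p ^ 14) * s' ^ 8) := by
    calc s ^ 24 * (p ^ 16 * s' ^ 8) = s ^ 32 := by rw [hs]; ring
      _ ≤ 3 ^ 16 * p ^ 2 * (4 * w * s ^ 3) ^ 8 := hmul3
      _ = s ^ 24 * (3 ^ 16 * 4 ^ 8 * p ^ 2 * t ^ 8 * s' ^ 8 * (p + Nat.sqrt (p ^ 3)) ^ 8) := by
          rw [hw]; ring
      _ ≤ s ^ 24 * (3 ^ 16 * 4 ^ 8 * p ^ 2 * t ^ 8 * s' ^ 8 * (4 ^ 4 * p ^ 12)) :=
          Nat.mul_le_mul_left _ (Nat.mul_le_mul_left _ hα8)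
      _ = _ := by ring
  have h1 := Nat.le_of_mul_le_mul_left hfin (by positivity)
  have h2 := Nat.le_of_mul_le_mul_right h1 (by positivity)
  have h3 : p ^ 14 * p ^ 2 ≤ p ^ 14 * (3 ^ 16 * 4 ^ 12 * t ^ 8) := by
    calc p ^ 14 * p ^ 2 = p ^ 16 := by ring
      _ ≤ _ := h2
      _ = _ := by ring
  have h4 := Nat.le_of_mul_le_mul_left h3 (by positivity)
  have h5 : (3 ^ 8 * 4 ^ 6 * t ^ 4) ^ 2 < p ^ 2 := Nat.pow_lt_pow_left hp (by norm_num)
  have h6 : (3 ^ 8 * 4 ^ 6 * t ^ 4) ^ 2 = 3 ^ 16 * 4 ^ 12 * t ^ 8 := by ring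
  omega

/-- the graph: Hamiltonian path plus the permutation edges on the first s vertices -/
def bigG (n s : ℕ) (π : Fin 16 → Equiv.Perm (Fin s)) : SimpleGraph (Fin n) :=
  SimpleGraph.fromRel (fun u v => u.val + 1 = v.val ∨
    ∃ l, ∃ h : u.val < s, v.val = (π l ⟨u.val, h⟩).val)

lemma bigG_connected (n s : ℕ) (hn : 0 < n) (π : Fin 16 → Equiv.Perm (Fin s)) :
    (bigG n s π).Connected := by
  obtain ⟨m, rfl⟩ : ∃ m, n = m + 1 := ⟨n - 1, by omega⟩
  refine (SimpleGraph.pathGraph_connected m).mono ?_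
  intro u v huv
  rw [SimpleGraph.pathGraph_adj] at huv
  rw [bigG, SimpleGraph.fromRel_adj]
  refine ⟨?_, ?_⟩
  · rintro rfl
    omega
  · rcases huv with h | h
    · left; left; exact h
    · right; left; exact h

lemma bigG_degree (n s : ℕ) (π : Fin 16 → Equiv.Perm (Fin s)) (u : Fin n) :
    ((bigG n s π).neighborSet u).ncard ≤ 34 := by
  classical
  have hn : 0 < n := Fin.pos u
  let clamp : ℕ → Fin n := fun x => if h : x < n then ⟨x, h⟩ else u
  let g : Bool ⊕ (Fin 16 × Bool) → Fin n := fun x => match x with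
    | Sum.inl true => clamp (u.val + 1)
    | Sum.inl false => clamp (u.val - 1)
    | Sum.inr (l, true) => if h : u.val < s then clamp (π l ⟨u.val, h⟩).val else u
    | Sum.inr (l, false) => if h : u.val < s then clamp ((π l).symm ⟨u.val, h⟩).val else u
  have hcl : ∀ v : Fin n, clamp v.val = v := by
    intro v
    simp [clamp]
  have hsub : (bigG n s π).neighborSet u ⊆ Set.range g := by
    intro v hv
    rw [SimpleGraph.mem_neighborSet, bigG, SimpleGraph.fromRel_adj] at hv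
    obtain ⟨hne, h | h⟩ := hv
    · rcases h with h | ⟨l, hs, h⟩
      · refine ⟨Sum.inl true, ?_⟩
        change clamp (u.val + 1) = v
        rw [h, hcl]
      · refine ⟨Sum.inr (l, true), ?_⟩
        change (if h : u.val < s then clamp (π l ⟨u.val, h⟩).val else u) = v
        rw [dif_pos hs, ← h, hcl]
    · rcases h with h | ⟨l, hs, h⟩
      · refine ⟨Sum.inl false, ?_⟩
        change clamp (u.val - 1) = v
        rw [← h, Nat.add_sub_cancel, hcl]
      · refine ⟨Sum.inr (l, false), ?_⟩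
        have hus : u.val < s := by rw [h]; exact (π l ⟨v.val, hs⟩).isLt
        change (if h : u.val < s then clamp ((π l).symm ⟨u.val, h⟩).val else u) = v
        rw [dif_pos hus]
        have : (⟨u.val, hus⟩ : Fin s) = π l ⟨v.val, hs⟩ := Fin.ext h
        rw [this, Equiv.symm_apply_apply, hcl]
  have h1 := Set.ncard_le_ncard hsub (Set.finite_range g)
  refine h1.trans ?_
  rw [← Set.image_univ]
  refine (Set.ncard_image_le Set.finite_univ).trans ?_
  rw [Set.ncard_univ, Nat.card_eq_fintype_card]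
  simp

lemma bigG_bandwidth (n s : ℕ) (hs : 0 < s) (π : Fin 16 → Equiv.Perm (Fin s)) (u v : Fin n)
    (h : (bigG n s π).Adj u v) : |((u : ℕ) : ℝ) - ((v : ℕ) : ℝ)| ≤ s := by
  rw [bigG, SimpleGraph.fromRel_adj] at h
  have key : ∀ a b : Fin n, (a.val + 1 = b.val ∨ ∃ l, ∃ h : a.val < s, b.val = (π l ⟨a.val, h⟩).val) →
      |((a : ℕ) : ℝ) - ((b : ℕ) : ℝ)| ≤ s := by
    intro a b hab
    have hs1 : (1:ℝ) ≤ s := by exact_mod_cast hs
    rcases hab with h | ⟨l, hl, h⟩
    · rw [← h]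
      push_cast
      rw [abs_le]; constructor <;> linarith
    · have hb : b.val < s := by rw [h]; exact (π l ⟨a.val, hl⟩).isLt
      have ha' : ((a:ℕ):ℝ) < s := by exact_mod_cast hl
      have hb' : ((b:ℕ):ℝ) < s := by exact_mod_cast hb
      have ha0 : (0:ℝ) ≤ ((a:ℕ):ℝ) := by positivity
      have hb0 : (0:ℝ) ≤ ((b:ℕ):ℝ) := by positivity
      rw [abs_le]; constructor <;> linarith
  obtain ⟨_, h | h⟩ := h
  · exact key u v h
  · rw [abs_sub_comm]; exact key v u h

theorem main_aux :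
    ¬ (∀ d : ℕ, 3 ≤ d → ∃ ε : ℝ, 0 < ε ∧
    ∀ k : ℕ, 1 ≤ k → ∀ H : SimpleGraph (Fin k), ∃ n₀ : ℕ, ∀ n : ℕ, n₀ ≤ n →
      ∀ G : SimpleGraph (Fin n), G.Connected →
        (∀ v : Fin n, (G.neighborSet v).ncard ≤ d) →
        (∃ π : Fin n ≃ Fin n, ∀ u v : Fin n, G.Adj u v →
            |((π u : ℕ) : ℝ) - ((π v : ℕ) : ℝ)| ≤ ε * (n : ℝ)) →
        ∀ c : Fin k → Fin H.chromaticNumber.toNat,
          (∀ u v : Fin k, H.Adj u v → c u ≠ c v) →
          ∀ i : Fin H.chromaticNumber.toNat,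
            ∀ N : ℕ, N = (H.chromaticNumber.toNat - 1) * (n - 1)
                + (Finset.univ.filter (fun v : Fin k => c v = i)).card →
            ∀ F : SimpleGraph (Fin N),
              (∃ f : Fin n → Fin N, Function.Injective f ∧
                  ∀ u v : Fin n, G.Adj u v → F.Adj (f u) (f v)) ∨
              (∃ g : Fin k → Fin N, Function.Injective g ∧
                  ∀ u v : Fin k, H.Adj u v → Fᶜ.Adj (g u) (g v))) := by
  classical
  intro hall
  obtain ⟨ε, hε, h⟩ := hall 34 (by norm_num)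
  -- choose t and p
  obtain ⟨t, ht⟩ := exists_nat_gt (1 / ε)
  have htpos' : (0:ℝ) < t := lt_trans (by positivity) ht
  have htpos : 0 < t := by exact_mod_cast htpos'
  obtain ⟨p, hpge, hpp⟩ := Nat.exists_infinite_primes (3 ^ 8 * 4 ^ 6 * t ^ 4 + 1)
  have : Fact p.Prime := ⟨hpp⟩
  have hppos : 0 < p := hpp.pos
  set α := p + Nat.sqrt (p ^ 3) with hα
  have hαpos : 0 < α := by omega
  have hchr : (⊤ : SimpleGraph (Fin (α + 1))).chromaticNumber.toNat = α + 1 := by
    rw [SimpleGraph.chromaticNumber_top, Fintype.card_fin]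
    rfl
  obtain ⟨n₀, h⟩ := h (α + 1) (by omega) ⊤
  set s' := n₀ + 1 with hs'
  set s := p ^ 2 * s' with hs
  have hs'pos : 0 < s' := by omega
  have hspos : 0 < s := by positivity
  set n := t * s with hn
  have hnpos : 0 < n := by positivity
  have hn0 : n₀ ≤ n := by
    have h1 : s' ≤ s := Nat.le_mul_of_pos_left _ (by positivity)
    have h2 : s ≤ n := Nat.le_mul_of_pos_left _ htpos
    omega
  obtain ⟨π, hπ⟩ := exists_perms (p := p) s' t hs'pos (by omega)
  have h := h n hn0 (bigG n s π) (bigG_connected n s hnpos π) (bigG_degree n s π)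
    ⟨Equiv.refl _, fun u v huv => by
      refine (bigG_bandwidth n s hspos π u v huv).trans ?_
      rw [hn]
      push_cast
      have h1 : 1 ≤ ε * t := by
        rw [div_lt_iff₀ hε] at ht
        linarith
      have h2 : (0:ℝ) ≤ s := by positivity
      nlinarith⟩
    (fun x => Fin.cast hchr.symm x)
    (fun u v huv => by
      intro hc
      exact huv (Fin.cast_injective _ hc))
    (Fin.cast hchr.symm 0) _ rfl
  set N := ((⊤ : SimpleGraph (Fin (α + 1))).chromaticNumber.toNat - 1) * (n - 1)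
                + (Finset.univ.filter (fun v : Fin (α + 1) => Fin.cast hchr.symm v = Fin.cast hchr.symm 0)).card with hN
  have hNval : N ≤ p ^ 2 * (α * t * s') := by
    have h1 : (Finset.univ.filter (fun v : Fin (α + 1) => Fin.cast hchr.symm v = Fin.cast hchr.symm 0)).card = 1 := by
      rw [Finset.card_eq_one]
      refine ⟨0, ?_⟩
      ext v
      simp only [mem_filter, mem_univ, true_and, mem_singleton]
      constructor
      · intro hv; exact Fin.cast_injective _ hv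
      · rintro rfl; rfl
    rw [hN, h1, hchr, Nat.add_sub_cancel]
    calc α * (n - 1) + 1 ≤ α * (n - 1) + α := by omega
      _ = α * n := by
        obtain ⟨m, hm⟩ : ∃ m, n = m + 1 := ⟨n - 1, by omega⟩
        rw [hm, Nat.add_sub_cancel]; ring
      _ = p ^ 2 * (α * t * s') := by rw [hn, hs]; ring
  -- the colouring
  have hemb : Nonempty (Fin N ↪ (ZMod p × ZMod p) × Fin (α * t * s')) := by
    rw [Function.Embedding.nonempty_iff_card_le]
    rw [Fintype.card_fin, Fintype.card_prod, Fintype.card_prod, ZMod.card, Fintype.card_fin, ← sq]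
    exact hNval
  obtain ⟨e⟩ := hemb
  let ψ : Fin N → ZMod p × ZMod p := fun x => (e x).1
  let F : SimpleGraph (Fin N) :=
    { Adj := fun x y => x ≠ y ∧ rel (ψ x) (ψ y)
      symm := ⟨fun x y hxy => ⟨hxy.1.symm, rel_symm hxy.2⟩⟩
      loopless := ⟨fun x hx => hx.1 rfl⟩ }
  rcases h F with ⟨f, hf, hfadj⟩ | ⟨g, hg, hgadj⟩
  · have hsn : s ≤ n := Nat.le_mul_of_pos_left _ htpos
    let φ : Fin s → ZMod p × ZMod p := fun i => ψ (f (Fin.castLE hsn i))
    have hfib : ∀ v, (univ.filter (fun i => φ i = v)).card ≤ α * t * s' := by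
      intro v
      have : (univ.filter (fun i => φ i = v)).card ≤ (univ : Finset (Fin (α * t * s'))).card := by
        refine card_le_card_of_injOn (fun i => (e (f (Fin.castLE hsn i))).2) (fun _ _ => mem_coe.2 (mem_univ _)) ?_
        intro i hi j hj hij
        simp only [coe_filter, mem_univ, true_and, Set.mem_ofPred_eq] at hi hj
        have h1 : e (f (Fin.castLE hsn i)) = e (f (Fin.castLE hsn j)) := by
          refine Prod.ext ?_ hij
          exact hi.trans hj.symm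
        have h2 := hf (e.injective h1)
        exact Fin.castLE_injective hsn h2
      rwa [card_univ, Fintype.card_fin] at this
    obtain ⟨l, i, hli⟩ := hπ φ hfib
    by_cases hfix : π l i = i
    · rw [hfix] at hli
      exact hli (rel_refl _)
    · have hadj : (bigG n s π).Adj (Fin.castLE hsn i) (Fin.castLE hsn (π l i)) := by
        rw [bigG, SimpleGraph.fromRel_adj]
        refine ⟨fun hc => hfix (Fin.castLE_injective hsn hc).symm, ?_⟩
        left; right
        exact ⟨l, i.isLt, rfl⟩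
      exact hli (hfadj _ _ hadj).2
  · have hcard := indep_bound (p := p) (univ.image (fun x => ψ (g x))) (by
      intro x hx y hy hxy
      simp only [mem_image, mem_univ, true_and] at hx hy
      obtain ⟨a, rfl⟩ := hx
      obtain ⟨b, rfl⟩ := hy
      have hab : a ≠ b := by rintro rfl; exact hxy rfl
      have h1 := hgadj a b hab
      rw [SimpleGraph.compl_adj] at h1
      intro hr
      exact h1.2 ⟨h1.1, hr⟩)
    rw [card_image_of_injective, card_univ, Fintype.card_fin] at hcard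
    · omega
    · intro a b hab
      by_contra hne
      have h1 := hgadj a b hne
      rw [SimpleGraph.compl_adj] at h1
      exact h1.2 ⟨h1.1, by
        have : ψ (g a) = ψ (g b) := hab
        rw [this]; exact rel_refl _⟩

end

theorem result :
    ¬ (∀ d : ℕ, 3 ≤ d → ∃ ε : ℝ, 0 < ε ∧
    ∀ k : ℕ, 1 ≤ k → ∀ H : SimpleGraph (Fin k), ∃ n₀ : ℕ, ∀ n : ℕ, n₀ ≤ n →
      ∀ G : SimpleGraph (Fin n), G.Connected →
        (∀ v : Fin n, (G.neighborSet v).ncard ≤ d) →
        (∃ π : Fin n ≃ Fin n, ∀ u v : Fin n, G.Adj u v →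
            |((π u : ℕ) : ℝ) - ((π v : ℕ) : ℝ)| ≤ ε * (n : ℝ)) →
        ∀ c : Fin k → Fin H.chromaticNumber.toNat,
          (∀ u v : Fin k, H.Adj u v → c u ≠ c v) →
          ∀ i : Fin H.chromaticNumber.toNat,
            ∀ N : ℕ, N = (H.chromaticNumber.toNat - 1) * (n - 1)
                + (Finset.univ.filter (fun v : Fin k => c v = i)).card →
            ∀ F : SimpleGraph (Fin N),
              (∃ f : Fin n → Fin N, Function.Injective f ∧
                  ∀ u v : Fin n, G.Adj u v → F.Adj (f u) (f v)) ∨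
              (∃ g : Fin k → Fin N, Function.Injective g ∧
                  ∀ u v : Fin k, H.Adj u v → Fᶜ.Adj (g u) (g v))) :=
  main_aux

end Pool.Agent.S12292
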