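import Pool.Statements.S12534
-- import your own Pool.Agent.* helpers here

set_option autoImplicit false
set_option synthInstance.maxHeartbeats 4000000
set_option synthInstance.maxSize 100000
open Pool Pool.MP_fa745a_co

namespace Pool.Agent.S12534

/-! ### The counterexample

`J` is the graph on the nine vertices `a, b, c, x₁, x₂, x₃, y₁, y₂, y₃` with edges
`ac, bc, a xᵢ, b yᵢ, xᵢ yᵢ` (the theta graph with paths of lengths 2, 3, 3, 3).  Give the edges
`ac, bc` multiplicity `1`, the edges `a xᵢ, b yᵢ` multiplicity `2` and the edges `xᵢ yᵢ`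
multiplicity `5`.  The line graph of this multigraph has 29 vertices; its holes have length 5 or 6,
its independence number is 4 (so its chromatic number is at least 8), and it has no `K₈`-model with
branch sets of size at most 2. -/

/-- The list of types of the 29 vertices. -/
def tpList : List ℕ :=
  [0, 1, 2, 2, 3, 3, 4, 4, 5, 5, 6, 6, 7, 7, 8, 8, 8, 8, 8, 9, 9, 9, 9, 9, 10, 10, 10, 10, 10]

/-- The vertex masks of the 11 edges of `J`. -/
def vmList : List ℕ := [5, 6, 9, 17, 33, 66, 130, 258, 72, 144, 288]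

/-- The type of a vertex of the line graph. -/
def tp (u : Fin 29) : ℕ := tpList.getD u.val 0

/-- Vertex mask. -/
def vm (s : ℕ) : ℕ := vmList.getD s 0

/-- Type mask. -/
def tm (s : ℕ) : ℕ := 2 ^ s

/-- Two types touch. -/
def tch (s t : ℕ) : Bool := (vm s) &&& (vm t) != 0

lemma tch_comm (s t : ℕ) : tch s t = tch t s := by
  unfold tch; rw [Nat.land_comm]

/-- The 29-vertex graph. -/
def G : SimpleGraph (Fin 29) where
  Adj u v := u ≠ v ∧ tch (tp u) (tp v) = true
  symm := ⟨fun u v h => ⟨h.1.symm, by rw [tch_comm]; exact h.2⟩⟩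
  loopless := ⟨fun u h => h.1 rfl⟩

lemma tp_lt (u : Fin 29) : tp u < 11 := by revert u; decide

/-- types as a `Fin 11` -/
def tf (u : Fin 29) : Fin 11 := ⟨tp u, tp_lt u⟩

/-- touching of `Fin 11` types. -/
abbrev T (s t : Fin 11) : Prop := tch s.val t.val = true

set_option maxRecDepth 100000 in
lemma noP8 : ∀ a0 a1 : Fin 11, T a0 a1 → ∀ a2, T a1 a2 → ¬ T a0 a2 →
    ∀ a3, T a2 a3 → ¬ T a0 a3 → ¬ T a1 a3 →
    ∀ a4, T a3 a4 → ¬ T a0 a4 → ¬ T a1 a4 → ¬ T a2 a4 →
    ∀ a5, T a4 a5 → ¬ T a0 a5 → ¬ T a1 a5 → ¬ T a2 a5 → ¬ T a3 a5 →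
    ∀ a6, T a5 a6 → ¬ T a0 a6 → ¬ T a1 a6 → ¬ T a2 a6 → ¬ T a3 a6 → ¬ T a4 a6 →
    ∀ a7, T a6 a7 → ¬ T a0 a7 → ¬ T a1 a7 → ¬ T a2 a7 → ¬ T a3 a7 → ¬ T a4 a7 → ¬ T a5 a7 →
    False := by
  decide +kernel

set_option maxRecDepth 100000 in
lemma noC7 : ∀ a0 a1 : Fin 11, T a0 a1 → ∀ a2, T a1 a2 → ¬ T a0 a2 →
    ∀ a3, T a2 a3 → ¬ T a0 a3 → ¬ T a1 a3 →
    ∀ a4, T a3 a4 → ¬ T a0 a4 → ¬ T a1 a4 → ¬ T a2 a4 →
    ∀ a5, T a4 a5 → ¬ T a0 a5 → ¬ T a1 a5 → ¬ T a2 a5 → ¬ T a3 a5 →
    ∀ a6, T a5 a6 → T a0 a6 → ¬ T a1 a6 → ¬ T a2 a6 → ¬ T a3 a6 → ¬ T a4 a6 →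
    False := by
  decide +kernel

set_option maxRecDepth 100000 in
lemma noI5 : ∀ a0 a1 : Fin 11, ¬ T a0 a1 → ∀ a2, ¬ T a0 a2 → ¬ T a1 a2 →
    ∀ a3, ¬ T a0 a3 → ¬ T a1 a3 → ¬ T a2 a3 →
    ∀ a4, ¬ T a0 a4 → ¬ T a1 a4 → ¬ T a2 a4 → ¬ T a3 a4 → False := by
  decide +kernel

/-! ### No induced odd cycle of length at least 7 -/

lemma cyc_adj {m i j : ℕ} (hi : i < j) (hj : j < m) :
    (SimpleGraph.cycleGraph m).Adj ⟨i, hi.trans hj⟩ ⟨j, hj⟩ ↔ (j = i + 1 ∨ j = i + (m - 1)) := by
  rw [SimpleGraph.cycleGraph_adj']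
  have h1 : ((⟨i, hi.trans hj⟩ : Fin m) - ⟨j, hj⟩).val = m - j + i := by
    rw [Fin.sub_def]
    exact Nat.mod_eq_of_lt (by simp only []; omega)
  have h2 : ((⟨j, hj⟩ : Fin m) - ⟨i, hi.trans hj⟩).val = j - i := by
    rw [Fin.sub_def]
    simp only []
    have : m - i + j = (j - i) + m := by omega
    rw [this, Nat.add_mod_right]
    exact Nat.mod_eq_of_lt (by omega)
  rw [h1, h2]
  omega

lemma noCycle (k : ℕ) (hk : 3 ≤ k) : IsEmpty (SimpleGraph.Embedding
    (SimpleGraph.cycleGraph (2 * k + 1)) G) := by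
  constructor
  intro f
  have key : ∀ i j : ℕ, ∀ (hi : i < j) (hj : j < 2 * k + 1),
      (T (tf (f ⟨i, hi.trans hj⟩)) (tf (f ⟨j, hj⟩)) ↔ (j = i + 1 ∨ j = i + (2 * k + 1 - 1))) := by
    intro i j hi hj
    rw [← cyc_adj hi hj, ← f.map_rel_iff]
    constructor
    · intro h
      refine ⟨?_, h⟩
      intro hc
      have := f.injective hc
      simp only [Fin.mk.injEq] at this
      omega
    · intro h; exact h.2
  rcases Nat.lt_or_ge k 4 with h4 | h4
  · have hk3 : k = 3 := by omega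
    subst hk3
    have K := fun i j hi hj => key i j hi hj
    refine noC7 (tf (f ⟨0, by omega⟩)) (tf (f ⟨1, by omega⟩)) ?_ (tf (f ⟨2, by omega⟩)) ?_ ?_
      (tf (f ⟨3, by omega⟩)) ?_ ?_ ?_ (tf (f ⟨4, by omega⟩)) ?_ ?_ ?_ ?_
      (tf (f ⟨5, by omega⟩)) ?_ ?_ ?_ ?_ ?_ (tf (f ⟨6, by omega⟩)) ?_ ?_ ?_ ?_ ?_ ?_ <;>
    first
      | (rw [key _ _ (by omega) (by omega)]; omega)
  · refine noP8 (tf (f ⟨0, by omega⟩)) (tf (f ⟨1, by omega⟩)) ?_ (tf (f ⟨2, by omega⟩)) ?_ ?_
      (tf (f ⟨3, by omega⟩)) ?_ ?_ ?_ (tf (f ⟨4, by omega⟩)) ?_ ?_ ?_ ?_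
      (tf (f ⟨5, by omega⟩)) ?_ ?_ ?_ ?_ ?_ (tf (f ⟨6, by omega⟩)) ?_ ?_ ?_ ?_ ?_ ?_
      (tf (f ⟨7, by omega⟩)) ?_ ?_ ?_ ?_ ?_ ?_ ?_ <;>
    first
      | (rw [key _ _ (by omega) (by omega)]; omega)

/-! ### The chromatic number is at least 8 -/

lemma chrom (t : ℕ) (h : G.chromaticNumber ≤ (t : ℕ∞)) : 8 ≤ t := by
  by_contra hlt
  push Not at hlt
  rw [SimpleGraph.chromaticNumber_le_iff_colorable] at h
  obtain ⟨C⟩ := h
  have hcard : (Finset.univ : Finset (Fin t)).card * 4 < (Finset.univ : Finset (Fin 29)).card := by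
    simp only [Finset.card_univ, Fintype.card_fin]; omega
  obtain ⟨c, _, hc⟩ := Finset.exists_lt_card_fiber_of_mul_lt_card_of_maps_to
    (f := fun u : Fin 29 => (C u : Fin t)) (s := Finset.univ) (t := Finset.univ)
    (fun _ _ => Finset.mem_univ _) hcard
  set S := Finset.univ.filter (fun u : Fin 29 => (C u : Fin t) = c) with hS
  have hS5 : 5 ≤ S.card := hc
  let e := Finset.orderEmbOfCardLe S hS5
  have he : ∀ i, e i ∈ S := fun i => Finset.orderEmbOfCardLe_mem S hS5 i
  have hn : ∀ i j : Fin 5, i ≠ j → ¬ T (tf (e i)) (tf (e j)) := by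
    intro i j hij hT
    have h1 : (C (e i) : Fin t) = c := (Finset.mem_filter.mp (he i)).2
    have h2 : (C (e j) : Fin t) = c := (Finset.mem_filter.mp (he j)).2
    have hadj : G.Adj (e i) (e j) := ⟨fun h => hij (e.injective h), hT⟩
    exact C.valid hadj (h1.trans h2.symm)
  exact noI5 (tf (e 0)) (tf (e 1)) (hn _ _ (by decide)) (tf (e 2)) (hn _ _ (by decide))
    (hn _ _ (by decide)) (tf (e 3)) (hn _ _ (by decide)) (hn _ _ (by decide)) (hn _ _ (by decide))
    (tf (e 4)) (hn _ _ (by decide)) (hn _ _ (by decide)) (hn _ _ (by decide)) (hn _ _ (by decide))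

/-! ### No eight pairwise adjacent branch sets of size at most 2 -/

/-- All bag types: vertex mask and type mask. -/
def bags : List (ℕ × ℕ) :=
  (List.range 11).flatMap fun s => (List.range 11).filterMap fun t =>
    if s ≤ t ∧ tch s t = true then some (vm s ||| vm t, tm s ||| tm t) else none

/-- The hitting sets (masks of sets of types), all of total multiplicity at most 7. -/
def Hs : List ℕ :=
  [29, 226, 260, 520, 1040, 288, 576, 1152, 259, 515, 1027] ++
  ((List.range 3).flatMap fun i => (List.range 3).flatMap fun j =>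
    if i = j then [] else
      (List.range 2).flatMap fun c =>
        [tm (2 + i) ||| tm (2 + j) ||| tm (5 + i) ||| tm c,
         tm (5 + i) ||| tm (5 + j) ||| tm (2 + i) ||| tm c])

/-- The search. -/
def refute : ℕ → List (ℕ × ℕ) → Bool
  | 0, _ => false
  | n + 1, found =>
    match Hs.find? (fun H => found.all fun b => b.2 &&& H != 0) with
    | none => false
    | some H => bags.all fun b => (b.2 &&& H != 0) || (found.any fun m => m.1 &&& b.1 == 0) ||
        refute n (b :: found)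

set_option maxRecDepth 100000 in
lemma refute_true : refute 7 [] = true := by decide +kernel

lemma refute_sound (P : ℕ × ℕ → Prop) (h1 : ∀ b, P b → b ∈ bags)
    (h2 : ∀ b c, P b → P c → b.1 &&& c.1 ≠ 0)
    (h3 : ∀ H ∈ Hs, ∃ b, P b ∧ b.2 &&& H = 0) :
    ∀ n found, (∀ b ∈ found, P b) → refute n found = true → False := by
  intro n
  induction n with
  | zero => intro found _ h; simp [refute] at h
  | succ n ih =>
    intro found hf h
    rw [refute] at h
    split at h
    · simp at h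
    · rename_i H hH
      have hHm : H ∈ Hs := List.mem_of_find?_eq_some hH
      obtain ⟨b, hb, hbH⟩ := h3 H hHm
      rw [List.all_eq_true] at h
      have := h b (h1 b hb)
      rw [Bool.or_eq_true, Bool.or_eq_true] at this
      rcases this with (h' | h') | h'
      · simp [hbH] at h'
      · rw [List.any_eq_true] at h'
        obtain ⟨m, hm, hm2⟩ := h'
        exact h2 m b (hf m hm) hb (by simpa using hm2)
      · refine ih (b :: found) ?_ h'
        intro c hc
        rcases List.mem_cons.mp hc with rfl | hc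
        · exact hb
        · exact hf c hc

set_option maxRecDepth 100000 in
lemma Hs_card : ∀ H ∈ Hs, (Finset.univ.filter (fun u : Fin 29 => tm (tp u) &&& H ≠ 0)).card ≤ 7 := by
  decide +kernel

set_option maxRecDepth 100000 in
lemma bags_mem : ∀ s t : Fin 11, T s t → (vm s ||| vm t, tm s ||| tm t) ∈ bags := by
  decide +kernel

lemma land_lor_ne {x y z w : ℕ} (h : x &&& z ≠ 0) : (x ||| y) &&& (z ||| w) ≠ 0 := by
  intro h0
  apply h
  apply Nat.eq_of_testBit_eq
  intro i
  have := congrArg (fun n => n.testBit i) h0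
  simp only [Nat.testBit_and, Nat.testBit_or, Nat.zero_testBit] at this ⊢
  revert this
  cases x.testBit i <;> cases z.testBit i <;> simp

lemma lor_land_eq_zero {x y H : ℕ} (hx : x &&& H = 0) (hy : y &&& H = 0) : (x ||| y) &&& H = 0 := by
  apply Nat.eq_of_testBit_eq
  intro i
  have h1 := congrArg (fun n => n.testBit i) hx
  have h2 := congrArg (fun n => n.testBit i) hy
  simp only [Nat.testBit_and, Nat.testBit_or, Nat.zero_testBit] at h1 h2 ⊢
  revert h1 h2
  cases x.testBit i <;> cases y.testBit i <;> cases H.testBit i <;> simp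

lemma tch_self : ∀ s : Fin 11, T s s := by decide

lemma nomodel (t : ℕ) (ht : 8 ≤ t) (B : Fin t → Finset (Fin 29))
    (hB : ∀ i, (B i).Nonempty ∧ (B i).card ≤ 2 ∧ ∀ u ∈ B i, ∀ v ∈ B i, u ≠ v → G.Adj u v)
    (hBB : ∀ i j, i ≠ j → Disjoint (B i) (B j) ∧ ∃ u ∈ B i, ∃ v ∈ B j, G.Adj u v) : False := by
  classical
  -- every bag is `{u, v}` with `u = v` allowed
  have hpair : ∀ i, ∃ u v : Fin 29, B i = {u, v} ∧ T (tf u) (tf v) := by
    intro i
    obtain ⟨hne, hc, hadj⟩ := hB i
    have hpos : 0 < (B i).card := hne.card_pos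
    have h12 : (B i).card = 1 ∨ (B i).card = 2 := by omega
    rcases h12 with h | h
    · obtain ⟨u, hu⟩ := Finset.card_eq_one.mp h
      exact ⟨u, u, by rw [hu]; simp, tch_self _⟩
    · obtain ⟨u, v, huv, hu⟩ := Finset.card_eq_two.mp h
      refine ⟨u, v, hu, ?_⟩
      have := hadj u (by rw [hu]; simp) v (by rw [hu]; simp) huv
      exact this.2
  choose U V hUV hT using hpair
  let P : ℕ × ℕ → Prop := fun b => ∃ i, b = (vm (tp (U i)) ||| vm (tp (V i)),
    tm (tp (U i)) ||| tm (tp (V i)))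
  refine refute_sound P ?_ ?_ ?_ 7 [] (by simp) refute_true
  · rintro b ⟨i, rfl⟩
    exact bags_mem (tf (U i)) (tf (V i)) (hT i)
  · rintro b c ⟨i, rfl⟩ ⟨j, rfl⟩
    by_cases hij : i = j
    · subst hij
      have h0 : tch (tp (U i)) (tp (U i)) = true := tch_self (tf (U i))
      have h' : vm (tp (U i)) &&& vm (tp (U i)) ≠ 0 := by
        unfold tch at h0; exact bne_iff_ne.mp h0
      exact land_lor_ne h'
    · obtain ⟨_, u, hu, v, hv, hadj⟩ := hBB i j hij
      have h' : vm (tp u) &&& vm (tp v) ≠ 0 := by simpa [tch] using hadj.2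
      rw [hUV i, Finset.mem_insert, Finset.mem_singleton] at hu
      rw [hUV j, Finset.mem_insert, Finset.mem_singleton] at hv
      rcases hu with rfl | rfl <;> rcases hv with rfl | rfl
      · exact land_lor_ne h'
      · simp only []
        rw [Nat.lor_comm (vm (tp (U j)))]; exact land_lor_ne h'
      · simp only []
        rw [Nat.lor_comm (vm (tp (U i)))]; exact land_lor_ne h'
      · simp only []
        rw [Nat.lor_comm (vm (tp (U j))), Nat.lor_comm (vm (tp (U i)))]; exact land_lor_ne h'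
  · intro H hH
    by_contra hcon
    push Not at hcon
    -- every bag contains an element whose type is in `H`
    have hhit : ∀ i, ∃ w ∈ B i, tm (tp w) &&& H ≠ 0 := by
      intro i
      by_contra hno
      push Not at hno
      have hu := hno (U i) (by rw [hUV i]; simp)
      have hv := hno (V i) (by rw [hUV i]; simp)
      exact hcon _ ⟨i, rfl⟩ (lor_land_eq_zero hu hv)
    choose w hw hwH using hhit
    have hinj : Function.Injective w := by
      intro i j hij
      by_contra hne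
      have hd := (hBB i j hne).1
      exact (Finset.disjoint_left.mp hd (hw i)) (hij ▸ hw j)
    have hle : t ≤ (Finset.univ.filter (fun u : Fin 29 => tm (tp u) &&& H ≠ 0)).card := by
      have h1 : (Finset.univ.image w).card = t := by
        rw [Finset.card_image_of_injective _ hinj]; simp
      rw [← h1]
      apply Finset.card_le_card
      intro x hx
      obtain ⟨i, _, rfl⟩ := Finset.mem_image.mp hx
      simp only [Finset.mem_filter, Finset.mem_univ, true_and]
      exact hwH i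
    have := Hs_card H hH
    omega

/-- The negation of the preceding statement: Every finite graph with no induced odd cycle of length 7 or more has at least χ(G) disjoint, pairwise adjacent, connected vertex sets of size at most 2 (a clique model), i.e. had₂(G) ≥ χ(G). -/
theorem result :
    ¬ (∀ (n : ℕ) (G : SimpleGraph (Fin n)),
    (∀ k : ℕ, 3 ≤ k →
      IsEmpty (SimpleGraph.Embedding (SimpleGraph.cycleGraph (2 * k + 1)) G)) →
    ∃ (t : ℕ) (B : Fin t → Finset (Fin n)),
      G.chromaticNumber ≤ (t : ℕ∞) ∧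
      (∀ i, (B i).Nonempty ∧ (B i).card ≤ 2 ∧
        ∀ u ∈ B i, ∀ v ∈ B i, u ≠ v → G.Adj u v) ∧
      (∀ i j, i ≠ j → Disjoint (B i) (B j) ∧
        ∃ u ∈ B i, ∃ v ∈ B j, G.Adj u v)) := by
  intro h
  obtain ⟨t, B, h1, h2, h3⟩ := h 29 G noCycle
  exact nomodel t (chrom t h1) B h2 h3

end Pool.Agent.S12534
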