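import Pool.Statements.S12577
import Pool.Agent.Lib.MP_fc0021_co.Core
import Pool.Agent.Lib.MP_fc0021_co.Main
import Pool.Agent.Lib.MP_fc0021_co.Zykov

set_option autoImplicit false
open Pool Pool.MP_fc0021_co

namespace Pool.Agent.S12577

open Pool.Agent.Lib.MP_fc0021_co Finset

lemma lexK_lower {V : Type} [Fintype V] [DecidableEq V] (G : SimpleGraph V) (μ : V → ℝ)
    (ρ : ℝ) (hμ1 : ∑ x, μ x = 1)
    (hind : ∀ I : Finset V, (∀ x ∈ I, ∀ y ∈ I, ¬ G.Adj x y) → ρ * ∑ x ∈ I, μ x ≤ 1)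
    (q T : ℕ) (c : V × Fin q → Fin T) (hc : ∀ a b, (lexK G q).Adj a b → c a ≠ c b) :
    ρ * q ≤ T := by
  classical
  set I : Fin T → Finset V := fun s => Finset.univ.filter (fun x => ∃ i, c (x, i) = s) with hI
  have h1 : ∀ s, ρ * ∑ x ∈ I s, μ x ≤ 1 := by
    intro s
    apply hind
    intro x hx y hy hxy
    rw [hI] at hx hy
    simp only [Finset.mem_filter, Finset.mem_univ, true_and] at hx hy
    obtain ⟨i, hi⟩ := hx
    obtain ⟨j, hj⟩ := hy
    exact hc (x, i) (y, j) (Or.inl hxy) (hi.trans hj.symm)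
  have h2 : ∑ s, ∑ x ∈ I s, μ x = q := by
    have h3 : ∀ s, ∑ x ∈ I s, μ x = ∑ x, if (∃ i, c (x, i) = s) then μ x else 0 := by
      intro s
      rw [hI, Finset.sum_filter]
    rw [Finset.sum_congr rfl (fun s _ => h3 s), Finset.sum_comm]
    have h4 : ∀ x, ∑ s, (if (∃ i, c (x, i) = s) then μ x else 0) = q * μ x := by
      intro x
      rw [← Finset.sum_filter, Finset.sum_const, nsmul_eq_mul]
      congr 1
      have h5 : (Finset.univ.filter (fun s => ∃ i, c (x, i) = s)) =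
          Finset.univ.image (fun i => c (x, i)) := by
        ext s
        simp
      rw [h5, Finset.card_image_of_injective]
      · simp
      · intro i j hij
        by_contra hne
        exact hc (x, i) (x, j) (Or.inr ⟨rfl, hne⟩) hij
    rw [Finset.sum_congr rfl (fun x _ => h4 x), ← Finset.mul_sum, hμ1, mul_one]
  calc ρ * q = ∑ s : Fin T, ρ * ∑ x ∈ I s, μ x := by rw [← Finset.mul_sum, h2]
    _ ≤ ∑ _s : Fin T, (1 : ℝ) := Finset.sum_le_sum (fun s _ => h1 s)
    _ = T := by simp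

lemma sum_biUnion_le' {ι V : Type} [DecidableEq ι] [DecidableEq V] (μ : V → ℝ)
    (hμ0 : ∀ x, 0 ≤ μ x) (W : Finset ι) (f : ι → Finset V) :
    ∑ x ∈ W.biUnion f, μ x ≤ ∑ w ∈ W, ∑ x ∈ f w, μ x := by
  induction W using Finset.induction_on with
  | empty => simp
  | insert a s ha ih =>
    rw [Finset.biUnion_insert, Finset.sum_insert ha]
    have h1 : ∑ x ∈ f a ∪ s.biUnion f, μ x ≤ ∑ x ∈ f a, μ x + ∑ x ∈ s.biUnion f, μ x := by
      rw [← Finset.sum_union_inter]
      have : 0 ≤ ∑ x ∈ f a ∩ s.biUnion f, μ x := Finset.sum_nonneg (fun x _ => hμ0 x)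
      linarith
    linarith

lemma cover {V : Type} [Fintype V] [DecidableEq V] (G : SimpleGraph V) (μ : V → ℝ)
    (ρ : ℝ) (hρ : 0 < ρ) (hμ0 : ∀ x, 0 ≤ μ x) (hμ1 : ∑ x, μ x = 1)
    (htf : ∀ x y z, G.Adj x y → G.Adj y z → ¬ G.Adj x z)
    (hind : ∀ I : Finset V, (∀ x ∈ I, ∀ y ∈ I, ¬ G.Adj x y) → ρ * ∑ x ∈ I, μ x ≤ 1)
    (K : ℕ) (hK : 2 * (K : ℝ) < ρ) (W : Finset V) (hW : W.card < K) :
    ∃ v, ∀ w ∈ W, v ≠ w ∧ ¬ G.Adj w v := by
  classical
  by_contra hcon
  push Not at hcon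
  have hsub : (Finset.univ : Finset V) ⊆
      W.biUnion (fun w => {w} ∪ Finset.univ.filter (fun v => G.Adj w v)) := by
    intro v _
    obtain ⟨w, hw, h⟩ := hcon v
    rw [Finset.mem_biUnion]
    refine ⟨w, hw, ?_⟩
    simp only [Finset.mem_union, Finset.mem_singleton, Finset.mem_filter, Finset.mem_univ, true_and]
    by_cases hvw : v = w
    · exact Or.inl hvw
    · exact Or.inr (h hvw)
  have h1 : ∀ w, ρ * ∑ x ∈ ({w} ∪ Finset.univ.filter (fun v => G.Adj w v)), μ x ≤ 2 := by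
    intro w
    have ha := hind {w} (by
      intro x hx y hy hxy
      rw [Finset.mem_singleton] at hx hy
      rw [hx, hy] at hxy
      exact G.loopless.irrefl _ hxy)
    have hb := hind (Finset.univ.filter (fun v => G.Adj w v)) (by
      intro x hx y hy hxy
      simp only [Finset.mem_filter, Finset.mem_univ, true_and] at hx hy
      exact htf w x y hx hxy hy)
    have hu : ∑ x ∈ ({w} ∪ Finset.univ.filter (fun v => G.Adj w v)), μ x ≤
        ∑ x ∈ {w}, μ x + ∑ x ∈ Finset.univ.filter (fun v => G.Adj w v), μ x := by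
      rw [← Finset.sum_union_inter]
      have : 0 ≤ ∑ x ∈ ({w} ∩ Finset.univ.filter (fun v => G.Adj w v)), μ x :=
        Finset.sum_nonneg (fun x _ => hμ0 x)
      linarith
    calc _ ≤ ρ * (∑ x ∈ {w}, μ x + ∑ x ∈ Finset.univ.filter (fun v => G.Adj w v), μ x) :=
          mul_le_mul_of_nonneg_left hu hρ.le
      _ = ρ * ∑ x ∈ {w}, μ x + ρ * ∑ x ∈ Finset.univ.filter (fun v => G.Adj w v), μ x := by ring
      _ ≤ 2 := by linarith
  have h2 : ∑ x, μ x ≤ ∑ w ∈ W, ∑ x ∈ ({w} ∪ Finset.univ.filter (fun v => G.Adj w v)), μ x := by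
    refine (Finset.sum_le_sum_of_subset_of_nonneg hsub (fun x _ _ => hμ0 x)).trans ?_
    exact sum_biUnion_le' μ hμ0 W _
  rw [hμ1] at h2
  have h3 : ρ ≤ 2 * W.card := by
    calc ρ = ρ * 1 := (mul_one _).symm
      _ ≤ ρ * ∑ w ∈ W, ∑ x ∈ ({w} ∪ Finset.univ.filter (fun v => G.Adj w v)), μ x :=
          mul_le_mul_of_nonneg_left h2 hρ.le
      _ = ∑ w ∈ W, ρ * ∑ x ∈ ({w} ∪ Finset.univ.filter (fun v => G.Adj w v)), μ x := by
          rw [Finset.mul_sum]
      _ ≤ ∑ _w ∈ W, (2 : ℝ) := Finset.sum_le_sum (fun w _ => h1 w)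
      _ = 2 * W.card := by simp [mul_comm]
  have h4 : (W.card : ℝ) < K := by exact_mod_cast hW
  linarith

/-- A spanning subgraph with chromatic number exactly `n`, on `Fin a`. -/
lemma exact_sub {α : Type} [Fintype α] (Γ : SimpleGraph α) (n : ℕ) (hn : 1 ≤ n)
    (h : ∀ (T : ℕ) (c : α → Fin T), (∀ x y, Γ.Adj x y → c x ≠ c y) → n ≤ T) :
    ∃ (a : ℕ) (Γ' : SimpleGraph (Fin a)) (f : Fin a → α),
      (∀ i j, Γ'.Adj i j → Γ.Adj (f i) (f j)) ∧ Γ'.chromaticNumber = (n : ℕ∞) := by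
  classical
  -- an optimal colouring
  have hex : ∃ T : ℕ, ∃ c : α → Fin T, ∀ x y, Γ.Adj x y → c x ≠ c y :=
    ⟨Fintype.card α, Fintype.equivFin α, fun x y hxy heq =>
      hxy.ne ((Fintype.equivFin α).injective heq)⟩
  obtain ⟨N, ⟨c, hc⟩, hmin⟩ : ∃ N : ℕ, (∃ c : α → Fin N, ∀ x y, Γ.Adj x y → c x ≠ c y) ∧
      ∀ T < N, ¬ ∃ c : α → Fin T, ∀ x y, Γ.Adj x y → c x ≠ c y :=
    ⟨Nat.find hex, Nat.find_spec hex, fun T hT => Nat.find_min hex hT⟩
  have hnN : n ≤ N := h N c hc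
  set e := Fintype.equivFin α with he
  let Γ' : SimpleGraph (Fin (Fintype.card α)) :=
    { Adj := fun i j => Γ.Adj (e.symm i) (e.symm j) ∧ (c (e.symm i) : ℕ) < n ∧
        (c (e.symm j) : ℕ) < n
      symm := ⟨fun i j hij => ⟨hij.1.symm, hij.2.2, hij.2.1⟩⟩
      loopless := ⟨fun i hi => Γ.loopless.irrefl _ hi.1⟩ }
  refine ⟨Fintype.card α, Γ', e.symm, fun i j hij => hij.1, ?_⟩
  have hcol : Γ'.Colorable n := by
    refine ⟨SimpleGraph.Coloring.mk (fun i => if h : (c (e.symm i) : ℕ) < n then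
      ⟨c (e.symm i), h⟩ else ⟨0, hn⟩) ?_⟩
    intro i j hij heq
    have h1 : (c (e.symm i) : ℕ) < n := hij.2.1
    have h2 : (c (e.symm j) : ℕ) < n := hij.2.2
    simp only [h1, h2, dif_pos, Fin.mk.injEq] at heq
    exact hc _ _ hij.1 (Fin.ext heq)
  apply le_antisymm hcol.chromaticNumber_le
  by_contra hlt
  push Not at hlt
  -- a colouring with n - 1 colours
  have hcol' : Γ'.Colorable (n - 1) := by
    rw [← SimpleGraph.chromaticNumber_le_iff_colorable]
    have hne : Γ'.chromaticNumber ≠ ⊤ := ne_top_of_lt hlt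
    obtain ⟨k, hk⟩ := ENat.ne_top_iff_exists.mp hne
    rw [← hk] at hlt ⊢
    have : k < n := by exact_mod_cast hlt
    have : k ≤ n - 1 := by omega
    exact_mod_cast this
  obtain ⟨d⟩ := hcol'
  apply hmin (N - 1) (by omega)
  refine ⟨fun x => if hx : (c x : ℕ) < n then ⟨(d (e x) : ℕ), ?_⟩ else ⟨(c x : ℕ) - 1, ?_⟩, ?_⟩
  · have := (d (e x)).isLt
    omega
  · have := (c x).isLt
    omega
  · intro x y hxy heq
    have hcxy := hc x y hxy
    by_cases hx : (c x : ℕ) < n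
    · by_cases hy : (c y : ℕ) < n
      · simp only [hx, hy, dif_pos, Fin.mk.injEq] at heq
        have hadj : Γ'.Adj (e x) (e y) := by
          refine ⟨?_, ?_, ?_⟩
          · rw [Equiv.symm_apply_apply, Equiv.symm_apply_apply]; exact hxy
          · rw [Equiv.symm_apply_apply]; exact hx
          · rw [Equiv.symm_apply_apply]; exact hy
        exact d.valid hadj (Fin.ext heq)
      · simp only [hx, hy, dif_pos, dif_neg, not_false_eq_true, Fin.mk.injEq] at heq
        have := (d (e x)).isLt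
        omega
    · by_cases hy : (c y : ℕ) < n
      · simp only [hx, hy, dif_pos, dif_neg, not_false_eq_true, Fin.mk.injEq] at heq
        have := (d (e y)).isLt
        omega
      · simp only [hx, hy, dif_neg, not_false_eq_true, Fin.mk.injEq] at heq
        apply hcxy
        apply Fin.ext
        omega

/-- The core statement. -/
theorem core (K : ℕ) (hK : 1 ≤ K) : ∃ q0 : ℕ, ∀ q : ℕ, q0 ≤ q →
    ∀ n : ℕ, 1 ≤ n → n ≤ K * K * q →
      ∃ (a b : ℕ) (G : SimpleGraph (Fin a)) (H : SimpleGraph (Fin b)),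
        G.chromaticNumber = (n : ℕ∞) ∧ H.chromaticNumber = (n : ℕ∞) ∧
        ((SimpleGraph.fromRel
            (fun (p q : Fin a × Fin b) => G.Adj p.1 q.1 ∧ H.Adj p.2 q.2)).chromaticNumber.toNat)
          ≤ 4 * K * q := by
  classical
  obtain ⟨V, _, _, G0, μ, hμ0, hμ1, htf, hind⟩ := exists_heavy (2 * (K * K + 2 * K))
  set ρ : ℝ := 1 + ((2 * (K * K + 2 * K) : ℕ) : ℝ) / 2 with hρdef
  have hρ : ρ = 1 + (K * K + 2 * K : ℝ) := by
    rw [hρdef]; push_cast; ring
  have hK1 : (1 : ℝ) ≤ K := by exact_mod_cast hK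
  have hρpos : 0 < ρ := by rw [hρ]; positivity
  have hcov := cover G0 μ ρ hρpos hμ0 hμ1 htf hind K (by rw [hρ]; nlinarith)
  set p := Fintype.card V with hp
  refine ⟨K * (p * p) * 2 ^ p * (p * p) + 1, ?_⟩
  intro q hq n hn hnq
  have hqpos : 0 < q := by omega
  -- colours
  have hcard : Fintype.card (Fin (2 * K * q)) = 2 * K * q := Fintype.card_fin _
  have hm : K * (p * p) * 2 ^ p * (p * p) < Fintype.card (Fin (2 * K * q)) := by
    rw [hcard]
    calc K * (p * p) * 2 ^ p * (p * p) < q := by omega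
      _ ≤ 2 * K * q := by nlinarith
  obtain ⟨a, G, f, hf, hG⟩ := exact_sub (lexK G0 q) n hn (by
    intro T c hc
    have h1 := lexK_lower G0 μ ρ hμ1 hind q T c hc
    have h2 : ((K * K * q : ℕ) : ℝ) ≤ T := by
      push_cast
      refine le_trans ?_ h1
      rw [hρ]
      have : (0 : ℝ) ≤ q := Nat.cast_nonneg q
      nlinarith [mul_nonneg (show (0 : ℝ) ≤ K by linarith) this]
    have h3 : K * K * q ≤ T := by exact_mod_cast h2
    omega)
  obtain ⟨b, H, g, hg, hH⟩ := exact_sub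
    (expG (lexK G0 q) (Fin (2 * K * q) ⊕ (Fin (2 * K) × Fin q))) n hn (by
    intro T Ψ hΨ
    have h1 := exp_lower (C := Fin (2 * K * q)) G0 K hqpos htf hcov hm Ψ hΨ
    rw [hcard] at h1
    have h2 : K * (2 * K * q) = 2 * (K * K * q) := by ring
    omega)
  refine ⟨a, b, G, H, hG, hH, ?_⟩
  have hcol : (SimpleGraph.fromRel
      (fun (p q : Fin a × Fin b) => G.Adj p.1 q.1 ∧ H.Adj p.2 q.2)).Colorable (4 * K * q) := by
    have hc : (SimpleGraph.fromRel
      (fun (p q : Fin a × Fin b) => G.Adj p.1 q.1 ∧ H.Adj p.2 q.2)).Coloring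
        (Fin (2 * K * q) ⊕ (Fin (2 * K) × Fin q)) := by
      refine SimpleGraph.Coloring.mk (fun ij => g ij.2 (f ij.1)) ?_
      rintro ⟨i, j⟩ ⟨i', j'⟩ hadj heq
      rw [SimpleGraph.fromRel_adj] at hadj
      rcases hadj.2 with ⟨h1, h2⟩ | ⟨h1, h2⟩
      · exact (hg _ _ h2).2 _ _ (hf _ _ h1) heq
      · exact (hg _ _ h2).2 _ _ (hf _ _ h1) heq.symm
    have h1 := hc.colorable
    have h2 : Fintype.card (Fin (2 * K * q) ⊕ (Fin (2 * K) × Fin q)) = 4 * K * q := by
      simp only [Fintype.card_sum, Fintype.card_prod, Fintype.card_fin]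
      ring
    rw [h2] at h1
    exact h1
  have h3 := hcol.chromaticNumber_le
  exact ENat.toNat_le_of_le_natCast h3

/-- For every ε>0 and all large n there are finite graphs G, H both of chromatic number n whose tensor product has chromatic number at most εn; i.e. the Poljak–Rödl function satisfies f(n)=o(n). -/
theorem result :
    ∀ ε : ℝ, 0 < ε → ∃ N : ℕ, ∀ n : ℕ, N ≤ n →
      ∃ (a b : ℕ) (G : SimpleGraph (Fin a)) (H : SimpleGraph (Fin b)),
        G.chromaticNumber = (n : ℕ∞) ∧ H.chromaticNumber = (n : ℕ∞) ∧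
        (((SimpleGraph.fromRel
            (fun (p q : Fin a × Fin b) => G.Adj p.1 q.1 ∧ H.Adj p.2 q.2)).chromaticNumber.toNat : ℕ) : ℝ)
          ≤ ε * (n : ℝ) := by
  intro ε hε
  obtain ⟨K, hK⟩ := exists_nat_gt (8 / ε)
  have hKpos : (0 : ℝ) < K := lt_trans (by positivity) hK
  have hK1 : 1 ≤ K := by
    have : 0 < K := by exact_mod_cast hKpos
    omega
  obtain ⟨q0, hq0⟩ := core K hK1
  obtain ⟨N1, hN1⟩ := exists_nat_gt (8 * K / ε)
  refine ⟨max (max N1 (K * K * q0)) 1, ?_⟩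
  intro n hn
  have hn1 : 1 ≤ n := le_trans (le_max_right _ _) hn
  have hnN1 : N1 ≤ n := le_trans (le_trans (le_max_left _ _) (le_max_left _ _)) hn
  have hnq0 : K * K * q0 ≤ n := le_trans (le_trans (le_max_right _ _) (le_max_left _ _)) hn
  -- choose q
  set q := n / (K * K) + 1 with hq
  have hKK : 0 < K * K := by positivity
  have hqq0 : q0 ≤ q := by
    have : q0 ≤ n / (K * K) := (Nat.le_div_iff_mul_le hKK).mpr (by rw [mul_comm]; exact hnq0)
    omega
  have hnq : n ≤ K * K * q := by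
    have := Nat.lt_div_mul_add (a := n) hKK
    have h2 : K * K * q = n / (K * K) * (K * K) + K * K := by rw [hq]; ring
    omega
  obtain ⟨a, b, G, H, hG, hH, hle⟩ := hq0 q hqq0 n hn1 hnq
  refine ⟨a, b, G, H, hG, hH, ?_⟩
  have h1 : (((SimpleGraph.fromRel
      (fun (p q : Fin a × Fin b) => G.Adj p.1 q.1 ∧ H.Adj p.2 q.2)).chromaticNumber.toNat : ℕ) : ℝ)
      ≤ ((4 * K * q : ℕ) : ℝ) := by exact_mod_cast hle
  refine h1.trans ?_
  have h2 : ((n / (K * K) : ℕ) : ℝ) ≤ n / (K * K) := by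
    have := @Nat.cast_div_le ℝ _ _ _ n (K * K)
    push_cast at this
    exact this
  have h3 : ((4 * K * q : ℕ) : ℝ) ≤ 4 * K * (n / (K * K) + 1) := by
    rw [hq]
    push_cast
    have : (0 : ℝ) ≤ 4 * K := by positivity
    nlinarith
  have h4 : 4 * (K : ℝ) * (n / (K * K) + 1) = 4 * n / K + 4 * K := by
    field_simp
  have h5 : 4 * (n : ℝ) / K ≤ ε / 2 * n := by
    rw [div_le_iff₀ hKpos]
    have : 8 < K * ε := by
      rw [div_lt_iff₀ hε] at hK
      exact hK
    have hn0 : (0 : ℝ) ≤ n := Nat.cast_nonneg n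
    nlinarith
  have h6 : 4 * (K : ℝ) ≤ ε / 2 * n := by
    have h7 : 8 * (K : ℝ) < N1 * ε := by
      rw [div_lt_iff₀ hε] at hN1
      exact hN1
    have h8 : (N1 : ℝ) ≤ n := by exact_mod_cast hnN1
    nlinarith
  linarith

end Pool.Agent.S12577
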