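import Pool.Statements.S13523

set_option autoImplicit false
open Pool Pool.MP_8a5d18_gt

namespace Pool.Agent.S13523

/-- A neighbourhood of `g` in the topology of pointwise convergence contains a standard basic one. -/
theorem basic_nhd {X : Type} [TopologicalSpace X] {O : Set C(X, ℝ)}
    (hO : @IsOpen C(X, ℝ)
      (TopologicalSpace.induced (fun h : C(X, ℝ) => (h : X → ℝ)) Pi.topologicalSpace) O)
    {g : C(X, ℝ)} (hg : g ∈ O) :
    ∃ F : Finset X, ∃ ε : ℝ, 0 < ε ∧ ∀ h : C(X, ℝ), (∀ x ∈ F, |h x - g x| < ε) → h ∈ O := by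
  obtain ⟨t, ht, rfl⟩ := isOpen_induced_iff.1 hO
  obtain ⟨I, u, hu, hsub⟩ := isOpen_pi_iff.1 ht (g : X → ℝ) hg
  have h1 : ∀ a ∈ I, ∀ᶠ ε in nhdsWithin (0 : ℝ) (Set.Ioi 0), Metric.ball (g a) ε ⊆ u a := by
    intro a ha
    obtain ⟨ε, hε, hball⟩ := Metric.isOpen_iff.1 (hu a ha).1 (g a) (hu a ha).2
    have : Set.Ioc (0 : ℝ) ε ∈ nhdsWithin (0 : ℝ) (Set.Ioi 0) := Ioc_mem_nhdsGT hε
    filter_upwards [this] with δ hδ
    exact (Metric.ball_subset_ball hδ.2).trans hball
  have h2 : ∀ᶠ ε in nhdsWithin (0 : ℝ) (Set.Ioi 0), ∀ a ∈ I, Metric.ball (g a) ε ⊆ u a :=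
    (Filter.eventually_all_finset I).2 h1
  obtain ⟨ε, hε, hε0⟩ := (h2.and self_mem_nhdsWithin).exists
  refine ⟨I, ε, hε0, fun h hh => ?_⟩
  refine hsub ?_
  intro a ha
  exact hε a ha (by simpa [Real.dist_eq] using hh a ha)

/-- Limits in the topology of pointwise convergence are pointwise limits. -/
theorem tendsto_pointwise {X : Type} [TopologicalSpace X] {l : Filter ℕ}
    {f : ℕ → C(X, ℝ)} {g : C(X, ℝ)}
    (h : Filter.Tendsto f l
      (@nhds C(X, ℝ)
        (TopologicalSpace.induced (fun h : C(X, ℝ) => (h : X → ℝ)) Pi.topologicalSpace) g))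
    (x : X) : Filter.Tendsto (fun n => f n x) l (nhds (g x)) := by
  rw [nhds_induced, Filter.tendsto_comap_iff] at h
  exact (tendsto_pi_nhds.1 h) x

/-- In a completely regular space a finite set inside an open set `U` can be separated from the
complement of `U` by a continuous real function with values `0` and `c`. -/
theorem bump {X : Type} [TopologicalSpace X] [CompletelyRegularSpace X] (F : Finset X)
    (U : Set X) (hU : IsOpen U) (hFU : (↑F : Set X) ⊆ U) (c : ℝ) :
    ∃ f : C(X, ℝ), (∀ x ∈ F, f x = 0) ∧ ∀ x, x ∉ U → f x = c := by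
  have h : ∀ y : X, ∃ f : C(X, ℝ), y ∈ F → (f y = 0 ∧ ∀ x, x ∉ U → f x = 1) := by
    intro y
    by_cases hy : y ∈ F
    · obtain ⟨f, hf, hf0, hf1⟩ :=
        CompletelyRegularSpace.completely_regular_isOpen y U hU (hFU (by exact_mod_cast hy))
      refine ⟨⟨fun x => (f x : ℝ), by fun_prop⟩, fun _ => ⟨by simp [hf0], fun x hx => ?_⟩⟩
      have := hf1 (show x ∈ Uᶜ from hx)
      simp [this]
    · exact ⟨0, fun h => absurd h hy⟩
  choose f hf using h
  refine ⟨ContinuousMap.const X c * ∏ y ∈ F, f y, ?_, ?_⟩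
  · intro x hx
    simp only [ContinuousMap.mul_apply, ContinuousMap.const_apply, ContinuousMap.prod_apply]
    have h0 : ∏ y ∈ F, (f y) x = 0 := Finset.prod_eq_zero hx (hf x hx).1
    rw [h0, mul_zero]
  · intro x hx
    simp only [ContinuousMap.mul_apply, ContinuousMap.const_apply, ContinuousMap.prod_apply]
    rw [Finset.prod_eq_one (fun y hy => (hf y hy).2 x hx), mul_one]

/-- For a nonprincipal ultrafilter p on ℕ and Tychonoff X: if C_p(X) is p-sequential, then every open ω-cover of X (X not a member) has a sequence Uₙ of members with {n : x ∈ Uₙ} ∈ p for every point x. -/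
theorem result :
    ∀ (p : Ultrafilter ℕ), (p : Filter ℕ) ≤ Filter.cofinite →
    ∀ (X : Type) [TopologicalSpace X] [T35Space X],
      (∀ A : Set C(X, ℝ),
        (∀ (f : ℕ → C(X, ℝ)) (g : C(X, ℝ)), (∀ n, f n ∈ A) →
          Filter.Tendsto f (p : Filter ℕ)
            (@nhds C(X, ℝ)
              (TopologicalSpace.induced (fun h : C(X, ℝ) => (h : X → ℝ)) Pi.topologicalSpace) g) →
          g ∈ A) →
        @IsClosed C(X, ℝ)
          (TopologicalSpace.induced (fun h : C(X, ℝ) => (h : X → ℝ)) Pi.topologicalSpace) A) →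
      ∀ 𝒰 : Set (Set X), (∀ U ∈ 𝒰, IsOpen U) → (Set.univ : Set X) ∉ 𝒰 →
        (∀ F : Finset X, ∃ U ∈ 𝒰, (↑F : Set X) ⊆ U) →
        ∃ u : ℕ → Set X, (∀ n, u n ∈ 𝒰) ∧
          ∀ x : X, ∀ᶠ n in (p : Filter ℕ), x ∈ u n := by
  intro p hp X _ _ hseq 𝒰 hopen huniv hcov
  -- Step 1: a countable subfamily that is an ω-cover.
  obtain ⟨V, hV, hVcov⟩ : ∃ V : ℕ → Set X, (∀ n, V n ∈ 𝒰) ∧
      ∀ F : Finset X, ∃ n, (↑F : Set X) ⊆ V n := by
    let B : Set C(X, ℝ) := {f | ∃ U ∈ 𝒰, ∀ x, x ∉ U → 1 ≤ f x}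
    let A : Set C(X, ℝ) := {g | ∃ b : ℕ → C(X, ℝ), (∀ n, b n ∈ B) ∧
      ∀ (F : Finset X) (ε : ℝ), 0 < ε → ∃ n, ∀ x ∈ F, |b n x - g x| < ε}
    have hA : @IsClosed C(X, ℝ)
        (TopologicalSpace.induced (fun h : C(X, ℝ) => (h : X → ℝ)) Pi.topologicalSpace) A := by
      apply hseq A
      intro f g hf hfg
      choose b hb hbf using hf
      refine ⟨fun k => b k.unpair.1 k.unpair.2, fun n => hb _ _, ?_⟩
      intro F ε hε
      have h1 : ∀ᶠ n in (p : Filter ℕ), ∀ x ∈ F, |f n x - g x| < ε / 2 := by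
        refine (Filter.eventually_all_finset F).2 fun x _ => ?_
        have := (tendsto_pointwise hfg x).eventually (Metric.ball_mem_nhds (g x) (half_pos hε))
        filter_upwards [this] with n hn
        simpa [Real.dist_eq] using hn
      obtain ⟨n, hn⟩ := h1.exists
      obtain ⟨m, hm⟩ := hbf n F (ε / 2) (half_pos hε)
      refine ⟨Nat.pair n m, fun x hx => ?_⟩
      simp only [Nat.unpair_pair]
      calc |b n m x - g x| ≤ |b n m x - f n x| + |f n x - g x| := abs_sub_le _ _ _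
        _ < ε / 2 + ε / 2 := add_lt_add (hm x hx) (hn x hx)
        _ = ε := by ring
    have h0 : (0 : C(X, ℝ)) ∈ A := by
      by_contra hcon
      have hAo : @IsOpen C(X, ℝ)
        (TopologicalSpace.induced (fun h : C(X, ℝ) => (h : X → ℝ)) Pi.topologicalSpace) Aᶜ :=
        (@isOpen_compl_iff _ _
          (TopologicalSpace.induced (fun h : C(X, ℝ) => (h : X → ℝ)) Pi.topologicalSpace)).2 hA
      obtain ⟨F, ε, hε, hF⟩ := basic_nhd hAo (show (0 : C(X, ℝ)) ∈ Aᶜ from hcon)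
      obtain ⟨U, hU, hFU⟩ := hcov F
      obtain ⟨f, hf0, hf1⟩ := bump F U (hopen U hU) hFU 1
      have hfA : f ∈ A := by
        refine ⟨fun _ => f, fun _ => ⟨U, hU, fun x hx => (hf1 x hx).ge⟩, ?_⟩
        intro F' ε' hε'
        exact ⟨0, fun x _ => by simpa using hε'⟩
      exact hF f (fun x hx => by simpa [hf0 x hx] using hε) hfA
    obtain ⟨b, hb, hbc⟩ := h0
    choose U hU hUb using hb
    refine ⟨U, hU, fun F => ?_⟩
    obtain ⟨n, hn⟩ := hbc F 1 one_pos
    refine ⟨n, fun x hx => ?_⟩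
    by_contra hxU
    have h1 := hUb n x hxU
    have h2 := hn x (by exact_mod_cast hx)
    simp only [ContinuousMap.zero_apply, sub_zero] at h2
    exact absurd (lt_of_le_of_lt (le_abs_self _) h2) (not_lt.2 h1)
  -- Step 2: the set of functions that are large off some member of the countable family.
  let A : Set C(X, ℝ) := {f | ∃ n : ℕ, ∀ x, x ∉ V n → (n : ℝ) + 1 ≤ f x}
  have h0 : (0 : C(X, ℝ)) ∉ A := by
    rintro ⟨n, hn⟩
    have : V n ≠ Set.univ := fun h => huniv (h ▸ hV n)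
    obtain ⟨x, hx⟩ := (Set.ne_univ_iff_exists_notMem _).1 this
    have h1 := hn x hx
    simp only [ContinuousMap.zero_apply] at h1
    have h2 : (0 : ℝ) ≤ n := Nat.cast_nonneg n
    linarith
  have hncl : ¬ @IsClosed C(X, ℝ)
      (TopologicalSpace.induced (fun h : C(X, ℝ) => (h : X → ℝ)) Pi.topologicalSpace) A := by
    intro hA
    have hAo : @IsOpen C(X, ℝ)
      (TopologicalSpace.induced (fun h : C(X, ℝ) => (h : X → ℝ)) Pi.topologicalSpace) Aᶜ :=
      (@isOpen_compl_iff _ _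
        (TopologicalSpace.induced (fun h : C(X, ℝ) => (h : X → ℝ)) Pi.topologicalSpace)).2 hA
    obtain ⟨F, ε, hε, hF⟩ := basic_nhd hAo (show (0 : C(X, ℝ)) ∈ Aᶜ from h0)
    obtain ⟨n, hFn⟩ := hVcov F
    obtain ⟨f, hf0, hf1⟩ := bump F (V n) (hopen _ (hV n)) hFn ((n : ℝ) + 1)
    exact hF f (fun x hx => by simpa [hf0 x hx] using hε) ⟨n, fun x hx => (hf1 x hx).ge⟩
  have hex : ∃ (f : ℕ → C(X, ℝ)) (g : C(X, ℝ)), (∀ n, f n ∈ A) ∧
      Filter.Tendsto f (p : Filter ℕ)
        (@nhds C(X, ℝ)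
          (TopologicalSpace.induced (fun h : C(X, ℝ) => (h : X → ℝ)) Pi.topologicalSpace) g) ∧
      g ∉ A := by
    by_contra hcon
    push Not at hcon
    exact hncl (hseq A (fun f g hf hfg => hcon f g hf hfg))
  obtain ⟨f, g, hf, hfg, hg⟩ := hex
  choose k hk using hf
  refine ⟨fun n => V (k n), fun n => hV _, fun x => ?_⟩
  -- The index function tends to infinity along `p`.
  have hinf : ∀ N : ℕ, ∀ᶠ n in (p : Filter ℕ), N < k n := by
    intro N
    by_contra hcon
    have h1 : ∀ᶠ n in (p : Filter ℕ), ¬ N < k n := Ultrafilter.eventually_not.2 hcon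
    have h2 : ∀ᶠ n in (p : Filter ℕ), ∃ j ∈ Finset.range (N + 1), k n = j := by
      filter_upwards [h1] with n hn
      exact ⟨k n, Finset.mem_range.2 (by omega), rfl⟩
    have h3 : ∃ j ∈ Finset.range (N + 1), ∀ᶠ n in (p : Filter ℕ), k n = j := by
      have := (Ultrafilter.eventually_exists_mem_iff (Finset.finite_toSet _)).1 h2
      exact this
    obtain ⟨j, _, hj⟩ := h3
    apply hg
    refine ⟨j, fun x hx => ?_⟩
    refine ge_of_tendsto (tendsto_pointwise hfg x) ?_
    filter_upwards [hj] with n hn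
    have := hk n x (by rw [hn]; exact hx)
    rwa [hn] at this
  obtain ⟨N, hN⟩ := exists_nat_gt (g x + 1)
  have h1 : ∀ᶠ n in (p : Filter ℕ), f n x < g x + 1 :=
    (tendsto_pointwise hfg x).eventually (gt_mem_nhds (lt_add_one _))
  filter_upwards [h1, hinf N] with n hn1 hn2
  by_contra hx
  have h2 := hk n x hx
  have h3 : (N : ℝ) < k n := by exact_mod_cast hn2
  linarith

end Pool.Agent.S13523
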