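import Pool.Statements.S13946

set_option autoImplicit false
open Pool Pool.MP_cb3f7b_gt

namespace Pool.Agent.S13946

open MeasureTheory Set

/-- Square of the support function of the inner body, for the direction (x, y). -/
noncomputable def N (x y : ℝ) : ℝ :=
  (2 * x ^ 2 + y ^ 2) * (x ^ 2 + 2 * y ^ 2) / (3 * (x ^ 2 + y ^ 2))

/-- The inner body. -/
def KK : Set (EuclideanSpace ℝ (Fin 2)) :=
  {p | ∀ x y : ℝ, x * p 0 + y * p 1 ≤ Real.sqrt (N x y)}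

/-- First ellipse. -/
def E1 : Set (EuclideanSpace ℝ (Fin 2)) := {p | 1 * (p 0) ^ 2 + 2 * (p 1) ^ 2 ≤ 2}

/-- Second ellipse. -/
def E2 : Set (EuclideanSpace ℝ (Fin 2)) := {p | 2 * (p 0) ^ 2 + 1 * (p 1) ^ 2 ≤ 2}

lemma convex_quad (a b : ℝ) (ha : 0 ≤ a) (hb : 0 ≤ b) :
    Convex ℝ {p : EuclideanSpace ℝ (Fin 2) | a * (p 0) ^ 2 + b * (p 1) ^ 2 ≤ 2} := by
  intro p hp q hq s t hs ht hst
  simp only [mem_ofPred_eq, PiLp.add_apply, PiLp.smul_apply, smul_eq_mul] at *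
  have h0 : (s * p 0 + t * q 0) ^ 2 ≤ s * (p 0) ^ 2 + t * (q 0) ^ 2 := by
    have : s * (p 0) ^ 2 + t * (q 0) ^ 2 - (s * p 0 + t * q 0) ^ 2 = s * t * (p 0 - q 0) ^ 2 := by
      have : t = 1 - s := by linarith
      subst this
      ring
    have h2 : 0 ≤ s * t * (p 0 - q 0) ^ 2 := by positivity
    linarith
  have h1 : (s * p 1 + t * q 1) ^ 2 ≤ s * (p 1) ^ 2 + t * (q 1) ^ 2 := by
    have : s * (p 1) ^ 2 + t * (q 1) ^ 2 - (s * p 1 + t * q 1) ^ 2 = s * t * (p 1 - q 1) ^ 2 := by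
      have : t = 1 - s := by linarith
      subst this
      ring
    have h2 : 0 ≤ s * t * (p 1 - q 1) ^ 2 := by positivity
    linarith
  have h2 := mul_le_mul_of_nonneg_left h0 ha
  have h3 := mul_le_mul_of_nonneg_left h1 hb
  nlinarith [mul_le_mul_of_nonneg_left hp hs, mul_le_mul_of_nonneg_left hq ht]

lemma norm_sq (p : EuclideanSpace ℝ (Fin 2)) : ‖p‖ ^ 2 = (p 0) ^ 2 + (p 1) ^ 2 := by
  rw [EuclideanSpace.norm_sq_eq]
  simp [Fin.sum_univ_two]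

lemma compact_of (S : Set (EuclideanSpace ℝ (Fin 2))) (hc : IsClosed S)
    (hb : ∀ p ∈ S, (p 0) ^ 2 + (p 1) ^ 2 ≤ 9) : IsCompact S := by
  refine Metric.isCompact_of_isClosed_isBounded hc ?_
  refine (Metric.isBounded_closedBall (x := (0 : EuclideanSpace ℝ (Fin 2))) (r := 3)).subset ?_
  intro p hp
  rw [mem_closedBall_zero_iff]
  have h1 := hb p hp
  rw [← norm_sq] at h1
  nlinarith [norm_nonneg p]

lemma convex_E1 : Convex ℝ E1 := convex_quad 1 2 (by norm_num) (by norm_num)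
lemma convex_E2 : Convex ℝ E2 := convex_quad 2 1 (by norm_num) (by norm_num)

lemma compact_E1 : IsCompact E1 := by
  refine compact_of _ ?_ ?_
  · exact isClosed_le (by fun_prop) (by fun_prop)
  · intro p hp
    simp only [E1, mem_ofPred_eq] at hp
    nlinarith [sq_nonneg (p 0), sq_nonneg (p 1)]

lemma compact_E2 : IsCompact E2 := by
  refine compact_of _ ?_ ?_
  · exact isClosed_le (by fun_prop) (by fun_prop)
  · intro p hp
    simp only [E2, mem_ofPred_eq] at hp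
    nlinarith [sq_nonneg (p 0), sq_nonneg (p 1)]

/-- Open inner part of the first ellipse lies in the interior. -/
lemma sub_int_E1 : {p : EuclideanSpace ℝ (Fin 2) | 1 * (p 0) ^ 2 + 2 * (p 1) ^ 2 < 2} ⊆ interior E1 := by
  refine interior_maximal ?_ ?_
  · intro p hp
    simp only [E1, mem_ofPred_eq] at *
    exact le_of_lt hp
  · exact isOpen_lt (by fun_prop) (by fun_prop)

lemma sub_int_E2 : {p : EuclideanSpace ℝ (Fin 2) | 2 * (p 0) ^ 2 + 1 * (p 1) ^ 2 < 2} ⊆ interior E2 := by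
  refine interior_maximal ?_ ?_
  · intro p hp
    simp only [E2, mem_ofPred_eq] at *
    exact le_of_lt hp
  · exact isOpen_lt (by fun_prop) (by fun_prop)

lemma N_nonneg (x y : ℝ) : 0 ≤ N x y := by
  unfold N; positivity

lemma N_ge (x y : ℝ) : (2 / 3) * (x ^ 2 + y ^ 2) ≤ N x y := by
  unfold N
  by_cases h : x ^ 2 + y ^ 2 = 0
  · have hx : x = 0 := by nlinarith [sq_nonneg x, sq_nonneg y]
    have hy : y = 0 := by nlinarith [sq_nonneg x, sq_nonneg y]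
    subst hx hy
    simp
  · have hpos : 0 < x ^ 2 + y ^ 2 := lt_of_le_of_ne (by positivity) (Ne.symm h)
    rw [le_div_iff₀ (by positivity)]
    nlinarith [sq_nonneg (x * y)]

/-- a ball lies in the inner body -/
lemma ball_sub_KK : {p : EuclideanSpace ℝ (Fin 2) | (p 0) ^ 2 + (p 1) ^ 2 < 2 / 3} ⊆ KK := by
  intro p hp
  simp only [mem_ofPred_eq] at hp
  intro x y
  apply Real.le_sqrt_of_sq_le
  have h1 := N_ge x y
  have h2 : (x * p 0 + y * p 1) ^ 2 ≤ (x ^ 2 + y ^ 2) * ((p 0) ^ 2 + (p 1) ^ 2) := by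
    nlinarith [sq_nonneg (x * p 1 - y * p 0)]
  nlinarith [sq_nonneg x, sq_nonneg y]

lemma convex_KK : Convex ℝ KK := by
  intro p hp q hq s t hs ht hst x y
  have h1 := hp x y
  have h2 := hq x y
  simp only [PiLp.add_apply, PiLp.smul_apply, smul_eq_mul]
  have h3 := mul_le_mul_of_nonneg_left h1 hs
  have h4 := mul_le_mul_of_nonneg_left h2 ht
  calc x * (s * p 0 + t * q 0) + y * (s * p 1 + t * q 1)
      = s * (x * p 0 + y * p 1) + t * (x * q 0 + y * q 1) := by ring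
    _ ≤ s * Real.sqrt (N x y) + t * Real.sqrt (N x y) := by linarith
    _ = Real.sqrt (N x y) := by rw [← add_mul, hst, one_mul]

lemma KK_sub1 (p : EuclideanSpace ℝ (Fin 2)) (hp : p ∈ KK) :
    1 * (p 0) ^ 2 + 2 * (p 1) ^ 2 < 2 := by
  have h := hp (p 0 / 2) (p 1)
  by_cases h0 : (p 0) ^ 2 + (p 1) ^ 2 = 0
  · have hx : p 0 = 0 := by nlinarith [sq_nonneg (p 0), sq_nonneg (p 1)]
    have hy : p 1 = 0 := by nlinarith [sq_nonneg (p 0), sq_nonneg (p 1)]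
    rw [hx, hy]; norm_num
  have hpos : 0 < (p 0) ^ 2 + (p 1) ^ 2 := lt_of_le_of_ne (by positivity) (Ne.symm h0)
  set q : ℝ := (p 0) ^ 2 / 2 + (p 1) ^ 2 with hq
  have hqpos : 0 < q := by rw [hq]; nlinarith [sq_nonneg (p 0), sq_nonneg (p 1)]
  have hlt : N (p 0 / 2) (p 1) < q := by
    unfold N
    have hd : 0 < (p 0 / 2) ^ 2 + (p 1) ^ 2 := by nlinarith [sq_nonneg (p 0), sq_nonneg (p 1)]
    rw [div_lt_iff₀ (by positivity)]
    have e1 : 2 * (p 0 / 2) ^ 2 + (p 1) ^ 2 = q := by rw [hq]; ring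
    rw [e1]
    have : (p 0 / 2) ^ 2 + 2 * (p 1) ^ 2 < 3 * ((p 0 / 2) ^ 2 + (p 1) ^ 2) := by
      have : 3 * ((p 0 / 2) ^ 2 + (p 1) ^ 2) - ((p 0 / 2) ^ 2 + 2 * (p 1) ^ 2) = q := by
        rw [hq]; ring
      linarith
    exact mul_lt_mul_of_pos_left this hqpos
  have h1 : q ≤ Real.sqrt (N (p 0 / 2) (p 1)) := by
    have : p 0 / 2 * p 0 + p 1 * p 1 = q := by rw [hq]; ring
    rw [← this]; exact h
  have h2 : q ^ 2 ≤ N (p 0 / 2) (p 1) := by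
    exact (Real.le_sqrt' hqpos).mp h1
  have : q < 1 := by nlinarith
  rw [hq] at this
  linarith

lemma KK_sub2 (p : EuclideanSpace ℝ (Fin 2)) (hp : p ∈ KK) :
    2 * (p 0) ^ 2 + 1 * (p 1) ^ 2 < 2 := by
  have h := hp (p 0) (p 1 / 2)
  by_cases h0 : (p 0) ^ 2 + (p 1) ^ 2 = 0
  · have hx : p 0 = 0 := by nlinarith [sq_nonneg (p 0), sq_nonneg (p 1)]
    have hy : p 1 = 0 := by nlinarith [sq_nonneg (p 0), sq_nonneg (p 1)]
    rw [hx, hy]; norm_num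
  have hpos : 0 < (p 0) ^ 2 + (p 1) ^ 2 := lt_of_le_of_ne (by positivity) (Ne.symm h0)
  set q : ℝ := (p 0) ^ 2 + (p 1) ^ 2 / 2 with hq
  have hqpos : 0 < q := by rw [hq]; nlinarith [sq_nonneg (p 0), sq_nonneg (p 1)]
  have hlt : N (p 0) (p 1 / 2) < q := by
    unfold N
    have hd : 0 < (p 0) ^ 2 + (p 1 / 2) ^ 2 := by nlinarith [sq_nonneg (p 0), sq_nonneg (p 1)]
    rw [div_lt_iff₀ (by positivity)]
    have e1 : (p 0) ^ 2 + 2 * (p 1 / 2) ^ 2 = q := by rw [hq]; ring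
    rw [e1, mul_comm]
    have : 2 * (p 0) ^ 2 + (p 1 / 2) ^ 2 < 3 * ((p 0) ^ 2 + (p 1 / 2) ^ 2) := by
      have : 3 * ((p 0) ^ 2 + (p 1 / 2) ^ 2) - (2 * (p 0) ^ 2 + (p 1 / 2) ^ 2) = q := by
        rw [hq]; ring
      linarith
    exact mul_lt_mul_of_pos_left this hqpos
  have h1 : q ≤ Real.sqrt (N (p 0) (p 1 / 2)) := by
    have : p 0 * p 0 + p 1 / 2 * p 1 = q := by rw [hq]; ring
    rw [← this]; exact h
  have h2 : q ^ 2 ≤ N (p 0) (p 1 / 2) := by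
    exact (Real.le_sqrt' hqpos).mp h1
  have : q < 1 := by nlinarith
  rw [hq] at this
  linarith

lemma closed_KK : IsClosed KK := by
  have : KK = ⋂ x : ℝ, ⋂ y : ℝ, {p : EuclideanSpace ℝ (Fin 2) | x * p 0 + y * p 1 ≤ Real.sqrt (N x y)} := by
    ext p; simp [KK]
  rw [this]
  refine isClosed_iInter fun x => isClosed_iInter fun y => ?_
  exact isClosed_le (by fun_prop) (by fun_prop)

lemma compact_KK : IsCompact KK := by
  refine compact_of _ closed_KK ?_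
  intro p hp
  have := KK_sub1 p hp
  nlinarith [sq_nonneg (p 0), sq_nonneg (p 1)]

/-- The key polynomial inequality. -/
lemma key (x y X Y : ℝ) (hr : 0 < x ^ 2 + y ^ 2) :
    (X ^ 2 + Y ^ 2) * (X * (x * (2 * (x ^ 2 + y ^ 2) ^ 2 + y ^ 4))
        + Y * (y * (2 * (x ^ 2 + y ^ 2) ^ 2 + x ^ 4))) ^ 2
      ≤ (x ^ 2 + y ^ 2) ^ 3 * (2 * (x ^ 2 + y ^ 2) ^ 2 + x ^ 2 * y ^ 2)
          * (2 * (X ^ 2 + Y ^ 2) ^ 2 + X ^ 2 * Y ^ 2) := by
  set g : ℝ := x * y with hg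
  set k : ℝ := x ^ 2 - y ^ 2 with hk
  set r : ℝ := x ^ 2 + y ^ 2 with hrr
  set C : ℝ := x * X + y * Y with hC
  set S : ℝ := x * Y - y * X with hS
  have hid : r * (r ^ 3 * (2 * r ^ 2 + x ^ 2 * y ^ 2) * (2 * (X ^ 2 + Y ^ 2) ^ 2 + X ^ 2 * Y ^ 2)
      - (X ^ 2 + Y ^ 2) * (X * (x * (2 * r ^ 2 + y ^ 4)) + Y * (y * (2 * r ^ 2 + x ^ 4))) ^ 2)
      = S ^ 2 * ((2 * r ^ 2 + g ^ 2) * (C * k - 2 * S * g) ^ 2
        + r * (X ^ 2 + Y ^ 2) * ((2 * r ^ 2 + g ^ 2) * (2 * r ^ 2 - 3 * g ^ 2) - g ^ 2 * k ^ 2)) := by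
    rw [hg, hk, hrr, hC, hS]; ring
  have hfac : (2 * r ^ 2 + g ^ 2) * (2 * r ^ 2 - 3 * g ^ 2) - g ^ 2 * k ^ 2
      = (4 * r ^ 2 - g ^ 2) * (r ^ 2 - g ^ 2) := by
    rw [hg, hk, hrr]; ring
  have hgr : g ^ 2 ≤ r ^ 2 := by
    rw [hg, hrr]; nlinarith [sq_nonneg (x * y), sq_nonneg (x ^ 2), sq_nonneg (y ^ 2)]
  have h1 : 0 ≤ (4 * r ^ 2 - g ^ 2) * (r ^ 2 - g ^ 2) := by
    apply mul_nonneg <;> nlinarith [sq_nonneg r]
  have h2 : 0 ≤ S ^ 2 * ((2 * r ^ 2 + g ^ 2) * (C * k - 2 * S * g) ^ 2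
        + r * (X ^ 2 + Y ^ 2) * ((2 * r ^ 2 + g ^ 2) * (2 * r ^ 2 - 3 * g ^ 2) - g ^ 2 * k ^ 2)) := by
    rw [hfac]; positivity
  rw [← hid] at h2
  have h3 := nonneg_of_mul_nonneg_right h2 hr
  linarith

/-- The touching point of the inner body for the direction (x, y). -/
noncomputable def tp (x y : ℝ) : EuclideanSpace ℝ (Fin 2) :=
  !₂[x * (2 * (x ^ 2 + y ^ 2) ^ 2 + y ^ 4) / (3 * (x ^ 2 + y ^ 2) ^ 2 * Real.sqrt (N x y)),
     y * (2 * (x ^ 2 + y ^ 2) ^ 2 + x ^ 4) / (3 * (x ^ 2 + y ^ 2) ^ 2 * Real.sqrt (N x y))]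

lemma N_pos (x y : ℝ) (hr : 0 < x ^ 2 + y ^ 2) : 0 < N x y := by
  have := N_ge x y
  nlinarith

lemma N_eq (x y : ℝ) :
    N x y = (2 * (x ^ 2 + y ^ 2) ^ 2 + x ^ 2 * y ^ 2) / (3 * (x ^ 2 + y ^ 2)) := by
  unfold N
  congr 1
  ring

lemma tp_mem (x y : ℝ) (hr : 0 < x ^ 2 + y ^ 2) : tp x y ∈ KK := by
  intro X Y
  have hN := N_pos x y hr
  have hs : 0 < Real.sqrt (N x y) := Real.sqrt_pos.mpr hN
  have e : X * (tp x y) 0 + Y * (tp x y) 1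
      = (X * (x * (2 * (x ^ 2 + y ^ 2) ^ 2 + y ^ 4)) + Y * (y * (2 * (x ^ 2 + y ^ 2) ^ 2 + x ^ 4)))
        / (3 * (x ^ 2 + y ^ 2) ^ 2 * Real.sqrt (N x y)) := by
    simp [tp]
    ring
  rw [e, div_le_iff₀ (by positivity)]
  set A : ℝ := X * (x * (2 * (x ^ 2 + y ^ 2) ^ 2 + y ^ 4)) + Y * (y * (2 * (x ^ 2 + y ^ 2) ^ 2 + x ^ 4))
    with hA
  have e2 : Real.sqrt (N X Y) * (3 * (x ^ 2 + y ^ 2) ^ 2 * Real.sqrt (N x y))
      = Real.sqrt (9 * (x ^ 2 + y ^ 2) ^ 4 * N x y * N X Y) := by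
    have h9 : 9 * (x ^ 2 + y ^ 2) ^ 4 * N x y * N X Y
        = (3 * (x ^ 2 + y ^ 2) ^ 2) ^ 2 * (N x y * N X Y) := by ring
    rw [h9, Real.sqrt_mul (by positivity), Real.sqrt_sq (by positivity),
      Real.sqrt_mul (le_of_lt hN)]
    ring
  rw [e2]
  apply Real.le_sqrt_of_sq_le
  by_cases hR : X ^ 2 + Y ^ 2 = 0
  · have hx : X = 0 := by nlinarith [sq_nonneg X, sq_nonneg Y]
    have hy : Y = 0 := by nlinarith [sq_nonneg X, sq_nonneg Y]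
    have hA0 : A = 0 := by rw [hA, hx, hy]; ring
    rw [hA0]
    have := N_nonneg X Y
    have h9 : 0 ≤ 9 * (x ^ 2 + y ^ 2) ^ 4 * N x y := by positivity
    have := mul_nonneg h9 this
    linarith
  have hRpos : 0 < X ^ 2 + Y ^ 2 := lt_of_le_of_ne (by positivity) (Ne.symm hR)
  rw [N_eq x y, N_eq X Y]
  have hk := key x y X Y hr
  rw [← hA] at hk
  have e3 : 9 * (x ^ 2 + y ^ 2) ^ 4 * ((2 * (x ^ 2 + y ^ 2) ^ 2 + x ^ 2 * y ^ 2) / (3 * (x ^ 2 + y ^ 2)))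
        * ((2 * (X ^ 2 + Y ^ 2) ^ 2 + X ^ 2 * Y ^ 2) / (3 * (X ^ 2 + Y ^ 2)))
      = ((x ^ 2 + y ^ 2) ^ 3 * (2 * (x ^ 2 + y ^ 2) ^ 2 + x ^ 2 * y ^ 2)
          * (2 * (X ^ 2 + Y ^ 2) ^ 2 + X ^ 2 * Y ^ 2)) / (X ^ 2 + Y ^ 2) := by
    have h1 := ne_of_gt hr
    have h2 := ne_of_gt hRpos
    field_simp
    norm_num
  rw [e3, le_div_iff₀ hRpos]
  linarith

lemma tp_val (x y : ℝ) (hr : 0 < x ^ 2 + y ^ 2) :
    x * (tp x y) 0 + y * (tp x y) 1 = Real.sqrt (N x y) := by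
  have hN := N_pos x y hr
  have hs : 0 < Real.sqrt (N x y) := Real.sqrt_pos.mpr hN
  have e : x * (tp x y) 0 + y * (tp x y) 1
      = (x * (x * (2 * (x ^ 2 + y ^ 2) ^ 2 + y ^ 4)) + y * (y * (2 * (x ^ 2 + y ^ 2) ^ 2 + x ^ 4)))
        / (3 * (x ^ 2 + y ^ 2) ^ 2 * Real.sqrt (N x y)) := by
    simp [tp]
    ring
  rw [e, div_eq_iff (by positivity)]
  have hsq : Real.sqrt (N x y) * Real.sqrt (N x y) = N x y := Real.mul_self_sqrt (le_of_lt hN)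
  have : Real.sqrt (N x y) * (3 * (x ^ 2 + y ^ 2) ^ 2 * Real.sqrt (N x y))
      = 3 * (x ^ 2 + y ^ 2) ^ 2 * N x y := by
    calc _ = 3 * (x ^ 2 + y ^ 2) ^ 2 * (Real.sqrt (N x y) * Real.sqrt (N x y)) := by ring
      _ = _ := by rw [hsq]
  rw [this, N_eq x y]
  have h1 := ne_of_gt hr
  field_simp
  ring

/-- The shift of the section of the first ellipse onto the section of the second. -/
lemma shift (x y c : ℝ) (hr : 0 < x ^ 2 + y ^ 2) (hc : c ^ 2 = N x y)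
    (p0 p1 : ℝ) (hp : x * p0 + y * p1 = c) (t : ℝ)
    (ht : t * ((2 * x ^ 2 + y ^ 2) * (x ^ 2 + 2 * y ^ 2)) = 3 * c * x * y) :
    1 * p0 ^ 2 + 2 * p1 ^ 2 ≤ 2 ↔ 2 * (p0 - t * y) ^ 2 + 1 * (p1 + t * x) ^ 2 ≤ 2 := by
  have hw1 : 0 < 2 * x ^ 2 + y ^ 2 := by nlinarith [sq_nonneg x, sq_nonneg y]
  have hw2 : 0 < x ^ 2 + 2 * y ^ 2 := by nlinarith [sq_nonneg x, sq_nonneg y]
  have hcw : 3 * (x ^ 2 + y ^ 2) * c ^ 2 = (2 * x ^ 2 + y ^ 2) * (x ^ 2 + 2 * y ^ 2) := by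
    rw [hc]; unfold N
    have := ne_of_gt hr
    field_simp
  have id1 : 3 * (2 * x ^ 2 + y ^ 2) * (x ^ 2 + y ^ 2) ^ 2 * (2 - (1 * p0 ^ 2 + 2 * p1 ^ 2))
      = 2 * (x ^ 2 + y ^ 2) * (2 * x ^ 2 + y ^ 2) ^ 2
        - 3 * ((2 * x ^ 2 + y ^ 2) * (-y * p0 + x * p1) + c * x * y) ^ 2 := by
    have h : 3 * (2 * x ^ 2 + y ^ 2) * (x ^ 2 + y ^ 2) ^ 2 * (2 - (1 * p0 ^ 2 + 2 * p1 ^ 2))
      = 6 * (x ^ 2 + y ^ 2) ^ 2 * (2 * x ^ 2 + y ^ 2)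
        - 3 * ((2 * x ^ 2 + y ^ 2) * (-y * p0 + x * p1) + c * x * y) ^ 2
        - 2 * (x ^ 2 + y ^ 2) * (3 * (x ^ 2 + y ^ 2) * c ^ 2) := by
      rw [← hp]; ring
    rw [h, hcw]; ring
  have id2 : 3 * (x ^ 2 + 2 * y ^ 2) * (x ^ 2 + y ^ 2) ^ 2
        * (2 - (2 * (p0 - t * y) ^ 2 + 1 * (p1 + t * x) ^ 2))
      = 2 * (x ^ 2 + y ^ 2) * (x ^ 2 + 2 * y ^ 2) ^ 2
        - 3 * ((x ^ 2 + 2 * y ^ 2) * (-y * p0 + x * p1 + t * (x ^ 2 + y ^ 2)) - c * x * y) ^ 2 := by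
    have h : 3 * (x ^ 2 + 2 * y ^ 2) * (x ^ 2 + y ^ 2) ^ 2
        * (2 - (2 * (p0 - t * y) ^ 2 + 1 * (p1 + t * x) ^ 2))
      = 6 * (x ^ 2 + y ^ 2) ^ 2 * (x ^ 2 + 2 * y ^ 2)
        - 3 * ((x ^ 2 + 2 * y ^ 2) * (-y * p0 + x * p1 + t * (x ^ 2 + y ^ 2)) - c * x * y) ^ 2
        - 2 * (x ^ 2 + y ^ 2) * (3 * (x ^ 2 + y ^ 2) * c ^ 2) := by
      rw [← hp]; ring
    rw [h, hcw]; ring
  have hU : (x ^ 2 + 2 * y ^ 2) * ((2 * x ^ 2 + y ^ 2) * (-y * p0 + x * p1) + c * x * y)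
      = (2 * x ^ 2 + y ^ 2)
        * ((x ^ 2 + 2 * y ^ 2) * (-y * p0 + x * p1 + t * (x ^ 2 + y ^ 2)) - c * x * y) := by
    linear_combination (-(x ^ 2 + y ^ 2)) * ht
  have hD : 3 * (2 * x ^ 2 + y ^ 2) * (x ^ 2 + 2 * y ^ 2) * (x ^ 2 + y ^ 2) ^ 2
      * ((x ^ 2 + 2 * y ^ 2) * (2 - (1 * p0 ^ 2 + 2 * p1 ^ 2))
        - (2 * x ^ 2 + y ^ 2) * (2 - (2 * (p0 - t * y) ^ 2 + 1 * (p1 + t * x) ^ 2))) = 0 := by
    have e1 : (x ^ 2 + 2 * y ^ 2) ^ 2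
        * (3 * (2 * x ^ 2 + y ^ 2) * (x ^ 2 + y ^ 2) ^ 2 * (2 - (1 * p0 ^ 2 + 2 * p1 ^ 2)))
      = (2 * x ^ 2 + y ^ 2) ^ 2 * (3 * (x ^ 2 + 2 * y ^ 2) * (x ^ 2 + y ^ 2) ^ 2
        * (2 - (2 * (p0 - t * y) ^ 2 + 1 * (p1 + t * x) ^ 2))) := by
      rw [id1, id2]
      have e2 : (x ^ 2 + 2 * y ^ 2) ^ 2
          * (3 * ((2 * x ^ 2 + y ^ 2) * (-y * p0 + x * p1) + c * x * y) ^ 2)
          = (2 * x ^ 2 + y ^ 2) ^ 2 * (3 * ((x ^ 2 + 2 * y ^ 2)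
            * (-y * p0 + x * p1 + t * (x ^ 2 + y ^ 2)) - c * x * y) ^ 2) := by
        calc _ = 3 * ((x ^ 2 + 2 * y ^ 2)
              * ((2 * x ^ 2 + y ^ 2) * (-y * p0 + x * p1) + c * x * y)) ^ 2 := by ring
          _ = _ := by rw [hU]; ring
      rw [mul_sub, mul_sub, e2]
      ring
    linear_combination e1
  have hD2 : (x ^ 2 + 2 * y ^ 2) * (2 - (1 * p0 ^ 2 + 2 * p1 ^ 2))
        = (2 * x ^ 2 + y ^ 2) * (2 - (2 * (p0 - t * y) ^ 2 + 1 * (p1 + t * x) ^ 2)) := by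
    have hne : 3 * (2 * x ^ 2 + y ^ 2) * (x ^ 2 + 2 * y ^ 2) * (x ^ 2 + y ^ 2) ^ 2 ≠ 0 := by
      positivity
    have := (mul_eq_zero.mp hD).resolve_left hne
    linarith
  constructor
  · intro h
    have h1 : 0 ≤ (x ^ 2 + 2 * y ^ 2) * (2 - (1 * p0 ^ 2 + 2 * p1 ^ 2)) :=
      mul_nonneg hw2.le (by linarith)
    rw [hD2] at h1
    have := nonneg_of_mul_nonneg_right h1 hw1
    linarith
  · intro h
    have h1 : 0 ≤ (2 * x ^ 2 + y ^ 2) * (2 - (2 * (p0 - t * y) ^ 2 + 1 * (p1 + t * x) ^ 2)) :=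
      mul_nonneg hw1.le (by linarith)
    rw [← hD2] at h1
    have := nonneg_of_mul_nonneg_right h1 hw2
    linarith

lemma inner_coord (u p : EuclideanSpace ℝ (Fin 2)) : inner ℝ u p = u 0 * p 0 + u 1 * p 1 := by
  simp [PiLp.inner_apply, Fin.sum_univ_two, mul_comm]

lemma supp_val (u : EuclideanSpace ℝ (Fin 2)) (hu : u ≠ 0) (c : ℝ)
    (h1 : ∀ x ∈ KK, inner ℝ u x ≤ c) (h2 : ∃ x ∈ KK, inner ℝ u x = c) :
    0 < (u 0) ^ 2 + (u 1) ^ 2 ∧ c ^ 2 = N (u 0) (u 1) := by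
  have hr : 0 < (u 0) ^ 2 + (u 1) ^ 2 := by
    rw [← norm_sq]
    have : 0 < ‖u‖ := norm_pos_iff.mpr hu
    positivity
  refine ⟨hr, ?_⟩
  obtain ⟨p, hp, hpc⟩ := h2
  have a1 : c ≤ Real.sqrt (N (u 0) (u 1)) := by
    rw [← hpc, inner_coord]
    exact hp (u 0) (u 1)
  have a2 : Real.sqrt (N (u 0) (u 1)) ≤ c := by
    have := h1 _ (tp_mem (u 0) (u 1) hr)
    rw [inner_coord, tp_val _ _ hr] at this
    exact this
  have a3 : c = Real.sqrt (N (u 0) (u 1)) := le_antisymm a1 a2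
  rw [a3]
  exact Real.sq_sqrt (N_nonneg _ _)

lemma sections_eq (u : EuclideanSpace ℝ (Fin 2)) (c d : ℝ)
    (hr : 0 < (u 0) ^ 2 + (u 1) ^ 2) (hc : c ^ 2 = N (u 0) (u 1)) :
    MeasureTheory.Measure.hausdorffMeasure d
        (E1 ∩ {x : EuclideanSpace ℝ (Fin 2) | inner ℝ u x = c}) =
      MeasureTheory.Measure.hausdorffMeasure d
        (E2 ∩ {x : EuclideanSpace ℝ (Fin 2) | inner ℝ u x = c}) := by
  have hw1 : 0 < 2 * (u 0) ^ 2 + (u 1) ^ 2 := by nlinarith [sq_nonneg (u 0), sq_nonneg (u 1)]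
  have hw2 : 0 < (u 0) ^ 2 + 2 * (u 1) ^ 2 := by nlinarith [sq_nonneg (u 0), sq_nonneg (u 1)]
  obtain ⟨t, ht⟩ : ∃ t : ℝ, t * ((2 * (u 0) ^ 2 + (u 1) ^ 2) * ((u 0) ^ 2 + 2 * (u 1) ^ 2))
      = 3 * c * u 0 * u 1 := by
    refine ⟨3 * c * u 0 * u 1 / ((2 * (u 0) ^ 2 + (u 1) ^ 2) * ((u 0) ^ 2 + 2 * (u 1) ^ 2)), ?_⟩
    exact div_mul_cancel₀ _ (ne_of_gt (mul_pos hw1 hw2))
  let w : EuclideanSpace ℝ (Fin 2) := !₂[-(t * u 1), t * u 0]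
  have hw0 : w 0 = -(t * u 1) := by simp [w]
  have hw1' : w 1 = t * u 0 := by simp [w]
  have himg : (IsometryEquiv.addRight w) ''
      (E1 ∩ {x : EuclideanSpace ℝ (Fin 2) | inner ℝ u x = c})
      = E2 ∩ {x : EuclideanSpace ℝ (Fin 2) | inner ℝ u x = c} := by
    ext p
    constructor
    · rintro ⟨q, ⟨hq1, hq2⟩, rfl⟩
      simp only [mem_ofPred_eq, inner_coord] at hq2
      have := (shift (u 0) (u 1) c hr hc (q 0) (q 1) hq2 t ht).mp hq1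
      refine ⟨?_, ?_⟩
      · simp only [E2, mem_ofPred_eq, IsometryEquiv.addRight_apply, PiLp.add_apply, hw0, hw1']
        linarith
      · simp only [mem_ofPred_eq, inner_coord, IsometryEquiv.addRight_apply, PiLp.add_apply,
          hw0, hw1']
        linarith
    · rintro ⟨hq1, hq2⟩
      refine ⟨p - w, ⟨?_, ?_⟩, ?_⟩
      · simp only [mem_ofPred_eq, inner_coord] at hq2
        have h3 : u 0 * (p - w) 0 + u 1 * (p - w) 1 = c := by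
          simp only [PiLp.sub_apply, hw0, hw1']
          linarith
        refine (shift (u 0) (u 1) c hr hc _ _ h3 t ht).mpr ?_
        simp only [PiLp.sub_apply, hw0, hw1']
        simp only [E2, mem_ofPred_eq] at hq1
        have e0 : p 0 - -(t * u 1) - t * u 1 = p 0 := by ring
        have e1 : p 1 - t * u 0 + t * u 0 = p 1 := by ring
        rw [e0, e1]
        exact hq1
      · simp only [mem_ofPred_eq, inner_coord] at hq2
        simp only [mem_ofPred_eq, inner_coord, PiLp.sub_apply, hw0, hw1']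
        linarith
      · simp
  rw [← himg, IsometryEquiv.hausdorffMeasure_image]

lemma E1_ne_E2 : E1 ≠ E2 := by
  intro h
  have h1 : (!₂[(6 / 5 : ℝ), 0] : EuclideanSpace ℝ (Fin 2)) ∈ E1 := by
    simp only [E1, mem_ofPred_eq]
    norm_num
  rw [h] at h1
  simp only [E2, mem_ofPred_eq] at h1
  norm_num at h1

/-- The negation of the preceding statement: For n ≥ 2, suppose K, K₁, K₂ are convex bodies in ℝⁿ and K lies in the interiors of both K₁ and K₂. If every hyperplane supporting K cuts K₁ and K₂ in sections of equal (n−1)-dimensional measure, then K₁ = K₂. -/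
theorem result :
    ¬ (∀ n : ℕ, 2 ≤ n →
    ∀ K K₁ K₂ : Set (EuclideanSpace ℝ (Fin n)),
      Convex ℝ K → IsCompact K → (interior K).Nonempty →
      Convex ℝ K₁ → IsCompact K₁ → (interior K₁).Nonempty →
      Convex ℝ K₂ → IsCompact K₂ → (interior K₂).Nonempty →
      K ⊆ interior K₁ ∩ interior K₂ →
      (∀ u : EuclideanSpace ℝ (Fin n), u ≠ 0 → ∀ c : ℝ,
          (∀ x ∈ K, inner ℝ u x ≤ c) → (∃ x ∈ K, inner ℝ u x = c) →
          MeasureTheory.Measure.hausdorffMeasure ((n : ℝ) - 1)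
              (K₁ ∩ {x : EuclideanSpace ℝ (Fin n) | inner ℝ u x = c}) =
            MeasureTheory.Measure.hausdorffMeasure ((n : ℝ) - 1)
              (K₂ ∩ {x : EuclideanSpace ℝ (Fin n) | inner ℝ u x = c})) →
      K₁ = K₂) := by
  intro H
  have h0 : (0 : EuclideanSpace ℝ (Fin 2)) ∈ {p : EuclideanSpace ℝ (Fin 2) | (p 0) ^ 2 + (p 1) ^ 2 < 2 / 3} := by
    simp
  have hKi : (interior KK).Nonempty := by
    refine ⟨0, ?_⟩
    have : {p : EuclideanSpace ℝ (Fin 2) | (p 0) ^ 2 + (p 1) ^ 2 < 2 / 3} ⊆ interior KK :=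
      interior_maximal ball_sub_KK (isOpen_lt (by fun_prop) (by fun_prop))
    exact this h0
  have hsub : KK ⊆ interior E1 ∩ interior E2 := fun p hp =>
    ⟨sub_int_E1 (KK_sub1 p hp), sub_int_E2 (KK_sub2 p hp)⟩
  have h0K : (0 : EuclideanSpace ℝ (Fin 2)) ∈ KK := ball_sub_KK h0
  refine E1_ne_E2 (H 2 le_rfl KK E1 E2 convex_KK compact_KK hKi convex_E1 compact_E1
    ⟨0, (hsub h0K).1⟩ convex_E2 compact_E2 ⟨0, (hsub h0K).2⟩ hsub ?_)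
  intro u hu c h1 h2
  obtain ⟨hr, hc⟩ := supp_val u hu c h1 h2
  exact sections_eq u c _ hr hc

end Pool.Agent.S13946
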