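import Pool.Statements.S14372

set_option autoImplicit false
open Pool Pool.MP_0dc5ba_lc

namespace Pool.Agent.S14372

theorem inv_self (g : Equiv.Perm ℕ) (n : ℕ) : g⁻¹ (g n) = n := g.symm_apply_apply n

theorem self_inv (g : Equiv.Perm ℕ) (n : ℕ) : g (g⁻¹ n) = n := g.apply_symm_apply n

/-! ### A G-delta subgroup is closed in the group of permutations -/

theorem open_nbhd {U : Set (ℕ → ℕ)} (hU : IsOpen U) {f : ℕ → ℕ} (hf : f ∈ U) :
    ∃ k : ℕ, ∀ f' : ℕ → ℕ, (∀ i < k, f' i = f i) → f' ∈ U := by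
  rw [isOpen_pi_iff] at hU
  obtain ⟨I, u, h1, h2⟩ := hU f hf
  refine ⟨I.sup id + 1, fun f' hf' => h2 ?_⟩
  intro a ha
  have : a < I.sup id + 1 := Nat.lt_succ_of_le (Finset.le_sup (f := id) ha)
  rw [hf' a this]
  exact (h1 a ha).2

theorem closed_of_gdelta (G : Subgroup (Equiv.Perm ℕ))
    (hG : IsGδ ((fun g : Equiv.Perm ℕ => (⇑g : ℕ → ℕ)) '' (G : Set (Equiv.Perm ℕ))))
    (x : Equiv.Perm ℕ) (hx : ∀ k : ℕ, ∃ a ∈ G, ∀ i < k, a i = x i) : x ∈ G := by
  classical
  obtain ⟨U, hU, hGU⟩ := isGδ_iff_eq_iInter_nat.mp hG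
  have memU : ∀ g ∈ G, ∀ n, (⇑g : ℕ → ℕ) ∈ U n := by
    intro g hg n
    have : (⇑g : ℕ → ℕ) ∈ ⋂ n, U n := by
      rw [← hGU]
      exact ⟨g, hg, rfl⟩
    exact Set.mem_iInter.mp this n
  have hx' : ∀ S : Finset ℕ, ∃ a ∈ G, ∀ i ∈ S, a i = x i := by
    intro S
    obtain ⟨a, ha, h⟩ := hx (S.sup id + 1)
    exact ⟨a, ha, fun i hi => h i (Nat.lt_succ_of_le (Finset.le_sup (f := id) hi))⟩
  have step : ∀ (n : ℕ) (q : {q : Equiv.Perm ℕ × ℕ // q.1 ∈ G}),
      ∃ q' : {q : Equiv.Perm ℕ × ℕ // q.1 ∈ G}, q.1.2 < q'.1.2 ∧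
        (∀ i < q.1.2, q'.1.1 i = q.1.1 i) ∧
        ∀ f : ℕ → ℕ, (∀ i < q'.1.2, f i = q'.1.1 i) → f ∈ U n ∧ (fun i => x (f i)) ∈ U n := by
    rintro n ⟨⟨g, k⟩, hg⟩
    simp only at hg ⊢
    obtain ⟨c, hc, hc'⟩ := hx' ((Finset.range k).image g)
    have hb : c * g ∈ G := G.mul_mem hc hg
    obtain ⟨k2, hk2⟩ := open_nbhd (hU n) (memU _ hb n)
    obtain ⟨d, hd, hd'⟩ := hx' ((Finset.range (max k k2)).image (fun i => x⁻¹ ((c * g) i)))
    have hg' : d⁻¹ * (c * g) ∈ G := G.mul_mem (G.inv_mem hd) hb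
    have e1 : ∀ i < max k k2, (d⁻¹ * (c * g)) i = x⁻¹ ((c * g) i) := by
      intro i hi
      have := hd' (x⁻¹ ((c * g) i)) (Finset.mem_image_of_mem _ (Finset.mem_range.mpr hi))
      rw [Equiv.Perm.mul_apply, Equiv.Perm.inv_eq_iff_eq, this, self_inv]
    obtain ⟨k3, hk3⟩ := open_nbhd (hU n) (memU _ hg' n)
    refine ⟨⟨⟨d⁻¹ * (c * g), max (k + 1) (max (max k k2) k3)⟩, hg'⟩, ?_, ?_, ?_⟩
    · simp
    · intro i hi
      simp only at hi ⊢
      rw [e1 i (lt_max_of_lt_left hi), Equiv.Perm.inv_eq_iff_eq]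
      exact hc' _ (Finset.mem_image_of_mem _ (Finset.mem_range.mpr hi))
    · intro f hf
      simp only at hf
      refine ⟨hk3 f fun i hi => hf i (by simp [hi]), hk2 _ fun i hi => ?_⟩
      have hi' : i < max k k2 := lt_max_of_lt_right hi
      rw [hf i (by simp [hi]), e1 i hi', self_inv]
  choose F hF using step
  let sq : ℕ → {q : Equiv.Perm ℕ × ℕ // q.1 ∈ G} := fun n =>
    Nat.rec ⟨(1, 0), G.one_mem⟩ (fun n q => F n q) n
  have hsq : ∀ n, sq (n + 1) = F n (sq n) := fun n => rfl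
  have hk : ∀ n, n ≤ (sq n).1.2 := by
    intro n
    induction n with
    | zero => simp
    | succ n ih =>
      have := (hF n (sq n)).1
      rw [hsq]
      omega
  have hkm : Monotone fun n => (sq n).1.2 := by
    apply monotone_nat_of_le_succ
    intro n
    have := (hF n (sq n)).1
    simp only [hsq]
    omega
  have hag : ∀ n m, n ≤ m → ∀ i < (sq n).1.2, (sq m).1.1 i = (sq n).1.1 i := by
    intro n m hnm
    induction m, hnm using Nat.le_induction with
    | base => intro i _; rfl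
    | succ m hm ih =>
      intro i hi
      rw [← ih i hi, hsq]
      exact (hF m (sq m)).2.1 i (lt_of_lt_of_le hi (hkm hm))
  let f : ℕ → ℕ := fun i => (sq (i + 1)).1.1 i
  have hf : ∀ n, ∀ i < (sq n).1.2, f i = (sq n).1.1 i := by
    intro n i hi
    rcases le_total n (i + 1) with h | h
    · exact hag n (i + 1) h i hi
    · exact (hag (i + 1) n h i (hk (i + 1))).symm
  have hfU : ∀ n, f ∈ U n ∧ (fun i => x (f i)) ∈ U n := by
    intro n
    apply (hF n (sq n)).2.2 f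
    intro i hi
    exact hf (n + 1) i hi
  have h1 : f ∈ ⋂ n, U n := Set.mem_iInter.mpr fun n => (hfU n).1
  have h2 : (fun i => x (f i)) ∈ ⋂ n, U n := Set.mem_iInter.mpr fun n => (hfU n).2
  rw [← hGU] at h1 h2
  obtain ⟨g1, hg1, hg1'⟩ := h1
  obtain ⟨g2, hg2, hg2'⟩ := h2
  have : x = g2 * g1⁻¹ := by
    ext i
    rw [Equiv.Perm.mul_apply]
    have e1 := congrFun hg1' (g1⁻¹ i)
    have e2 := congrFun hg2' (g1⁻¹ i)
    simp only [self_inv] at e1 e2
    rw [e2, ← e1]
  rw [this]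
  exact G.mul_mem hg2 (G.inv_mem hg1)

/-! ### A closed group with finitely many orbits on tuples is not cofinitary -/

theorem pigeon {F : Finset ℕ} {P : ℕ → ℕ → Prop} (hmono : ∀ y m n, m ≤ n → P y n → P y m)
    (h : ∀ n, ∃ y ∈ F, P y n) : ∃ y ∈ F, ∀ n, P y n := by
  by_contra hcon
  push Not at hcon
  choose! N hN using hcon
  obtain ⟨y, hy, hP⟩ := h (F.sup N)
  exact hN y hy (hmono y _ _ (Finset.le_sup hy) hP)

/-- Elements of `G` extending `p`, moving `a`, with at least `n` fixed points. -/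
def Ext (G : Subgroup (Equiv.Perm ℕ)) (a : ℕ) (p : Finset (ℕ × ℕ)) (n : ℕ)
    (g : Equiv.Perm ℕ) : Prop :=
  g ∈ G ∧ (∀ q ∈ p, g q.1 = q.2) ∧ g a ≠ a ∧ ∃ S : Finset ℕ, n ≤ S.card ∧ ∀ s ∈ S, g s = s

theorem Ext.mono {G : Subgroup (Equiv.Perm ℕ)} {a : ℕ} {p : Finset (ℕ × ℕ)} {m n : ℕ}
    (hmn : m ≤ n) {g : Equiv.Perm ℕ} (h : Ext G a p n g) : Ext G a p m g := by
  obtain ⟨h1, h2, h3, S, h4, h5⟩ := h
  exact ⟨h1, h2, h3, S, hmn.trans h4, h5⟩

theorem Ext.conj {G : Subgroup (Equiv.Perm ℕ)} {a : ℕ} {p : Finset (ℕ × ℕ)} {n : ℕ}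
    {g c : Equiv.Perm ℕ} (h : Ext G a p n g) (hc : c ∈ G) (hca : c a = a)
    (hcp : ∀ q ∈ p, c q.1 = q.1 ∧ c q.2 = q.2) : Ext G a p n (c * g * c⁻¹) := by
  classical
  obtain ⟨h1, h2, h3, S, h4, h5⟩ := h
  refine ⟨G.mul_mem (G.mul_mem hc h1) (G.inv_mem hc), ?_, ?_, S.image c, ?_, ?_⟩
  · intro q hq
    have e : c⁻¹ q.1 = q.1 := by rw [Equiv.Perm.inv_eq_iff_eq, (hcp q hq).1]
    rw [Equiv.Perm.mul_apply, Equiv.Perm.mul_apply, e, h2 q hq, (hcp q hq).2]
  · have e : c⁻¹ a = a := by rw [Equiv.Perm.inv_eq_iff_eq, hca]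
    rw [Equiv.Perm.mul_apply, Equiv.Perm.mul_apply, e]
    intro h
    apply h3
    apply c.injective
    rw [h, hca]
  · rw [Finset.card_image_of_injective _ c.injective]
    exact h4
  · intro s hs
    obtain ⟨t, ht, rfl⟩ := Finset.mem_image.mp hs
    rw [Equiv.Perm.mul_apply, Equiv.Perm.mul_apply, inv_self, h5 t ht]

/-- `p` extends to elements of `G` with arbitrarily many fixed points moving `a`. -/
def Good (G : Subgroup (Equiv.Perm ℕ)) (a : ℕ) (p : Finset (ℕ × ℕ)) : Prop :=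
  ∀ n : ℕ, ∃ g, Ext G a p n g

/-- finitely many orbits of every pointwise stabiliser of a finite set -/
def Olig (G : Subgroup (Equiv.Perm ℕ)) : Prop :=
  ∀ E : Finset ℕ, ∃ F : Finset ℕ, ∀ y : ℕ, ∃ g ∈ G, (∀ e ∈ E, g e = e) ∧ g y ∈ F

/-- the support of `p` -/
def supp (p : Finset (ℕ × ℕ)) : Finset ℕ := p.image Prod.fst ∪ p.image Prod.snd

theorem supp_fix {p : Finset (ℕ × ℕ)} {c : Equiv.Perm ℕ} {E : Finset ℕ} (hE : supp p ⊆ E)
    (h : ∀ e ∈ E, c e = e) : ∀ q ∈ p, c q.1 = q.1 ∧ c q.2 = q.2 := by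
  intro q hq
  refine ⟨h _ (hE ?_), h _ (hE ?_)⟩
  · exact Finset.mem_union_left _ (Finset.mem_image_of_mem _ hq)
  · exact Finset.mem_union_right _ (Finset.mem_image_of_mem _ hq)

theorem Good.fwd {G : Subgroup (Equiv.Perm ℕ)} (hO : Olig G) {a : ℕ} {p : Finset (ℕ × ℕ)}
    (hp : Good G a p) (x : ℕ) : ∃ x', Good G a (insert (x, x') p) := by
  classical
  obtain ⟨F, hF⟩ := hO (insert a (insert x (supp p)))
  suffices h : ∃ x' ∈ F, ∀ n, ∃ g, Ext G a (insert (x, x') p) n g by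
    obtain ⟨x', _, h⟩ := h
    exact ⟨x', h⟩
  apply pigeon (P := fun x' n => ∃ g, Ext G a (insert (x, x') p) n g)
  · rintro y m n hmn ⟨g, hg⟩
    exact ⟨g, hg.mono hmn⟩
  · intro n
    obtain ⟨g, hg⟩ := hp n
    obtain ⟨c, hc, hcE, hcF⟩ := hF (g x)
    have hca : c a = a := hcE a (Finset.mem_insert_self _ _)
    have hcx : c x = x := hcE x (Finset.mem_insert_of_mem (Finset.mem_insert_self _ _))
    have hcp := supp_fix (p := p) (c := c) (E := insert a (insert x (supp p)))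
      (fun z hz => Finset.mem_insert_of_mem (Finset.mem_insert_of_mem hz)) hcE
    have h' := hg.conj hc hca hcp
    refine ⟨c (g x), hcF, c * g * c⁻¹, h'.1, ?_, h'.2.2⟩
    intro q hq
    rcases Finset.mem_insert.mp hq with rfl | hq
    · have e : c⁻¹ x = x := by rw [Equiv.Perm.inv_eq_iff_eq, hcx]
      simp only [Equiv.Perm.mul_apply, e]
    · exact h'.2.1 q hq

theorem Good.bwd {G : Subgroup (Equiv.Perm ℕ)} (hO : Olig G) {a : ℕ} {p : Finset (ℕ × ℕ)}
    (hp : Good G a p) (x : ℕ) : ∃ x', Good G a (insert (x', x) p) := by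
  classical
  obtain ⟨F, hF⟩ := hO (insert a (insert x (supp p)))
  suffices h : ∃ x' ∈ F, ∀ n, ∃ g, Ext G a (insert (x', x) p) n g by
    obtain ⟨x', _, h⟩ := h
    exact ⟨x', h⟩
  apply pigeon (P := fun x' n => ∃ g, Ext G a (insert (x', x) p) n g)
  · rintro y m n hmn ⟨g, hg⟩
    exact ⟨g, hg.mono hmn⟩
  · intro n
    obtain ⟨g, hg⟩ := hp n
    obtain ⟨c, hc, hcE, hcF⟩ := hF (g⁻¹ x)
    have hca : c a = a := hcE a (Finset.mem_insert_self _ _)
    have hcx : c x = x := hcE x (Finset.mem_insert_of_mem (Finset.mem_insert_self _ _))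
    have hcp := supp_fix (p := p) (c := c) (E := insert a (insert x (supp p)))
      (fun z hz => Finset.mem_insert_of_mem (Finset.mem_insert_of_mem hz)) hcE
    have h' := hg.conj hc hca hcp
    refine ⟨c (g⁻¹ x), hcF, c * g * c⁻¹, h'.1, ?_, h'.2.2⟩
    intro q hq
    rcases Finset.mem_insert.mp hq with rfl | hq
    · simp only [Equiv.Perm.mul_apply, inv_self, self_inv, hcx]
    · exact h'.2.1 q hq

theorem Good.fix {G : Subgroup (Equiv.Perm ℕ)} (hO : Olig G) {a : ℕ} {p : Finset (ℕ × ℕ)}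
    (hp : Good G a p) (m : ℕ) : ∃ y, m ≤ y ∧ Good G a (insert (y, y) p) := by
  classical
  set E : Finset ℕ := insert a (Finset.range m ∪ supp p) with hE
  obtain ⟨F, hF⟩ := hO E
  suffices h : ∃ y ∈ F, ∀ n, m ≤ y ∧ ∃ g, Ext G a (insert (y, y) p) n g by
    obtain ⟨y, _, h⟩ := h
    exact ⟨y, (h 0).1, fun n => (h n).2⟩
  apply pigeon (P := fun y n => m ≤ y ∧ ∃ g, Ext G a (insert (y, y) p) n g)
  · rintro y m' n hmn ⟨h0, g, hg⟩
    exact ⟨h0, g, hg.mono hmn⟩
  · intro n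
    obtain ⟨g, hg⟩ := hp (n + E.card + 1)
    obtain ⟨hg1, hg2, hg3, S, hS1, hS2⟩ := id hg
    obtain ⟨y, hyS, hyE⟩ : ∃ y ∈ S, y ∉ E := by
      by_contra hcon
      push Not at hcon
      have := Finset.card_le_card (s := S) (t := E) hcon
      omega
    obtain ⟨c, hc, hcE, hcF⟩ := hF y
    have hca : c a = a := hcE a (Finset.mem_insert_self _ _)
    have hcp := supp_fix (p := p) (c := c) (E := E)
      (fun z hz => Finset.mem_insert_of_mem (Finset.mem_union_right _ hz)) hcE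
    have h' := (hg.mono (m := n) (by omega)).conj hc hca hcp
    refine ⟨c y, hcF, ?_, c * g * c⁻¹, h'.1, ?_, h'.2.2⟩
    · by_contra hlt
      push Not at hlt
      have h1 : c y ∈ E := by
        rw [hE]
        exact Finset.mem_insert_of_mem (Finset.mem_union_left _ (Finset.mem_range.mpr hlt))
      have h2 := hcE _ h1
      have h3 : c y = y := c.injective h2
      rw [h3] at h1
      exact hyE h1
    · intro q hq
      rcases Finset.mem_insert.mp hq with rfl | hq
      · simp only [Equiv.Perm.mul_apply, inv_self, hS2 y hyS]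
      · exact h'.2.1 q hq

theorem good_start {G : Subgroup (Equiv.Perm ℕ)} (hO : Olig G) : ∃ a, Good G a ∅ := by
  classical
  obtain ⟨F, hF⟩ := hO ∅
  suffices h : ∃ a ∈ F, ∀ n, ∃ g, Ext G a ∅ n g by
    obtain ⟨a, _, h⟩ := h
    exact ⟨a, h⟩
  apply pigeon (P := fun a n => ∃ g, Ext G a ∅ n g)
  · rintro y m n hmn ⟨g, hg⟩
    exact ⟨g, hg.mono hmn⟩
  · intro n
    obtain ⟨F', hF'⟩ := hO (Finset.range n)
    obtain ⟨y, hy⟩ := Infinite.exists_notMem_finset F'
    obtain ⟨g, hg, hgE, hgF⟩ := hF' y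
    have hgy : g y ≠ y := by
      intro h
      rw [h] at hgF
      exact hy hgF
    obtain ⟨c, hc, -, hcF⟩ := hF y
    have hext : Ext G y ∅ n g :=
      ⟨hg, by simp, hgy, Finset.range n, by simp, hgE⟩
    refine ⟨c y, hcF, c * g * c⁻¹, G.mul_mem (G.mul_mem hc hg) (G.inv_mem hc), by simp, ?_,
      (Finset.range n).image c, ?_, ?_⟩
    · rw [Equiv.Perm.mul_apply, Equiv.Perm.mul_apply, inv_self]
      intro h
      exact hgy (c.injective h)
    · rw [Finset.card_image_of_injective _ c.injective, Finset.card_range]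
    · intro s hs
      obtain ⟨t, ht, rfl⟩ := Finset.mem_image.mp hs
      rw [Equiv.Perm.mul_apply, Equiv.Perm.mul_apply, inv_self, hgE t ht]

theorem not_cof_of_closed_olig (G : Subgroup (Equiv.Perm ℕ)) (hO : Olig G)
    (hcl : ∀ x : Equiv.Perm ℕ, (∀ k : ℕ, ∃ a ∈ G, ∀ i < k, a i = x i) → x ∈ G) :
    ∃ g ∈ G, g ≠ 1 ∧ ¬ Set.Finite {n : ℕ | g n = n} := by
  classical
  obtain ⟨a, ha⟩ := good_start hO
  have step : ∀ (n : ℕ) (p : {p : Finset (ℕ × ℕ) // Good G a p}),
      ∃ p' : {p : Finset (ℕ × ℕ) // Good G a p}, p.1 ⊆ p'.1 ∧ (∃ z, (n, z) ∈ p'.1) ∧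
        (∃ z, (z, n) ∈ p'.1) ∧ ∃ y, n ≤ y ∧ (y, y) ∈ p'.1 := by
    rintro n ⟨p, hp⟩
    obtain ⟨z1, h1⟩ := hp.fwd hO n
    obtain ⟨z2, h2⟩ := h1.bwd hO n
    obtain ⟨y, hy, h3⟩ := h2.fix hO n
    refine ⟨⟨_, h3⟩, ?_, ⟨z1, by simp⟩, ⟨z2, by simp⟩, y, hy, by simp⟩
    intro q hq
    simp only at hq ⊢
    simp [hq]
  choose F hF using step
  let sq : ℕ → {p : Finset (ℕ × ℕ) // Good G a p} := fun n =>
    Nat.rec ⟨∅, ha⟩ (fun n q => F n q) n
  have hsq : ∀ n, sq (n + 1) = F n (sq n) := fun n => rfl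
  have hmono : Monotone fun n => (sq n).1 := by
    apply monotone_nat_of_le_succ
    intro n
    exact (hF n (sq n)).1
  have hdom : ∀ n, ∃ z, (n, z) ∈ (sq (n + 1)).1 := fun n => (hF n (sq n)).2.1
  have hran : ∀ n, ∃ z, (z, n) ∈ (sq (n + 1)).1 := fun n => (hF n (sq n)).2.2.1
  have hfix : ∀ n, ∃ y, n ≤ y ∧ (y, y) ∈ (sq (n + 1)).1 := fun n => (hF n (sq n)).2.2.2
  have huniq : ∀ n m u v w, (u, v) ∈ (sq n).1 → (u, w) ∈ (sq m).1 → v = w := by
    intro n m u v w h1 h2
    obtain ⟨g, hg⟩ := (sq (max n m)).2 0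
    have e1 := hg.2.1 _ (hmono (le_max_left n m) h1)
    have e2 := hg.2.1 _ (hmono (le_max_right n m) h2)
    simp only at e1 e2
    rw [← e1, ← e2]
  have huniq' : ∀ n m u v w, (v, u) ∈ (sq n).1 → (w, u) ∈ (sq m).1 → v = w := by
    intro n m u v w h1 h2
    obtain ⟨g, hg⟩ := (sq (max n m)).2 0
    have e1 := hg.2.1 _ (hmono (le_max_left n m) h1)
    have e2 := hg.2.1 _ (hmono (le_max_right n m) h2)
    simp only at e1 e2
    exact g.injective (e1.trans e2.symm)
  choose f hf using hdom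
  choose f' hf' using hran
  let x : Equiv.Perm ℕ :=
    { toFun := f
      invFun := f'
      left_inv := fun n => huniq' (f n + 1) (n + 1) (f n) (f' (f n)) n (hf' (f n)) (hf n)
      right_inv := fun n => huniq (f' n + 1) (n + 1) (f' n) (f (f' n)) n (hf (f' n)) (hf' n) }
  have hxf : ∀ n, x n = f n := fun n => rfl
  have hx : ∀ k : ℕ, ∃ b ∈ G, ∀ i < k, b i = x i := by
    intro k
    obtain ⟨g, hg⟩ := (sq k).2 0
    refine ⟨g, hg.1, fun i hi => ?_⟩
    exact hg.2.1 _ (hmono (show i + 1 ≤ k from hi) (hf i))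
  refine ⟨x, hcl x hx, ?_, ?_⟩
  · intro h1
    obtain ⟨g, hg⟩ := (sq (a + 1)).2 0
    have e := hg.2.1 _ (hf a)
    simp only at e
    apply hg.2.2.1
    rw [e, ← hxf, h1, Equiv.Perm.one_apply]
  · intro hfin
    obtain ⟨b, hb⟩ := hfin.bddAbove
    obtain ⟨y, hy, hyy⟩ := hfix (b + 1)
    have : x y = y := huniq (y + 1) (b + 1 + 1) y (f y) y (hf y) hyy
    have := hb this
    omega

/-! ### A cofinitary group with infinitely many orbits over a finite set is not maximal -/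

theorem evade (G : Subgroup (Equiv.Perm ℕ)) (E : Finset ℕ)
    (hE : ∀ F : Finset ℕ, ∃ y : ℕ, ∀ g ∈ G, (∀ e ∈ E, g e = e) → g y ∉ F) (D : Finset ℕ) :
    ∃ y, y ∉ D ∧ ∀ g ∈ G, (∀ e ∈ E, g e ∈ D) → g y ∉ D := by
  classical
  let r : (↥E → ↥D) × ↥D → ℕ := fun t =>
    if h : ∃ y : ℕ, ∃ g ∈ G, (∀ e : ↥E, g e = t.1 e) ∧ g y = t.2 then h.choose else 0
  obtain ⟨y, hy⟩ := hE (D ∪ Finset.univ.image r)
  refine ⟨y, ?_, ?_⟩
  · intro h
    exact hy 1 G.one_mem (by simp) (by simp [h])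
  · intro g hg hgE hgy
    let t : (↥E → ↥D) × ↥D := (fun e => ⟨g e, hgE e e.2⟩, ⟨g y, hgy⟩)
    have h : ∃ y : ℕ, ∃ g ∈ G, (∀ e : ↥E, g e = t.1 e) ∧ g y = t.2 :=
      ⟨y, g, hg, fun e => rfl, rfl⟩
    have hr : r t = h.choose := dif_pos h
    obtain ⟨g', hg', h1, h2⟩ := h.choose_spec
    apply hy (g'⁻¹ * g) (G.mul_mem (G.inv_mem hg') hg)
    · intro e he
      rw [Equiv.Perm.mul_apply, Equiv.Perm.inv_eq_iff_eq]
      exact (h1 ⟨e, he⟩).symm
    · have e : (g'⁻¹ * g) y = r t := by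
        rw [Equiv.Perm.mul_apply, Equiv.Perm.inv_eq_iff_eq, hr]
        exact h2.symm
      rw [e]
      exact Finset.mem_union_right _ (Finset.mem_image_of_mem _ (Finset.mem_univ _))

/-- The data of the construction of the new involution. -/
structure Data (G : Subgroup (Equiv.Perm ℕ)) (E : Finset ℕ) where
  x : ℕ → ℕ
  y : ℕ → ℕ
  U : ℕ → Finset ℕ
  U0 : U 0 = ∅
  US : ∀ s, U (s + 1) = insert (y s) (insert (x s) (U s))
  hx : ∀ s, x s ∉ U s
  hy : ∀ s, y s ∉ insert (x s) (U s)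
  hr : ∀ s, Finset.range s ⊆ U s
  hK : ∀ s, ∀ g ∈ G, (∀ e ∈ E, g e ∈ insert (x s) (U s)) → g (y s) ∉ insert (x s) (U s)

theorem data_exists (G : Subgroup (Equiv.Perm ℕ)) (E : Finset ℕ)
    (hE : ∀ F : Finset ℕ, ∃ y : ℕ, ∀ g ∈ G, (∀ e ∈ E, g e = e) → g y ∉ F) :
    Nonempty (Data G E) := by
  classical
  choose ev hev1 hev2 using evade G E hE
  let nx : Finset ℕ → ℕ := fun U => Nat.find (Infinite.exists_notMem_finset U)
  have hnx : ∀ U, nx U ∉ U := fun U => Nat.find_spec (Infinite.exists_notMem_finset U)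
  have hnx' : ∀ U n, n < nx U → n ∈ U := fun U n hn => by
    have := Nat.find_min (Infinite.exists_notMem_finset U) hn
    simpa using this
  let U : ℕ → Finset ℕ := fun n =>
    Nat.rec ∅ (fun _ V => insert (ev (insert (nx V) V)) (insert (nx V) V)) n
  have hU : ∀ s, U (s + 1) = insert (ev (insert (nx (U s)) (U s))) (insert (nx (U s)) (U s)) :=
    fun s => rfl
  refine ⟨⟨fun s => nx (U s), fun s => ev (insert (nx (U s)) (U s)), U, rfl, fun s => ?_,
    fun s => hnx _, fun s => ?_, fun s => ?_, fun s => ?_⟩⟩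
  · rw [hU]
  · have := hev1 (insert (nx (U s)) (U s))
    convert this
  · induction s with
    | zero => simp
    | succ s ih =>
      intro n hn
      rw [hU]
      rcases Classical.em (n ∈ U s) with h | h
      · simp [h]
      · have hns : n = s := by
          by_contra hne
          have hn' := Finset.mem_range.mp hn
          exact h (ih (Finset.mem_range.mpr (by omega)))
        have : nx (U s) = s := by
          rcases lt_trichotomy (nx (U s)) s with h1 | h1 | h1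
          · exact absurd (ih (Finset.mem_range.mpr h1)) (hnx _)
          · exact h1
          · exact absurd (hnx' _ _ h1) (by rw [← hns]; rwa [hns] at h ⊢)
        rw [this, hns]
        simp
  · intro g hg h
    have := hev2 (insert (nx (U s)) (U s)) g hg (by convert h)
    convert this

namespace Data

variable {G : Subgroup (Equiv.Perm ℕ)} {E : Finset ℕ} (d : Data G E)

theorem mono : Monotone d.U := by
  apply monotone_nat_of_le_succ
  intro s
  rw [d.US]
  intro n hn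
  simp [hn]

theorem ex_stage (n : ℕ) : ∃ s, n ∈ d.U (s + 1) :=
  ⟨n, d.hr (n + 1) (by simp)⟩

/-- the stage at which a point is used -/
noncomputable def st (n : ℕ) : ℕ := by
  classical
  exact Nat.find (d.ex_stage n)

theorem st_mem (n : ℕ) : n ∈ d.U (d.st n + 1) := by
  classical
  unfold st
  exact Nat.find_spec (d.ex_stage n)

theorem st_le {n s : ℕ} (h : n ∈ d.U (s + 1)) : d.st n ≤ s := by
  classical
  unfold st
  exact Nat.find_min' (d.ex_stage n) h

theorem st_lt_iff (n s : ℕ) : s < d.st n ↔ n ∉ d.U (s + 1) := by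
  constructor
  · intro h h'
    have := d.st_le h'
    omega
  · intro h
    by_contra hcon
    apply h
    exact d.mono (by omega) (d.st_mem n)

theorem st_notMem (n : ℕ) : n ∉ d.U (d.st n) := by
  rcases Nat.eq_zero_or_pos (d.st n) with h | h
  · rw [h, d.U0]
    simp
  · intro h'
    have : n ∈ d.U ((d.st n - 1) + 1) := by rwa [Nat.sub_add_cancel h]
    have := d.st_le this
    omega

theorem st_eq {n s : ℕ} (h1 : n ∈ d.U (s + 1)) (h2 : n ∉ d.U s) : d.st n = s := by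
  have h3 := d.st_le h1
  by_contra hne
  apply h2
  exact d.mono (by omega) (d.st_mem n)

theorem st_x (s : ℕ) : d.st (d.x s) = s := by
  apply d.st_eq
  · rw [d.US]
    simp
  · exact d.hx s

theorem st_y (s : ℕ) : d.st (d.y s) = s := by
  apply d.st_eq
  · rw [d.US]
    simp
  · intro h
    apply d.hy s
    simp [h]

theorem cases (n : ℕ) : n = d.x (d.st n) ∨ n = d.y (d.st n) := by
  have h1 := d.st_mem n
  have h2 := d.st_notMem n
  rw [d.US] at h1
  simp only [Finset.mem_insert] at h1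
  tauto

theorem y_ne_x (s : ℕ) : d.y s ≠ d.x s := by
  intro h
  apply d.hy s
  simp [h]

/-- the new involution, as a function -/
noncomputable def hfun (n : ℕ) : ℕ := if n = d.x (d.st n) then d.y (d.st n) else d.x (d.st n)

theorem hfun_x (s : ℕ) : d.hfun (d.x s) = d.y s := by
  unfold hfun
  rw [d.st_x, if_pos rfl]

theorem hfun_y (s : ℕ) : d.hfun (d.y s) = d.x s := by
  unfold hfun
  rw [d.st_y, if_neg (d.y_ne_x s)]

theorem hfun_inv : Function.Involutive d.hfun := by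
  intro n
  rcases d.cases n with h | h
  · rw [h, d.hfun_x, d.hfun_y]
  · rw [h, d.hfun_y, d.hfun_x]

/-- the new involution -/
noncomputable def h : Equiv.Perm ℕ := d.hfun_inv.toPerm

theorem h_x (s : ℕ) : d.h (d.x s) = d.y s := d.hfun_x s

theorem h_y (s : ℕ) : d.h (d.y s) = d.x s := d.hfun_y s

theorem h_h : d.h * d.h = 1 := by
  ext n
  exact d.hfun_inv n

theorem h_ne (n : ℕ) : d.h n ≠ n := by
  rcases d.cases n with h | h
  · rw [h, d.h_x]
    exact d.y_ne_x _
  · rw [h, d.h_y]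
    exact (d.y_ne_x _).symm

theorem key (hcof : ∀ g ∈ G, g ≠ 1 → Set.Finite {n : ℕ | g n = n}) {g : Equiv.Perm ℕ}
    (hg : g ∈ G) (h1 : g ≠ 1) : ∃ B, ∀ s, B ≤ s → s < d.st (g (d.y s)) := by
  classical
  obtain ⟨b, hb⟩ := (hcof g hg h1).bddAbove
  refine ⟨max (b + 1) (E.sup g + 1), fun s hs => ?_⟩
  rw [d.st_lt_iff, d.US]
  have hs1 : b + 1 ≤ s := le_trans (le_max_left _ _) hs
  have hs2 : E.sup g + 1 ≤ s := le_trans (le_max_right _ _) hs
  intro hmem
  rcases Finset.mem_insert.mp hmem with h | h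
  · have h2 := hb h
    have h3 : d.y s ∉ Finset.range s := by
      intro h4
      apply d.hy s
      exact Finset.mem_insert_of_mem (d.hr s h4)
    rw [Finset.mem_range] at h3
    omega
  · refine d.hK s g hg ?_ h
    intro e he
    have : g e ≤ E.sup g := Finset.le_sup (f := g) he
    exact Finset.mem_insert_of_mem (d.hr s (Finset.mem_range.mpr (by omega)))

theorem h_notMem (hcof : ∀ g ∈ G, g ≠ 1 → Set.Finite {n : ℕ | g n = n}) : d.h ∉ G := by
  intro hG
  have h1 : d.h ≠ 1 := by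
    intro h
    apply d.h_ne 0
    rw [h, Equiv.Perm.one_apply]
  obtain ⟨B, hB⟩ := d.key hcof hG h1
  have := hB B le_rfl
  rw [d.h_y, d.st_x] at this
  omega

/-- the word `g₁ h g₂ h ... gₙ h` -/
noncomputable def W (L : List (Equiv.Perm ℕ)) : Equiv.Perm ℕ := (L.map (fun g => g * d.h)).prod

theorem W_nil : d.W [] = 1 := rfl

theorem W_cons (g : Equiv.Perm ℕ) (L : List (Equiv.Perm ℕ)) : d.W (g :: L) = g * d.h * d.W L := by
  simp [W]

theorem W_append (L M : List (Equiv.Perm ℕ)) : d.W (L ++ M) = d.W L * d.W M := by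
  simp [W]

theorem fwd (B : ℕ) (L : List (Equiv.Perm ℕ))
    (hL : ∀ g ∈ L, (∀ s, B ≤ s → s < d.st (g (d.y s))) ∧ ∀ s, B ≤ s → s < d.st (g⁻¹ (d.y s)))
    (s : ℕ) (hs : B ≤ s) : ∃ t, s + L.length ≤ t ∧ d.W L (d.x s) = d.x t := by
  induction L with
  | nil => exact ⟨s, le_rfl, rfl⟩
  | cons g L ih =>
    obtain ⟨t, ht, hW⟩ := ih (fun g hg => hL g (List.mem_cons_of_mem _ hg))
    obtain ⟨h1, h2⟩ := hL g List.mem_cons_self
    have h3 := h1 t (by omega)
    refine ⟨d.st (g (d.y t)), ?_, ?_⟩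
    · simp only [List.length_cons]
      omega
    · rw [W_cons, Equiv.Perm.mul_apply, hW, Equiv.Perm.mul_apply, d.h_x]
      rcases d.cases (g (d.y t)) with h | h
      · exact h
      · exfalso
        have h4 := h2 (d.st (g (d.y t))) (by omega)
        rw [← h, inv_self, d.st_y] at h4
        omega

theorem bwd (B : ℕ) (L : List (Equiv.Perm ℕ))
    (hL : ∀ g ∈ L, (∀ s, B ≤ s → s < d.st (g (d.y s))) ∧ ∀ s, B ≤ s → s < d.st (g⁻¹ (d.y s)))
    (s : ℕ) (hs : B ≤ s) : ∃ t, s + L.length ≤ t ∧ d.W L (d.y t) = d.y s := by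
  induction L generalizing s with
  | nil => exact ⟨s, le_rfl, rfl⟩
  | cons g L ih =>
    obtain ⟨h1, h2⟩ := hL g List.mem_cons_self
    have h3 := h2 s hs
    obtain ⟨t, ht, hW⟩ := ih (fun g hg => hL g (List.mem_cons_of_mem _ hg))
      (d.st (g⁻¹ (d.y s))) (by omega)
    refine ⟨t, ?_, ?_⟩
    · simp only [List.length_cons]
      omega
    · rw [W_cons, Equiv.Perm.mul_apply, hW, Equiv.Perm.mul_apply, d.h_y]
      rcases d.cases (g⁻¹ (d.y s)) with h | h
      · rw [← h, self_inv]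
      · exfalso
        have h4 := h1 (d.st (g⁻¹ (d.y s))) (by omega)
        rw [← h, self_inv, d.st_y] at h4
        omega

theorem fin_of_ne_one (hcof : ∀ g ∈ G, g ≠ 1 → Set.Finite {n : ℕ | g n = n})
    (L : List (Equiv.Perm ℕ)) (hL0 : L ≠ []) (hL : ∀ g ∈ L, g ∈ G ∧ g ≠ 1) :
    Set.Finite {n : ℕ | d.W L n = n} := by
  have hB : ∃ B, ∀ g ∈ L, (∀ s, B ≤ s → s < d.st (g (d.y s))) ∧
      ∀ s, B ≤ s → s < d.st (g⁻¹ (d.y s)) := by
    clear hL0
    induction L with
    | nil => exact ⟨0, by simp⟩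
    | cons g L ih =>
      obtain ⟨B, hB⟩ := ih (fun g hg => hL g (List.mem_cons_of_mem _ hg))
      obtain ⟨hg, hg1⟩ := hL g List.mem_cons_self
      obtain ⟨B1, hB1⟩ := d.key hcof hg hg1
      obtain ⟨B2, hB2⟩ := d.key hcof (G.inv_mem hg) (inv_ne_one.mpr hg1)
      refine ⟨max B (max B1 B2), ?_⟩
      intro g' hg'
      rcases List.mem_cons.mp hg' with rfl | hg'
      · exact ⟨fun s hs => hB1 s (le_trans (by simp) hs), fun s hs => hB2 s (le_trans (by simp) hs)⟩
      · exact ⟨fun s hs => (hB g' hg').1 s (le_trans (by simp) hs),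
          fun s hs => (hB g' hg').2 s (le_trans (by simp) hs)⟩
  obtain ⟨B, hB⟩ := hB
  have hlen : 0 < L.length := List.length_pos_of_ne_nil hL0
  apply (d.U B).finite_toSet.subset
  intro n hn
  change d.W L n = n at hn
  by_contra hcon
  have hst : B ≤ d.st n := by
    by_contra hlt
    apply hcon
    exact d.mono (by omega) (d.st_mem n)
  rcases d.cases n with h | h
  · obtain ⟨t, ht, hW⟩ := d.fwd B L hB (d.st n) hst
    rw [← h, hn] at hW
    have := congrArg d.st hW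
    rw [d.st_x] at this
    omega
  · obtain ⟨t, ht, hW⟩ := d.bwd B L hB (d.st n) hst
    rw [← h] at hW
    have := (d.W L).injective (hW.trans hn.symm)
    have := congrArg d.st this
    rw [d.st_y] at this
    omega

/-- trivial or with finitely many fixed points -/
def Ok (w : Equiv.Perm ℕ) : Prop := w ≠ 1 → Set.Finite {n : ℕ | w n = n}

theorem Ok.conj {w : Equiv.Perm ℕ} (c : Equiv.Perm ℕ) (hw : Ok (c * w * c⁻¹)) : Ok w := by
  intro h1
  have h2 : c * w * c⁻¹ ≠ 1 := by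
    intro h
    apply h1
    have : c * w = c := by rwa [mul_inv_eq_one] at h
    exact mul_eq_left.mp this
  refine ((hw h2).preimage (f := c) c.injective.injOn).subset ?_
  intro n hn
  change w n = n at hn
  change (c * w * c⁻¹) (c n) = c n
  rw [Equiv.Perm.mul_apply, Equiv.Perm.mul_apply, inv_self, hn]

theorem ok_W (hcof : ∀ g ∈ G, g ≠ 1 → Set.Finite {n : ℕ | g n = n}) (N : ℕ) :
    ∀ L : List (Equiv.Perm ℕ), L.length ≤ N → (∀ g ∈ L, g ∈ G) → Ok (d.W L) := by
  induction N using Nat.strong_induction_on with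
  | _ N ih =>
    intro L hLN hL
    by_cases hne : L = []
    · subst hne
      intro h
      exact absurd rfl h
    by_cases h1 : ∀ g ∈ L, g ≠ 1
    · intro _
      exact d.fin_of_ne_one hcof L hne fun g hg => ⟨hL g hg, h1 g hg⟩
    push Not at h1
    obtain ⟨g, hgL, rfl⟩ := h1
    obtain ⟨A, C, rfl⟩ := List.append_of_mem hgL
    -- conjugate to h * W (C ++ A)
    have hconj : (d.W A)⁻¹ * d.W (A ++ 1 :: C) * (d.W A)⁻¹⁻¹ = d.h * d.W (C ++ A) := by
      rw [W_append, W_append, W_cons]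
      group
    apply Ok.conj (d.W A)⁻¹
    rw [hconj]
    have hM : ∀ g ∈ C ++ A, g ∈ G := by
      intro g hg
      apply hL
      simp only [List.mem_append, List.mem_cons] at hg ⊢
      tauto
    have hlen : (C ++ A).length + 1 ≤ N := by
      simp only [List.length_append, List.length_cons] at hLN ⊢
      omega
    generalize C ++ A = M at hM hlen
    rcases M with _ | ⟨g2, M⟩
    · intro _
      convert Set.finite_empty
      ext n
      simp only [Set.mem_empty_iff_false, iff_false]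
      intro hn
      change (d.h * d.W []) n = n at hn
      rw [W_nil, mul_one] at hn
      exact d.h_ne n hn
    · rcases List.eq_nil_or_concat M with rfl | ⟨M', g3, rfl⟩
      · apply Ok.conj d.h
        have : d.h * (d.h * d.W [g2]) * d.h⁻¹ = g2 := by
          rw [W_cons, W_nil]
          simp only [← mul_assoc, d.h_h]
          group
        rw [this]
        exact hcof g2 (hM g2 (by simp))
      · apply Ok.conj (g3 * d.h)
        have hh : d.h⁻¹ = d.h := by
          rw [inv_eq_iff_mul_eq_one, d.h_h]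
        have : g3 * d.h * (d.h * d.W (g2 :: M'.concat g3)) * (g3 * d.h)⁻¹
            = d.W ((g3 * g2) :: M') := by
          rw [W_cons, W_cons, List.concat_eq_append, W_append, W_cons, W_nil]
          have e1 : g3 * d.h * (d.h * (g2 * d.h * (d.W M' * (g3 * d.h * 1)))) * (g3 * d.h)⁻¹
            = g3 * (d.h * d.h) * (g2 * d.h * d.W M') := by group
          rw [e1, d.h_h]
          group
        rw [this]
        apply ih (N - 1) (by omega)
        · simp only [List.length_cons, List.concat_eq_append, List.length_append] at hlen ⊢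
          simp at hlen
          omega
        · intro g hg
          rcases List.mem_cons.mp hg with rfl | hg
          · exact G.mul_mem (hM _ (by simp)) (hM _ (by simp))
          · exact hM _ (by simp [hg])

theorem words {w : Equiv.Perm ℕ} (hw : w ∈ Subgroup.closure ((G : Set (Equiv.Perm ℕ)) ∪ {d.h})) :
    ∃ L : List (Equiv.Perm ℕ), (∀ g ∈ L, g ∈ G) ∧ ∃ g0 ∈ G, w = d.W L * g0 := by
  have hh : d.h⁻¹ = d.h := by
    rw [inv_eq_iff_mul_eq_one, d.h_h]
  have hmul : ∀ w : Equiv.Perm ℕ, ∀ z ∈ ((G : Set (Equiv.Perm ℕ)) ∪ {d.h}),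
      (∃ L : List (Equiv.Perm ℕ), (∀ g ∈ L, g ∈ G) ∧ ∃ g0 ∈ G, w = d.W L * g0) →
      ∃ L : List (Equiv.Perm ℕ), (∀ g ∈ L, g ∈ G) ∧ ∃ g0 ∈ G, w * z = d.W L * g0 := by
    rintro w z hz ⟨L, hL, g0, hg0, rfl⟩
    rcases hz with hz | hz
    · exact ⟨L, hL, g0 * z, G.mul_mem hg0 hz, by rw [mul_assoc]⟩
    · rw [Set.mem_singleton_iff] at hz
      subst hz
      refine ⟨L ++ [g0], ?_, 1, G.one_mem, ?_⟩
      · intro g hg
        rcases List.mem_append.mp hg with hg | hg
        · exact hL g hg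
        · rw [List.mem_singleton] at hg
          rwa [hg]
      · rw [W_append, W_cons, W_nil]
        group
  induction hw using Subgroup.closure_induction_right with
  | one => exact ⟨[], by simp, 1, G.one_mem, by rw [W_nil, mul_one]⟩
  | mul_right x hx y hy ih => exact hmul x y hy ih
  | mul_inv_cancel x hx y hy ih =>
    apply hmul x _ _ ih
    rcases hy with hy | hy
    · exact Or.inl (G.inv_mem hy)
    · right
      rw [Set.mem_singleton_iff] at hy ⊢
      rw [hy, hh]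

theorem ok_closure (hcof : ∀ g ∈ G, g ≠ 1 → Set.Finite {n : ℕ | g n = n}) {w : Equiv.Perm ℕ}
    (hw : w ∈ Subgroup.closure ((G : Set (Equiv.Perm ℕ)) ∪ {d.h})) : Ok w := by
  obtain ⟨L, hL, g0, hg0, rfl⟩ := d.words hw
  rcases L with _ | ⟨g1, L⟩
  · rw [W_nil, one_mul]
    exact hcof g0 hg0
  · apply Ok.conj g0
    have : g0 * (d.W (g1 :: L) * g0) * g0⁻¹ = d.W ((g0 * g1) :: L) := by
      rw [W_cons, W_cons]
      group
    rw [this]
    apply d.ok_W hcof _ _ le_rfl
    intro g hg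
    rcases List.mem_cons.mp hg with rfl | hg
    · exact G.mul_mem hg0 (hL _ (by simp))
    · exact hL _ (by simp [hg])

end Data

theorem olig_of_maximal (G : Subgroup (Equiv.Perm ℕ))
    (hcof : ∀ g ∈ G, g ≠ 1 → Set.Finite {n : ℕ | g n = n})
    (hmax : ∀ H : Subgroup (Equiv.Perm ℕ), G ≤ H →
        (∀ h ∈ H, h ≠ 1 → Set.Finite {n : ℕ | h n = n}) → H = G) : Olig G := by
  intro E
  by_contra hcon
  push Not at hcon
  obtain ⟨d⟩ := data_exists G E hcon
  have hle : G ≤ Subgroup.closure ((G : Set (Equiv.Perm ℕ)) ∪ {d.h}) := fun g hg =>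
    Subgroup.subset_closure (Or.inl hg)
  have heq := hmax _ hle fun w hw => d.ok_closure hcof hw
  apply d.h_notMem hcof
  apply heq.le
  exact Subgroup.subset_closure (Or.inr rfl)

/-- The negation of the preceding statement: There is a subgroup of the permutations of ℕ whose non-identity elements each fix only finitely many points and which no larger such group contains, and which is a G_delta subset of Baire space. -/
theorem result :
    ¬ (∃ G : Subgroup (Equiv.Perm ℕ),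
      (∀ g ∈ G, g ≠ 1 → Set.Finite {n : ℕ | g n = n}) ∧
      (∀ H : Subgroup (Equiv.Perm ℕ), G ≤ H →
        (∀ h ∈ H, h ≠ 1 → Set.Finite {n : ℕ | h n = n}) → H = G) ∧
      IsGδ ((fun g : Equiv.Perm ℕ => (⇑g : ℕ → ℕ)) '' (G : Set (Equiv.Perm ℕ)))) := by
  rintro ⟨G, hcof, hmax, hG⟩
  obtain ⟨g, hg, h1, h2⟩ := not_cof_of_closed_olig G (olig_of_maximal G hcof hmax)
    (closed_of_gdelta G hG)
  exact h2 (hcof g hg h1)

end Pool.Agent.S14372
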