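import Pool.Statements.S14813

set_option autoImplicit false
open Pool Pool.MP_655bfb_lc

namespace Pool.Agent.S14813

section Regular

variable {α : Type}

/-- State reached after reading the first `L` columns. -/
def run {ι Q : Type} (step : Q → (ι → Option α) → Q) (q0 : Q) (w : ι → List α) : ℕ → Q
  | 0 => q0
  | L + 1 => step (run step q0 w L) (fun i => (w i)[L]?)

theorem run_congr {ι Q : Type} (step : Q → (ι → Option α) → Q) (q0 : Q)
    (w w' : ι → List α) (L : ℕ)
    (h : ∀ i, ∀ l < L, (w i)[l]? = (w' i)[l]?) : run step q0 w L = run step q0 w' L := by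
  induction L with
  | zero => rfl
  | succ L ih =>
    simp only [run]
    rw [ih (fun i l hl => h i l (by omega))]
    congr 1
    funext i
    exact h i L (by omega)

/-- Synchronous regular relations: acceptance does not depend on trailing blank columns. -/
def Reg {ι : Type} (R : (ι → List α) → Prop) : Prop :=
  ∃ (Q : Type) (_ : Finite Q) (step : Q → (ι → Option α) → Q) (q0 : Q) (acc : Set Q),
    ∀ (w : ι → List α) (L : ℕ), (∀ i, (w i).length ≤ L) → (run step q0 w L ∈ acc ↔ R w)

theorem run_add {ι Q : Type} (step : Q → (ι → Option α) → Q) (q0 : Q)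
    (w : ι → List α) (L : ℕ) (hL : ∀ i, (w i).length ≤ L) (T : ℕ) :
    run step q0 w (L + T) = (fun q => step q (fun _ => none))^[T] (run step q0 w L) := by
  induction T with
  | zero => rfl
  | succ T ih =>
    rw [Function.iterate_succ_apply', ← ih, ← Nat.add_assoc]
    simp only [run]
    congr 1
    funext i
    exact List.getElem?_eq_none (by have := hL i; omega)

theorem Reg.of_eventually {ι Q : Type} [Finite ι] [Finite Q] {R : (ι → List α) → Prop}
    (step : Q → (ι → Option α) → Q) (q0 : Q) (acc : Set Q)
    (h : ∀ w, ∃ L0, ∀ L, L0 ≤ L → (run step q0 w L ∈ acc ↔ R w)) : Reg R := by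
  refine ⟨Q, inferInstance, step, q0,
    {q | ∃ T0, ∀ T, T0 ≤ T → (fun q => step q (fun _ => none))^[T] q ∈ acc}, ?_⟩
  intro w L hL
  obtain ⟨L0, hL0⟩ := h w
  simp only [Set.mem_ofPred_eq]
  simp only [← run_add step q0 w L hL]
  constructor
  · rintro ⟨T0, hT0⟩
    exact (hL0 (L + (T0 + L0)) (by omega)).1 (hT0 _ (by omega))
  · intro hR
    exact ⟨L0, fun T hT => (hL0 (L + T) (by omega)).2 hR⟩

theorem Reg.congr {ι : Type} {R R' : (ι → List α) → Prop} (h : Reg R) (hR : ∀ w, R w ↔ R' w) :
    Reg R' := by
  have : R = R' := by
    funext w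
    exact propext (hR w)
  rwa [← this]

theorem Reg.not {ι : Type} {R : (ι → List α) → Prop} (h : Reg R) : Reg (fun w => ¬ R w) := by
  obtain ⟨Q, hQ, step, q0, acc, H⟩ := h
  exact ⟨Q, hQ, step, q0, accᶜ, fun w L hL => not_congr (H w L hL)⟩

theorem Reg.const {ι : Type} (P : Prop) : Reg (fun _ : ι → List α => P) := by
  refine ⟨Unit, inferInstance, fun _ _ => (), (), {_q | P}, ?_⟩
  intro w L hL
  rfl

theorem Reg.forallFin {ι J : Type} [Finite J] {R : J → (ι → List α) → Prop}
    (h : ∀ j, Reg (R j)) : Reg (fun w => ∀ j, R j w) := by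
  choose Q hQ step q0 acc H using h
  refine ⟨∀ j, Q j, inferInstance, fun q c j => step j (q j) c, fun j => q0 j,
    {q | ∀ j, q j ∈ acc j}, ?_⟩
  intro w L hL
  have key : ∀ L j, run (fun (q : ∀ j, Q j) c j => step j (q j) c) (fun j => q0 j) w L j
      = run (step j) (q0 j) w L := by
    intro L
    induction L with
    | zero => intro j; rfl
    | succ L ih =>
      intro j
      simp only [run]
      rw [ih]
  simp only [Set.mem_ofPred_eq]
  exact forall_congr' fun j => by rw [key]; exact H j w L hL

theorem Reg.existsFin {ι J : Type} [Finite J] {R : J → (ι → List α) → Prop}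
    (h : ∀ j, Reg (R j)) : Reg (fun w => ∃ j, R j w) := by
  refine (Reg.forallFin (fun j => (h j).not)).not.congr ?_
  intro w
  simp

theorem Reg.and {ι : Type} {R R' : (ι → List α) → Prop} (h : Reg R) (h' : Reg R') :
    Reg (fun w => R w ∧ R' w) := by
  have : Reg (fun w => ∀ t : Bool, (if t then R w else R' w)) := by
    apply Reg.forallFin
    intro t
    cases t
    · simpa using h'
    · simpa using h
  refine this.congr ?_
  intro w
  simp [and_comm]

theorem Reg.imp {ι : Type} {R R' : (ι → List α) → Prop} (h : Reg R) (h' : Reg R') :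
    Reg (fun w => R w → R' w) := by
  refine (h.and h'.not).not.congr ?_
  intro w
  tauto

theorem Reg.comp {ι κ : Type} {R : (ι → List α) → Prop} (h : Reg R) (g : ι → κ) :
    Reg (fun w : κ → List α => R (fun i => w (g i))) := by
  obtain ⟨Q, hQ, step, q0, acc, H⟩ := h
  refine ⟨Q, hQ, fun q c => step q (fun i => c (g i)), q0, acc, ?_⟩
  intro w L hL
  change _ ↔ R (fun i => w (g i))
  rw [← H (fun i => w (g i)) L (fun i => hL (g i))]
  have key : ∀ L, run (fun q (c : κ → Option α) => step q (fun i => c (g i))) q0 w L
      = run step q0 (fun i => w (g i)) L := by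
    intro L
    induction L with
    | zero => rfl
    | succ L ih =>
      simp only [run]
      rw [ih]
  rw [key]

theorem Reg.eq {ι : Type} (i j : ι) : Reg (fun w : ι → List α => w i = w j) := by
  classical
  refine ⟨Prop, inferInstance, fun q c => q ∧ c i = c j, True, {q | q}, ?_⟩
  intro w L hL
  have key : ∀ L, run (fun (q : Prop) (c : ι → Option α) => q ∧ c i = c j) True w L
      ↔ ∀ l < L, (w i)[l]? = (w j)[l]? := by
    intro L
    induction L with
    | zero => simp [run]
    | succ L ih =>
      simp only [run]
      rw [ih]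
      constructor
      · rintro ⟨h1, h2⟩ l hl
        rcases Nat.lt_succ_iff_lt_or_eq.1 hl with h | h
        · exact h1 l h
        · rw [h]; exact h2
      · intro h
        exact ⟨fun l hl => h l (by omega), h L (by omega)⟩
  simp only [Set.mem_ofPred_eq]
  rw [key]
  constructor
  · intro h
    apply List.ext_getElem?
    intro l
    by_cases hl : l < L
    · exact h l hl
    · rw [List.getElem?_eq_none (by have := hL i; omega),
        List.getElem?_eq_none (by have := hL j; omega)]
  · intro h l _
    rw [h]

theorem Reg.existsWords {ι κ : Type} [Finite ι] [Finite κ] {R : (ι ⊕ κ → List α) → Prop}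
    (h : Reg R) : Reg (fun w : ι → List α => ∃ y : κ → List α, R (Sum.elim w y)) := by
  classical
  obtain ⟨Q, hQ, step, q0, acc, H⟩ := h
  let T : Set (Q × (κ → Prop)) → (ι → Option α) → Set (Q × (κ → Prop)) := fun S c =>
    {p | ∃ p0 ∈ S, ∃ d : κ → Option α, (∀ k, p0.2 k → d k = none) ∧
      p.1 = step p0.1 (Sum.elim c d) ∧ ∀ k, p.2 k ↔ d k = none}
  have key : ∀ (w : ι → List α) (L : ℕ),
      run T {p | p.1 = q0 ∧ ∀ k, ¬ p.2 k} w L
        = {p | ∃ y : κ → List α, p.1 = run step q0 (Sum.elim w y) L ∧
            ∀ k, p.2 k ↔ (y k).length < L} := by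
    intro w L
    induction L with
    | zero =>
      ext p
      simp [run]
    | succ L ih =>
      simp only [run]
      rw [ih]
      ext p
      simp only [T, Set.mem_ofPred_eq]
      constructor
      · rintro ⟨p0, ⟨y, hy1, hy2⟩, d, hd, hp1, hp2⟩
        refine ⟨fun k => match d k with
          | none => (y k).take L
          | some a => (y k).take L ++ [a], ?_, ?_⟩
        · rw [hp1, hy1]
          congr 1
          · apply run_congr
            intro i l hl
            rcases i with i | k
            · rfl
            · simp only [Sum.elim_inr]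
              rcases hdk : d k with _ | a
              · simp only [List.getElem?_take]
                simp [hl]
              · have hlen : ¬ (y k).length < L := by
                  intro hc
                  have := hd k ((hy2 k).2 hc)
                  rw [hdk] at this
                  exact absurd this (by simp)
                rw [List.getElem?_append_left (by simp; omega)]
                simp [List.getElem?_take, hl]
          · funext i
            rcases i with i | k
            · rfl
            · simp only [Sum.elim_inr]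
              rcases hdk : d k with _ | a
              · simp
              · have hlen : ¬ (y k).length < L := by
                  intro hc
                  have := hd k ((hy2 k).2 hc)
                  rw [hdk] at this
                  exact absurd this (by simp)
                have h3 : ((y k).take L).length = L := by simp; omega
                rw [List.getElem?_append_right (by omega)]
                simp [h3]
        · intro k
          rw [hp2]
          rcases hdk : d k with _ | a
          · simp only [hdk, List.length_take, true_iff]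
            omega
          · have hlen : ¬ (y k).length < L := by
              intro hc
              have := hd k ((hy2 k).2 hc)
              rw [hdk] at this
              exact absurd this (by simp)
            simp only [hdk, List.length_append, List.length_take, List.length_cons,
              List.length_nil, reduceCtorEq, false_iff]
            omega
      · rintro ⟨y, hy1, hy2⟩
        refine ⟨(run step q0 (Sum.elim w y) L, fun k => (y k).length < L), ⟨y, rfl, fun k => Iff.rfl⟩,
          fun k => (y k)[L]?, ?_, ?_, ?_⟩
        · intro k hk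
          exact List.getElem?_eq_none (by simp at hk; omega)
        · rw [hy1]
          congr 1
          funext i
          rcases i with i | k <;> rfl
        · intro k
          rw [hy2]
          rw [List.getElem?_eq_none_iff]
          omega
  refine Reg.of_eventually T {p | p.1 = q0 ∧ ∀ k, ¬ p.2 k} {S | ∃ p ∈ S, p.1 ∈ acc} ?_
  intro w
  obtain ⟨L1, hL1⟩ : ∃ L1, ∀ i, (w i).length ≤ L1 := by
    obtain ⟨M, hM⟩ := (Set.finite_range (fun i => (w i).length)).bddAbove
    exact ⟨M, fun i => hM ⟨i, rfl⟩⟩
  by_cases hR : ∃ y : κ → List α, R (Sum.elim w y)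
  · obtain ⟨y, hy⟩ := hR
    obtain ⟨L2, hL2⟩ : ∃ L2, ∀ i, (y i).length ≤ L2 := by
      obtain ⟨M, hM⟩ := (Set.finite_range (fun i => (y i).length)).bddAbove
      exact ⟨M, fun i => hM ⟨i, rfl⟩⟩
    refine ⟨L1 + L2, fun L hL => ⟨fun _ => ⟨y, hy⟩, fun _ => ?_⟩⟩
    rw [key]
    refine ⟨(run step q0 (Sum.elim w y) L, fun k => (y k).length < L), ⟨y, rfl, fun k => Iff.rfl⟩, ?_⟩
    refine (H (Sum.elim w y) L ?_).2 hy
    intro i
    rcases i with i | k
    · have := hL1 i
      simp only [Sum.elim_inl]
      omega
    · have := hL2 k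
      simp only [Sum.elim_inr]
      omega
  · refine ⟨L1, fun L hL => ⟨fun hS => ?_, fun hc => absurd hc hR⟩⟩
    rw [key] at hS
    obtain ⟨p, ⟨y, hy1, hy2⟩, hp⟩ := hS
    refine ⟨fun k => (y k).take L, ?_⟩
    refine (H _ L ?_).1 ?_
    · intro i
      rcases i with i | k
      · have := hL1 i
        simp only [Sum.elim_inl]
        omega
      · simp
    · rw [hy1] at hp
      convert hp using 1
      apply run_congr
      intro i l hl
      rcases i with i | k
      · rfl
      · simp [List.getElem?_take, hl]

theorem Reg.existsWord {ι : Type} [Finite ι] {R : (ι ⊕ Unit → List α) → Prop}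
    (h : Reg R) : Reg (fun w : ι → List α => ∃ x : List α, R (Sum.elim w (fun _ => x))) := by
  refine h.existsWords.congr ?_
  intro w
  constructor
  · rintro ⟨y, hy⟩
    refine ⟨y (), ?_⟩
    convert hy using 2
  · rintro ⟨x, hx⟩
    exact ⟨fun _ => x, hx⟩

theorem Reg.forallWords {ι κ : Type} [Finite ι] [Finite κ] {R : (ι ⊕ κ → List α) → Prop}
    (h : Reg R) : Reg (fun w : ι → List α => ∀ y : κ → List α, R (Sum.elim w y)) := by
  refine h.not.existsWords.not.congr ?_
  intro w
  simp

/-- Substituting constant words for some of the tapes. -/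
theorem Reg.params {ι κ : Type} [Finite ι] [Finite κ] {R : (ι ⊕ κ → List α) → Prop}
    (h : Reg R) (v : ι → List α) : Reg (fun w : κ → List α => R (Sum.elim v w)) := by
  obtain ⟨Q, hQ, step, q0, acc, H⟩ := h
  obtain ⟨M, hM⟩ : ∃ L1, ∀ i, (v i).length ≤ L1 := by
    obtain ⟨M, hM⟩ := (Set.finite_range (fun i => (v i).length)).bddAbove
    exact ⟨M, fun i => hM ⟨i, rfl⟩⟩
  let step' : Q × Fin (M + 1) → (κ → Option α) → Q × Fin (M + 1) := fun p c =>
    (step p.1 (Sum.elim (fun i => (v i)[p.2.1]?) c), ⟨min (p.2.1 + 1) M, by omega⟩)
  have key : ∀ (w : κ → List α) (L : ℕ), run step' (q0, ⟨0, by omega⟩) w L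
      = (run step q0 (Sum.elim v w) L, ⟨min L M, by omega⟩) := by
    intro w L
    induction L with
    | zero => simp [run]
    | succ L ih =>
      simp only [run]
      rw [ih]
      simp only [step', Prod.mk.injEq]
      constructor
      · congr 1
        funext i
        rcases i with i | k
        · simp only [Sum.elim_inl]
          by_cases hLM : L ≤ M
          · rw [min_eq_left hLM]
          · rw [List.getElem?_eq_none (by have := hM i; omega),
              List.getElem?_eq_none (by have := hM i; omega)]
        · rfl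
      · ext
        simp only
        omega
  refine Reg.of_eventually step' (q0, ⟨0, by omega⟩) {p | p.1 ∈ acc} ?_
  intro w
  obtain ⟨L1, hL1⟩ : ∃ L1, ∀ i, (w i).length ≤ L1 := by
    obtain ⟨M, hM⟩ := (Set.finite_range (fun i => (w i).length)).bddAbove
    exact ⟨M, fun i => hM ⟨i, rfl⟩⟩
  refine ⟨L1 + M, fun L hL => ?_⟩
  rw [key]
  simp only [Set.mem_ofPred_eq]
  refine H _ L ?_
  intro i
  rcases i with i | k
  · have := hM i
    simp only [Sum.elim_inl]
    omega
  · have := hL1 k
    simp only [Sum.elim_inr]
    omega

theorem Reg.toDFA {A : Language α} (h : Reg (fun w : Unit → List α => w () ∈ A)) :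
    ∃ (k : ℕ) (M : DFA α (Fin k)), M.accepts = A := by
  obtain ⟨Q, hQ, step, q0, acc, H⟩ := h
  obtain ⟨k, ⟨e⟩⟩ := Finite.exists_equiv_fin Q
  let M : DFA α (Fin k) :=
    { step := fun q a => e (step (e.symm q) (fun _ => some a))
      start := e q0
      accept := {q | e.symm q ∈ acc} }
  refine ⟨k, M, ?_⟩
  have key : ∀ x : List α, M.eval x = e (run step q0 (fun _ => x) x.length) := by
    intro x
    induction x using List.reverseRecOn with
    | nil => simp [M, run]
    | append_singleton x a ih =>
      rw [DFA.eval_append_singleton, ih]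
      simp only [List.length_append, List.length_cons, List.length_nil, run, M, Nat.zero_add]
      simp only [Equiv.symm_apply_apply]
      congr 2
      · apply run_congr
        intro i l hl
        rw [List.getElem?_append_left hl]
      · funext i
        simp
  ext x
  rw [DFA.mem_accepts, key]
  simp only [M, Set.mem_ofPred_eq, Equiv.symm_apply_apply]
  exact H (fun _ => x) x.length (fun _ => le_rfl)

end Regular

section Trees

variable {X : Type}

/-- The class `H` of two-valued functions shatters a binary tree of depth `k`, nodes in `Y`. -/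
def TR (Y : Set X) : ℕ → Set (X → Bool) → Prop
  | 0, H => H.Nonempty
  | k + 1, H => ∃ x ∈ Y, ∀ t : Bool, TR Y k {f | f ∈ H ∧ f x = t}

theorem TR.mono {Y Y' : Set X} (hY : Y ⊆ Y') {k : ℕ} {H H' : Set (X → Bool)} (hH : H ⊆ H')
    (h : TR Y k H) : TR Y' k H' := by
  induction k generalizing H H' with
  | zero => exact Set.Nonempty.mono hH h
  | succ k ih =>
    obtain ⟨x, hx, ht⟩ := h
    exact ⟨x, hY hx, fun t => ih (fun f hf => ⟨hH hf.1, hf.2⟩) (ht t)⟩

theorem TR.nonempty {Y : Set X} {k : ℕ} {H : Set (X → Bool)} (h : TR Y k H) : H.Nonempty := by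
  induction k generalizing H with
  | zero => exact h
  | succ k ih =>
    obtain ⟨x, hx, ht⟩ := h
    obtain ⟨f, hf⟩ := ih (ht true)
    exact ⟨f, hf.1⟩

theorem TR.color {Y : Set X} (c : X → Bool) (N : ℕ) : ∀ (p q : ℕ), p + q = N →
    ∀ {H : Set (X → Bool)}, TR Y N H →
      TR {y | y ∈ Y ∧ c y = true} p H ∨ TR {y | y ∈ Y ∧ c y = false} q H := by
  induction N with
  | zero =>
    intro p q hpq H h
    obtain rfl : p = 0 := by omega
    exact Or.inl h
  | succ N ih =>
    intro p q hpq H h
    have hne := h.nonempty
    obtain ⟨x, hx, ht⟩ := h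
    rcases hc : c x with _ | _
    · rcases q with _ | q
      · exact Or.inr hne
      · by_cases h1 : ∃ t : Bool, TR {y | y ∈ Y ∧ c y = true} p {f | f ∈ H ∧ f x = t}
        · obtain ⟨t, h1⟩ := h1
          exact Or.inl (h1.mono (le_refl _) (fun f hf => hf.1))
        · push Not at h1
          exact Or.inr ⟨x, ⟨hx, hc⟩, fun t => (ih p q (by omega) (ht t)).resolve_left (h1 t)⟩
    · rcases p with _ | p
      · exact Or.inl hne
      · by_cases h1 : ∃ t : Bool, TR {y | y ∈ Y ∧ c y = false} q {f | f ∈ H ∧ f x = t}
        · obtain ⟨t, h1⟩ := h1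
          exact Or.inr (h1.mono (le_refl _) (fun f hf => hf.1))
        · push Not at h1
          exact Or.inl ⟨x, ⟨hx, hc⟩, fun t => (ih p q (by omega) (ht t)).resolve_right (h1 t)⟩

def thr : ℕ → ℕ
  | 0 => 0
  | N + 1 => (thr N + 1) + (thr N + 1)

theorem TR.counts [DecidableEq X] (N : ℕ) : ∀ {Y : Set X} {H : Set (X → Bool)}, TR Y (thr N) H →
    ∃ S : Finset X, (↑S : Set X) ⊆ Y ∧ S.card = N ∧
      ∀ j ≤ N, ∃ f ∈ H, (S.filter (fun x => f x = true)).card = j := by
  induction N with
  | zero =>
    intro Y H h
    obtain ⟨f, hf⟩ := h.nonempty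
    exact ⟨∅, by simp, rfl, fun j hj => ⟨f, hf, by simp; omega⟩⟩
  | succ N ih =>
    intro Y H h
    obtain ⟨g, hg⟩ := h.nonempty
    rcases TR.color g _ (thr N + 1) (thr N + 1) rfl h with h1 | h1
    · obtain ⟨x, ⟨hxY, hgx⟩, ht⟩ := h1
      obtain ⟨S, hSY, hS, hcnt⟩ := ih (ht false)
      have hxS : x ∉ S := by
        intro hxS
        obtain ⟨f, ⟨_, hfx⟩, hfc⟩ := hcnt N le_rfl
        have h2 : S.filter (fun x => f x = true) = S :=
          Finset.eq_of_subset_of_card_le (Finset.filter_subset _ _) (by omega)
        rw [← h2, Finset.mem_filter] at hxS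
        rw [hfx] at hxS
        exact absurd hxS.2 (by simp)
      refine ⟨insert x S, ?_, ?_, ?_⟩
      · rw [Finset.coe_insert]
        exact Set.insert_subset hxY (fun y hy => (hSY hy).1)
      · rw [Finset.card_insert_of_notMem hxS, hS]
      · intro j hj
        rcases Nat.lt_or_ge j (N + 1) with hj' | hj'
        · obtain ⟨f, ⟨hfH, hfx⟩, hfc⟩ := hcnt j (by omega)
          refine ⟨f, hfH, ?_⟩
          rw [Finset.filter_insert, if_neg (by simp [hfx])]
          exact hfc
        · refine ⟨g, hg, ?_⟩
          have : (insert x S).filter (fun x => g x = true) = insert x S := by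
            apply Finset.filter_true_of_mem
            intro y hy
            rcases Finset.mem_insert.1 hy with hy | hy
            · rw [hy]; exact hgx
            · exact (hSY hy).2
          rw [this, Finset.card_insert_of_notMem hxS, hS]
          omega
    · obtain ⟨x, ⟨hxY, hgx⟩, ht⟩ := h1
      obtain ⟨S, hSY, hS, hcnt⟩ := ih (ht true)
      have hxS : x ∉ S := by
        intro hxS
        obtain ⟨f, ⟨_, hfx⟩, hfc⟩ := hcnt 0 (Nat.zero_le _)
        rw [Finset.card_eq_zero, Finset.filter_eq_empty_iff] at hfc
        exact hfc hxS hfx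
      refine ⟨insert x S, ?_, ?_, ?_⟩
      · rw [Finset.coe_insert]
        exact Set.insert_subset hxY (fun y hy => (hSY hy).1)
      · rw [Finset.card_insert_of_notMem hxS, hS]
      · intro j hj
        rcases j with _ | j
        · refine ⟨g, hg, ?_⟩
          rw [Finset.card_eq_zero, Finset.filter_eq_empty_iff]
          intro y hy
          rcases Finset.mem_insert.1 hy with hy | hy
          · rw [hy, hgx]; simp
          · rw [(hSY hy).2]; simp
        · obtain ⟨f, ⟨hfH, hfx⟩, hfc⟩ := hcnt j (by omega)
          refine ⟨f, hfH, ?_⟩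
          rw [Finset.filter_insert, if_pos hfx, Finset.card_insert_of_notMem, hfc]
          intro hc
          exact hxS (Finset.mem_filter.1 hc).1

end Trees

section Main

variable {α : Type} {n : ℕ}

/-- `f` respects the constraint `C` on all injective tuples from `F`. -/
def Good (C : (Fin n → List α) → Finset ℕ) (F : Set (List α)) (f : List α → Bool) : Prop :=
  ∀ w : Fin n → List α, (∀ j, w j ∈ F) → Function.Injective w →
    (Finset.univ.filter (fun j => f (w j) = true)).card ∈ C w

/-- The labelling `v i ↦ b i` extends to any `m` more words. -/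
def Ext (C : (Fin n → List α) → Finset ℕ) (m : ℕ) {ι : Type} (b : ι → Bool)
    (v : ι → List α) : Prop :=
  ∀ y : Fin m → List α, ∃ f : List α → Bool, (∀ i, f (v i) = b i) ∧
    Good C (Set.range v ∪ Set.range y) f

/-- The rank predicate. -/
def Rk (C : (Fin n → List α) → Finset ℕ) (m : ℕ) : ℕ → ∀ {ι : Type}, (ι → Bool) →
    (ι → List α) → Prop
  | 0, _, b, v => Ext C m b v
  | k + 1, _, b, v => ∃ x : List α, ∀ t : Bool,
      Rk C m k (Sum.elim b (fun _ : Unit => t)) (Sum.elim v (fun _ : Unit => x))

theorem Good.mono {C : (Fin n → List α) → Finset ℕ} {F F' : Set (List α)} {f : List α → Bool}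
    (h : Good C F' f) (hF : F ⊆ F') : Good C F f :=
  fun w hw hi => h w (fun j => hF (hw j)) hi

theorem Ext.reg {C : (Fin n → List α) → Finset ℕ} (hC : ∀ t, Reg (fun w => t ∈ C w))
    (m : ℕ) {ι : Type} [Finite ι] (b : ι → Bool) : Reg (fun v : ι → List α => Ext C m b v) := by
  have h1 : Reg (fun u : ι ⊕ Fin m → List α => ∃ c : ι ⊕ Fin m → Bool,
      (∀ i, c (Sum.inl i) = b i) ∧ (∀ i j, u i = u j → c i = c j) ∧
      ∀ g : Fin n → ι ⊕ Fin m, (∀ j j', u (g j) = u (g j') → j = j') →
        (Finset.univ.filter (fun j => c (g j) = true)).card ∈ C (fun j => u (g j))) := by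
    refine Reg.existsFin fun c => (Reg.const _).and (Reg.and ?_ ?_)
    · exact Reg.forallFin fun i => Reg.forallFin fun j => (Reg.eq i j).imp (Reg.const _)
    · refine Reg.forallFin fun g => Reg.imp ?_ ?_
      · exact Reg.forallFin fun j => Reg.forallFin fun j' => (Reg.eq _ _).imp (Reg.const _)
      · exact (hC _).comp g
  refine h1.forallWords.congr ?_
  intro v
  refine forall_congr' fun y => ?_
  constructor
  · rintro ⟨c, hc1, hc2, hc3⟩
    classical
    refine ⟨fun x => if h : ∃ i, Sum.elim v y i = x then c h.choose else false, ?_, ?_⟩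
    · intro i
      have h : ∃ i', Sum.elim v y i' = v i := ⟨Sum.inl i, rfl⟩
      simp only [dif_pos h]
      rw [← hc1 i]
      exact hc2 _ _ h.choose_spec
    · intro w hw hi
      rw [← Set.Sum.elim_range] at hw
      choose g hg using hw
      have hgw : (fun j => Sum.elim v y (g j)) = w := funext hg
      have := hc3 g (fun j j' hjj => hi (by rw [← hg j, ← hg j', hjj]))
      rw [hgw] at this
      convert this using 4 with j
      have h : ∃ i', Sum.elim v y i' = w j := ⟨g j, hg j⟩
      simp only [dif_pos h]
      exact hc2 _ _ (by rw [h.choose_spec, hg j])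
  · rintro ⟨f, hf1, hf2⟩
    refine ⟨fun i => f (Sum.elim v y i), fun i => hf1 i, fun i j hij => by simp only [hij], ?_⟩
    intro g hg
    refine hf2 (fun j => Sum.elim v y (g j)) ?_ (fun j j' hjj => hg j j' hjj)
    intro j
    rw [← Set.Sum.elim_range]
    exact ⟨g j, rfl⟩

theorem Rk.reg {C : (Fin n → List α) → Finset ℕ} (hC : ∀ t, Reg (fun w => t ∈ C w))
    (m k : ℕ) : ∀ {ι : Type} [Finite ι] (b : ι → Bool),
      Reg (fun v : ι → List α => Rk C m k b v) := by
  induction k with
  | zero =>
    intro ι _ b
    exact Ext.reg hC m b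
  | succ k ih =>
    intro ι _ b
    have h1 : Reg (fun u : ι ⊕ Unit → List α => ∀ t : Bool,
        Rk C m k (Sum.elim b (fun _ : Unit => t)) u) :=
      Reg.forallFin fun t => ih _
    exact h1.existsWord

theorem exists_enum (Y : Finset (List α)) (m : ℕ) (h : Y.card ≤ m) :
    ∃ y : Fin m → List α, (↑Y : Set (List α)) ⊆ Set.range y := by
  refine ⟨fun j => Y.toList.getD j.1 [], ?_⟩
  intro x hx
  have hx' : x ∈ Y.toList := by simpa using hx
  obtain ⟨i, hi, hix⟩ := List.getElem_of_mem hx'
  have : i < m := by
    rw [Finset.length_toList] at hi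
    omega
  exact ⟨⟨i, this⟩, by simp [List.getD, List.getElem?_eq_getElem hi, hix]⟩

theorem Rk.tree [DecidableEq α] {C : (Fin n → List α) → Finset ℕ} (m k : ℕ) :
    ∀ {ι : Type} (b : ι → Bool) (v : ι → List α), Rk C m k b v →
      ∃ X : Finset (List α), X.card + 1 ≤ 2 ^ k ∧
        ∀ Y : Finset (List α), X ⊆ Y → Y.card ≤ m →
          TR (↑X : Set (List α)) k
            {f | (∀ i, f (v i) = b i) ∧ Good C (Set.range v ∪ ↑Y) f} := by
  induction k with
  | zero =>
    intro ι b v h
    refine ⟨∅, by simp, ?_⟩
    intro Y _ hY
    obtain ⟨y, hy⟩ := exists_enum Y m hY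
    obtain ⟨f, hf1, hf2⟩ := h y
    exact ⟨f, hf1, hf2.mono (Set.union_subset_union_right _ hy)⟩
  | succ k ih =>
    intro ι b v h
    obtain ⟨x, hx⟩ := h
    choose X hXc hX using fun t => ih _ _ (hx t)
    refine ⟨insert x (X false ∪ X true), ?_, ?_⟩
    · have h1 := Finset.card_insert_le x (X false ∪ X true)
      have h2 := Finset.card_union_le (X false) (X true)
      have h3 := hXc false
      have h4 := hXc true
      rw [pow_succ]
      omega
    · intro Y hXY hY
      refine ⟨x, by simp, fun t => ?_⟩
      have hsub : X t ⊆ insert x (X false ∪ X true) := by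
        intro z hz
        cases t <;> simp [hz]
      have hxY : x ∈ Y := hXY (by simp)
      refine (hX t Y (hsub.trans hXY) hY).mono ?_ ?_
      · exact_mod_cast hsub
      · rintro f ⟨hf1, hf2⟩
        refine ⟨⟨fun i => hf1 (Sum.inl i), hf2.mono ?_⟩, hf1 (Sum.inr ())⟩
        rw [Set.Sum.elim_range]
        intro z hz
        rcases hz with hz | hz
        · exact Or.inl (Or.inl hz)
        · exact Or.inr hz

theorem Rk.bounded {C : (Fin n → List α) → Finset ℕ} (hCn : ∀ w, (C w).card ≤ n)
    (b : Empty → Bool) (v : Empty → List α) : ¬ Rk C (2 ^ thr n) (thr n) b v := by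
  classical
  intro h
  obtain ⟨X, hX, hT⟩ := Rk.tree _ _ b v h
  obtain ⟨S, hSX, hS, hcnt⟩ := (hT X (Finset.Subset.refl _) (by omega)).counts
  let e := S.equivFinOfCardEq hS
  let w : Fin n → List α := fun j => (e.symm j).1
  have hwi : Function.Injective w := fun j j' hjj => e.symm.injective (Subtype.ext hjj)
  have hall : ∀ j ≤ n, j ∈ C w := by
    intro j hj
    obtain ⟨f, ⟨_, hf⟩, hfj⟩ := hcnt j hj
    have h1 := hf w (fun j => Or.inr (hSX (e.symm j).2)) hwi
    have h2 : (Finset.univ.filter (fun j => f (w j) = true)).card = j := by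
      rw [← hfj, ← Finset.card_map (⟨w, hwi⟩ : Fin n ↪ List α)]
      congr 1
      ext x
      simp only [Finset.mem_map, Finset.mem_filter, Finset.mem_univ, true_and,
        Function.Embedding.coeFn_mk]
      constructor
      · rintro ⟨j, hj, rfl⟩
        exact ⟨(e.symm j).2, hj⟩
      · rintro ⟨hx, hfx⟩
        refine ⟨e ⟨x, hx⟩, ?_, ?_⟩
        · simp only [w, Equiv.symm_apply_apply]
          exact hfx
        · simp only [w, Equiv.symm_apply_apply]
    rwa [h2] at h1
  have h3 : Finset.range (n + 1) ⊆ C w := by
    intro j hj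
    exact hall j (by simpa [Nat.lt_succ_iff] using hj)
  have h4 := Finset.card_le_card h3
  have h5 := hCn w
  simp only [Finset.card_range] at h4
  omega

theorem main {C : (Fin n → List α) → Finset ℕ} (hC : ∀ t, Reg (fun w => t ∈ C w))
    (hCn : ∀ w, (C w).card ≤ n) (A : Language α) (F : List α → Bool)
    (hF : ∀ x, F x = true ↔ x ∈ A) (hA : Good C Set.univ F) :
    Reg (fun w : Unit → List α => w () ∈ A) := by
  let P : ℕ → Prop := fun k => ∀ (ι : Type) (_ : Finite ι) (v : ι → List α) (m : ℕ),
    Rk C m k (fun i => F (v i)) v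
  have hP0 : P 0 := fun ι _ v m y => ⟨F, fun i => rfl, hA.mono (Set.subset_univ _)⟩
  have hPn : ¬ P (thr n) := fun h => Rk.bounded hCn _ _ (h Empty inferInstance Empty.elim _)
  obtain ⟨k, hk, hk1⟩ : ∃ k, P k ∧ ¬ P (k + 1) := by
    by_contra hcon
    push Not at hcon
    have : ∀ k, P k := by
      intro k
      induction k with
      | zero => exact hP0
      | succ k ih => exact hcon k ih
    exact hPn (this _)
  simp only [P] at hk1
  push Not at hk1
  obtain ⟨ι, hι, v, m, hkm⟩ := hk1
  have hR := (Rk.reg hC m k (Sum.elim (fun i => F (v i)) (fun _ : Unit => true))).params v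
  refine hR.congr ?_
  intro w
  have hfix : ∀ t, F (w ()) = t → Rk C m k (Sum.elim (fun i => F (v i)) (fun _ : Unit => t))
      (Sum.elim v w) := by
    intro t ht
    have := hk (ι ⊕ Unit) inferInstance (Sum.elim v w) m
    convert this using 1
    funext i
    rcases i with i | i
    · rfl
    · exact ht.symm
  constructor
  · intro h
    rw [← hF]
    by_contra hFw
    rw [Bool.not_eq_true] at hFw
    apply hkm
    refine ⟨w (), fun t => ?_⟩
    have hw : (fun _ : Unit => w ()) = w := by
      funext u
      rfl
    rw [hw]
    cases t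
    · exact hfix false hFw
    · exact h
  · intro h
    exact hfix true ((hF _).2 h)

end Main

/-- For any finite alphabet, language A and n ≥ 1: if some finite automaton reading n words synchronously (blank-padded) always outputs a set of at most n numbers containing how many distinct input words lie in A, then A is regular. -/
theorem result :
    ∀ (α : Type) [Fintype α] (A : Language α) (n : ℕ), 1 ≤ n →
      (∃ (k : ℕ) (step : Fin k → (Fin n → Option α) → Fin k) (start : Fin k)
          (out : Fin k → Finset ℕ),
        (∀ q, (out q).card ≤ n) ∧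
        ∀ w : Fin n → List α,
          ({x : List α | ∃ j, w j = x ∧ x ∈ A}).ncard ∈
            out (List.foldl step start
              ((List.range (Finset.univ.sup fun j => (w j).length)).map
                fun i j => (w j)[i]?))) →
      ∃ (k : ℕ) (M : DFA α (Fin k)), M.accepts = A := by
  intro α _ A n _ h
  classical
  obtain ⟨K, step, start, out, hout, hA⟩ := h
  have hfold : ∀ (w : Fin n → List α) (L : ℕ),
      List.foldl step start ((List.range L).map fun i j => (w j)[i]?) = run step start w L := by
    intro w L
    induction L with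
    | zero => rfl
    | succ L ih =>
      rw [List.range_succ, List.map_append, List.foldl_append, ih]
      rfl
  simp only [hfold] at hA
  let C : (Fin n → List α) → Finset ℕ := fun w =>
    out (run step start w (Finset.univ.sup fun j => (w j).length))
  have hC : ∀ t, Reg (fun w => t ∈ C w) := by
    intro t
    let step' : Fin K → (Fin n → Option α) → Fin K := fun q c =>
      if ∀ j, c j = none then q else step q c
    have key1 : ∀ (w : Fin n → List α) (L : ℕ), L ≤ (Finset.univ.sup fun j => (w j).length) →
        run step' start w L = run step start w L := by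
      intro w L
      induction L with
      | zero => intro _; rfl
      | succ L ih =>
        intro hL
        simp only [run]
        rw [ih (by omega)]
        simp only [step']
        rw [if_neg]
        intro hc
        have : (Finset.univ.sup fun j => (w j).length) ≤ L := by
          apply Finset.sup_le
          intro j _
          exact List.getElem?_eq_none_iff.1 (hc j)
        omega
    have key2 : ∀ (w : Fin n → List α) (L : ℕ), (Finset.univ.sup fun j => (w j).length) ≤ L →
        run step' start w L
          = run step start w (Finset.univ.sup fun j => (w j).length) := by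
      intro w L hL
      induction L, hL using Nat.le_induction with
      | base => exact key1 w _ le_rfl
      | succ L hL ih =>
        simp only [run]
        rw [ih]
        simp only [step']
        rw [if_pos]
        intro j
        apply List.getElem?_eq_none
        exact le_trans (Finset.le_sup (f := fun j => (w j).length) (Finset.mem_univ j)) hL
    refine ⟨Fin K, inferInstance, step', start, {q | t ∈ out q}, ?_⟩
    intro w L hL
    rw [key2 w L (Finset.sup_le fun j _ => hL j)]
    rfl
  refine (main hC (fun w => hout _) A (fun x => decide (x ∈ A)) (by simp) ?_).toDFA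
  intro w _ hw
  have h1 := hA w
  have h2 : ({x : List α | ∃ j, w j = x ∧ x ∈ A}).ncard
      = (Finset.univ.filter (fun j => decide (w j ∈ A) = true)).card := by
    rw [← Finset.card_map (⟨w, hw⟩ : Fin n ↪ List α), ← Set.ncard_coe_finset]
    congr 1
    ext x
    simp only [Set.mem_ofPred_eq, Finset.coe_map, Function.Embedding.coeFn_mk, Finset.coe_filter,
      Finset.mem_univ, true_and, decide_eq_true_eq, Set.mem_image]
    constructor
    · rintro ⟨j, rfl, hj⟩
      exact ⟨j, hj, rfl⟩
    · rintro ⟨j, hj, rfl⟩
      exact ⟨j, rfl, hj⟩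
  rw [h2] at h1
  exact h1

end Pool.Agent.S14813
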