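-- Proof of the frozen statement S16253.
import Pool.Statements.S16253
import Pool.Agent.Lib.MP_1f269e_nt.L

set_option autoImplicit false
open Pool Pool.MP_1f269e_nt

namespace Pool.Agent.S16253

open Pool.Agent.Lib.MP1f269e

lemma neg_seven (p : ℕ) [Fact p.Prime] (hp : 11 ≤ p) (h : IsSquare ((p : ZMod 7))) :
    (-7 : ZMod p) ^ (p / 2) = 1 := by
  have hpp : p.Prime := Fact.out
  have hp2 : p ≠ 2 := by omega
  have h72 : (7 : ℕ) ≠ 2 := by norm_num
  have hodd : p % 2 = 1 := by
    rcases hpp.eq_two_or_odd with h | h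
    · omega
    · exact h
  have hp7 : ((p : ℤ) : ZMod 7) ≠ 0 := by
    intro h0
    have h1 : ((p : ℕ) : ZMod 7) = 0 := by exact_mod_cast h0
    rw [ZMod.natCast_eq_zero_iff] at h1
    have := (Nat.prime_dvd_prime_iff_eq (by norm_num) hpp).mp h1
    omega
  have h7p : ((7 : ℕ) : ZMod p) ≠ 0 := cast_ne' p 7 0 (by omega) (by omega)
  have hne : ((-7 : ℤ) : ZMod p) ≠ 0 := by
    push_cast at h7p ⊢
    exact neg_ne_zero.mpr h7p
  have l7 : legendreSym 7 (p : ℤ) = 1 := by
    rw [legendreSym.eq_one_iff 7 hp7]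
    push_cast
    exact h
  have l1 : legendreSym p (7 : ℕ) = (-1) ^ (7 / 2 * (p / 2)) * legendreSym 7 p :=
    legendreSym.quadratic_reciprocity' h72 hp2
  have l2 : legendreSym p (-1) = (-1) ^ (p / 2) := by
    rw [legendreSym.at_neg_one hp2, ZMod.χ₄_eq_neg_one_pow hodd]
  have l3 : legendreSym p (-7) = 1 := by
    have e : (-7 : ℤ) = (-1) * ((7 : ℕ) : ℤ) := by norm_num
    rw [e, legendreSym.mul, l1, l2, l7, mul_one, ← pow_add]
    have e2 : p / 2 + 7 / 2 * (p / 2) = 2 * (2 * (p / 2)) := by omega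
    rw [e2, pow_mul]
    norm_num
  have l4 := (legendreSym.eq_one_iff p hne).mp l3
  have l5 := (ZMod.euler_criterion p hne).mp l4
  push_cast at l5
  exact l5

lemma main (p : ℕ) (hp : p.Prime) (h : IsSquare ((p : ZMod 7))) (n : ℕ) (hn : 0 < n) :
    (p : ℤ) ^ 2 ∣ tz (p * n) - tz n := by
  haveI : Fact p.Prime := ⟨hp⟩
  rcases Nat.lt_or_ge p 11 with hlt | hge
  · interval_cases p
    · exact absurd hp (by norm_num)
    · exact absurd hp (by norm_num)
    · have := case_two n hn
      norm_num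
      exact this
    · exact absurd h (by decide)
    · exact absurd hp (by norm_num)
    · exact absurd h (by decide)
    · exact absurd hp (by norm_num)
    · exact case_seven n
    · exact absurd hp (by norm_num)
    · exact absurd hp (by norm_num)
    · exact absurd hp (by norm_num)
  · have h3 : ¬ 3 ∣ p := by
      intro hd
      have := (Nat.prime_dvd_prime_iff_eq (by norm_num) hp).mp hd
      omega
    exact case_big p hge (p / 3) (by omega) (neg_seven p hge h) n

/-- Let t be the rational sequence with t(0)=1 whose self-convolution is T(n)=Σ C(n,j)²C(2j,n)C(n+j,j). Then for every prime p that is a square mod 7 (including p=7) and every n≥1, t(pn)−t(n) is 0 or has p-adic valuation at least 2. -/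
theorem result :
    ∀ t : ℕ → ℚ, t 0 = 1 →
      (∀ n : ℕ, ∑ j ∈ Finset.range (n + 1), t j * t (n - j) =
        ((∑ j ∈ Finset.range (n + 1),
            (n.choose j) ^ 2 * (2 * j).choose n * (n + j).choose j : ℕ) : ℚ)) →
      ∀ p : ℕ, p.Prime → IsSquare ((p : ZMod 7)) →
        ∀ n : ℕ, 0 < n →
          (t (p * n) - t n = 0 ∨ (2 : ℤ) ≤ padicValRat p (t (p * n) - t n)) := by
  intro t h0 h p hp hsq n hn
  have ht : t = tt := eq_tt t h0 h
  haveI : Fact p.Prime := ⟨hp⟩
  have hd := main p hp hsq n hn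
  have e : t (p * n) - t n = ((tz (p * n) - tz n : ℤ) : ℚ) := by
    rw [ht]
    push_cast
    rw [tz_cast, tz_cast]
  rw [e]
  have h2 : ((p ^ 2 : ℕ) : ℤ) ∣ tz (p * n) - tz n := by
    push_cast
    exact hd
  rcases (padicValInt_dvd_iff 2 (tz (p * n) - tz n)).mp (by exact_mod_cast h2) with h3 | h3
  · left
    rw [h3]
    simp
  · right
    rw [padicValRat.of_int]
    exact_mod_cast h3

end Pool.Agent.S16253
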