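import Pool.Statements.S16546

set_option autoImplicit false
open Pool Pool.MP_3519bc_nt

namespace Pool.Agent.S16546

section Aux

open Finset

noncomputable def psiT (x : ℝ) (n : ℕ) : ℝ :=
  2 / Real.sqrt (n : ℝ) * Real.cos (Real.pi * ((3 * (n : ℝ) - 1) / 4 - x / (n : ℝ)))

noncomputable def phs (n : ℕ) : ℂ :=
  Complex.exp (Complex.I * ((Real.pi * ((3 * (n : ℝ) - 1) / 4) : ℝ) : ℂ))

noncomputable def osc (x : ℝ) (n : ℕ) : ℂ :=
  ((2 / Real.sqrt (n : ℝ) : ℝ) : ℂ) * Complex.exp (Complex.I * ((-(Real.pi * (x / (n : ℝ))) : ℝ) : ℂ))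

lemma re_exp_I_mul (y : ℝ) : (Complex.exp (Complex.I * (y : ℂ))).re = Real.cos y := by
  rw [mul_comm, Complex.exp_ofReal_mul_I_re]

lemma norm_exp_I_mul (y : ℝ) : ‖Complex.exp (Complex.I * (y : ℂ))‖ = 1 := by
  rw [mul_comm, Complex.norm_exp_ofReal_mul_I]

lemma psiT_eq (x : ℝ) (n : ℕ) : psiT x n = (osc x n * phs n).re := by
  unfold psiT osc phs
  rw [mul_assoc, ← Complex.exp_add, ← mul_add, ← Complex.ofReal_add, Complex.re_ofReal_mul,
    re_exp_I_mul]
  congr 2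
  ring

noncomputable def rr : ℂ := Complex.exp (Complex.I * ((Real.pi * (3 / 4) : ℝ) : ℂ))

lemma phs_succ (n : ℕ) : phs (n + 1) = rr * phs n := by
  unfold phs rr
  rw [← Complex.exp_add, ← mul_add, ← Complex.ofReal_add]
  congr 3
  push_cast
  ring

lemma norm_phs (n : ℕ) : ‖phs n‖ = 1 := norm_exp_I_mul _

lemma one_le_norm_rr_sub : 1 ≤ ‖rr - 1‖ := by
  have h1 : rr.re ≤ 0 := by
    unfold rr
    rw [re_exp_I_mul]
    apply Real.cos_nonpos_of_pi_div_two_le_of_le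
    · linarith [Real.pi_pos]
    · linarith [Real.pi_pos]
  have h2 : |(rr - 1).re| ≤ ‖rr - 1‖ := Complex.abs_re_le_norm _
  rw [Complex.sub_re, Complex.one_re] at h2
  rw [abs_of_nonpos (by linarith)] at h2
  linarith

lemma abel_bound (g E : ℕ → ℂ) (r : ℂ) (hr : 1 ≤ ‖r - 1‖) (hE : ∀ n, E (n + 1) = r * E n)
    (hE1 : ∀ n, ‖E n‖ = 1) (a b : ℕ) (hab : a ≤ b) :
    ‖∑ n ∈ Ico a b, g n * E n‖ ≤ ‖g a‖ + ‖g b‖ + ∑ n ∈ Ico a b, ‖g (n + 1) - g n‖ := by
  have key : (r - 1) * ∑ n ∈ Ico a b, g n * E n =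
      g b * E b - g a * E a - ∑ n ∈ Ico a b, (g (n + 1) - g n) * E (n + 1) := by
    induction b, hab using Nat.le_induction with
    | base => simp
    | succ b hab ih =>
      rw [Finset.sum_Ico_succ_top hab, Finset.sum_Ico_succ_top hab, mul_add, ih, hE b]
      ring
  have h1 : ‖∑ n ∈ Ico a b, g n * E n‖ ≤ ‖(r - 1) * ∑ n ∈ Ico a b, g n * E n‖ := by
    rw [norm_mul]
    exact le_mul_of_one_le_left (norm_nonneg _) hr
  rw [key] at h1
  refine h1.trans ?_
  refine (norm_sub_le _ _).trans ?_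
  refine add_le_add ?_ ?_
  · refine (norm_sub_le _ _).trans ?_
    rw [norm_mul, norm_mul, hE1, hE1, mul_one, mul_one, add_comm]
  · refine (norm_sum_le _ _).trans ?_
    refine Finset.sum_le_sum fun n _ => ?_
    rw [norm_mul, hE1, mul_one]

lemma norm_osc (x : ℝ) (n : ℕ) : ‖osc x n‖ = 2 / Real.sqrt (n : ℝ) := by
  unfold osc
  rw [norm_mul, norm_exp_I_mul, mul_one, Complex.norm_real, Real.norm_eq_abs, abs_of_nonneg]
  positivity

lemma norm_exp_sub (u v : ℝ) :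
    ‖Complex.exp (Complex.I * (u : ℂ)) - Complex.exp (Complex.I * (v : ℂ))‖ ≤ |u - v| := by
  have h : Complex.exp (Complex.I * (u : ℂ)) - Complex.exp (Complex.I * (v : ℂ)) =
      Complex.exp (Complex.I * (v : ℂ)) * (Complex.exp (Complex.I * ((u - v : ℝ) : ℂ)) - 1) := by
    rw [mul_sub, ← Complex.exp_add, ← mul_add, ← Complex.ofReal_add]
    congr 4
    · ring
    · ring
  rw [h, norm_mul, norm_exp_I_mul, one_mul]
  have := Real.norm_exp_I_mul_ofReal_sub_one_le (x := u - v)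
  simpa using this

lemma osc_diff (x : ℝ) (n : ℕ) (hn : 1 ≤ n) :
    ‖osc x (n + 1) - osc x n‖ ≤
      (2 / Real.sqrt (n : ℝ) - 2 / Real.sqrt ((n + 1 : ℕ) : ℝ)) +
      2 / Real.sqrt (n : ℝ) * (Real.pi * |x|) * (1 / (n : ℝ) - 1 / ((n + 1 : ℕ) : ℝ)) := by
  have hn0 : (0 : ℝ) < n := by exact_mod_cast hn
  have hn1 : (0 : ℝ) < ((n + 1 : ℕ) : ℝ) := by positivity
  have hle : (n : ℝ) ≤ ((n + 1 : ℕ) : ℝ) := by push_cast; linarith
  have h : osc x (n + 1) - osc x n =
      ((2 / Real.sqrt ((n + 1 : ℕ) : ℝ) - 2 / Real.sqrt (n : ℝ) : ℝ) : ℂ) *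
        Complex.exp (Complex.I * ((-(Real.pi * (x / ((n + 1 : ℕ) : ℝ))) : ℝ) : ℂ)) +
      ((2 / Real.sqrt (n : ℝ) : ℝ) : ℂ) *
        (Complex.exp (Complex.I * ((-(Real.pi * (x / ((n + 1 : ℕ) : ℝ))) : ℝ) : ℂ)) -
         Complex.exp (Complex.I * ((-(Real.pi * (x / (n : ℝ))) : ℝ) : ℂ))) := by
    unfold osc
    push_cast
    ring
  rw [h]
  refine (norm_add_le _ _).trans (add_le_add ?_ ?_)
  · rw [norm_mul, norm_exp_I_mul, mul_one, Complex.norm_real, Real.norm_eq_abs, abs_sub_comm,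
      abs_of_nonneg]
    have : Real.sqrt (n : ℝ) ≤ Real.sqrt ((n + 1 : ℕ) : ℝ) := Real.sqrt_le_sqrt hle
    have h3 : 0 < Real.sqrt (n : ℝ) := Real.sqrt_pos.mpr hn0
    have := div_le_div_of_nonneg_left (by norm_num : (0:ℝ) ≤ 2) h3 this
    linarith
  · rw [norm_mul, Complex.norm_real, Real.norm_eq_abs, abs_of_nonneg (by positivity), mul_assoc]
    refine mul_le_mul_of_nonneg_left ?_ (by positivity)
    refine (norm_exp_sub _ _).trans ?_
    have h4 : -(Real.pi * (x / ((n + 1 : ℕ) : ℝ))) - -(Real.pi * (x / (n : ℝ))) =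
        Real.pi * x * (1 / (n : ℝ) - 1 / ((n + 1 : ℕ) : ℝ)) := by ring
    rw [h4, abs_mul, abs_mul, abs_of_pos Real.pi_pos, abs_of_nonneg (a := 1 / (n : ℝ) - 1 / ((n + 1 : ℕ) : ℝ))]
    have := one_div_le_one_div_of_le hn0 hle
    linarith

lemma tail_bound (x : ℝ) (a b : ℕ) (ha : 1 ≤ a) (hab : a ≤ b) :
    |∑ n ∈ Ico a b, psiT x n| ≤
      4 / Real.sqrt (a : ℝ) + 2 * Real.pi * |x| / (a * Real.sqrt (a : ℝ)) := by
  have ha0 : (0 : ℝ) < a := by exact_mod_cast ha
  have hsa : 0 < Real.sqrt (a : ℝ) := Real.sqrt_pos.mpr ha0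
  have h1 : ∑ n ∈ Ico a b, psiT x n = (∑ n ∈ Ico a b, osc x n * phs n).re := by
    rw [Complex.re_sum]
    exact Finset.sum_congr rfl fun n _ => psiT_eq x n
  rw [h1]
  refine (Complex.abs_re_le_norm _).trans ?_
  refine (abel_bound (osc x) phs rr one_le_norm_rr_sub phs_succ norm_phs a b hab).trans ?_
  rw [norm_osc, norm_osc]
  have h2 : ∑ n ∈ Ico a b, ‖osc x (n + 1) - osc x n‖ ≤
      (2 / Real.sqrt (a : ℝ) - 2 / Real.sqrt (b : ℝ)) +
      2 / Real.sqrt (a : ℝ) * (Real.pi * |x|) * (1 / (a : ℝ) - 1 / (b : ℝ)) := by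
    clear h1
    induction b, hab using Nat.le_induction with
    | base => simp
    | succ b hab ih =>
      rw [Finset.sum_Ico_succ_top hab]
      have hb : 1 ≤ b := ha.trans hab
      have h3 := osc_diff x b hb
      have h4 : 2 / Real.sqrt (b : ℝ) * (Real.pi * |x|) * (1 / (b : ℝ) - 1 / ((b + 1 : ℕ) : ℝ)) ≤
          2 / Real.sqrt (a : ℝ) * (Real.pi * |x|) * (1 / (b : ℝ) - 1 / ((b + 1 : ℕ) : ℝ)) := by
        have hb0 : (0 : ℝ) < b := by exact_mod_cast hb
        have h5 : 1 / ((b + 1 : ℕ) : ℝ) ≤ 1 / (b : ℝ) :=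
          one_div_le_one_div_of_le hb0 (by push_cast; linarith)
        have h6 : 2 / Real.sqrt (b : ℝ) ≤ 2 / Real.sqrt (a : ℝ) :=
          div_le_div_of_nonneg_left (by norm_num) hsa (Real.sqrt_le_sqrt (by exact_mod_cast hab))
        refine mul_le_mul_of_nonneg_right ?_ (by linarith)
        refine mul_le_mul_of_nonneg_right h6 ?_
        have := Real.pi_pos
        positivity
      linarith
  have h3 : 2 / Real.sqrt (a : ℝ) * (Real.pi * |x|) * (1 / (a : ℝ) - 1 / (b : ℝ)) ≤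
      2 * Real.pi * |x| / (a * Real.sqrt (a : ℝ)) := by
    have h5 : 0 ≤ 2 / Real.sqrt (a : ℝ) * (Real.pi * |x|) * (1 / (b : ℝ)) := by
      have := Real.pi_pos
      positivity
    have h6 : 2 / Real.sqrt (a : ℝ) * (Real.pi * |x|) * (1 / (a : ℝ)) =
      2 * Real.pi * |x| / (a * Real.sqrt (a : ℝ)) := by
      field_simp
    rw [mul_sub, h6]
    linarith
  have h4 : 4 / Real.sqrt (a : ℝ) = 2 / Real.sqrt (a : ℝ) + 2 / Real.sqrt (a : ℝ) := by ring
  rw [h4]
  linarith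

lemma exists_limit (x : ℝ) :
    ∃ S : ℝ, Filter.Tendsto (fun N : ℕ => ∑ n ∈ Icc 1 N, psiT x n) Filter.atTop (nhds S) ∧
      ∀ a : ℕ, 1 ≤ a → |S - ∑ n ∈ Ico 1 a, psiT x n| ≤
        4 / Real.sqrt (a : ℝ) + 2 * Real.pi * |x| / (a * Real.sqrt (a : ℝ)) := by
  have hsum : ∀ N : ℕ, ∑ n ∈ Icc 1 N, psiT x n = ∑ n ∈ Ico 1 (N + 1), psiT x n := by
    intro N
    congr 1
  have hdiff : ∀ a b : ℕ, 1 ≤ a → a ≤ b →
      |∑ n ∈ Ico 1 b, psiT x n - ∑ n ∈ Ico 1 a, psiT x n| ≤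
        4 / Real.sqrt (a : ℝ) + 2 * Real.pi * |x| / (a * Real.sqrt (a : ℝ)) := by
    intro a b ha hab
    rw [← Finset.sum_Ico_consecutive _ ha hab, add_sub_cancel_left]
    exact tail_bound x a b ha hab
  have hB : Filter.Tendsto (fun a : ℕ => 4 / Real.sqrt (a : ℝ) +
      2 * Real.pi * |x| / (a * Real.sqrt (a : ℝ))) Filter.atTop (nhds 0) := by
    have h1 : Filter.Tendsto (fun a : ℕ => Real.sqrt (a : ℝ)) Filter.atTop Filter.atTop :=
      Real.tendsto_sqrt_atTop.comp tendsto_natCast_atTop_atTop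
    have h2 : Filter.Tendsto (fun a : ℕ => (a : ℝ) * Real.sqrt (a : ℝ)) Filter.atTop Filter.atTop :=
      tendsto_natCast_atTop_atTop.atTop_mul_atTop₀ h1
    have h3 := (h1.const_div_atTop 4).add (h2.const_div_atTop (2 * Real.pi * |x|))
    simpa using h3
  have hcau : CauchySeq (fun N : ℕ => ∑ n ∈ Icc 1 N, psiT x n) := by
    apply cauchySeq_of_le_tendsto_0' (fun N : ℕ => 4 / Real.sqrt ((N + 1 : ℕ) : ℝ) +
      2 * Real.pi * |x| / (((N + 1 : ℕ) : ℝ) * Real.sqrt ((N + 1 : ℕ) : ℝ)))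
    · intro n m hnm
      rw [hsum, hsum, Real.dist_eq, abs_sub_comm]
      exact hdiff (n + 1) (m + 1) (by omega) (by omega)
    · exact hB.comp (Filter.tendsto_add_atTop_nat 1)
  obtain ⟨S, hS⟩ := cauchySeq_tendsto_of_complete hcau
  refine ⟨S, hS, fun a ha => ?_⟩
  have h1 : Filter.Tendsto (fun N : ℕ => |∑ n ∈ Icc 1 N, psiT x n - ∑ n ∈ Ico 1 a, psiT x n|)
      Filter.atTop (nhds |S - ∑ n ∈ Ico 1 a, psiT x n|) :=
    (hS.sub_const _).abs
  refine le_of_tendsto h1 ?_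
  filter_upwards [Filter.eventually_ge_atTop a] with N hN
  rw [hsum]
  exact hdiff a (N + 1) ha (by omega)

lemma sin_lower (M n : ℕ) (hn : 1 ≤ n) (hd : ¬ n ∣ M) :
    2 / (n : ℝ) ≤ |Real.sin (Real.pi * (M : ℝ) / n)| := by
  have hn0 : (0 : ℝ) < n := by exact_mod_cast hn
  set q := M / n
  set r := M % n
  have hr : r < n := Nat.mod_lt _ hn
  have hr0 : 0 < r := Nat.pos_of_ne_zero fun h => hd (Nat.dvd_of_mod_eq_zero h)
  have hM : (M : ℝ) = n * q + r := by
    have := Nat.div_add_mod M n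
    exact_mod_cast this.symm
  have h1 : Real.pi * (M : ℝ) / n = Real.pi * (r : ℝ) / n + q * Real.pi := by
    rw [hM]; field_simp; ring
  rw [h1, Real.sin_add_nat_mul_pi, abs_mul, abs_pow, abs_neg, abs_one, one_pow, one_mul]
  have hr1 : (1 : ℝ) ≤ r := by exact_mod_cast hr0
  have hrn : (r : ℝ) + 1 ≤ n := by exact_mod_cast hr
  have hpi := Real.pi_pos
  have h2 : 2 / (n : ℝ) ≤ Real.sin (Real.pi * (r : ℝ) / n) := by
    by_cases hc : (2 * r : ℝ) ≤ n
    · have h3 := Real.mul_le_sin (x := Real.pi * (r : ℝ) / n) (by positivity) (by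
        rw [div_le_div_iff₀ hn0 (by norm_num)]
        nlinarith)
      refine le_trans ?_ h3
      have : 2 / Real.pi * (Real.pi * (r : ℝ) / n) = 2 * r / n := by field_simp
      rw [this]
      gcongr
      linarith
    · push Not at hc
      have h4 : Real.sin (Real.pi * (r : ℝ) / n) = Real.sin (Real.pi * ((n : ℝ) - r) / n) := by
        rw [← Real.sin_pi_sub]
        congr 1
        field_simp
      rw [h4]
      have h3 := Real.mul_le_sin (x := Real.pi * ((n : ℝ) - r) / n) (by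
          have : (0 : ℝ) ≤ n - r := by linarith
          positivity) (by
        rw [div_le_div_iff₀ hn0 (by norm_num)]
        nlinarith)
      refine le_trans ?_ h3
      have : 2 / Real.pi * (Real.pi * ((n : ℝ) - r) / n) = 2 * (n - r) / n := by field_simp
      rw [this]
      gcongr
      linarith
  exact h2.trans (le_abs_self _)

lemma sin_lower' (M n : ℕ) (hn : 1 ≤ n) (hd : 2 * M ≤ n) :
    2 * (M : ℝ) / (n : ℝ) ≤ |Real.sin (Real.pi * (M : ℝ) / n)| := by
  have hn0 : (0 : ℝ) < n := by exact_mod_cast hn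
  have hd' : 2 * (M : ℝ) ≤ n := by exact_mod_cast hd
  have hpi := Real.pi_pos
  have h3 := Real.mul_le_sin (x := Real.pi * (M : ℝ) / n) (by positivity) (by
        rw [div_le_div_iff₀ hn0 (by norm_num)]
        nlinarith)
  refine le_trans ?_ (le_abs_self _)
  refine le_trans (le_of_eq ?_) h3
  field_simp

/-- A geometric sum of cosines. -/
lemma cos_sum (θ φ : ℝ) (A B : ℕ) (hAB : A ≤ B) :
    |Real.sin φ| * |∑ t ∈ Ico A B, Real.cos (θ - 2 * φ * t)| ≤ 1 := by
  set z : ℂ := Complex.exp (Complex.I * ((-(2 * φ) : ℝ) : ℂ)) with hz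
  have h1 : ∑ t ∈ Ico A B, Real.cos (θ - 2 * φ * t) =
      (Complex.exp (Complex.I * (θ : ℂ)) * ∑ t ∈ Ico A B, z ^ t).re := by
    rw [Finset.mul_sum, Complex.re_sum]
    refine Finset.sum_congr rfl fun t _ => ?_
    rw [hz, ← Complex.exp_nat_mul, ← Complex.exp_add]
    have : Complex.I * (θ : ℂ) + (t : ℂ) * (Complex.I * ((-(2 * φ) : ℝ) : ℂ)) =
        Complex.I * ((θ - 2 * φ * t : ℝ) : ℂ) := by
      push_cast; ring
    rw [this, re_exp_I_mul]
  have hz1 : ‖z - 1‖ = 2 * |Real.sin φ| := by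
    rw [hz, Complex.norm_exp_I_mul_ofReal_sub_one, Real.norm_eq_abs, abs_mul]
    rw [abs_of_pos (by norm_num : (0:ℝ) < 2)]
    congr 1
    rw [show -(2 * φ) / 2 = - φ by ring, Real.sin_neg, abs_neg]
  have hzn : ‖z‖ = 1 := norm_exp_I_mul _
  have h2 : |∑ t ∈ Ico A B, Real.cos (θ - 2 * φ * t)| ≤ ‖∑ t ∈ Ico A B, z ^ t‖ := by
    rw [h1]
    refine (Complex.abs_re_le_norm _).trans ?_
    rw [norm_mul, norm_exp_I_mul, one_mul]
  have h3 : ‖z - 1‖ * ‖∑ t ∈ Ico A B, z ^ t‖ ≤ 2 := by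
    rw [← norm_mul, mul_comm]
    rw [geom_sum_Ico_mul _ hAB]
    refine (norm_sub_le _ _).trans ?_
    rw [norm_pow, norm_pow, hzn, one_pow, one_pow]
    norm_num
  rw [hz1] at h3
  have h4 : |Real.sin φ| * |∑ t ∈ Ico A B, Real.cos (θ - 2 * φ * t)| ≤
      |Real.sin φ| * ‖∑ t ∈ Ico A B, z ^ t‖ := mul_le_mul_of_nonneg_left h2 (abs_nonneg _)
  linarith

/-- The diagonal weight. -/
noncomputable def dg (n : ℕ) : ℝ :=
  2 / Real.sqrt (n : ℝ) * Real.cos (Real.pi * ((3 * (n : ℝ) - 1) / 4))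

lemma psiT_arg (M t n : ℕ) (hn : 1 ≤ n) :
    psiT (2 * M * t) n = 2 / Real.sqrt (n : ℝ) *
      Real.cos (Real.pi * ((3 * (n : ℝ) - 1) / 4) - 2 * (Real.pi * M / n) * t) := by
  unfold psiT
  congr 2
  ring

lemma sum_dvd (M n A B : ℕ) (hn : 1 ≤ n) (hAB : A ≤ B) (hd : n ∣ M) :
    ∑ t ∈ Ico A B, psiT (2 * M * (t : ℕ)) n = (B - A : ℕ) * dg n := by
  obtain ⟨c, rfl⟩ := hd
  have hn0 : (0 : ℝ) < n := by exact_mod_cast hn
  have h : ∀ t ∈ Ico A B, psiT (2 * (n * c : ℕ) * (t : ℕ)) n = dg n := by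
    intro t _
    rw [psiT_arg _ _ _ hn]
    unfold dg
    congr 1
    have : Real.pi * ((3 * (n : ℝ) - 1) / 4) - 2 * (Real.pi * ((n * c : ℕ) : ℝ) / n) * t =
        Real.pi * ((3 * (n : ℝ) - 1) / 4) - (c * t : ℕ) * (2 * Real.pi) := by
      push_cast
      field_simp
    rw [this, Real.cos_sub_nat_mul_two_pi]
  rw [Finset.sum_congr rfl h, Finset.sum_const, Nat.card_Ico, nsmul_eq_mul]

lemma sum_not_dvd (M n A B : ℕ) (hn : 1 ≤ n) (hAB : A ≤ B) (hd : ¬ n ∣ M) :
    |∑ t ∈ Ico A B, psiT (2 * M * (t : ℕ)) n| ≤ Real.sqrt n := by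
  have hn0 : (0 : ℝ) < n := by exact_mod_cast hn
  have h : ∑ t ∈ Ico A B, psiT (2 * M * (t : ℕ)) n = 2 / Real.sqrt (n : ℝ) *
      ∑ t ∈ Ico A B, Real.cos (Real.pi * ((3 * (n : ℝ) - 1) / 4) - 2 * (Real.pi * M / n) * t) := by
    rw [Finset.mul_sum]
    exact Finset.sum_congr rfl fun t _ => psiT_arg _ _ _ hn
  rw [h, abs_mul, abs_of_nonneg (by positivity : 0 ≤ 2 / Real.sqrt (n : ℝ))]
  have h1 := cos_sum (Real.pi * ((3 * (n : ℝ) - 1) / 4)) (Real.pi * M / n) A B hAB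
  have h2 := sin_lower M n hn hd
  set X := |∑ t ∈ Ico A B, Real.cos (Real.pi * ((3 * (n : ℝ) - 1) / 4) - 2 * (Real.pi * M / n) * t)|
  have hX : 0 ≤ X := abs_nonneg _
  have h3 : 2 / (n : ℝ) * X ≤ 1 := (mul_le_mul_of_nonneg_right h2 hX).trans h1
  have h4 : 2 / Real.sqrt (n : ℝ) * X = Real.sqrt n * (2 / (n : ℝ) * X) := by
    have hs : Real.sqrt n * Real.sqrt n = n := Real.mul_self_sqrt hn0.le
    have hs0 : 0 < Real.sqrt (n : ℝ) := Real.sqrt_pos.mpr hn0
    field_simp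
    rw [pow_two, hs]
    ring
  rw [h4]
  exact mul_le_of_le_one_right (Real.sqrt_nonneg _) h3

lemma sum_large (M n A B : ℕ) (hM : 1 ≤ M) (hn : 1 ≤ n) (hAB : A ≤ B) (hd : 2 * M ≤ n) :
    |∑ t ∈ Ico A B, psiT (2 * M * (t : ℕ)) n| ≤ Real.sqrt n / M := by
  have hn0 : (0 : ℝ) < n := by exact_mod_cast hn
  have hM0 : (0 : ℝ) < M := by exact_mod_cast hM
  have h : ∑ t ∈ Ico A B, psiT (2 * M * (t : ℕ)) n = 2 / Real.sqrt (n : ℝ) *
      ∑ t ∈ Ico A B, Real.cos (Real.pi * ((3 * (n : ℝ) - 1) / 4) - 2 * (Real.pi * M / n) * t) := by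
    rw [Finset.mul_sum]
    exact Finset.sum_congr rfl fun t _ => psiT_arg _ _ _ hn
  rw [h, abs_mul, abs_of_nonneg (by positivity : 0 ≤ 2 / Real.sqrt (n : ℝ))]
  have h1 := cos_sum (Real.pi * ((3 * (n : ℝ) - 1) / 4)) (Real.pi * M / n) A B hAB
  have h2 := sin_lower' M n hn hd
  set X := |∑ t ∈ Ico A B, Real.cos (Real.pi * ((3 * (n : ℝ) - 1) / 4) - 2 * (Real.pi * M / n) * t)|
  have hX : 0 ≤ X := abs_nonneg _
  have h3 : 2 * (M : ℝ) / (n : ℝ) * X ≤ 1 := (mul_le_mul_of_nonneg_right h2 hX).trans h1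
  have h4 : 2 / Real.sqrt (n : ℝ) * X = Real.sqrt n / M * (2 * (M : ℝ) / (n : ℝ) * X) := by
    have hs : Real.sqrt n * Real.sqrt n = n := Real.mul_self_sqrt hn0.le
    have hs0 : 0 < Real.sqrt (n : ℝ) := Real.sqrt_pos.mpr hn0
    field_simp
    rw [pow_two, hs]
    ring
  rw [h4]
  exact mul_le_of_le_one_right (by positivity) h3

lemma avg_lower (M : ℕ) (hM : 8 ≤ M) :
    (M : ℝ) ^ 2 * ∑ n ∈ M.divisors, dg n - 2 * (M : ℝ) ^ 2 ≤
      ∑ t ∈ Ico (M ^ 2) (2 * M ^ 2), ∑ n ∈ Ico 1 (M ^ 2), psiT (2 * M * (t : ℕ)) n := by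
  have hMr : (8 : ℝ) ≤ M := by exact_mod_cast hM
  rw [Finset.sum_comm]
  have hterm : ∀ n ∈ Ico 1 (M ^ 2),
      (if n ∣ M then (M : ℝ) ^ 2 * dg n else 0) -
        ((if n < 2 * M then Real.sqrt (2 * M) else 0) + 1) ≤
      ∑ t ∈ Ico (M ^ 2) (2 * M ^ 2), psiT (2 * M * (t : ℕ)) n := by
    intro n hn
    rw [Finset.mem_Ico] at hn
    have hs : (0 : ℝ) ≤ (if n < 2 * M then Real.sqrt (2 * M) else 0) := by
      split_ifs
      · exact Real.sqrt_nonneg _
      · exact le_refl _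
    by_cases hd : n ∣ M
    · rw [if_pos hd, sum_dvd M n _ _ hn.1 (by nlinarith) hd]
      have : (2 * M ^ 2 - M ^ 2 : ℕ) = M ^ 2 := by omega
      rw [this]
      push_cast
      linarith
    · rw [if_neg hd]
      by_cases hl : n < 2 * M
      · have h1 := sum_not_dvd M n (M ^ 2) (2 * M ^ 2) hn.1 (by nlinarith) hd
        have h2 : Real.sqrt (n : ℝ) ≤ Real.sqrt (2 * M) := by
          apply Real.sqrt_le_sqrt
          have : n ≤ 2 * M := hl.le
          exact_mod_cast this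
        rw [if_pos hl]
        have := (abs_le.mp (h1.trans h2)).1
        linarith
      · rw [if_neg hl]
        have h1 := sum_large M n (M ^ 2) (2 * M ^ 2) (by omega) hn.1 (by nlinarith) (by omega)
        have h2 : Real.sqrt (n : ℝ) / M ≤ 1 := by
          rw [div_le_one (by linarith)]
          apply Real.sqrt_le_iff.mpr
          refine ⟨by linarith, ?_⟩
          have := hn.2.le
          exact_mod_cast this
        have := (abs_le.mp (h1.trans h2)).1
        linarith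
  refine le_trans ?_ (Finset.sum_le_sum hterm)
  rw [Finset.sum_sub_distrib, Finset.sum_add_distrib]
  have e1 : ∑ n ∈ Ico 1 (M ^ 2), (if n ∣ M then (M : ℝ) ^ 2 * dg n else 0) =
      (M : ℝ) ^ 2 * ∑ n ∈ M.divisors, dg n := by
    rw [← Finset.sum_filter, Finset.mul_sum]
    refine Finset.sum_congr ?_ fun _ _ => rfl
    ext n
    simp only [Finset.mem_filter, Finset.mem_Ico, Nat.mem_divisors]
    constructor
    · rintro ⟨_, h⟩
      exact ⟨h, by omega⟩
    · rintro ⟨h, _⟩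
      have h1 : n ≤ M := Nat.le_of_dvd (by omega) h
      have h2 : 0 < n := Nat.pos_of_dvd_of_pos h (by omega)
      exact ⟨⟨h2, by nlinarith⟩, h⟩
  have e2 : ∑ n ∈ Ico 1 (M ^ 2), (if n < 2 * M then Real.sqrt (2 * M) else 0) ≤ (M : ℝ) ^ 2 := by
    rw [← Finset.sum_filter, Finset.sum_const, nsmul_eq_mul]
    have hc : (#{n ∈ Ico 1 (M ^ 2) | n < 2 * M}) ≤ 2 * M := by
      calc #{n ∈ Ico 1 (M ^ 2) | n < 2 * M} ≤ #(Finset.range (2 * M)) := by
            apply Finset.card_le_card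
            intro n hn
            simp only [Finset.mem_filter] at hn
            exact Finset.mem_range.mpr hn.2
        _ = 2 * M := Finset.card_range _
    have hc' : ((#{n ∈ Ico 1 (M ^ 2) | n < 2 * M} : ℕ) : ℝ) ≤ 2 * M := by exact_mod_cast hc
    have hsq : Real.sqrt (2 * M) ≤ M / 2 := by
      apply Real.sqrt_le_iff.mpr
      refine ⟨by linarith, ?_⟩
      nlinarith
    calc ((#{n ∈ Ico 1 (M ^ 2) | n < 2 * M} : ℕ) : ℝ) * Real.sqrt (2 * M)
        ≤ (2 * M) * (M / 2) := by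
          refine mul_le_mul hc' hsq (Real.sqrt_nonneg _) (by linarith)
      _ = (M : ℝ) ^ 2 := by ring
  have e3 : ∑ n ∈ Ico 1 (M ^ 2), (1 : ℝ) ≤ (M : ℝ) ^ 2 := by
    rw [Finset.sum_const, Nat.card_Ico, nsmul_eq_mul, mul_one]
    have : M ^ 2 - 1 ≤ M ^ 2 := Nat.sub_le _ _
    exact_mod_cast this
  rw [e1]
  linarith

lemma exists_large (M : ℕ) (hM : 8 ≤ M) :
    ∃ t : ℕ, M ^ 2 ≤ t ∧ t < 2 * M ^ 2 ∧ ∃ S : ℝ,
      Filter.Tendsto (fun N : ℕ => ∑ n ∈ Icc 1 N, psiT (2 * M * t) n) Filter.atTop (nhds S) ∧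
      ∑ n ∈ M.divisors, dg n - 32 ≤ S := by
  by_contra hcon
  push Not at hcon
  have hMr : (8 : ℝ) ≤ M := by exact_mod_cast hM
  have h1 : ∀ t ∈ Ico (M ^ 2) (2 * M ^ 2),
      ∑ n ∈ Ico 1 (M ^ 2), psiT (2 * M * (t : ℕ)) n < ∑ n ∈ M.divisors, dg n - 2 := by
    intro t ht
    rw [Finset.mem_Ico] at ht
    obtain ⟨S, hS, hS'⟩ := exists_limit (2 * M * t)
    have h2 := hcon t ht.1 ht.2 S hS
    have h3 := hS' (M ^ 2) (by nlinarith)
    have h4 := (abs_le.mp h3).1
    have hsq : Real.sqrt ((M ^ 2 : ℕ) : ℝ) = M := by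
      push_cast
      exact Real.sqrt_sq (by linarith)
    have htr : (t : ℝ) ≤ 2 * (M : ℝ) ^ 2 := by exact_mod_cast ht.2.le
    rw [hsq] at h4
    have h5 : 4 / (M : ℝ) ≤ 1 := by
      rw [div_le_one (by linarith)]; linarith
    have h6 : 2 * Real.pi * |2 * (M : ℝ) * t| / (((M ^ 2 : ℕ) : ℝ) * M) ≤ 8 * Real.pi := by
      rw [abs_of_nonneg (by positivity), div_le_iff₀ (by positivity)]
      push_cast
      have hpi := Real.pi_pos
      have : 2 * Real.pi * (2 * (M : ℝ) * t) = (4 * Real.pi * M) * t := by ring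
      rw [this]
      have h7 : (4 * Real.pi * M) * t ≤ (4 * Real.pi * M) * (2 * (M : ℝ) ^ 2) :=
        mul_le_mul_of_nonneg_left htr (by positivity)
      linarith
    have h8 : Real.pi < 3.15 := Real.pi_lt_d2
    linarith
  have h9 := avg_lower M hM
  have h10 : ∑ t ∈ Ico (M ^ 2) (2 * M ^ 2), ∑ n ∈ Ico 1 (M ^ 2), psiT (2 * M * (t : ℕ)) n <
      ∑ t ∈ Ico (M ^ 2) (2 * M ^ 2), (∑ n ∈ M.divisors, dg n - 2) := by
    apply Finset.sum_lt_sum_of_nonempty
    · rw [Finset.nonempty_Ico]; nlinarith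
    · exact h1
  rw [Finset.sum_const, Nat.card_Ico, nsmul_eq_mul] at h10
  have : (2 * M ^ 2 - M ^ 2 : ℕ) = M ^ 2 := by omega
  rw [this] at h10
  push_cast at h10
  linarith

lemma dg_one (n : ℕ) (h : n % 8 = 1) : dg n = 0 := by
  obtain ⟨k, hk⟩ : ∃ k, n = 8 * k + 1 := ⟨n / 8, by omega⟩
  unfold dg
  have : Real.pi * ((3 * (n : ℝ) - 1) / 4) = Real.pi / 2 + (3 * k : ℕ) * (2 * Real.pi) := by
    rw [hk]; push_cast; ring
  rw [this, Real.cos_add_nat_mul_two_pi, Real.cos_pi_div_two, mul_zero]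

lemma dg_three (n : ℕ) (h : n % 8 = 3) : dg n = 2 / Real.sqrt (n : ℝ) := by
  obtain ⟨k, hk⟩ : ∃ k, n = 8 * k + 3 := ⟨n / 8, by omega⟩
  unfold dg
  have : Real.pi * ((3 * (n : ℝ) - 1) / 4) = 0 + (3 * k + 1 : ℕ) * (2 * Real.pi) := by
    rw [hk]; push_cast; ring
  rw [this, Real.cos_add_nat_mul_two_pi, Real.cos_zero, mul_one]

lemma dvd_prod_mod (P : Finset ℕ) (hP : ∀ p ∈ P, p.Prime ∧ p % 8 = 3) :
    ∀ n : ℕ, n ∣ ∏ p ∈ P, p → n % 8 = 1 ∨ n % 8 = 3 := by
  induction P using Finset.induction_on with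
  | empty =>
    intro n hn
    rw [Finset.prod_empty, Nat.dvd_one] at hn
    left; rw [hn]
  | insert p P hp ih =>
    intro n hn
    have ih' := ih fun q hq => hP q (Finset.mem_insert_of_mem hq)
    obtain ⟨hpp, hp8⟩ := hP p (Finset.mem_insert_self _ _)
    rw [Finset.prod_insert hp] at hn
    by_cases hd : p ∣ n
    · obtain ⟨m, rfl⟩ := hd
      have hm : m ∣ ∏ p ∈ P, p := Nat.dvd_of_mul_dvd_mul_left hpp.pos hn
      rcases ih' m hm with h | h
      · right; rw [Nat.mul_mod, hp8, h]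
      · left; rw [Nat.mul_mod, hp8, h]
    · have hc : Nat.Coprime n p := (Nat.Coprime.symm ((Nat.Prime.coprime_iff_not_dvd hpp).mpr hd))
      exact ih' n (hc.dvd_of_dvd_mul_left hn)

lemma prod_mod (S : Finset ℕ) (hS : ∀ p ∈ S, p % 8 = 3) :
    (Even S.card → (∏ p ∈ S, p) % 8 = 1) ∧ (Odd S.card → (∏ p ∈ S, p) % 8 = 3) := by
  induction S using Finset.induction_on with
  | empty => simp
  | insert p S hp ih =>
    have ih' := ih fun q hq => hS q (Finset.mem_insert_of_mem hq)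
    have hp8 := hS p (Finset.mem_insert_self _ _)
    rw [Finset.card_insert_of_notMem hp, Finset.prod_insert hp]
    constructor
    · intro h
      have : Odd S.card := by
        rw [Nat.even_add_one, Nat.not_even_iff_odd] at h; exact h
      rw [Nat.mul_mod, hp8, ih'.2 this]
    · intro h
      have : Even S.card := by
        rw [Nat.odd_add_one, Nat.not_odd_iff_even] at h; exact h
      rw [Nat.mul_mod, hp8, ih'.1 this]

lemma dg_prod (S : Finset ℕ) (hS : ∀ p ∈ S, p % 8 = 3) :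
    dg (∏ p ∈ S, p) = ∏ p ∈ S, (1 / Real.sqrt (p : ℝ)) - ∏ p ∈ S, (-(1 / Real.sqrt (p : ℝ))) := by
  have h1 : ∏ p ∈ S, (1 / Real.sqrt (p : ℝ)) = 1 / Real.sqrt ((∏ p ∈ S, p : ℕ) : ℝ) := by
    induction S using Finset.induction_on with
    | empty => simp
    | insert p S hp ih =>
      rw [Finset.prod_insert hp, Finset.prod_insert hp, ih fun q hq => hS q (Finset.mem_insert_of_mem hq)]
      push_cast
      rw [Real.sqrt_mul (by positivity)]
      field_simp
  have h2 : ∏ p ∈ S, (-(1 / Real.sqrt (p : ℝ))) = (-1) ^ S.card * ∏ p ∈ S, (1 / Real.sqrt (p : ℝ)) := by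
    rw [Finset.prod_neg]
  rw [h2, h1]
  rcases Nat.even_or_odd S.card with h | h
  · rw [dg_one _ ((prod_mod S hS).1 h), h.neg_one_pow]; ring
  · rw [dg_three _ ((prod_mod S hS).2 h), h.neg_one_pow]; ring

lemma sum_dg_lower (P : Finset ℕ) (hP : ∀ p ∈ P, p.Prime ∧ p % 8 = 3) :
    ∏ p ∈ P, (1 + 1 / Real.sqrt (p : ℝ)) - 1 ≤ ∑ n ∈ (∏ p ∈ P, p).divisors, dg n := by
  classical
  have hM0 : (∏ p ∈ P, p) ≠ 0 := Finset.prod_ne_zero_iff.mpr fun p hp => (hP p hp).1.ne_zero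
  have hinj : Set.InjOn (fun S : Finset ℕ => ∏ p ∈ S, p) (P.powerset : Set (Finset ℕ)) := by
    intro S hS T hT hST
    rw [Finset.mem_coe, Finset.mem_powerset] at hS hT
    have h1 := Nat.primeFactors_prod (s := S) fun p hp => (hP p (hS hp)).1
    have h2 := Nat.primeFactors_prod (s := T) fun p hp => (hP p (hT hp)).1
    rw [← h1, ← h2]
    exact congrArg _ hST
  have h1 : ∑ n ∈ P.powerset.image (fun S : Finset ℕ => ∏ p ∈ S, p), dg n ≤
      ∑ n ∈ (∏ p ∈ P, p).divisors, dg n := by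
    apply Finset.sum_le_sum_of_subset_of_nonneg
    · intro n hn
      rw [Finset.mem_image] at hn
      obtain ⟨S, hS, rfl⟩ := hn
      rw [Nat.mem_divisors]
      exact ⟨Finset.prod_dvd_prod_of_subset _ _ _ (Finset.mem_powerset.mp hS), hM0⟩
    · intro n hn _
      rcases dvd_prod_mod P hP n (Nat.dvd_of_mem_divisors hn) with h | h
      · rw [dg_one n h]
      · rw [dg_three n h]; positivity
  refine le_trans ?_ h1
  rw [Finset.sum_image hinj]
  have h2 : ∑ S ∈ P.powerset, dg (∏ p ∈ S, p) =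
      ∏ p ∈ P, (1 + 1 / Real.sqrt (p : ℝ)) - ∏ p ∈ P, (1 + -(1 / Real.sqrt (p : ℝ))) := by
    rw [Finset.prod_one_add, Finset.prod_one_add, ← Finset.sum_sub_distrib]
    refine Finset.sum_congr rfl fun S hS => ?_
    exact dg_prod S fun p hp => (hP p (Finset.mem_powerset.mp hS hp)).2
  rw [h2]
  have h3 : ∏ p ∈ P, (1 + -(1 / Real.sqrt (p : ℝ))) ≤ 1 := by
    apply Finset.prod_le_one
    · intro p hp
      have : 1 ≤ Real.sqrt (p : ℝ) := by
        rw [Real.one_le_sqrt]; exact_mod_cast (hP p hp).1.one_lt.le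
      have : 1 / Real.sqrt (p : ℝ) ≤ 1 := by
        rw [div_le_one (by linarith)]; exact this
      linarith
    · intro p hp
      have : 0 ≤ 1 / Real.sqrt (p : ℝ) := by positivity
      linarith
  linarith

lemma exp_half_le (u : ℝ) (h0 : 0 ≤ u) (h1 : u ≤ 1) : Real.exp (u / 2) ≤ 1 + u := by
  have h2 : 1 - u / 2 ≤ Real.exp (-(u / 2)) := by
    have := Real.add_one_le_exp (-(u / 2)); linarith
  rw [Real.exp_neg] at h2
  have h3 : 0 < Real.exp (u / 2) := Real.exp_pos _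
  have h4 : (1 - u / 2) * Real.exp (u / 2) ≤ 1 := by
    calc (1 - u / 2) * Real.exp (u / 2) ≤ (Real.exp (u / 2))⁻¹ * Real.exp (u / 2) :=
          mul_le_mul_of_nonneg_right h2 h3.le
      _ = 1 := inv_mul_cancel₀ h3.ne'
  have h5 : 1 ≤ (1 - u / 2) * (1 + u) := by nlinarith
  have h6 : 0 < 1 - u / 2 := by linarith
  exact le_of_mul_le_mul_left (h4.trans h5) h6

lemma sum_dg_exp (P : Finset ℕ) (hP : ∀ p ∈ P, p.Prime ∧ p % 8 = 3) :
    Real.exp ((∑ p ∈ P, 1 / Real.sqrt (p : ℝ)) / 2) - 1 ≤ ∑ n ∈ (∏ p ∈ P, p).divisors, dg n := by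
  refine le_trans ?_ (sum_dg_lower P hP)
  rw [Finset.sum_div, Real.exp_sum]
  have : ∏ p ∈ P, Real.exp (1 / Real.sqrt (p : ℝ) / 2) ≤ ∏ p ∈ P, (1 + 1 / Real.sqrt (p : ℝ)) := by
    apply Finset.prod_le_prod
    · intro p _; exact (Real.exp_pos _).le
    · intro p hp
      apply exp_half_le
      · positivity
      · have : 1 ≤ Real.sqrt (p : ℝ) := by
          rw [Real.one_le_sqrt]; exact_mod_cast (hP p hp).1.one_lt.le
        rw [div_le_one (by linarith)]; exact this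
  linarith

lemma sqrt_two_pow (i : ℕ) : Real.sqrt ((2 : ℝ) ^ i) = Real.sqrt 2 ^ i := by
  induction i with
  | zero => simp
  | succ i ih => rw [pow_succ, Real.sqrt_mul (by positivity), ih, pow_succ]

/-- Primes congruent to 3 mod 8 in a dyadic block. -/
def blk (i : ℕ) : Finset ℕ := (Finset.Ico (2 ^ i) (2 ^ (i + 1))).filter (fun p => p.Prime ∧ p % 8 = 3)

lemma block_large (K : ℝ) : ∀ i₀ : ℕ, ∃ i, i₀ ≤ i ∧ K * i < ∑ p ∈ blk i, 1 / Real.sqrt (p : ℝ) := by
  by_contra hcon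
  push Not at hcon
  obtain ⟨i₀, hi₀⟩ := hcon
  have hu : IsUnit (3 : ZMod 8) := by decide
  have hns := ArithmeticFunction.vonMangoldt.not_summable_residueClass_prime_div (q := 8) hu
  apply hns
  set h : ℕ → ℝ := fun n : ℕ ↦
    (if n.Prime then ArithmeticFunction.vonMangoldt.residueClass (3 : ZMod 8) n else 0) / n with hh
  have h0 : ∀ n, 0 ≤ h n := by
    intro n
    simp only [hh]
    apply div_nonneg _ (Nat.cast_nonneg n)
    split_ifs
    · exact ArithmeticFunction.vonMangoldt.residueClass_nonneg _ _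
    · exact le_refl _
  have hmod : ∀ n : ℕ, ((n : ZMod 8) = 3) → n % 8 = 3 := by
    intro n hn
    have : ((n : ℕ) : ZMod 8) = ((3 : ℕ) : ZMod 8) := by simpa using hn
    rw [ZMod.natCast_eq_natCast_iff'] at this
    simpa using this
  set B : ℕ → ℝ := fun i => ∑ n ∈ Ico (2 ^ i) (2 ^ (i + 1)), h n with hB
  have hBle : ∀ i, i₀ ≤ i → B i ≤ |K| * ((i : ℝ) + 1) ^ 2 * (1 / Real.sqrt 2) ^ i := by
    intro i hi
    have hpt : ∀ n ∈ Ico (2 ^ i) (2 ^ (i + 1)), h n ≤
        (if n.Prime ∧ n % 8 = 3 then 1 / Real.sqrt (n : ℝ) else 0) * (((i : ℝ) + 1) * (1 / Real.sqrt 2) ^ i) := by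
      intro n hn
      rw [Finset.mem_Ico] at hn
      have hn0 : (0 : ℝ) < n := by
        have : 0 < n := lt_of_lt_of_le (by positivity) hn.1
        exact_mod_cast this
      simp only [hh]
      by_cases hp : n.Prime
      · by_cases h8 : (n : ZMod 8) = 3
        · rw [if_pos hp, if_pos ⟨hp, hmod n h8⟩]
          have : ArithmeticFunction.vonMangoldt.residueClass (3 : ZMod 8) n = Real.log n := by
            rw [ArithmeticFunction.vonMangoldt.residueClass, Set.indicator_of_mem (by exact h8)]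
            exact ArithmeticFunction.vonMangoldt_apply_prime hp
          rw [this]
          have hlog : Real.log n ≤ (i : ℝ) + 1 := by
            have h1 : Real.log n ≤ Real.log ((2 : ℝ) ^ (i + 1)) := by
              apply Real.log_le_log hn0
              exact_mod_cast hn.2.le
            rw [Real.log_pow] at h1
            have h2 : Real.log 2 ≤ 1 := by
              have := Real.log_two_lt_d9; linarith
            push_cast at h1
            nlinarith
          have hsq : (1 / Real.sqrt 2) ^ i = 1 / Real.sqrt ((2 : ℝ) ^ i) := by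
            rw [sqrt_two_pow, one_div_pow]
          have hle : Real.sqrt ((2 : ℝ) ^ i) ≤ Real.sqrt n := Real.sqrt_le_sqrt (by exact_mod_cast hn.1)
          have hpos : 0 < Real.sqrt ((2 : ℝ) ^ i) := Real.sqrt_pos.mpr (by positivity)
          have hsn : 0 < Real.sqrt (n : ℝ) := Real.sqrt_pos.mpr hn0
          have e1 : Real.log n / n = 1 / Real.sqrt n * (Real.log n * (1 / Real.sqrt n)) := by
            have : Real.sqrt n * Real.sqrt n = n := Real.mul_self_sqrt hn0.le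
            field_simp
            rw [pow_two, this]
          rw [e1, hsq]
          refine mul_le_mul_of_nonneg_left ?_ (by positivity)
          refine mul_le_mul hlog ?_ (by positivity) (by positivity)
          exact one_div_le_one_div_of_le hpos hle
        · rw [if_pos hp]
          have : ArithmeticFunction.vonMangoldt.residueClass (3 : ZMod 8) n = 0 := by
            rw [ArithmeticFunction.vonMangoldt.residueClass, Set.indicator_of_notMem]
            exact h8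
          rw [this, zero_div]
          split_ifs <;> positivity
      · rw [if_neg hp, zero_div]
        split_ifs <;> positivity
    calc B i ≤ ∑ n ∈ Ico (2 ^ i : ℕ) (2 ^ (i + 1) : ℕ),
          (if n.Prime ∧ n % 8 = 3 then 1 / Real.sqrt (n : ℝ) else 0) * (((i : ℝ) + 1) * (1 / Real.sqrt 2) ^ i) :=
            Finset.sum_le_sum hpt
      _ = (∑ p ∈ blk i, 1 / Real.sqrt (p : ℝ)) * (((i : ℝ) + 1) * (1 / Real.sqrt 2) ^ i) := by
          rw [← Finset.sum_mul, ← Finset.sum_filter]; rfl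
      _ ≤ (K * i) * (((i : ℝ) + 1) * (1 / Real.sqrt 2) ^ i) := by
          refine mul_le_mul_of_nonneg_right (hi₀ i hi) (by positivity)
      _ ≤ (|K| * (i + 1)) * (((i : ℝ) + 1) * (1 / Real.sqrt 2) ^ i) := by
          refine mul_le_mul_of_nonneg_right ?_ (by positivity)
          have := le_abs_self K
          have h2 := abs_nonneg K
          have h3 : (0 : ℝ) ≤ i := Nat.cast_nonneg i
          nlinarith
      _ = |K| * ((i : ℝ) + 1) ^ 2 * (1 / Real.sqrt 2) ^ i := by ring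
  have hs2 : ‖(1 / Real.sqrt 2 : ℝ)‖ < 1 := by
    rw [Real.norm_eq_abs, abs_of_pos (by positivity), div_lt_one (by positivity)]
    have : Real.sqrt 1 < Real.sqrt 2 := Real.sqrt_lt_sqrt (by norm_num) (by norm_num)
    rwa [Real.sqrt_one] at this
  have hsum1 : Summable fun i : ℕ => |K| * ((i : ℝ) + 1) ^ 2 * (1 / Real.sqrt 2) ^ i := by
    have a0 := summable_pow_mul_geometric_of_norm_lt_one 0 hs2
    have a1 := summable_pow_mul_geometric_of_norm_lt_one 1 hs2
    have a2 := summable_pow_mul_geometric_of_norm_lt_one 2 hs2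
    have := ((a2.add (a1.mul_left 2)).add a0).mul_left |K|
    refine this.congr fun i => ?_
    ring
  have hBnn : ∀ i, 0 ≤ B i := fun i => Finset.sum_nonneg fun n _ => h0 n
  have hBs : Summable B := by
    refine hsum1.of_norm_bounded_eventually_nat ?_
    filter_upwards [Filter.eventually_ge_atTop i₀] with i hi
    rw [Real.norm_eq_abs, abs_of_nonneg (hBnn i)]
    exact hBle i hi
  have hpart : ∀ j : ℕ, ∑ n ∈ range (2 ^ j), h n = h 0 + ∑ i ∈ range j, B i := by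
    intro j
    induction j with
    | zero => simp
    | succ j ih =>
      rw [Finset.sum_range_succ, ← add_assoc, ← ih, hB]
      simp only
      rw [Finset.range_eq_Ico, Finset.range_eq_Ico,
        Finset.sum_Ico_consecutive _ (Nat.zero_le _) (Nat.pow_le_pow_right (by norm_num) (Nat.le_succ j))]
  refine summable_of_sum_range_le (c := h 0 + ∑' i, B i) h0 fun N => ?_
  calc ∑ n ∈ range N, h n ≤ ∑ n ∈ range (2 ^ N), h n := by
        apply Finset.sum_le_sum_of_subset_of_nonneg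
        · exact Finset.range_mono Nat.lt_two_pow_self.le
        · intro n _ _; exact h0 n
    _ = h 0 + ∑ i ∈ range N, B i := hpart N
    _ ≤ h 0 + ∑' i, B i := by
        have := hBs.sum_le_tsum (Finset.range N) (fun i _ => hBnn i)
        linarith


end Aux

/-- The negation of the preceding statement: There is k>0 and constants C, M such that for all real x with ∣x∣≥M, the limit of partial sums of 2/√n·cos(π((3n−1)/4 − x/n)) over n≥1 has absolute value at most C·(log∣x∣)^k. -/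
theorem result :
    ¬ (∃ k : ℝ, 0 < k ∧ ∃ C M : ℝ, ∀ x : ℝ, M ≤ |x| → ∀ S : ℝ,
      Filter.Tendsto
        (fun N : ℕ => ∑ n ∈ Finset.Icc 1 N,
          2 / Real.sqrt (n : ℝ) *
            Real.cos (Real.pi * ((3 * (n : ℝ) - 1) / 4 - x / (n : ℝ))))
        Filter.atTop (nhds S) →
      |S| ≤ C * (Real.log |x|) ^ k) := by
  rintro ⟨k, hk, C, M₀, H⟩
  obtain ⟨i₀, hi₀⟩ : ∃ i₀ : ℕ, max (max 3 M₀) (34 + |C| * 10 ^ k) ≤ (i₀ : ℝ) := exists_nat_ge _
  have h3i : (3 : ℝ) ≤ i₀ := ((le_max_left _ _).trans (le_max_left _ _)).trans hi₀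
  have hM₀i : M₀ ≤ i₀ := ((le_max_right _ _).trans (le_max_left _ _)).trans hi₀
  have hCi : 34 + |C| * 10 ^ k ≤ i₀ := (le_max_right _ _).trans hi₀
  obtain ⟨i, hi, hbig⟩ := block_large (2 * k + 2) i₀
  have hir : (i₀ : ℝ) ≤ i := by exact_mod_cast hi
  have hP : ∀ p ∈ blk i, p.Prime ∧ p % 8 = 3 := fun p hp => (Finset.mem_filter.mp hp).2
  have hne : (blk i).Nonempty := by
    by_contra h
    rw [Finset.not_nonempty_iff_eq_empty] at h
    rw [h, Finset.sum_empty] at hbig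
    have : 0 ≤ (2 * k + 2) * (i : ℝ) := by positivity
    linarith
  obtain ⟨p0, hp0⟩ := hne
  have hdg := sum_dg_exp (blk i) hP
  obtain ⟨M, hM⟩ : ∃ M, M = ∏ p ∈ blk i, p := ⟨_, rfl⟩
  rw [← hM] at hdg
  have hMpos : 0 < M := by
    rw [hM]; exact Finset.prod_pos fun p hp => (hP p hp).1.pos
  have hMge : 2 ^ i ≤ M := by
    calc 2 ^ i ≤ p0 := (Finset.mem_Ico.mp (Finset.mem_filter.mp hp0).1).1
      _ ≤ M := Nat.le_of_dvd hMpos (hM ▸ Finset.dvd_prod_of_mem _ hp0)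
  have h3i' : 3 ≤ i := by
    have : (3 : ℝ) ≤ i := h3i.trans hir
    exact_mod_cast this
  have hM8 : 8 ≤ M := by
    calc 8 = 2 ^ 3 := by norm_num
      _ ≤ 2 ^ i := Nat.pow_le_pow_right (by norm_num) h3i'
      _ ≤ M := hMge
  have hMle : M ≤ 4 ^ (2 ^ (i + 1)) := by
    refine le_trans ?_ (primorial_le_four_pow (2 ^ (i + 1)))
    rw [hM]
    unfold primorial
    apply Finset.prod_le_prod_of_subset_of_one_le'
    · intro p hp
      have h1 := Finset.mem_filter.mp hp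
      rw [Finset.mem_filter, Finset.mem_range]
      exact ⟨by have := (Finset.mem_Ico.mp h1.1).2; omega, h1.2.1⟩
    · intro p hp _
      exact (Finset.mem_filter.mp hp).2.one_lt.le
  obtain ⟨t, ht1, ht2, S, hS, hSl⟩ := exists_large M hM8
  have hMr : (8 : ℝ) ≤ M := by exact_mod_cast hM8
  have ht1r : (M : ℝ) ^ 2 ≤ t := by exact_mod_cast ht1
  have ht2r : (t : ℝ) ≤ 2 * (M : ℝ) ^ 2 := by exact_mod_cast ht2.le
  have hx0 : (0 : ℝ) ≤ 2 * M * t := by positivity
  have hxge : (M : ℝ) ≤ 2 * M * t := by nlinarith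
  have h2i : (i : ℝ) ≤ M := by
    have : i ≤ M := (Nat.lt_two_pow_self.le).trans hMge
    exact_mod_cast this
  have hS2 := H (2 * M * t) (by rw [abs_of_nonneg hx0]; linarith) S hS
  rw [abs_of_nonneg hx0] at hS2
  have hlog0 : 0 ≤ Real.log (2 * M * t) := Real.log_nonneg (by linarith)
  have hlog : Real.log (2 * M * t) ≤ 10 * 2 ^ i := by
    have h1 : 2 * (M : ℝ) * t ≤ 4 * (M : ℝ) ^ 3 := by nlinarith
    have h2 : Real.log (2 * M * t) ≤ Real.log (4 * (M : ℝ) ^ 3) :=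
      Real.log_le_log (by linarith) h1
    have h3 : Real.log (4 * (M : ℝ) ^ 3) = Real.log 4 + 3 * Real.log M := by
      rw [Real.log_mul (by norm_num) (by positivity), Real.log_pow]; norm_num
    have h4 : Real.log M ≤ 2 ^ (i + 1) * Real.log 4 := by
      have h5 : Real.log M ≤ Real.log ((4 : ℝ) ^ (2 ^ (i + 1))) := by
        apply Real.log_le_log (by linarith)
        exact_mod_cast hMle
      rw [Real.log_pow] at h5
      exact_mod_cast h5
    have h6 : Real.log 4 ≤ 1.4 := by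
      have : Real.log 4 = 2 * Real.log 2 := by
        rw [show (4 : ℝ) = 2 ^ 2 by norm_num, Real.log_pow]; norm_num
      have := Real.log_two_lt_d9
      linarith
    have h7 : (1 : ℝ) ≤ 2 ^ i := one_le_pow₀ (by norm_num)
    have h8 : (2 : ℝ) ^ (i + 1) = 2 * 2 ^ i := by ring
    rw [h8] at h4
    have h9 : 2 * (2 : ℝ) ^ i * Real.log 4 ≤ 2 * (2 : ℝ) ^ i * 1.4 :=
      mul_le_mul_of_nonneg_left h6 (by positivity)
    linarith
  have hpow : (Real.log (2 * M * t)) ^ k ≤ 10 ^ k * Real.exp (k * i) := by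
    calc (Real.log (2 * M * t)) ^ k ≤ (10 * 2 ^ i) ^ k := Real.rpow_le_rpow hlog0 hlog hk.le
      _ = 10 ^ k * ((2 : ℝ) ^ i) ^ k := Real.mul_rpow (by norm_num) (by positivity)
      _ ≤ 10 ^ k * Real.exp (k * i) := by
        refine mul_le_mul_of_nonneg_left ?_ (by positivity)
        rw [← Real.rpow_natCast, ← Real.rpow_mul (by norm_num), Real.rpow_def_of_pos (by norm_num)]
        apply Real.exp_le_exp.mpr
        have : Real.log 2 ≤ 1 := by have := Real.log_two_lt_d9; linarith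
        have h2 : 0 ≤ (i : ℝ) * k := by positivity
        nlinarith
  have hup : |S| ≤ |C| * (10 ^ k * Real.exp (k * i)) := by
    refine hS2.trans ?_
    refine (mul_le_mul_of_nonneg_right (le_abs_self C) (Real.rpow_nonneg hlog0 k)).trans ?_
    exact mul_le_mul_of_nonneg_left hpow (abs_nonneg C)
  have hlow : Real.exp (k * i) * (i + 1) - 33 ≤ S := by
    have h1 : Real.exp ((k + 1) * i) ≤ Real.exp ((∑ p ∈ blk i, 1 / Real.sqrt (p : ℝ)) / 2) := by
      apply Real.exp_le_exp.mpr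
      linarith
    have h2 : Real.exp ((k + 1) * i) = Real.exp (k * i) * Real.exp i := by
      rw [← Real.exp_add]; congr 1; ring
    have h3 : Real.exp (k * i) * ((i : ℝ) + 1) ≤ Real.exp (k * i) * Real.exp i :=
      mul_le_mul_of_nonneg_left (Real.add_one_le_exp _) (Real.exp_pos _).le
    linarith
  have hE : 1 ≤ Real.exp (k * i) := Real.one_le_exp (by positivity)
  have hSle := (le_abs_self S).trans hup
  have hfin : Real.exp (k * i) * ((i : ℝ) + 1 - |C| * 10 ^ k) ≤ 33 := by nlinarith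
  have h34 : (34 : ℝ) ≤ (i : ℝ) + 1 - |C| * 10 ^ k := by linarith
  nlinarith

end Pool.Agent.S16546
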