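import Pool.Statements.S17540

set_option autoImplicit false
open Pool Pool.MP_7bfa24_nt

namespace Pool.Agent.S17540

/-- The ten integers of the counterexample, as a function of `d`. -/
def tup (d : ℤ) : Fin 10 → ℤ :=
  ![65536 * d ^ 27, -(65536 * d ^ 5), -((d - 1) ^ 5 * (d + 1) ^ 27), (d - 1) ^ 27 * (d + 1) ^ 5,
    44 * d * (d ^ 2 - 1) ^ 15, 3520 * d ^ 3 * (d ^ 2 - 1) ^ 13, 13312 * d ^ 5 * (d ^ 2 - 1) ^ 11,
    -(851968 * d ^ 11 * (d ^ 2 - 1) ^ 5), -(3604480 * d ^ 13 * (d ^ 2 - 1) ^ 3),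
    -(720896 * d ^ 15 * (d ^ 2 - 1))]

theorem sum_expand (f : Fin 10 → ℤ) :
    ∑ i, f i = f 0 + f 1 + f 2 + f 3 + f 4 + f 5 + f 6 + f 7 + f 8 + f 9 := by
  simp [Fin.sum_univ_succ]
  ring

theorem tup_sum (d : ℤ) : ∑ i, tup d i = 0 := by
  rw [sum_expand]
  simp only [tup, Matrix.cons_val]
  ring

theorem coprime_sq (d : ℤ) : IsCoprime (d ^ 2) (d ^ 2 - 1) := ⟨1, -1, by ring⟩

theorem step (d k e R : ℤ) (n : ℕ) (hd : k < d ^ 2) (hk : 0 < k)
    (he : e = 0 ∨ e = 1) (h : k * e * (d ^ 2 - 1) ^ n = d ^ 2 * R) : e = 0 := by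
  rcases he with he | he
  · exact he
  · exfalso
    have h1 : d ^ 2 ∣ k * e * (d ^ 2 - 1) ^ n := ⟨R, h⟩
    have h2 : d ^ 2 ∣ k * e := (IsCoprime.pow_right (coprime_sq d)).dvd_of_dvd_mul_right h1
    rw [he, mul_one] at h2
    exact absurd (Int.le_of_dvd hk h2) (not_le.mpr hd)

/-- No nontrivial `0/1` combination of the eight terms other than the third and fourth vanishes. -/
theorem eight (d : ℤ) (hd : 2048 ≤ d) (e0 e1 e4 e5 e6 e7 e8 e9 : ℤ)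
    (_h0 : e0 = 0 ∨ e0 = 1) (h1 : e1 = 0 ∨ e1 = 1) (h4 : e4 = 0 ∨ e4 = 1) (h5 : e5 = 0 ∨ e5 = 1)
    (h6 : e6 = 0 ∨ e6 = 1) (h7 : e7 = 0 ∨ e7 = 1) (h8 : e8 = 0 ∨ e8 = 1) (h9 : e9 = 0 ∨ e9 = 1)
    (h : e0 * (65536 * d ^ 27) + e1 * (-(65536 * d ^ 5)) + e4 * (44 * d * (d ^ 2 - 1) ^ 15)
      + e5 * (3520 * d ^ 3 * (d ^ 2 - 1) ^ 13) + e6 * (13312 * d ^ 5 * (d ^ 2 - 1) ^ 11)
      + e7 * (-(851968 * d ^ 11 * (d ^ 2 - 1) ^ 5)) + e8 * (-(3604480 * d ^ 13 * (d ^ 2 - 1) ^ 3))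
      + e9 * (-(720896 * d ^ 15 * (d ^ 2 - 1))) = 0) :
    e0 = 0 ∧ e1 = 0 ∧ e4 = 0 ∧ e5 = 0 ∧ e6 = 0 ∧ e7 = 0 ∧ e8 = 0 ∧ e9 = 0 := by
  have hd0 : d ≠ 0 := by omega
  have hsq : (4194304 : ℤ) ≤ d ^ 2 := by nlinarith
  -- e4 = 0
  have e4z : e4 = 0 := by
    apply step d 44 e4 (-(3520 * e5 * (d ^ 2 - 1) ^ 13 + d ^ 2 * (13312 * e6 * (d ^ 2 - 1) ^ 11
      - 65536 * e1 + d ^ 6 * (-(851968 * e7 * (d ^ 2 - 1) ^ 5) + d ^ 2 * (-(3604480 * e8 *
      (d ^ 2 - 1) ^ 3) + d ^ 2 * (-(720896 * e9 * (d ^ 2 - 1)) + d ^ 12 * (65536 * e0))))))) 15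
      (by linarith) (by norm_num) h4
    apply mul_left_cancel₀ hd0
    linear_combination h
  subst e4z
  have e5z : e5 = 0 := by
    apply step d 3520 e5 (-((13312 * e6 * (d ^ 2 - 1) ^ 11
      - 65536 * e1 + d ^ 6 * (-(851968 * e7 * (d ^ 2 - 1) ^ 5) + d ^ 2 * (-(3604480 * e8 *
      (d ^ 2 - 1) ^ 3) + d ^ 2 * (-(720896 * e9 * (d ^ 2 - 1)) + d ^ 12 * (65536 * e0))))))) 13
      (by linarith) (by norm_num) h5
    apply mul_left_cancel₀ (pow_ne_zero 3 hd0)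
    linear_combination h
  subst e5z
  have key : 13312 * e6 * (d ^ 2 - 1) ^ 11
      - 65536 * e1 + d ^ 6 * (-(851968 * e7 * (d ^ 2 - 1) ^ 5) + d ^ 2 * (-(3604480 * e8 *
      (d ^ 2 - 1) ^ 3) + d ^ 2 * (-(720896 * e9 * (d ^ 2 - 1)) + d ^ 12 * (65536 * e0)))) = 0 := by
    apply mul_left_cancel₀ (pow_ne_zero 5 hd0)
    linear_combination h
  have hdv : d ^ 2 ∣ 13312 * e6 + 65536 * e1 := by
    have hA : d ^ 2 ∣ (d ^ 2 - 1) ^ 11 + 1 := by
      have := Odd.add_dvd_pow_add_pow (d ^ 2 - 1) 1 (n := 11) (by decide)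
      simpa using this
    obtain ⟨q, hq⟩ := hA
    refine ⟨13312 * e6 * q + d ^ 4 * (-(851968 * e7 * (d ^ 2 - 1) ^ 5) + d ^ 2 * (-(3604480 * e8 *
      (d ^ 2 - 1) ^ 3) + d ^ 2 * (-(720896 * e9 * (d ^ 2 - 1)) + d ^ 12 * (65536 * e0)))), ?_⟩
    linear_combination (13312 * e6) * hq - key
  have h16 : e6 = 0 ∧ e1 = 0 := by
    rcases h6 with h6 | h6 <;> rcases h1 with h1 | h1
    · exact ⟨h6, h1⟩
    all_goals
      exfalso
      rw [h6, h1] at hdv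
      have := Int.le_of_dvd (by norm_num) hdv
      norm_num at this
      linarith
  obtain ⟨e6z, e1z⟩ := h16
  subst e6z
  subst e1z
  have e7z : e7 = 0 := by
    apply step d 851968 e7 ((-(3604480 * e8 *
      (d ^ 2 - 1) ^ 3) + d ^ 2 * (-(720896 * e9 * (d ^ 2 - 1)) + d ^ 12 * (65536 * e0)))) 5
      (by linarith) (by norm_num) h7
    apply mul_left_cancel₀ (pow_ne_zero 6 hd0)
    linear_combination -key
  subst e7z
  have e8z : e8 = 0 := by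
    apply step d 3604480 e8 ((-(720896 * e9 * (d ^ 2 - 1)) + d ^ 12 * (65536 * e0))) 3
      (by linarith) (by norm_num) h8
    apply mul_left_cancel₀ (pow_ne_zero 8 hd0)
    linear_combination -key
  subst e8z
  have e9z : e9 = 0 := by
    apply step d 720896 e9 (d ^ 10 * (65536 * e0)) 1
      (by linarith) (by norm_num) h9
    apply mul_left_cancel₀ (pow_ne_zero 10 hd0)
    linear_combination -key
  subst e9z
  have e0z : e0 = 0 := by
    have h9' : d ^ 22 * (65536 * e0) = 0 := by linear_combination key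
    rcases mul_eq_zero.mp h9' with h' | h'
    · exact absurd h' (pow_ne_zero 22 hd0)
    · linarith
  exact ⟨e0z, rfl, rfl, rfl, rfl, rfl, rfl, rfl⟩

theorem tup_nonvanish (d : ℤ) (hd : 2048 ≤ d) (hev : Even d) (I : Finset (Fin 10))
    (hne : I.Nonempty) (hun : I ≠ Finset.univ) : ∑ i ∈ I, tup d i ≠ 0 := by
  intro hs
  set e : Fin 10 → ℤ := fun i => if i ∈ I then 1 else 0 with he
  have he01 : ∀ i, e i = 0 ∨ e i = 1 := by
    intro i
    simp only [he]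
    split_ifs
    · right; rfl
    · left; rfl
  have hsum : ∑ i, e i * tup d i = 0 := by
    rw [← hs]
    rw [← Finset.sum_filter_add_sum_filter_not Finset.univ (fun i => i ∈ I)]
    have h1 : ∑ i ∈ Finset.univ.filter (fun i => i ∈ I), e i * tup d i = ∑ i ∈ I, tup d i := by
      have : Finset.univ.filter (fun i => i ∈ I) = I := by ext i; simp
      rw [this]
      apply Finset.sum_congr rfl
      intro i hi
      simp [he, hi]
    have h2 : ∑ i ∈ Finset.univ.filter (fun i => ¬ i ∈ I), e i * tup d i = 0 := by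
      apply Finset.sum_eq_zero
      intro i hi
      have : i ∉ I := by simpa using hi
      simp [he, this]
    rw [h1, h2, add_zero]
  have htot := tup_sum d
  rw [sum_expand] at hsum htot
  simp only [tup, Matrix.cons_val] at hsum htot
  obtain ⟨k, hk⟩ := hev
  have hodd1 : Odd (d - 1) := by rw [hk]; exact ⟨k - 1, by ring⟩
  have hodd2 : Odd (d + 1) := by rw [hk]; exact ⟨k, by ring⟩
  have ho2 : Odd ((d - 1) ^ 5 * (d + 1) ^ 27) := (hodd1.pow).mul (hodd2.pow)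
  have ho3 : Odd ((d - 1) ^ 27 * (d + 1) ^ 5) := (hodd1.pow).mul (hodd2.pow)
  have h22 := he01 2
  have h33 := he01 3
  rcases h22 with h2 | h2 <;> rcases h33 with h3 | h3
  · -- neither
    have := eight d hd (e 0) (e 1) (e 4) (e 5) (e 6) (e 7) (e 8) (e 9) (he01 0) (he01 1) (he01 4)
      (he01 5) (he01 6) (he01 7) (he01 8) (he01 9) (by rw [h2, h3] at hsum; linear_combination hsum)
    obtain ⟨a0, a1, a4, a5, a6, a7, a8, a9⟩ := this
    obtain ⟨i, hi⟩ := hne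
    have hei : e i = 1 := by simp [he, hi]
    have : e i = 0 := by
      fin_cases i <;> assumption
    omega
  · -- only the fourth: parity
    rw [h2, h3] at hsum
    obtain ⟨r, hr⟩ := ho3
    rw [hr] at hsum
    have h2d : (2 : ℤ) ∣ 1 := by
      refine ⟨-(e 0 * (32768 * d ^ 27) + e 1 * (-(32768 * d ^ 5)) + r + e 4 * (22 * d * (d ^ 2 - 1) ^ 15)
        + e 5 * (1760 * d ^ 3 * (d ^ 2 - 1) ^ 13) + e 6 * (6656 * d ^ 5 * (d ^ 2 - 1) ^ 11)
        + e 7 * (-(425984 * d ^ 11 * (d ^ 2 - 1) ^ 5)) + e 8 * (-(1802240 * d ^ 13 * (d ^ 2 - 1) ^ 3))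
        + e 9 * (-(360448 * d ^ 15 * (d ^ 2 - 1)))), ?_⟩
      linear_combination hsum
    norm_num at h2d
  · rw [h2, h3] at hsum
    obtain ⟨r, hr⟩ := ho2
    rw [hr] at hsum
    have h2d : (2 : ℤ) ∣ 1 := by
      refine ⟨(e 0 * (32768 * d ^ 27) + e 1 * (-(32768 * d ^ 5)) - r + e 4 * (22 * d * (d ^ 2 - 1) ^ 15)
        + e 5 * (1760 * d ^ 3 * (d ^ 2 - 1) ^ 13) + e 6 * (6656 * d ^ 5 * (d ^ 2 - 1) ^ 11)
        + e 7 * (-(425984 * d ^ 11 * (d ^ 2 - 1) ^ 5)) + e 8 * (-(1802240 * d ^ 13 * (d ^ 2 - 1) ^ 3))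
        + e 9 * (-(360448 * d ^ 15 * (d ^ 2 - 1)))), ?_⟩
      linear_combination -hsum
    norm_num at h2d
  · -- both: pass to the complement
    have hc : ∀ i, (1 - e i) = 0 ∨ (1 - e i) = 1 := by
      intro i
      rcases he01 i with h | h <;> rw [h] <;> norm_num
    have := eight d hd (1 - e 0) (1 - e 1) (1 - e 4) (1 - e 5) (1 - e 6) (1 - e 7) (1 - e 8)
      (1 - e 9) (hc 0) (hc 1) (hc 4) (hc 5) (hc 6) (hc 7) (hc 8) (hc 9)
      (by rw [h2, h3] at hsum; linear_combination htot - hsum)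
    obtain ⟨a0, a1, a4, a5, a6, a7, a8, a9⟩ := this
    apply hun
    rw [Finset.eq_univ_iff_forall]
    intro i
    by_contra hi
    have hei : e i = 0 := by simp [he, hi]
    have : e i = 1 := by
      fin_cases i
      · simpa using (sub_eq_zero.mp a0).symm
      · simpa using (sub_eq_zero.mp a1).symm
      · exact h2
      · exact h3
      · simpa using (sub_eq_zero.mp a4).symm
      · simpa using (sub_eq_zero.mp a5).symm
      · simpa using (sub_eq_zero.mp a6).symm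
      · simpa using (sub_eq_zero.mp a7).symm
      · simpa using (sub_eq_zero.mp a8).symm
      · simpa using (sub_eq_zero.mp a9).symm
    omega

theorem tup_gcd (m : ℕ) (hm : 1 ≤ m) : Finset.univ.gcd (tup (2 ^ m)) = 1 := by
  set d : ℤ := 2 ^ m with hd
  have hev : Even d := by
    rw [hd]
    exact (Int.even_pow.mpr ⟨even_two, by omega⟩)
  obtain ⟨k, hk⟩ := hev
  have h0 : Finset.univ.gcd (tup d) ∣ 65536 * d ^ 27 := by
    have := Finset.gcd_dvd (f := tup d) (Finset.mem_univ (0 : Fin 10))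
    simpa [tup] using this
  have h2 : Finset.univ.gcd (tup d) ∣ (d - 1) ^ 5 * (d + 1) ^ 27 := by
    have := Finset.gcd_dvd (f := tup d) (Finset.mem_univ (2 : Fin 10))
    simpa [tup] using this
  have c1 : IsCoprime (2 : ℤ) (d - 1) := ⟨k, -1, by rw [hk]; ring⟩
  have c2 : IsCoprime (2 : ℤ) (d + 1) := ⟨-k, 1, by rw [hk]; ring⟩
  have c3 : IsCoprime (65536 * d ^ 27) ((d - 1) ^ 5 * (d + 1) ^ 27) := by
    have e : (65536 * d ^ 27 : ℤ) = 2 ^ (16 + m * 27) := by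
      rw [hd, pow_add, pow_mul]; norm_num
    rw [e]
    exact (IsCoprime.pow c1).mul_right (IsCoprime.pow c2)
  have hu : IsUnit (Finset.univ.gcd (tup d)) := c3.isUnit_of_dvd' h0 h2
  have hn := Finset.normalize_gcd (s := Finset.univ) (f := tup d)
  rw [← hn]
  exact normalize_eq_one.mpr hu

theorem prime_const (p : ℤ) (hp : Prime p) (c : ℤ) (hc : c ∣ 1430 ^ 20) (h : p ∣ c) :
    p ∣ 1430 := hp.dvd_of_dvd_pow (h.trans hc)

/-- Every prime dividing the product of the ten integers divides `1430 * (d ^ 2 - 1)`. -/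
theorem prime_dvd (m : ℕ) (p : ℕ) (hp : p.Prime)
    (h : (p : ℤ) ∣ ∏ j, tup (2 ^ m) j) : (p : ℤ) ∣ 1430 * ((2 ^ m) ^ 2 - 1) := by
  set d : ℤ := 2 ^ m with hd
  have hpp : Prime (p : ℤ) := Nat.prime_iff_prime_int.mp hp
  have hdd : (p : ℤ) ∣ d → (p : ℤ) ∣ 1430 * (d ^ 2 - 1) := by
    intro h1
    have h2 : (p : ℤ) ∣ 2 := hpp.dvd_of_dvd_pow (hd ▸ h1)
    exact (h2.trans (by norm_num)).mul_right _
  have hcc : ∀ c : ℤ, c ∣ 1430 ^ 20 → (p : ℤ) ∣ c → (p : ℤ) ∣ 1430 * (d ^ 2 - 1) := by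
    intro c h1 h2
    exact (prime_const p hpp c h1 h2).mul_right _
  have hmm : (p : ℤ) ∣ d - 1 → (p : ℤ) ∣ 1430 * (d ^ 2 - 1) := by
    intro h1
    exact (h1.trans ⟨d + 1, by ring⟩ : (p : ℤ) ∣ d ^ 2 - 1).mul_left _
  have hqq : (p : ℤ) ∣ d + 1 → (p : ℤ) ∣ 1430 * (d ^ 2 - 1) := by
    intro h1
    exact (h1.trans ⟨d - 1, by ring⟩ : (p : ℤ) ∣ d ^ 2 - 1).mul_left _
  have hzz : (p : ℤ) ∣ d ^ 2 - 1 → (p : ℤ) ∣ 1430 * (d ^ 2 - 1) := fun h1 => h1.mul_left _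
  have gen : ∀ (c : ℤ) (k l : ℕ), c ∣ 1430 ^ 20 → (p : ℤ) ∣ c * d ^ k * (d ^ 2 - 1) ^ l →
      (p : ℤ) ∣ 1430 * (d ^ 2 - 1) := by
    intro c k l h1 h2
    rcases hpp.dvd_or_dvd h2 with h3 | h3
    · rcases hpp.dvd_or_dvd h3 with h4 | h4
      · exact hcc c h1 h4
      · exact hdd (hpp.dvd_of_dvd_pow h4)
    · exact hzz (hpp.dvd_of_dvd_pow h3)
  have gen2 : ∀ (k l : ℕ), (p : ℤ) ∣ (d - 1) ^ k * (d + 1) ^ l →
      (p : ℤ) ∣ 1430 * (d ^ 2 - 1) := by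
    intro k l h2
    rcases hpp.dvd_or_dvd h2 with h3 | h3
    · exact hmm (hpp.dvd_of_dvd_pow h3)
    · exact hqq (hpp.dvd_of_dvd_pow h3)
  obtain ⟨j, -, hj⟩ := (Prime.dvd_finsetProd_iff hpp _).mp h
  fin_cases j
  · apply gen 65536 27 0 (by norm_num)
    simpa [tup] using hj
  · apply gen 65536 5 0 (by norm_num)
    simpa [tup] using hj
  · apply gen2 5 27
    simpa [tup] using hj
  · apply gen2 27 5
    simpa [tup] using hj
  · apply gen 44 1 15 (by norm_num)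
    simpa [tup] using hj
  · apply gen 3520 3 13 (by norm_num)
    simpa [tup] using hj
  · apply gen 13312 5 11 (by norm_num)
    simpa [tup] using hj
  · apply gen 851968 11 5 (by norm_num)
    simpa [tup] using hj
  · apply gen 3604480 13 3 (by norm_num)
    simpa [tup] using hj
  · apply gen 720896 15 1 (by norm_num)
    simpa [tup] using hj

theorem rad_le (m : ℕ) (hm : 1 ≤ m) :
    ((∏ j, tup (2 ^ m) j).natAbs.primeFactors.prod id : ℕ) ≤ 1430 * (2 ^ m) ^ 2 := by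
  set d : ℕ := 2 ^ m with hd
  have hd2 : 2 ≤ d := by
    calc 2 = 2 ^ 1 := rfl
      _ ≤ 2 ^ m := Nat.pow_le_pow_right (by norm_num) hm
  have hpos : 0 < 1430 * (d ^ 2 - 1) := by
    have : 4 ≤ d ^ 2 := by nlinarith
    omega
  have hsub : (∏ j, tup (2 ^ m) j).natAbs.primeFactors ⊆ (1430 * (d ^ 2 - 1)).primeFactors := by
    intro p hp
    have hpr := Nat.prime_of_mem_primeFactors hp
    have hdv := Nat.dvd_of_mem_primeFactors hp
    rw [Nat.mem_primeFactors]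
    refine ⟨hpr, ?_, by omega⟩
    have h1 : (p : ℤ) ∣ ∏ j, tup (2 ^ m) j := Int.natCast_dvd.mpr hdv
    have h2 := prime_dvd m p hpr h1
    have h3 : (1430 * ((2 ^ m) ^ 2 - 1) : ℤ) = ((1430 * (d ^ 2 - 1) : ℕ) : ℤ) := by
      have : 1 ≤ d ^ 2 := Nat.one_le_pow _ _ (by omega)
      push_cast [Nat.cast_sub this]
      simp [hd]
    rw [h3] at h2
    exact_mod_cast h2
  have hle : ((∏ j, tup (2 ^ m) j).natAbs.primeFactors.prod id : ℕ)
      ≤ (1430 * (d ^ 2 - 1)).primeFactors.prod id := by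
    apply Finset.prod_le_prod_of_subset_of_one_le' hsub
    intro i hi _
    exact (Nat.prime_of_mem_primeFactors hi).one_lt.le
  have hle2 : (1430 * (d ^ 2 - 1)).primeFactors.prod id ≤ 1430 * (d ^ 2 - 1) :=
    Nat.le_of_dvd hpos (Nat.prod_primeFactors_dvd _)
  calc _ ≤ _ := hle
    _ ≤ _ := hle2
    _ ≤ _ := Nat.mul_le_mul_left _ (Nat.sub_le _ _)

/-- The negation of the preceding statement: For all n≥3 and ε>0 there is C such that for integers x_1..x_n with sum 0, gcd 1 and no vanishing nonempty proper subsum, each ∣x_i∣ ≤ C·rad(x_1⋯x_n)^(2n−5+ε). -/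
theorem result :
    ¬ (∀ n : ℕ, 3 ≤ n → ∀ ε : ℝ, 0 < ε → ∃ C : ℝ,
      ∀ x : Fin n → ℤ,
        ∑ i, x i = 0 →
        Finset.univ.gcd x = 1 →
        (∀ I : Finset (Fin n), I.Nonempty → I ≠ Finset.univ → ∑ i ∈ I, x i ≠ 0) →
        ∀ i : Fin n,
          (((|x i| : ℤ)) : ℝ) ≤
            C * (((∏ j, x j).natAbs.primeFactors.prod id : ℕ) : ℝ) ^ (2 * (n : ℝ) - 5 + ε)) := by
  intro H
  obtain ⟨C, hC⟩ := H 10 (by norm_num) (1 / 2) (by norm_num)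
  -- choose m
  obtain ⟨k, hk⟩ := pow_unbounded_of_one_lt (32 * (|C| * 38 ^ 31)) (one_lt_two : (1 : ℝ) < 2)
  set m := max k 11 with hm
  have hm11 : 11 ≤ m := le_max_right _ _
  have hkm : (32 * (|C| * 38 ^ 31) : ℝ) < 2 ^ m :=
    hk.trans_le (pow_le_pow_right₀ one_le_two (le_max_left _ _))
  have hbig : (2048 : ℤ) ≤ 2 ^ m := by
    calc (2048 : ℤ) = 2 ^ 11 := by norm_num
      _ ≤ 2 ^ m := pow_le_pow_right₀ (by norm_num) hm11
  have hev : Even ((2 : ℤ) ^ m) := Int.even_pow.mpr ⟨even_two, by omega⟩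
  have h := hC (tup (2 ^ m)) (tup_sum _) (tup_gcd m (by omega))
    (fun I h1 h2 => tup_nonvanish _ hbig hev I h1 h2) 2
  have hrad := rad_le m (by omega)
  set R : ℕ := (∏ j, tup (2 ^ m) j).natAbs.primeFactors.prod id with hR
  set D : ℝ := 2 ^ m with hD
  have hDpos : (2048 : ℝ) ≤ D := by rw [hD]; exact_mod_cast hbig
  have hR2 : (R : ℝ) ≤ (38 * D) ^ 2 := by
    have h1 : (R : ℝ) ≤ 1430 * D ^ 2 := by rw [hD]; exact_mod_cast hrad
    nlinarith [sq_nonneg D]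
  have hR3 : (R : ℝ) ^ (2 * ((10 : ℕ) : ℝ) - 5 + 1 / 2) ≤ (38 * D) ^ 31 := by
    have h1 : (R : ℝ) ^ (2 * ((10 : ℕ) : ℝ) - 5 + 1 / 2) ≤ ((38 * D) ^ 2) ^ (31 / 2 : ℝ) := by
      have e : (2 * ((10 : ℕ) : ℝ) - 5 + 1 / 2) = (31 / 2 : ℝ) := by norm_num
      rw [e]
      exact Real.rpow_le_rpow (Nat.cast_nonneg _) hR2 (by norm_num)
    have h2 : ((38 * D) ^ 2) ^ (31 / 2 : ℝ) = (38 * D) ^ 31 := by
      rw [← Real.rpow_natCast (38 * D) 2, ← Real.rpow_mul (by positivity),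
        ← Real.rpow_natCast (38 * D) 31]
      norm_num
    rw [h2] at h1
    exact h1
  have hlow : D ^ 32 / 32 ≤ (((|tup (2 ^ m) 2| : ℤ)) : ℝ) := by
    have e : tup (2 ^ m) 2 = -(((2 : ℤ) ^ m - 1) ^ 5 * ((2 : ℤ) ^ m + 1) ^ 27) := by
      simp [tup]
    rw [e, abs_neg]
    push_cast
    rw [← hD]
    have h1 : D / 2 ≤ D - 1 := by linarith
    have h2 : D ≤ D + 1 := by linarith
    have h3 : (D / 2) ^ 5 ≤ (D - 1) ^ 5 := pow_le_pow_left₀ (by linarith) h1 5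
    have h4 : D ^ 27 ≤ (D + 1) ^ 27 := pow_le_pow_left₀ (by linarith) h2 27
    have h5 : (D / 2) ^ 5 * D ^ 27 ≤ (D - 1) ^ 5 * (D + 1) ^ 27 :=
      mul_le_mul h3 h4 (by positivity) (pow_nonneg (by linarith) _)
    calc D ^ 32 / 32 = (D / 2) ^ 5 * D ^ 27 := by ring
      _ ≤ (D - 1) ^ 5 * (D + 1) ^ 27 := h5
      _ ≤ |(D - 1) ^ 5 * (D + 1) ^ 27| := le_abs_self _
  have hup : C * (R : ℝ) ^ (2 * ((10 : ℕ) : ℝ) - 5 + 1 / 2) ≤ |C| * (38 * D) ^ 31 := by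
    calc C * (R : ℝ) ^ (2 * ((10 : ℕ) : ℝ) - 5 + 1 / 2)
        ≤ |C| * (R : ℝ) ^ (2 * ((10 : ℕ) : ℝ) - 5 + 1 / 2) :=
          mul_le_mul_of_nonneg_right (le_abs_self _) (Real.rpow_nonneg (Nat.cast_nonneg _) _)
      _ ≤ |C| * (38 * D) ^ 31 := mul_le_mul_of_nonneg_left hR3 (abs_nonneg _)
  have hfin : D ^ 32 / 32 ≤ |C| * (38 * D) ^ 31 := hlow.trans (h.trans hup)
  have hD31 : 0 < D ^ 31 := by positivity
  have hcontra : D * D ^ 31 ≤ (32 * (|C| * 38 ^ 31)) * D ^ 31 := by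
    have : D ^ 32 ≤ 32 * (|C| * (38 * D) ^ 31) := by linarith
    calc D * D ^ 31 = D ^ 32 := by ring
      _ ≤ 32 * (|C| * (38 * D) ^ 31) := this
      _ = (32 * (|C| * 38 ^ 31)) * D ^ 31 := by ring
  have := le_of_mul_le_mul_right hcontra hD31
  linarith

end Pool.Agent.S17540
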