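import Pool.Statements.S17543
import Pool.Agent.Cao.Certificate

set_option autoImplicit false
open Pool Pool.MP_7c4d4b_nt

namespace Pool.Agent.S17543

/-- There exist s and natural numbers 1 < x_1 < … < x_s such that the sum of the reciprocals 1/x_i plus 1/(x_1⋯x_s) equals exactly 2. -/
theorem result :
    ∃ s : ℕ, ∃ x : Fin s → ℕ, StrictMono x ∧ (∀ i, 1 < x i) ∧
      (∑ i, (1 : ℚ) / (x i : ℚ)) + 1 / (∏ i, (x i : ℚ)) = 2 :=
  Pool.Agent.Cao.solution_of_good Pool.Agent.Cao.exists_good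

end Pool.Agent.S17543
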