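-- Proof of frozen statement S18276: the negation of Artin's conjecture for forms of prime degree.
-- The counterexample has degree 13 over Q_2 and 175 > 13^2 variables.
import Pool.Statements.S18276
import Pool.Agent.Lib.ArtinPrime.Final

set_option autoImplicit false
open Pool Pool.MP_b93b26_nt

namespace Pool.Agent.S18276

/-- The negation of the preceding statement: Take any prime d > 3, any prime p, and any finite extension K of the p-adic numbers. Then every homogeneous degree-d polynomial over K in n+1 variables, with n ≥ d², has a nonzero zero in K. -/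
theorem result :
    ¬ (∀ (d : ℕ), d.Prime → 3 < d →
    ∀ (p : ℕ) [Fact p.Prime] (K : Type) [Field K] [Algebra ℚ_[p] K]
      [FiniteDimensional ℚ_[p] K],
    ∀ (n : ℕ), d ^ 2 ≤ n →
    ∀ (F : MvPolynomial (Fin (n + 1)) K), F.IsHomogeneous d →
    ∃ x : Fin (n + 1) → K, x ≠ 0 ∧ MvPolynomial.eval x F = 0) := by
  intro h
  obtain ⟨F, hF, hF2⟩ := Pool.Agent.ArtinPrime.F_two_adic
  let e : Pool.Agent.ArtinPrime.II ≃ Fin (174 + 1) := Fintype.equivFinOfCardEq (by simp)
  obtain ⟨x, hx, hx0⟩ := h 13 (by norm_num) (by norm_num) 2 ℚ_[2] 174 (by norm_num)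
    (MvPolynomial.rename e F) hF.rename_isHomogeneous
  apply hx
  rw [MvPolynomial.eval_rename] at hx0
  have h1 := hF2 _ hx0
  funext i
  have h2 := congrFun h1 (e.symm i)
  simpa using h2

end Pool.Agent.S18276
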