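import Pool.Statements.S18707
-- import your own Pool.Agent.* helpers here
import Pool.Agent.Lib.MP_def522_nt.Main

set_option autoImplicit false
open Pool Pool.MP_def522_nt

namespace Pool.Agent.S18707

/-- There are infinitely many natural numbers n such that n, n+1 and n+2 all have the same number of positive divisors. -/
theorem result :
    Set.Infinite {n : ℕ | (Nat.divisors n).card = (Nat.divisors (n + 1)).card ∧
      (Nat.divisors (n + 1)).card = (Nat.divisors (n + 2)).card} := by
  apply Set.infinite_of_forall_exists_gt
  intro N
  obtain ⟨U, hU, -, h1, h2⟩ := Pool.Agent.Lib.TripleDiv.main (N + 1)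
  exact ⟨U, ⟨h1, h2⟩, hU⟩

end Pool.Agent.S18707
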