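-- Proof of the frozen statement S18717 (MP_df6954_nt).
import Pool.Statements.S18717
import Pool.Agent.Lib.MP_df6954_nt.Final

set_option autoImplicit false
open Polynomial
open Pool Pool.MP_df6954_nt

namespace Pool.Agent.S18717

/-- For every ε>0 there is c such that for all N≥1 the log of the size of the ring ℤ[T] modulo T^N−1, (T+1)^N−1, (T−1)^N−1 is at most εN²+c. -/
theorem result :
    ∀ ε : ℝ, 0 < ε → ∃ c : ℝ, ∀ N : ℕ, 1 ≤ N →
      Real.log ((Nat.card (Polynomial ℤ ⧸ Ideal.span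
        ({X ^ N - 1, (X + 1) ^ N - 1, (X - 1) ^ N - 1} : Set (Polynomial ℤ))) : ℕ) : ℝ)
        ≤ ε * (N : ℝ) ^ 2 + c := by
  intro ε hε
  exact Pool.Agent.Lib.MP_df6954_nt.main ε hε

end Pool.Agent.S18717
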