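import Pool.Statements.S19658
import Pool.Agent.Lib.MP_d2b88b_pr.Barrier

set_option autoImplicit false
open MeasureTheory
open Pool Pool.MP_d2b88b_pr

namespace Pool.Agent.S19658

/-- The negation of the preceding statement: For every connected bounded-degree graph quasi-isometric to Z^d and every p in [0,1], in Bernoulli bond percolation with parameter p, almost surely any two infinite open clusters are equal. -/
theorem result :
    ¬ (∀ (d : ℕ) (V : Type) (G : SimpleGraph V), G.Connected →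
    (∃ D : ℕ, ∀ v : V, (G.neighborSet v).encard ≤ (D : ℕ∞)) →
    (∃ (f : V → (Fin d → ℤ)) (C K : ℕ),
        (∀ x y : V,
          (∑ i, |f x i - f y i|) ≤ (C : ℤ) * (G.dist x y : ℤ) + (K : ℤ) ∧
          (G.dist x y : ℤ) ≤ (C : ℤ) * (∑ i, |f x i - f y i|) + (K : ℤ)) ∧
        ∀ z : Fin d → ℤ, ∃ x : V, (∑ i, |z i - f x i|) ≤ (K : ℤ)) →
    ∀ (p : NNReal) (hp : p ≤ 1),
      ∀ᵐ ω ∂(Measure.infinitePi (fun _ : G.edgeSet => (PMF.bernoulli p hp).toMeasure)),
        ∀ c₁ c₂ : (SimpleGraph.fromEdgeSet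
            {e : Sym2 V | ∃ h : e ∈ G.edgeSet, ω ⟨e, h⟩ = true}).ConnectedComponent,
          c₁.supp.Infinite → c₂.supp.Infinite → c₁ = c₂) := by
  intro hall
  let N : ℕ := 100000
  have hN : 0 < N := by norm_num [N]
  let p : NNReal := (N : NNReal)⁻¹
  have hp : p ≤ 1 := by
    have : (1 : NNReal) ≤ (N : NNReal) := by exact_mod_cast hN
    exact inv_le_one_of_one_le₀ this
  have h := hall 6 Lib.MP_d2b88b_pr.V (Lib.MP_d2b88b_pr.Gr N) (Lib.MP_d2b88b_pr.gr_connected N)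
    (Lib.MP_d2b88b_pr.gr_degree N) (Lib.MP_d2b88b_pr.gr_qi N) p hp
  rw [ae_iff] at h
  have hid : ∀ v w : Lib.MP_d2b88b_pr.V, Lib.MP_d2b88b_pr.long N v w →
      (Lib.MP_d2b88b_pr.Gr N).Adj (id v) (id w) := fun v w h => Or.inr (Or.inl (Or.inl h))
  have hR : ∀ v w : Lib.MP_d2b88b_pr.V, Lib.MP_d2b88b_pr.long N v w →
      (Lib.MP_d2b88b_pr.Gr N).Adj (Lib.MP_d2b88b_pr.R v) (Lib.MP_d2b88b_pr.R w) := by
    intro v w h
    refine Or.inr (Or.inr (Or.inl ?_))
    rw [Lib.MP_d2b88b_pr.R_R, Lib.MP_d2b88b_pr.R_R]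
    exact h
  have hA := Lib.MP_d2b88b_pr.path_bound_all id Function.injective_id hid N hN rfl p hp rfl
  have hB := Lib.MP_d2b88b_pr.path_bound_all _ Lib.MP_d2b88b_pr.R_inj hR N hN rfl p hp rfl
  have hC := Lib.MP_d2b88b_pr.barrier_bound N (le_refl _) rfl p hp rfl
  set μ := Lib.MP_d2b88b_pr.bern (Lib.MP_d2b88b_pr.Gr N).edgeSet p hp with hμ
  set SA := {ω : (Lib.MP_d2b88b_pr.Gr N).edgeSet → Bool | ∃ n : ℕ,
    ∀ γ : Fin n → Lib.MP_d2b88b_pr.Step N, ¬ ∀ j,
      ω (Lib.MP_d2b88b_pr.edg id hid γ j) = true} with hSA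
  set SB := {ω : (Lib.MP_d2b88b_pr.Gr N).edgeSet → Bool | ∃ n : ℕ,
    ∀ γ : Fin n → Lib.MP_d2b88b_pr.Step N, ¬ ∀ j,
      ω (Lib.MP_d2b88b_pr.edg Lib.MP_d2b88b_pr.R hR γ j) = true} with hSB
  set SC := {ω : (Lib.MP_d2b88b_pr.Gr N).edgeSet → Bool | ∃ u ∈ Lib.MP_d2b88b_pr.U N,
    ω ∈ Lib.MP_d2b88b_pr.K N u ((u 0).toNat + 1)} with hSC
  set S0 := {a : (Lib.MP_d2b88b_pr.Gr N).edgeSet → Bool | ¬ ∀ c₁ c₂ : (SimpleGraph.fromEdgeSet
            {e : Sym2 Lib.MP_d2b88b_pr.V | ∃ h : e ∈ (Lib.MP_d2b88b_pr.Gr N).edgeSet,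
              a ⟨e, h⟩ = true}).ConnectedComponent,
          c₁.supp.Infinite → c₂.supp.Infinite → c₁ = c₂} with hS0
  have hcover : (Set.univ : Set ((Lib.MP_d2b88b_pr.Gr N).edgeSet → Bool)) ⊆
      S0 ∪ (SA ∪ (SB ∪ SC)) := by
    intro ω _
    by_contra hω
    simp only [Set.mem_union, not_or] at hω
    obtain ⟨h0, ha, hb, hc⟩ := hω
    simp only [hS0, Set.mem_setOf_eq, not_not] at h0
    simp only [hSA, Set.mem_setOf_eq, not_exists, not_forall, not_not] at ha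
    simp only [hSB, Set.mem_setOf_eq, not_exists, not_forall, not_not] at hb
    simp only [hSC, Set.mem_setOf_eq, not_exists, not_and] at hc
    have ia := Lib.MP_d2b88b_pr.infinite_cluster id Function.injective_id hid ω ha
    have ib := Lib.MP_d2b88b_pr.infinite_cluster _ Lib.MP_d2b88b_pr.R_inj hR ω hb
    have heq := h0 _ _ ia ib
    rw [SimpleGraph.ConnectedComponent.eq] at heq
    exact Lib.MP_d2b88b_pr.separated hc heq
  have h1 : (1 : ENNReal) ≤ μ (S0 ∪ (SA ∪ (SB ∪ SC))) := by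
    have : μ Set.univ = 1 := measure_univ
    rw [← this]
    exact measure_mono hcover
  have h2 : μ (S0 ∪ (SA ∪ (SB ∪ SC))) ≤ 0 + (ENNReal.ofReal (1 / 8) +
      (ENNReal.ofReal (1 / 8) + ENNReal.ofReal (1 / 5))) := by
    refine le_trans (measure_union_le _ _) (add_le_add (le_of_eq h) ?_)
    refine le_trans (measure_union_le _ _) (add_le_add hA ?_)
    exact le_trans (measure_union_le _ _) (add_le_add hB hC)
  have h3 := le_trans h1 h2
  rw [zero_add, ← ENNReal.ofReal_add (by norm_num) (by norm_num),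
    ← ENNReal.ofReal_add (by norm_num) (by norm_num), ← ENNReal.ofReal_one,
    ENNReal.ofReal_le_ofReal_iff (by norm_num)] at h3
  norm_num at h3

end Pool.Agent.S19658
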